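import Mathlib

/-!
# Lie algebras generated by linear families of operators

Everything is in terms of subspaces of associative algebras which are closed under commutators.
-/

set_option autoImplicit false

namespace Pool.Agent.Q219.HD

variable {K : Type*} [Field K]

/-- The subspace is closed under commutators. -/
def IsLie {R : Type*} [Ring R] [Algebra K R] (S : Submodule K R) : Prop :=
  ∀ x ∈ S, ∀ y ∈ S, x * y - y * x ∈ S

/-- The subspace is spanned by commutators of its elements. -/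
def IsPerfect {R : Type*} [Ring R] [Algebra K R] (S : Submodule K R) : Prop :=
  S ≤ Submodule.span K {z : R | ∃ x ∈ S, ∃ y ∈ S, z = x * y - y * x}

/-- The map respects commutators. -/
def IsLieMap {R R' : Type*} [Ring R] [Algebra K R] [Ring R'] [Algebra K R'] (f : R →ₗ[K] R') :
    Prop := ∀ x y, f (x * y - y * x) = f x * f y - f y * f x

section

variable {Λ : Type*} [AddCommGroup Λ] [Module K Λ] {R R' : Type*} [Ring R] [Algebra K R]
  [Ring R'] [Algebra K R']

/-- The smallest subspace which contains the values of `h` and is closed under commutators. -/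
def gen (h : Λ →ₗ[K] R) : Submodule K R := sInf {S | IsLie S ∧ ∀ l, h l ∈ S}

theorem mem_gen {h : Λ →ₗ[K] R} {x : R} :
    x ∈ gen h ↔ ∀ S : Submodule K R, IsLie S → (∀ l, h l ∈ S) → x ∈ S := by
  rw [gen, Submodule.mem_sInf]
  exact ⟨fun H S h1 h2 => H S ⟨h1, h2⟩, fun H S h1 => H S h1.1 h1.2⟩

theorem gen_isLie (h : Λ →ₗ[K] R) : IsLie (gen h) := by
  intro x hx y hy
  rw [mem_gen] at *
  exact fun S h1 h2 => h1 x (hx S h1 h2) y (hy S h1 h2)

theorem gen_mem (h : Λ →ₗ[K] R) (l : Λ) : h l ∈ gen h := mem_gen.2 fun _ _ h2 => h2 l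

theorem gen_le {h : Λ →ₗ[K] R} {S : Submodule K R} (h1 : IsLie S) (h2 : ∀ l, h l ∈ S) :
    gen h ≤ S := fun _ hx => mem_gen.1 hx S h1 h2

theorem isLie_comap {f : R →ₗ[K] R'} (hf : IsLieMap f) {S : Submodule K R'} (hS : IsLie S) :
    IsLie (S.comap f) := by
  intro x hx y hy
  rw [Submodule.mem_comap] at *
  rw [hf]
  exact hS _ hx _ hy

theorem isLie_map {f : R →ₗ[K] R'} (hf : IsLieMap f) {S : Submodule K R} (hS : IsLie S) :
    IsLie (S.map f) := by
  rintro _ ⟨x, hx, rfl⟩ _ ⟨y, hy, rfl⟩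
  rw [← hf]
  exact ⟨_, hS _ hx _ hy, rfl⟩

theorem map_gen {f : R →ₗ[K] R'} (hf : IsLieMap f) (h : Λ →ₗ[K] R) :
    (gen h).map f = gen (f ∘ₗ h) := by
  apply le_antisymm
  · rw [Submodule.map_le_iff_le_comap]
    exact gen_le (isLie_comap hf (gen_isLie _)) fun l => gen_mem (f ∘ₗ h) l
  · exact gen_le (isLie_map hf (gen_isLie _)) fun l => ⟨h l, gen_mem h l, rfl⟩

theorem map_gen_mem {f : R →ₗ[K] R'} (hf : IsLieMap f) {h : Λ →ₗ[K] R} {h' : Λ →ₗ[K] R'}
    (he : ∀ l, f (h l) = h' l) {x : R} (hx : x ∈ gen h) : f x ∈ gen h' := by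
  have e : f ∘ₗ h = h' := LinearMap.ext he
  rw [← e, ← map_gen hf h]
  exact ⟨x, hx, rfl⟩

theorem lift_gen {f : R →ₗ[K] R'} (hf : IsLieMap f) {h : Λ →ₗ[K] R} {h' : Λ →ₗ[K] R'}
    (he : ∀ l, f (h l) = h' l) {y : R'} (hy : y ∈ gen h') : ∃ x ∈ gen h, f x = y := by
  have e : f ∘ₗ h = h' := LinearMap.ext he
  rw [← e, ← map_gen hf h] at hy
  exact hy

theorem isLieMap_alg (f : R →ₐ[K] R') : IsLieMap f.toLinearMap := by
  intro x y
  simp [map_sub, map_mul]

end

/-! ### Perfect Lie algebras -/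

section Perfect

variable {R : Type*} [Ring R] [Algebra K R]

theorem exists_two {G P : Submodule K R} [FiniteDimensional K R] (hPG : P ≤ G)
    (h : Module.finrank K G ≤ Module.finrank K P + 2) :
    ∃ e₁ ∈ G, ∃ e₂ ∈ G, G ≤ P ⊔ Submodule.span K {e₁, e₂} := by
  by_cases h1 : G ≤ P
  · exact ⟨0, G.zero_mem, 0, G.zero_mem, h1.trans le_sup_left⟩
  · obtain ⟨e₁, he₁, he₁'⟩ := Set.not_subset.1 h1
    set P1 := P ⊔ Submodule.span K {e₁} with hP1
    have hP1G : P1 ≤ G := sup_le hPG (Submodule.span_le.2 (Set.singleton_subset_iff.2 he₁))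
    have h2 : Module.finrank K P < Module.finrank K P1 := by
      apply Submodule.finrank_lt_finrank_of_lt
      rw [lt_iff_le_and_ne]
      refine ⟨le_sup_left, fun h3 => he₁' ?_⟩
      have : e₁ ∈ P1 := (le_sup_right : _ ≤ P1) (Submodule.mem_span_singleton_self e₁)
      rw [← h3] at this
      exact this
    by_cases h3 : G ≤ P1
    · refine ⟨e₁, he₁, e₁, he₁, h3.trans ?_⟩
      rw [hP1, Set.pair_eq_singleton]
    · obtain ⟨e₂, he₂, he₂'⟩ := Set.not_subset.1 h3
      set P2 := P1 ⊔ Submodule.span K {e₂} with hP2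
      have hP2G : P2 ≤ G := sup_le hP1G (Submodule.span_le.2 (Set.singleton_subset_iff.2 he₂))
      have h4 : Module.finrank K P1 < Module.finrank K P2 := by
        apply Submodule.finrank_lt_finrank_of_lt
        rw [lt_iff_le_and_ne]
        refine ⟨le_sup_left, fun h3 => he₂' ?_⟩
        have : e₂ ∈ P2 := (le_sup_right : _ ≤ P2) (Submodule.mem_span_singleton_self e₂)
        rw [← h3] at this
        exact this
      have h5 : P2 = G := Submodule.eq_of_le_of_finrank_le hP2G (by omega)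
      refine ⟨e₁, he₁, e₂, he₂, ?_⟩
      rw [← h5, hP2, hP1, sup_assoc]
      apply sup_le_sup_left
      rw [← Submodule.span_union]
      apply Submodule.span_mono
      intro x hx
      rw [Set.mem_insert_iff, Set.mem_singleton_iff]
      rcases hx with hx | hx
      · exact Or.inl hx
      · exact Or.inr hx

/-- A proper ideal of a perfect Lie algebra has codimension at least three. -/
theorem perfect_codim {G P : Submodule K R} [FiniteDimensional K R] (hG : IsPerfect G)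
    (hG' : IsLie G) (hPG : P ≤ G) (hP : ∀ x ∈ G, ∀ y ∈ P, x * y - y * x ∈ P) (hne : P ≠ G) :
    Module.finrank K P + 3 ≤ Module.finrank K G := by
  by_contra hlt
  apply hne
  obtain ⟨e₁, he₁, e₂, he₂, hGP⟩ := exists_two hPG (by omega)
  have hP' : ∀ x ∈ P, ∀ y ∈ G, x * y - y * x ∈ P := by
    intro x hx y hy
    have := hP y hy x hx
    rw [← neg_sub]
    exact P.neg_mem this
  set u := e₁ * e₂ - e₂ * e₁ with hu
  have huG : u ∈ G := hG' _ he₁ _ he₂
  have key1 : G ≤ P ⊔ Submodule.span K {u} := by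
    refine hG.trans (Submodule.span_le.2 ?_)
    rintro _ ⟨x, hx, y, hy, rfl⟩
    obtain ⟨p, hp, r, hr, rfl⟩ := Submodule.mem_sup.1 (hGP hx)
    obtain ⟨q, hq, s, hs, rfl⟩ := Submodule.mem_sup.1 (hGP hy)
    obtain ⟨a, b, rfl⟩ := Submodule.mem_span_pair.1 hr
    obtain ⟨c, d, rfl⟩ := Submodule.mem_span_pair.1 hs
    have h1 : p * (q + (c • e₁ + d • e₂)) - (q + (c • e₁ + d • e₂)) * p ∈ P := hP' _ hp _ hy
    have h2 : (a • e₁ + b • e₂) * q - q * (a • e₁ + b • e₂) ∈ P :=
      hP _ (G.add_mem (G.smul_mem _ he₁) (G.smul_mem _ he₂)) _ hq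
    have h3 : (p + (a • e₁ + b • e₂)) * (q + (c • e₁ + d • e₂)) -
        (q + (c • e₁ + d • e₂)) * (p + (a • e₁ + b • e₂)) =
        ((p * (q + (c • e₁ + d • e₂)) - (q + (c • e₁ + d • e₂)) * p) +
          ((a • e₁ + b • e₂) * q - q * (a • e₁ + b • e₂))) + (a * d - b * c) • u := by
      rw [hu]
      simp only [add_mul, mul_add, smul_mul_assoc, mul_smul_comm]
      module
    rw [SetLike.mem_coe, h3]
    exact Submodule.mem_sup.2 ⟨_, P.add_mem h1 h2, _,
      Submodule.smul_mem _ _ (Submodule.mem_span_singleton_self u), rfl⟩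
  apply le_antisymm hPG
  refine hG.trans (Submodule.span_le.2 ?_)
  rintro _ ⟨x, hx, y, hy, rfl⟩
  obtain ⟨p, hp, r, hr, rfl⟩ := Submodule.mem_sup.1 (key1 hx)
  obtain ⟨q, hq, s, hs, rfl⟩ := Submodule.mem_sup.1 (key1 hy)
  obtain ⟨a, rfl⟩ := Submodule.mem_span_singleton.1 hr
  obtain ⟨c, rfl⟩ := Submodule.mem_span_singleton.1 hs
  have h1 : p * (q + c • u) - (q + c • u) * p ∈ P := hP' _ hp _ hy
  have h2 : (a • u) * q - q * (a • u) ∈ P := hP _ (G.smul_mem _ huG) _ hq
  have h3 : (p + a • u) * (q + c • u) - (q + c • u) * (p + a • u) =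
      (p * (q + c • u) - (q + c • u) * p) + ((a • u) * q - q * (a • u)) := by
    simp only [add_mul, mul_add, smul_mul_assoc, mul_smul_comm]
    module
  rw [SetLike.mem_coe, h3]
  exact P.add_mem h1 h2

end Perfect

/-! ### Families -/

section Family

variable {Λ : Type*} [AddCommGroup Λ] [Module K Λ] {J : Type*} {A : J → Type*}
  [∀ j, Ring (A j)] [∀ j, Algebra K (A j)] (h : ∀ j, Λ →ₗ[K] A j)

/-- The Lie algebra of the family. -/
def fam : Submodule K (∀ j, A j) := gen (LinearMap.pi h)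

variable {h}

theorem fam_mem (l : Λ) : (fun j => h j l) ∈ fam h := gen_mem (LinearMap.pi h) l

theorem fam_isLie : IsLie (fam h) := gen_isLie _

theorem fam_eval {j : J} {X : ∀ j, A j} (hX : X ∈ fam h) : X j ∈ gen (h j) :=
  map_gen_mem (f := (Pi.evalAlgHom K A j).toLinearMap) (isLieMap_alg _) (fun _ => rfl) hX

theorem fam_lift {j : J} {x : A j} (hx : x ∈ gen (h j)) : ∃ X ∈ fam h, X j = x :=
  lift_gen (f := (Pi.evalAlgHom K A j).toLinearMap) (isLieMap_alg _) (fun _ => rfl) hx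

/-- The components with index `i` can be moved independently of the component with index `a`. -/
def Free (h : ∀ j, Λ →ₗ[K] A j) (a i : J) : Prop :=
  ∀ x ∈ gen (h i), ∃ X ∈ fam h, X i = x ∧ X a = 0

theorem free_of_comm {a i : J} (hp : IsPerfect (gen (h i)))
    (hc : ∀ x ∈ gen (h a), ∀ y ∈ gen (h a), x * y = y * x) : Free h a i := by
  intro x hx
  refine Submodule.span_induction
    (p := fun x _ => ∃ X ∈ fam h, X i = x ∧ X a = 0) ?_ ?_ ?_ ?_ (hp hx)
  · rintro _ ⟨y, hy, z, hz, rfl⟩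
    obtain ⟨Y, hY, rfl⟩ := fam_lift hy
    obtain ⟨Z, hZ, rfl⟩ := fam_lift hz
    refine ⟨Y * Z - Z * Y, fam_isLie _ hY _ hZ, rfl, ?_⟩
    change Y a * Z a - Z a * Y a = 0
    rw [hc _ (fam_eval hY) _ (fam_eval hZ), sub_self]
  · exact ⟨0, Submodule.zero_mem _, rfl, rfl⟩
  · rintro _ _ _ _ ⟨X, hX, rfl, hX'⟩ ⟨Y, hY, rfl, hY'⟩
    exact ⟨X + Y, Submodule.add_mem _ hX hY, rfl, by rw [Pi.add_apply, hX', hY', add_zero]⟩
  · rintro c _ _ ⟨X, hX, rfl, hX'⟩
    exact ⟨c • X, Submodule.smul_mem _ _ hX, rfl, by rw [Pi.smul_apply, hX', smul_zero]⟩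

theorem kill {i : J} (hp : IsPerfect (gen (h i))) (s : Finset J) (hs : ∀ a ∈ s, Free h a i) :
    ∀ x ∈ gen (h i), ∃ X ∈ fam h, X i = x ∧ ∀ a ∈ s, X a = 0 := by
  classical
  induction s using Finset.induction_on with
  | empty =>
    intro x hx
    obtain ⟨X, hX, hX'⟩ := fam_lift hx
    exact ⟨X, hX, hX', fun a ha => absurd ha (Finset.notMem_empty a)⟩
  | insert a s ha ih =>
    intro x hx
    have ih' := ih fun b hb => hs b (Finset.mem_insert_of_mem hb)
    refine Submodule.span_induction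
      (p := fun x _ => ∃ X ∈ fam h, X i = x ∧ ∀ b ∈ insert a s, X b = 0) ?_ ?_ ?_ ?_ (hp hx)
    · rintro _ ⟨y, hy, z, hz, rfl⟩
      obtain ⟨Y, hY, rfl, hY'⟩ := ih' y hy
      obtain ⟨Z, hZ, rfl, hZ'⟩ := hs a (Finset.mem_insert_self a s) z hz
      refine ⟨Y * Z - Z * Y, fam_isLie _ hY _ hZ, rfl, fun b hb => ?_⟩
      change Y b * Z b - Z b * Y b = 0
      rcases Finset.mem_insert.1 hb with rfl | hb
      · rw [hZ', mul_zero, zero_mul, sub_zero]
      · rw [hY' b hb, mul_zero, zero_mul, sub_zero]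
    · exact ⟨0, Submodule.zero_mem _, rfl, fun _ _ => rfl⟩
    · rintro _ _ _ _ ⟨X, hX, rfl, hX'⟩ ⟨Y, hY, rfl, hY'⟩
      exact ⟨X + Y, Submodule.add_mem _ hX hY, rfl, fun b hb => by
        rw [Pi.add_apply, hX' b hb, hY' b hb, add_zero]⟩
    · rintro c _ _ ⟨X, hX, rfl, hX'⟩
      exact ⟨c • X, Submodule.smul_mem _ _ hX, rfl, fun b hb => by
        rw [Pi.smul_apply, hX' b hb, smul_zero]⟩

theorem single_mem [DecidableEq J] [Fintype J] {i : J} (hp : IsPerfect (gen (h i)))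
    (hs : ∀ a, a ≠ i → Free h a i) {x : A i} (hx : x ∈ gen (h i)) :
    (Pi.single i x : ∀ j, A j) ∈ fam h := by
  obtain ⟨X, hX, hXi, hX'⟩ := kill hp (Finset.univ.erase i)
    (fun a ha => hs a (Finset.ne_of_mem_erase ha)) x hx
  have e : (Pi.single i x : ∀ j, A j) = X := by
    funext j
    by_cases hj : j = i
    · subst hj; rw [Pi.single_eq_same, hXi]
    · rw [Pi.single_eq_of_ne hj, hX' j (Finset.mem_erase.2 ⟨hj, Finset.mem_univ j⟩)]
  rw [e]
  exact hX

/-- Independence for two linear families of operators. -/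
def Free2 {R R' : Type*} [Ring R] [Algebra K R] [Ring R'] [Algebra K R'] (f : Λ →ₗ[K] R)
    (g : Λ →ₗ[K] R') : Prop :=
  ∀ x ∈ gen g, ((0, x) : R × R') ∈ gen (f.prod g)

theorem free_iff {a i : J} : Free h a i ↔ Free2 (h a) (h i) := by
  have hf : IsLieMap (((Pi.evalAlgHom K A a).prod (Pi.evalAlgHom K A i)).toLinearMap) :=
    isLieMap_alg _
  constructor
  · intro H x hx
    obtain ⟨X, hX, rfl, hXa⟩ := H x hx
    have := map_gen_mem hf (h := LinearMap.pi h) (h' := (h a).prod (h i)) (fun _ => rfl) hX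
    have e : (((Pi.evalAlgHom K A a).prod (Pi.evalAlgHom K A i)).toLinearMap X) = (0, X i) := by
      rw [← hXa]
      rfl
    rwa [e] at this
  · intro H x hx
    obtain ⟨X, hX, hX'⟩ := lift_gen hf (h := LinearMap.pi h) (h' := (h a).prod (h i))
      (fun _ => rfl) (H x hx)
    exact ⟨X, hX, congrArg Prod.snd hX', congrArg Prod.fst hX'⟩

theorem Free2.symm {R R' : Type*} [Ring R] [Algebra K R] [Ring R'] [Algebra K R']
    {f : Λ →ₗ[K] R} {g : Λ →ₗ[K] R'} (H : Free2 f g) : Free2 g f := by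
  have hfst : IsLieMap (LinearMap.fst K R R') := fun _ _ => rfl
  have hsnd : IsLieMap (LinearMap.snd K R R') := fun _ _ => rfl
  have hsw : IsLieMap ((LinearMap.snd K R R').prod (LinearMap.fst K R R')) := fun _ _ => rfl
  intro x hx
  obtain ⟨p, hp, hpx⟩ := lift_gen hfst (h := f.prod g) (h' := f) (fun _ => rfl) hx
  have h2 : p.2 ∈ gen g := map_gen_mem hsnd (h := f.prod g) (h' := g) (fun _ => rfl) hp
  have h3 := Submodule.sub_mem _ hp (H _ h2)
  have h4 : p - ((0, p.2) : R × R') = (x, 0) := by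
    refine Prod.ext ?_ ?_
    · change p.1 - 0 = x
      rw [sub_zero]
      exact hpx
    · change p.2 - p.2 = 0
      rw [sub_self]
  rw [h4] at h3
  exact map_gen_mem hsw (h := f.prod g) (h' := g.prod f) (fun _ => rfl) h3

/-- Extension of elements from a subfamily. -/
theorem fam_extend {J' : Type*} (φ : J' → J) {X' : ∀ j', A (φ j')}
    (hX : X' ∈ fam (fun j' => h (φ j'))) : ∃ X ∈ fam h, ∀ j', X (φ j') = X' j' := by
  have hf : IsLieMap (AlgHom.pi fun j' : J' =>
      Pi.evalAlgHom K A (φ j')).toLinearMap := isLieMap_alg _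
  obtain ⟨X, hX1, hX2⟩ := lift_gen hf (h := LinearMap.pi h)
    (h' := LinearMap.pi fun j' => h (φ j')) (fun _ => rfl) hX
  exact ⟨X, hX1, fun j' => congrFun hX2 j'⟩

end Family

end Pool.Agent.Q219.HD
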