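import Mathlib
import Pool.Agent.Q219.HD.Lie

/-!
# Lie algebras of matrices of size two with trace zero
-/

set_option autoImplicit false
set_option linter.unusedSectionVars false

open Matrix

namespace Pool.Agent.Q219.HD

variable {K : Type*} [Field K]

/-- the matrices of size two -/
abbrev M2 (K : Type*) : Type _ := Matrix (Fin 2) (Fin 2) K

/-- the matrix with trace zero -/
def mk (a b c : K) : M2 K := !![a, b; c, -a]

/-- The matrices of trace zero. -/
def sl (K : Type*) [Field K] : Submodule K (M2 K) := LinearMap.ker (Matrix.traceLinearMap (Fin 2) K K)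

theorem mem_sl {x : M2 K} : x ∈ sl K ↔ x.trace = 0 := Iff.rfl

theorem eq_mk {x : M2 K} (h : x.trace = 0) : x = mk (x 0 0) (x 0 1) (x 1 0) := by
  have h1 : x 0 0 + x 1 1 = 0 := by rwa [Matrix.trace_fin_two] at h
  ext i j
  fin_cases i <;> fin_cases j <;> simp [mk]
  linear_combination h1

theorem trace_mk (a b c : K) : (mk a b c).trace = 0 := by
  simp [mk, Matrix.trace_fin_two]

theorem exists_mk {x : M2 K} (h : x ∈ sl K) : ∃ a b c, x = mk a b c := ⟨_, _, _, eq_mk h⟩

theorem trace_br (x y : M2 K) : (x * y - y * x).trace = 0 := by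
  rw [Matrix.trace_sub, Matrix.trace_mul_comm, sub_self]

theorem sl_isLie : IsLie (sl K) := fun x _ y _ => mem_sl.2 (trace_br x y)

theorem mul_add_mul {x y : M2 K} (hx : x ∈ sl K) (hy : y ∈ sl K) :
    x * y + y * x = (x * y).trace • (1 : M2 K) := by
  obtain ⟨a, b, c, rfl⟩ := exists_mk hx
  obtain ⟨a', b', c', rfl⟩ := exists_mk hy
  ext i j
  fin_cases i <;> fin_cases j <;>
    simp [mk, Matrix.trace_fin_two] <;> ring

theorem br_br {x y z : M2 K} (hx : x ∈ sl K) (hy : y ∈ sl K) (hz : z ∈ sl K) :
    x * (y * z - z * y) - (y * z - z * y) * x =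
      (2 * (x * y).trace) • z - (2 * (x * z).trace) • y := by
  obtain ⟨a, b, c, rfl⟩ := exists_mk hx
  obtain ⟨a', b', c', rfl⟩ := exists_mk hy
  obtain ⟨a'', b'', c'', rfl⟩ := exists_mk hz
  ext i j
  fin_cases i <;> fin_cases j <;>
    simp [mk, Matrix.trace_fin_two] <;> ring

theorem sq_eq {x : M2 K} (h2 : (2 : K) ≠ 0) (hx : x ∈ sl K) :
    x * x = ((x * x).trace / 2) • (1 : M2 K) := by
  have h := mul_add_mul hx hx
  have h3 : (2 : K) • (x * x) = (x * x).trace • (1 : M2 K) := by rw [two_smul, h]
  have h4 : x * x = (2 : K)⁻¹ • ((x * x).trace • (1 : M2 K)) := by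
    rw [← h3, smul_smul, inv_mul_cancel₀ h2, one_smul]
  rw [smul_smul] at h4
  rw [div_eq_inv_mul]
  exact h4

/-- The commutator of two elements of `n^⊥` commutes with `n`. -/
theorem comm_of_perp {n s t : M2 K} (hn : n ∈ sl K) (hs : s ∈ sl K) (ht : t ∈ sl K)
    (h1 : (n * s).trace = 0) (h2 : (n * t).trace = 0) :
    n * (s * t - t * s) - (s * t - t * s) * n = 0 := by
  rw [br_br hn hs ht, h1, h2, mul_zero, zero_smul, zero_smul, sub_zero]

theorem exists_perp {S : Submodule K (M2 K)} (h2 : (2 : K) ≠ 0) (hS : S ≤ sl K) (hne : S ≠ sl K) :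
    ∃ n ∈ sl K, n ≠ 0 ∧ ∀ s ∈ S, (n * s).trace = 0 := by
  have hlt : S < sl K := lt_of_le_of_ne hS hne
  obtain ⟨x, hx, hxS⟩ := Set.exists_of_ssubset hlt
  obtain ⟨φ, hφ, hφS⟩ := Submodule.exists_dual_map_eq_bot_of_notMem hxS inferInstance
  -- the matrix of the functional
  set m : M2 K := Matrix.of fun i j => φ (Matrix.single j i 1) with hm
  have hφm : ∀ y : M2 K, φ y = (m * y).trace := by
    intro y
    have e : ∀ i j : Fin 2, φ (Matrix.single i j (y i j)) = φ (Matrix.single i j 1) * y i j := by
      intro i j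
      have : Matrix.single i j (y i j) = (y i j) • Matrix.single i j (1 : K) := by
        rw [Matrix.smul_single, smul_eq_mul, mul_one]
      rw [this, map_smul, smul_eq_mul, mul_comm]
    have e1 : φ y = ∑ i, ∑ j, φ (Matrix.single i j (y i j)) := by
      conv_lhs => rw [Matrix.matrix_eq_sum_single y]
      rw [map_sum]
      exact Finset.sum_congr rfl fun i _ => map_sum _ _ _
    rw [e1, Fin.sum_univ_two, Fin.sum_univ_two, Fin.sum_univ_two, e, e, e, e,
      Matrix.trace_fin_two, Matrix.mul_apply, Matrix.mul_apply, Fin.sum_univ_two,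
      Fin.sum_univ_two]
    simp only [hm, Matrix.of_apply]
    ring
  set n : M2 K := m - (m.trace / 2) • (1 : M2 K) with hn
  have htr : ∀ y : M2 K, y ∈ sl K → (n * y).trace = φ y := by
    intro y hy
    rw [hφm, hn, sub_mul, Matrix.trace_sub, smul_mul_assoc, one_mul, Matrix.trace_smul,
      mem_sl.1 hy, smul_zero, sub_zero]
  refine ⟨n, ?_, ?_, fun s hs => ?_⟩
  · rw [mem_sl, hn, Matrix.trace_sub, Matrix.trace_smul, Matrix.trace_one, Fintype.card_fin,
      smul_eq_mul]
    push_cast
    field_simp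
    ring
  · intro h0
    apply hφ
    rw [← htr x hx, h0, zero_mul, Matrix.trace_zero]
  · rw [htr s (hS hs)]
    have : φ s ∈ S.map φ := ⟨s, hs, rfl⟩
    rw [hφS] at this
    simpa using this

/-- A Lie algebra of matrices of size two and trace zero which is not the whole algebra has an
invariant line or commutes with a matrix which is not a scalar. -/
theorem dichotomy {S : Submodule K (M2 K)} (h2 : (2 : K) ≠ 0) (hL : IsLie S) (hS : S ≤ sl K)
    (hne : S ≠ sl K) :
    (∃ v : Fin 2 → K, v ≠ 0 ∧ ∀ s ∈ S, ∃ c : K, s *ᵥ v = c • v) ∨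
      ∃ g : M2 K, (∀ c : K, g ≠ c • (1 : M2 K)) ∧ ∀ s ∈ S, g * s = s * g := by
  obtain ⟨n, hn, hn0, hnS⟩ := exists_perp h2 hS hne
  obtain ⟨μ, hsq⟩ : ∃ μ : K, n * n = μ • (1 : M2 K) := ⟨_, sq_eq h2 hn⟩
  by_cases hμ : μ = 0
  · left
    rw [hμ, zero_smul] at hsq
    -- the matrix `n` is nilpotent; its kernel is invariant
    have hnsn : ∀ s ∈ S, n * s * n = 0 := by
      intro s hs
      have h1 := mul_add_mul hn (hS hs)
      rw [hnS s hs, zero_smul] at h1
      have h3 : n * s = -(s * n) := eq_neg_of_add_eq_zero_left h1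
      rw [h3, neg_mul, mul_assoc, hsq, mul_zero, neg_zero]
    obtain ⟨w, hw⟩ : ∃ w : Fin 2 → K, n *ᵥ w ≠ 0 := by
      by_contra hcon
      push Not at hcon
      apply hn0
      exact Matrix.toLin'.injective (LinearMap.ext fun w => by
        rw [Matrix.toLin'_apply, hcon w, map_zero, LinearMap.zero_apply])
    refine ⟨n *ᵥ w, hw, fun s hs => ?_⟩
    -- both `n w` and `s n w` are in the kernel of `n`
    have h1 : n *ᵥ (n *ᵥ w) = 0 := by rw [Matrix.mulVec_mulVec, hsq, Matrix.zero_mulVec]
    have h3 : n *ᵥ (s *ᵥ (n *ᵥ w)) = 0 := by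
      rw [Matrix.mulVec_mulVec, Matrix.mulVec_mulVec, hnsn s hs, Matrix.zero_mulVec]
    obtain ⟨a, b, c, rfl⟩ := exists_mk hn
    set u := mk a b c *ᵥ w with hu
    set y := s *ᵥ u with hy
    have e1 : a * u 0 + b * u 1 = 0 := by
      have := congrFun h1 0
      simpa [mk, Matrix.mulVec, dotProduct, Fin.sum_univ_two] using this
    have e2 : c * u 0 - a * u 1 = 0 := by
      have := congrFun h1 1
      simpa [mk, Matrix.mulVec, dotProduct, Fin.sum_univ_two, sub_eq_add_neg] using this
    have e3 : a * y 0 + b * y 1 = 0 := by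
      have := congrFun h3 0
      simpa [mk, Matrix.mulVec, dotProduct, Fin.sum_univ_two] using this
    have e4 : c * y 0 - a * y 1 = 0 := by
      have := congrFun h3 1
      simpa [mk, Matrix.mulVec, dotProduct, Fin.sum_univ_two, sub_eq_add_neg] using this
    -- proportionality
    have hdet : u 0 * y 1 = u 1 * y 0 := by
      by_contra hd
      have hd' : u 0 * y 1 - u 1 * y 0 ≠ 0 := sub_ne_zero.2 hd
      have ha : a = 0 := by
        have : a * (u 0 * y 1 - u 1 * y 0) = 0 := by linear_combination y 1 * e1 - u 1 * e3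
        exact (mul_eq_zero.1 this).resolve_right hd'
      have hb : b = 0 := by
        have : b * (u 0 * y 1 - u 1 * y 0) = 0 := by linear_combination u 0 * e3 - y 0 * e1
        exact (mul_eq_zero.1 this).resolve_right hd'
      have hc : c = 0 := by
        have : c * (u 0 * y 1 - u 1 * y 0) = 0 := by linear_combination y 1 * e2 - u 1 * e4
        exact (mul_eq_zero.1 this).resolve_right hd'
      apply hn0
      rw [ha, hb, hc]
      ext i j
      fin_cases i <;> fin_cases j <;> simp [mk]
    by_cases hu0 : u 0 = 0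
    · have hu1 : u 1 ≠ 0 := by
        intro hu1
        apply hw
        funext i
        fin_cases i
        · exact hu0
        · exact hu1
      refine ⟨y 1 / u 1, ?_⟩
      funext i
      fin_cases i
      · change y 0 = y 1 / u 1 * u 0
        have : u 1 * y 0 = 0 := by rw [← hdet, hu0, zero_mul]
        rw [hu0, mul_zero]
        exact (mul_eq_zero.1 this).resolve_left hu1
      · change y 1 = y 1 / u 1 * u 1
        field_simp
    · refine ⟨y 0 / u 0, ?_⟩
      funext i
      fin_cases i
      · change y 0 = y 0 / u 0 * u 0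
        field_simp
      · change y 1 = y 0 / u 0 * u 1
        field_simp
        linear_combination hdet
  · right
    have hcomm : ∀ s ∈ S, ∀ t ∈ S, s * t = t * s := by
      intro s hs t ht
      have h1 := comm_of_perp hn (hS hs) (hS ht) (hnS s hs) (hnS t ht)
      have hz : s * t - t * s ∈ S := hL s hs t ht
      have h3 := mul_add_mul hn (hS hz)
      rw [hnS _ hz, zero_smul] at h3
      set z := s * t - t * s
      have h4 : (2 : K) • (n * z) = 0 := by
        rw [two_smul]
        calc n * z + n * z = (n * z - z * n) + (n * z + z * n) := by abel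
          _ = 0 := by rw [h1, h3, add_zero]
      have h5 : n * z = 0 := (smul_eq_zero.1 h4).resolve_left h2
      have h6 : n * (n * z) = μ • z := by
        rw [← mul_assoc, hsq, smul_mul_assoc, one_mul]
      rw [h5, mul_zero] at h6
      have h7 : z = 0 := (smul_eq_zero.1 h6.symm).resolve_left hμ
      exact sub_eq_zero.1 h7
    by_cases hS0 : ∃ s ∈ S, s ≠ 0
    · obtain ⟨s, hs, hs0⟩ := hS0
      refine ⟨s, fun c hc => hs0 ?_, fun t ht => hcomm s hs t ht⟩
      have h1 := mem_sl.1 (hS hs)
      rw [hc, Matrix.trace_smul, Matrix.trace_one, Fintype.card_fin, smul_eq_mul] at h1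
      have h3 : c = 0 := (mul_eq_zero.1 h1).resolve_right (by exact_mod_cast h2)
      rw [hc, h3, zero_smul]
    · push Not at hS0
      refine ⟨!![1, 0; 0, 0], fun c hc => ?_, fun s hs => by rw [hS0 s hs, mul_zero, zero_mul]⟩
      have h1 := congrFun (congrFun hc 0) 0
      have h3 := congrFun (congrFun hc 1) 1
      simp at h1 h3
      rw [← h3] at h1
      exact one_ne_zero h1

end Pool.Agent.Q219.HD
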