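import Mathlib
import Pool.Agent.Q219.HD.Sl2

/-!
# Lie algebras of pairs of matrices of size two
-/

set_option autoImplicit false
set_option linter.unusedSectionVars false

open Matrix

namespace Pool.Agent.Q219.HD

variable {K : Type*} [Field K]

theorem mk_add (a b c a' b' c' : K) : mk a b c + mk a' b' c' = mk (a + a') (b + b') (c + c') := by
  ext i j
  fin_cases i <;> fin_cases j <;> simp [mk]
  ring

theorem mk_smul (r a b c : K) : r • mk a b c = mk (r * a) (r * b) (r * c) := by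
  ext i j
  fin_cases i <;> fin_cases j <;> simp [mk]

theorem mk_mem (a b c : K) : mk a b c ∈ sl K := trace_mk a b c

theorem mk_eq_comb (a b c : K) : mk a b c = a • mk 1 0 0 + b • mk 0 1 0 + c • mk 0 0 1 := by
  rw [mk_smul, mk_smul, mk_smul, mk_add, mk_add]
  congr 1 <;> ring

theorem br_HE : (mk 1 0 0 : M2 K) * mk 0 1 0 - mk 0 1 0 * mk 1 0 0 = (2 : K) • mk 0 1 0 := by
  ext i j
  fin_cases i <;> fin_cases j <;> simp [mk] <;> norm_num

theorem br_HF : (mk 1 0 0 : M2 K) * mk 0 0 1 - mk 0 0 1 * mk 1 0 0 = (-2 : K) • mk 0 0 1 := by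
  ext i j
  fin_cases i <;> fin_cases j <;> simp [mk] <;> norm_num

theorem br_EF : (mk 0 1 0 : M2 K) * mk 0 0 1 - mk 0 0 1 * mk 0 1 0 = mk 1 0 0 := by
  ext i j
  fin_cases i <;> fin_cases j <;> simp [mk]

theorem sl_perfect (h2 : (2 : K) ≠ 0) : IsPerfect (sl K) := by
  intro x hx
  obtain ⟨a, b, c, rfl⟩ := exists_mk hx
  rw [mk_eq_comb]
  have hH : (mk 1 0 0 : M2 K) ∈ Submodule.span K
      {z : M2 K | ∃ x ∈ sl K, ∃ y ∈ sl K, z = x * y - y * x} :=
    Submodule.subset_span ⟨_, mk_mem 0 1 0, _, mk_mem 0 0 1, br_EF.symm⟩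
  have hE : (mk 0 1 0 : M2 K) ∈ Submodule.span K
      {z : M2 K | ∃ x ∈ sl K, ∃ y ∈ sl K, z = x * y - y * x} := by
    have h : (2 : K) • (mk 0 1 0 : M2 K) ∈ Submodule.span K
      {z : M2 K | ∃ x ∈ sl K, ∃ y ∈ sl K, z = x * y - y * x} :=
      Submodule.subset_span ⟨_, mk_mem 1 0 0, _, mk_mem 0 1 0, br_HE.symm⟩
    have := Submodule.smul_mem _ (2 : K)⁻¹ h
    rwa [smul_smul, inv_mul_cancel₀ h2, one_smul] at this
  have hF : (mk 0 0 1 : M2 K) ∈ Submodule.span K
      {z : M2 K | ∃ x ∈ sl K, ∃ y ∈ sl K, z = x * y - y * x} := by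
    have h : (-2 : K) • (mk 0 0 1 : M2 K) ∈ Submodule.span K
      {z : M2 K | ∃ x ∈ sl K, ∃ y ∈ sl K, z = x * y - y * x} :=
      Submodule.subset_span ⟨_, mk_mem 1 0 0, _, mk_mem 0 0 1, br_HF.symm⟩
    have := Submodule.smul_mem _ (-2 : K)⁻¹ h
    rwa [smul_smul, inv_mul_cancel₀ (neg_ne_zero.2 h2), one_smul] at this
  exact Submodule.add_mem _ (Submodule.add_mem _ (Submodule.smul_mem _ _ hH)
    (Submodule.smul_mem _ _ hE)) (Submodule.smul_mem _ _ hF)

theorem finrank_sl_le : Module.finrank K (sl K) ≤ 3 := by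
  classical
  set t : Finset (M2 K) := {mk 1 0 0, mk 0 1 0, mk 0 0 1} with ht
  have h : sl K ≤ Submodule.span K (t : Set (M2 K)) := by
    intro x hx
    obtain ⟨a, b, c, rfl⟩ := exists_mk hx
    rw [mk_eq_comb]
    refine Submodule.add_mem _ (Submodule.add_mem _ (Submodule.smul_mem _ _ ?_)
      (Submodule.smul_mem _ _ ?_)) (Submodule.smul_mem _ _ ?_) <;>
    · apply Submodule.subset_span
      simp [ht]
  have h1 : Module.finrank K (Submodule.span K (t : Set (M2 K))) ≤ t.card :=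
    finrank_span_finset_le_card t
  have h3 : t.card ≤ 3 := Finset.card_le_three
  exact (Submodule.finrank_mono h).trans (h1.trans h3)

/-- The Lie algebra of matrices of trace zero is simple. -/
theorem sl_simple (h2 : (2 : K) ≠ 0) {P : Submodule K (M2 K)} (hP : P ≤ sl K)
    (hP' : ∀ x ∈ sl K, ∀ y ∈ P, x * y - y * x ∈ P) (hne : ∃ y ∈ P, y ≠ 0) : P = sl K := by
  by_contra hcon
  have h1 := perfect_codim (sl_perfect h2) sl_isLie hP hP' hcon
  have h3 := finrank_sl_le (K := K)
  have h4 : Module.finrank K P = 0 := by omega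
  rw [Submodule.finrank_eq_zero] at h4
  obtain ⟨y, hy, hy0⟩ := hne
  rw [h4] at hy
  exact hy0 ((Submodule.mem_bot K).1 hy)

section Units

variable {H' E' F' : M2 K}

/-- Matrix units from an `sl(2)`-triple. -/
theorem triple_intertwine (h2 : (2 : K) ≠ 0) (hH : H' ∈ sl K) (hE : E' ∈ sl K) (hF : F' ∈ sl K)
    (h1 : H' * E' - E' * H' = (2 : K) • E') (h3 : H' * F' - F' * H' = (-2 : K) • F')
    (h4 : E' * F' - F' * E' = H') (hE0 : E' ≠ 0) :
    ∃ g : M2 K, g ≠ 0 ∧ g * mk 1 0 0 = H' * g ∧ g * mk 0 1 0 = E' * g ∧ g * mk 0 0 1 = F' * g := by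
  have hEE : (E' * E').trace = 0 := by
    have e : ((H' * E' - E' * H') * E').trace = 0 := by
      rw [sub_mul, Matrix.trace_sub, mul_assoc E' H' E', Matrix.trace_mul_comm E' (H' * E')]
      exact sub_self _
    rw [h1, smul_mul_assoc, Matrix.trace_smul, smul_eq_mul] at e
    exact (mul_eq_zero.1 e).resolve_left h2
  have hFF : (F' * F').trace = 0 := by
    have e : ((H' * F' - F' * H') * F').trace = 0 := by
      rw [sub_mul, Matrix.trace_sub, mul_assoc F' H' F', Matrix.trace_mul_comm F' (H' * F')]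
      exact sub_self _
    rw [h3, smul_mul_assoc, Matrix.trace_smul, smul_eq_mul] at e
    exact (mul_eq_zero.1 e).resolve_left (neg_ne_zero.2 h2)
  have hEF : (E' * F').trace = 1 := by
    have e := br_br hE hE hF
    rw [h4, hEE, mul_zero, zero_smul, zero_sub] at e
    have e2 : E' * H' - H' * E' = -((2 : K) • E') := by rw [← h1, neg_sub]
    rw [e2, neg_inj] at e
    have e3 : (2 * (E' * F').trace - 2) • E' = 0 := by rw [sub_smul, ← e, sub_self]
    have e4 := (smul_eq_zero.1 e3).resolve_right hE0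
    have e5 : 2 * ((E' * F').trace - 1) = 0 := by linear_combination e4
    exact sub_eq_zero.1 ((mul_eq_zero.1 e5).resolve_left h2)
  have hE2 : E' * E' = 0 := by rw [sq_eq h2 hE, hEE, zero_div, zero_smul]
  have hF2 : F' * F' = 0 := by rw [sq_eq h2 hF, hFF, zero_div, zero_smul]
  have hsum : E' * F' + F' * E' = 1 := by rw [mul_add_mul hE hF, hEF, one_smul]
  have hEFE : E' * F' * E' = E' := by
    have e : E' * F' = 1 - F' * E' := eq_sub_of_add_eq hsum
    rw [e, sub_mul, one_mul, mul_assoc, hE2, mul_zero, sub_zero]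
  have hFEF : F' * E' * F' = F' := by
    have e : F' * E' = 1 - E' * F' := eq_sub_of_add_eq' hsum
    rw [e, sub_mul, one_mul, mul_assoc, hF2, mul_zero, sub_zero]
  have hEF0 : E' * F' ≠ 0 := by
    intro h0
    rw [h0, zero_mul] at hEFE
    exact hE0 hEFE.symm
  -- the standard matrices
  set E : M2 K := mk 0 1 0 with hEdef
  set F : M2 K := mk 0 0 1 with hFdef
  have sE : E * E = 0 := by
    ext i j
    fin_cases i <;> fin_cases j <;> simp [hEdef, mk]
  have sF : F * F = 0 := by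
    ext i j
    fin_cases i <;> fin_cases j <;> simp [hFdef, mk]
  have sEFE : E * F * E = E := by
    ext i j
    fin_cases i <;> fin_cases j <;> simp [hEdef, hFdef, mk]
  have sFEF : F * E * F = F := by
    ext i j
    fin_cases i <;> fin_cases j <;> simp [hEdef, hFdef, mk]
  obtain ⟨i, j, hij⟩ : ∃ i j, (E' * F') i j ≠ 0 := by
    by_contra hcon
    push Not at hcon
    exact hEF0 (Matrix.ext hcon)
  set m : M2 K := Matrix.single j 0 1 with hm
  set g : M2 K := E' * F' * m * (E * F) + F' * m * E with hg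
  have hgE : g * E = E' * g := by
    have e1 : g * E = E' * F' * m * (E * F * E) + F' * m * (E * E) := by
      rw [hg]; simp only [add_mul, mul_assoc]
    have e2 : E' * g = (E' * E') * (F' * m * (E * F)) + E' * F' * m * E := by
      rw [hg]; simp only [mul_add, mul_assoc]
    rw [e1, e2, sEFE, sE, hE2, mul_zero, zero_mul, add_zero, zero_add]
  have hgF : g * F = F' * g := by
    have e1 : g * F = E' * F' * m * (E * (F * F)) + F' * m * (E * F) := by
      rw [hg]; simp only [add_mul, mul_assoc]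
    have e2 : F' * g = (F' * E' * F') * (m * (E * F)) + F' * F' * (m * E) := by
      rw [hg]; simp only [mul_add, mul_assoc]
    rw [e1, e2, sF, hFEF, hF2, mul_zero, mul_zero, zero_mul, add_zero, zero_add, mul_assoc]
  have hgH : g * mk 1 0 0 = H' * g := by
    rw [← br_EF (K := K), ← h4]
    have e1 : g * (E * F - F * E) = (g * E) * F - (g * F) * E := by
      simp only [mul_sub, mul_assoc]
    have e2 : (E' * F' - F' * E') * g = E' * (F' * g) - F' * (E' * g) := by
      simp only [sub_mul, mul_assoc]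
    rw [e1, e2, hgE, hgF, mul_assoc, mul_assoc, hgF, hgE]
  refine ⟨g, fun h0 => hij ?_, hgH, hgE, hgF⟩
  -- the entry `(i, 0)` of `E' F' g`
  have h5 : E' * F' * g = E' * F' * m * (E * F) := by
    have e1 : E' * F' * g = (E' * F' * E') * F' * m * (E * F) + E' * (F' * F') * m * E := by
      rw [hg]; simp only [mul_add, mul_assoc]
    rw [e1, hEFE, hF2, mul_zero, zero_mul, zero_mul, add_zero]
  rw [h0, mul_zero] at h5
  have h6 := congrFun (congrFun h5 i) 0
  have h7 : (E' * F' * m * (E * F)) i 0 = (E' * F') i j := by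
    have e1 : E * F = Matrix.single 0 0 1 := by
      ext a b
      fin_cases a <;> fin_cases b <;> simp [hEdef, hFdef, mk]
    rw [e1, mul_assoc, hm, Matrix.single_mul_single_same, mul_one, Matrix.mul_single_apply_same,
      mul_one]
  rw [h7] at h6
  exact h6.symm

end Units

/-- **The lemma of Goursat for `sl(2)`.** -/
theorem pair {S : Submodule K (M2 K × M2 K)} (h2 : (2 : K) ≠ 0) (hL : IsLie S)
    (hS : ∀ p ∈ S, p.1 ∈ sl K ∧ p.2 ∈ sl K) (h1 : ∀ x ∈ sl K, ∃ y, (x, y) ∈ S)
    (h1' : ∀ y ∈ sl K, ∃ x, (x, y) ∈ S) :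
    (∀ y ∈ sl K, ((0, y) : M2 K × M2 K) ∈ S) ∨
      ∃ g : M2 K, g ≠ 0 ∧ ∀ p ∈ S, g * p.1 = p.2 * g := by
  set P : Submodule K (M2 K) := S.comap (LinearMap.inr K (M2 K) (M2 K)) with hP
  have hmem : ∀ y, y ∈ P ↔ ((0, y) : M2 K × M2 K) ∈ S := fun y => Iff.rfl
  by_cases hP0 : ∃ y ∈ P, y ≠ 0
  · left
    have hPsl : P = sl K := by
      refine sl_simple h2 (fun y hy => (hS _ ((hmem y).1 hy)).2) (fun x hx y hy => ?_) hP0
      obtain ⟨a, ha⟩ := h1' x hx
      have := hL _ ha _ ((hmem y).1 hy)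
      rw [hmem]
      simpa using this
    intro y hy
    rw [← hmem, hPsl]
    exact hy
  · right
    push Not at hP0
    have huniq : ∀ x y y', (x, y) ∈ S → (x, y') ∈ S → y = y' := by
      intro x y y' hy hy'
      have := S.sub_mem hy hy'
      rw [Prod.mk_sub_mk, sub_self] at this
      exact sub_eq_zero.1 (hP0 _ this)
    obtain ⟨H', hH⟩ := h1 _ (mk_mem 1 0 0)
    obtain ⟨E', hE⟩ := h1 _ (mk_mem 0 1 0)
    obtain ⟨F', hF⟩ := h1 _ (mk_mem 0 0 1)
    have e1 : H' * E' - E' * H' = (2 : K) • E' := by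
      have h3 := hL _ hH _ hE
      have h4 := S.smul_mem (2 : K) hE
      have h5 : ((mk 1 0 0, H') * (mk 0 1 0, E') - (mk 0 1 0, E') * (mk 1 0 0, H') :
          M2 K × M2 K) = ((2 : K) • mk 0 1 0, H' * E' - E' * H') := by
        rw [← br_HE]; rfl
      rw [h5] at h3
      exact huniq _ _ _ h3 h4
    have e2 : H' * F' - F' * H' = (-2 : K) • F' := by
      have h3 := hL _ hH _ hF
      have h4 := S.smul_mem (-2 : K) hF
      have h5 : ((mk 1 0 0, H') * (mk 0 0 1, F') - (mk 0 0 1, F') * (mk 1 0 0, H') :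
          M2 K × M2 K) = ((-2 : K) • mk 0 0 1, H' * F' - F' * H') := by
        rw [← br_HF]; rfl
      rw [h5] at h3
      exact huniq _ _ _ h3 h4
    have e3 : E' * F' - F' * E' = H' := by
      have h3 := hL _ hE _ hF
      have h5 : ((mk 0 1 0, E') * (mk 0 0 1, F') - (mk 0 0 1, F') * (mk 0 1 0, E') :
          M2 K × M2 K) = (mk 1 0 0, E' * F' - F' * E') := by
        rw [← br_EF]; rfl
      rw [h5] at h3
      exact huniq _ _ _ h3 hH
    -- every element of `S` is a combination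
    have hcomb : ∀ a b c y, (mk a b c, y) ∈ S → y = a • H' + b • E' + c • F' := by
      intro a b c y hy
      refine huniq _ _ _ hy ?_
      rw [mk_eq_comb]
      exact S.add_mem (S.add_mem (S.smul_mem a hH) (S.smul_mem b hE)) (S.smul_mem c hF)
    have hE0 : E' ≠ 0 := by
      intro h0
      have hH0 : H' = 0 := by rw [← e3, h0, zero_mul, mul_zero, sub_zero]
      have hF0 : F' = 0 := by
        rw [hH0, zero_mul, mul_zero, sub_zero] at e2
        exact (smul_eq_zero.1 e2.symm).resolve_left (neg_ne_zero.2 h2)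
      obtain ⟨x, hx⟩ := h1' _ (mk_mem 1 0 0)
      obtain ⟨a, b, c, rfl⟩ := exists_mk (hS _ hx).1
      have h3 := hcomb a b c _ hx
      rw [hH0, h0, hF0, smul_zero, smul_zero, smul_zero, add_zero, add_zero] at h3
      have h4 := congrFun (congrFun h3 0) 0
      simp [mk] at h4
    obtain ⟨g, hg0, hgH, hgE, hgF⟩ := triple_intertwine h2 (hS _ hH).2 (hS _ hE).2 (hS _ hF).2
      e1 e2 e3 hE0
    refine ⟨g, hg0, ?_⟩
    rintro ⟨x, y⟩ hp
    obtain ⟨a, b, c, rfl⟩ := exists_mk (hS _ hp).1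
    change g * mk a b c = y * g
    rw [hcomb a b c y hp, mk_eq_comb, mul_add, mul_add, add_mul, add_mul, mul_smul_comm,
      mul_smul_comm, mul_smul_comm, smul_mul_assoc, smul_mul_assoc, smul_mul_assoc, hgH, hgE, hgF]

end Pool.Agent.Q219.HD
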