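import Mathlib
import Pool.Agent.Q219.HD.Pair

/-!
# Complex matrices of size two and the Lie algebras which they generate over a subfield
-/

set_option autoImplicit false
set_option linter.unusedSectionVars false

open Matrix

namespace Pool.Agent.Q219.HD

variable {K : Type*} [Field K] [CharZero K] [Algebra K ℂ]

/-- The complex matrix of a matrix over `K`. -/
def toC (x : M2 K) : M2 ℂ := x.map (algebraMap K ℂ)

/-- The linear functions of the entries of a complex matrix. -/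
def cofM (N : M2 ℂ) : (ℂ →ₗ[K] K) →ₗ[K] M2 K where
  toFun l := Matrix.of fun i j => l (N i j)
  map_add' l m := by ext i j; rfl
  map_smul' c l := by ext i j; rfl

theorem cofM_apply (N : M2 ℂ) (l : ℂ →ₗ[K] K) (i j : Fin 2) : cofM N l i j = l (N i j) := rfl

theorem sep {z : ℂ} (h : ∀ l : ℂ →ₗ[K] K, l z = 0) : z = 0 :=
  (Module.forall_dual_apply_eq_zero_iff K z).1 h

theorem sep_eq {z w : ℂ} (h : ∀ l : ℂ →ₗ[K] K, l z = l w) : z = w := by
  rw [← sub_eq_zero]
  exact sep (K := K) fun l => by rw [map_sub, h l, sub_self]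

theorem lin_mul (l : ℂ →ₗ[K] K) (a : K) (z : ℂ) : l (algebraMap K ℂ a * z) = a * l z := by
  rw [← Algebra.smul_def, map_smul, smul_eq_mul]

theorem lin_mul' (l : ℂ →ₗ[K] K) (a : K) (z : ℂ) : l (z * algebraMap K ℂ a) = l z * a := by
  rw [mul_comm, lin_mul, mul_comm]

theorem intertwine_iff {g : M2 K} {N N' : M2 ℂ} :
    toC g * N = N' * toC g ↔ ∀ l : ℂ →ₗ[K] K, g * cofM N l = cofM N' l * g := by
  have e1 : ∀ (l : ℂ →ₗ[K] K) (i j : Fin 2), (g * cofM N l) i j = l ((toC g * N) i j) := by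
    intro l i j
    rw [Matrix.mul_apply, Matrix.mul_apply, Fin.sum_univ_two, Fin.sum_univ_two, map_add]
    simp only [toC, Matrix.map_apply, lin_mul, cofM_apply]
  have e2 : ∀ (l : ℂ →ₗ[K] K) (i j : Fin 2), (cofM N' l * g) i j = l ((N' * toC g) i j) := by
    intro l i j
    rw [Matrix.mul_apply, Matrix.mul_apply, Fin.sum_univ_two, Fin.sum_univ_two, map_add]
    simp only [toC, Matrix.map_apply, lin_mul', cofM_apply]
  constructor
  · intro h l
    ext i j
    rw [e1, e2, h]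
  · intro h
    ext i j
    refine sep_eq (K := K) fun l => ?_
    rw [← e1, ← e2, h l]

/-- The properties of the Hodge operator on the first cohomology of an elliptic curve. -/
structure IsHodgeMat (K : Type*) [Field K] [Algebra K ℂ] (N : M2 ℂ) : Prop where
  sq : N * N = 1
  tr : N.trace = 0
  line : ∀ v : Fin 2 → K, v ≠ 0 → ∀ c : ℂ,
    N *ᵥ (fun i => algebraMap K ℂ (v i)) ≠ c • fun i => algebraMap K ℂ (v i)

/-- Only scalars commute with the matrix. -/
def NoCM (K : Type*) [Field K] [Algebra K ℂ] (N : M2 ℂ) : Prop :=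
  ∀ g : M2 K, g.map (algebraMap K ℂ) * N = N * g.map (algebraMap K ℂ) → ∃ c : K, g = c • 1

theorem two_ne : (2 : K) ≠ 0 := two_ne_zero

theorem cofM_sl {N : M2 ℂ} (h : N.trace = 0) (l : ℂ →ₗ[K] K) : cofM N l ∈ sl K := by
  rw [mem_sl, Matrix.trace_fin_two, cofM_apply, cofM_apply, ← map_add, ← Matrix.trace_fin_two, h,
    map_zero]

theorem gen_le_sl {N : M2 ℂ} (h : N.trace = 0) : gen (cofM (K := K) N) ≤ sl K :=
  gen_le sl_isLie fun l => cofM_sl h l

theorem line_of_gen {N : M2 ℂ} {v : Fin 2 → K} (hv : v ≠ 0)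
    (hv' : ∀ l : ℂ →ₗ[K] K, ∃ c : K, cofM N l *ᵥ v = c • v) :
    ∃ c : ℂ, N *ᵥ (fun i => algebraMap K ℂ (v i)) = c • fun i => algebraMap K ℂ (v i) := by
  obtain ⟨V, hV⟩ : ∃ V : Fin 2 → ℂ, V = fun i => algebraMap K ℂ (v i) := ⟨_, rfl⟩
  rw [← hV]
  have hVi : ∀ i, V i = algebraMap K ℂ (v i) := fun i => by rw [hV]
  have e : ∀ i, (N *ᵥ V) i = N i 0 * V 0 + N i 1 * V 1 := by
    intro i
    rw [Matrix.mulVec, dotProduct, Fin.sum_univ_two]
  have h1 : (N *ᵥ V) 0 * V 1 = (N *ᵥ V) 1 * V 0 := by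
    refine sep_eq (K := K) fun l => ?_
    obtain ⟨c, hc⟩ := hv' l
    have h2 : ∀ i, l ((N *ᵥ V) i) = c * v i := by
      intro i
      have h3 := congrFun hc i
      rw [Pi.smul_apply, smul_eq_mul, Matrix.mulVec, dotProduct, Fin.sum_univ_two, cofM_apply,
        cofM_apply] at h3
      rw [← h3, e, map_add, hVi, hVi, lin_mul', lin_mul']
    rw [hVi 1, hVi 0, lin_mul', lin_mul', h2, h2]
    ring
  obtain ⟨i, hi⟩ := Function.ne_iff.1 hv
  have hi' : v i ≠ 0 := hi
  have hVi0 : V i ≠ 0 := by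
    rw [hVi]
    exact (map_ne_zero _).2 hi'
  refine ⟨(N *ᵥ V) i / V i, ?_⟩
  have h4 : ∀ j, (N *ᵥ V) j * V i = (N *ᵥ V) i * V j := by
    have h5 : (i = 0 ∨ i = 1) := by
      rcases i with ⟨_ | _ | n, hn⟩
      · exact Or.inl rfl
      · exact Or.inr rfl
      · omega
    intro j
    have h6 : (j = 0 ∨ j = 1) := by
      rcases j with ⟨_ | _ | n, hn⟩
      · exact Or.inl rfl
      · exact Or.inr rfl
      · omega
    rcases h5 with h5 | h5 <;> rcases h6 with h6 | h6
    · rw [h5, h6]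
    · rw [h5, h6, h1]
    · rw [h5, h6, h1]
    · rw [h5, h6]
  funext j
  rw [Pi.smul_apply, smul_eq_mul, div_mul_eq_mul_div, eq_div_iff hVi0]
  exact h4 j

theorem gen_eq_sl {N : M2 ℂ} (h : IsHodgeMat K N) (hn : NoCM K N) :
    gen (cofM (K := K) N) = sl K := by
  by_contra hne
  have hL : IsLie (gen (cofM (K := K) N)) := gen_isLie _
  have hle : gen (cofM (K := K) N) ≤ sl K := gen_le_sl h.tr
  have hmem : ∀ l : ℂ →ₗ[K] K, cofM N l ∈ gen (cofM (K := K) N) := gen_mem _
  generalize gen (cofM (K := K) N) = S at hne hL hle hmem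
  rcases dichotomy two_ne hL hle hne with ⟨v, hv, hv'⟩ | ⟨g, hg, hg'⟩
  · have h1 : ∀ l : ℂ →ₗ[K] K, ∃ c : K, cofM N l *ᵥ v = c • v := fun l => hv' _ (hmem l)
    obtain ⟨c, hc⟩ := line_of_gen hv h1
    exact h.line v hv c hc
  · have h1 : ∀ l : ℂ →ₗ[K] K, g * cofM N l = cofM N l * g := fun l => hg' _ (hmem l)
    obtain ⟨c, hc⟩ := hn g (intertwine_iff.2 h1)
    exact hg c hc

theorem pair_free {N N' : M2 ℂ} (h : IsHodgeMat K N) (hn : NoCM K N) (h' : IsHodgeMat K N')
    (hn' : NoCM K N') (hiso : ∀ g : M2 K, toC g * N = N' * toC g → g = 0) :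
    Free2 (cofM (K := K) N) (cofM (K := K) N') := by
  have hfst : IsLieMap (LinearMap.fst K (M2 K) (M2 K)) := fun _ _ => rfl
  have hsnd : IsLieMap (LinearMap.snd K (M2 K) (M2 K)) := fun _ _ => rfl
  intro y hy
  rw [gen_eq_sl h' hn'] at hy
  have hS : ∀ p ∈ gen ((cofM (K := K) N).prod (cofM (K := K) N')), p.1 ∈ sl K ∧ p.2 ∈ sl K := by
    intro p hp
    constructor
    · exact gen_le_sl h.tr (map_gen_mem hfst (h' := cofM N) (fun _ => rfl) hp)
    · exact gen_le_sl h'.tr (map_gen_mem hsnd (h' := cofM N') (fun _ => rfl) hp)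
  have hp1 : ∀ x ∈ sl K, ∃ y, (x, y) ∈ gen ((cofM (K := K) N).prod (cofM (K := K) N')) := by
    intro x hx
    rw [← gen_eq_sl h hn] at hx
    obtain ⟨p, hp, rfl⟩ := lift_gen hfst (h := (cofM (K := K) N).prod (cofM (K := K) N'))
      (fun _ => rfl) hx
    exact ⟨p.2, hp⟩
  have hp2 : ∀ y ∈ sl K, ∃ x, (x, y) ∈ gen ((cofM (K := K) N).prod (cofM (K := K) N')) := by
    intro y hy
    rw [← gen_eq_sl h' hn'] at hy
    obtain ⟨p, hp, rfl⟩ := lift_gen hsnd (h := (cofM (K := K) N).prod (cofM (K := K) N'))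
      (fun _ => rfl) hy
    exact ⟨p.1, hp⟩
  rcases pair two_ne (gen_isLie _) hS hp1 hp2 with h1 | ⟨g, hg, hg'⟩
  · exact h1 y hy
  · exact absurd (hiso g (intertwine_iff.2 fun l => hg' _ (gen_mem _ l))) hg

theorem toC_sub (x y : M2 K) : toC (x - y) = toC x - toC y := by
  ext i j; simp [toC]

theorem toC_smul (c : K) (x : M2 K) : toC (c • x) = algebraMap K ℂ c • toC x := by
  ext i j; simp [toC]

theorem toC_one : toC (1 : M2 K) = 1 := by
  ext i j; fin_cases i <;> fin_cases j <;> simp [toC]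

theorem toC_mul (x y : M2 K) : toC (x * y) = toC x * toC y := by
  simp [toC, Matrix.map_mul]

theorem toC_add (x y : M2 K) : toC (x + y) = toC x + toC y := by
  ext i j; simp [toC]

theorem toC_zero : toC (0 : M2 K) = 0 := by
  ext i j; simp [toC]

theorem toC_inj {x y : M2 K} (h : toC x = toC y) : x = y := by
  ext i j
  exact (algebraMap K ℂ).injective (congrFun (congrFun h i) j)

/-- The shape of the matrix in the case of complex multiplication. -/
theorem cm_form {N : M2 ℂ} (h : IsHodgeMat K N) (hcm : ¬ NoCM K N) :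
    ∃ (w : ℂ) (J : M2 K) (μ : K), N = w • toC J ∧ J * J = μ • (1 : M2 K) ∧
      w * w * algebraMap K ℂ μ = 1 ∧ ∀ c : K, J ≠ c • (1 : M2 K) := by
  rw [NoCM] at hcm
  push Not at hcm
  obtain ⟨g, hg, hg'⟩ := hcm
  change toC g * N = N * toC g at hg
  set J : M2 K := g - (g.trace / 2) • (1 : M2 K) with hJ
  have hJsl : J ∈ sl K := by
    rw [mem_sl, hJ, Matrix.trace_sub, Matrix.trace_smul, Matrix.trace_one, Fintype.card_fin,
      smul_eq_mul]
    push_cast
    have := two_ne (K := K)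
    field_simp
    ring
  have hJ0 : ∀ c : K, J ≠ c • (1 : M2 K) := by
    intro c hc
    apply hg' (c + g.trace / 2)
    rw [add_smul, ← hc, hJ, sub_add_cancel]
  have hcomm : toC J * N = N * toC J := by
    rw [hJ, toC_sub, toC_smul, toC_one, sub_mul, mul_sub, hg, smul_mul_assoc, mul_smul_comm,
      one_mul, mul_one]
  obtain ⟨μ, hμ⟩ : ∃ μ : K, J * J = μ • (1 : M2 K) := ⟨_, sq_eq two_ne hJsl⟩
  have hJC : toC J ∈ sl ℂ := by
    obtain ⟨a, b, c, habc⟩ := exists_mk hJsl
    rw [mem_sl, Matrix.trace_fin_two, habc]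
    simp [toC, mk]
  have h1 := mul_add_mul (K := ℂ) (mem_sl.2 h.tr) hJC
  rw [hcomm, ← two_smul ℂ] at h1
  obtain ⟨c, hc⟩ : ∃ c : ℂ, N * toC J = c • (1 : M2 ℂ) := by
    refine ⟨(2 : ℂ)⁻¹ * (N * toC J).trace, ?_⟩
    rw [mul_smul, ← h1, smul_smul, inv_mul_cancel₀ two_ne_zero, one_smul]
  have hJN : toC J = c • N := by
    have : N * (N * toC J) = c • N := by rw [hc, mul_smul_comm, mul_one]
    rwa [← mul_assoc, h.sq, one_mul] at this
  have hμC : toC J * toC J = algebraMap K ℂ μ • (1 : M2 ℂ) := by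
    rw [← toC_mul, hμ, toC_smul, toC_one]
  have hcc : c * c = algebraMap K ℂ μ := by
    rw [hJN, smul_mul_smul_comm, h.sq] at hμC
    have := congrFun (congrFun hμC 0) 0
    simpa using this
  have hc0 : c ≠ 0 := by
    rintro rfl
    rw [zero_smul] at hJN
    have : J = 0 := toC_inj (by rw [hJN, toC_zero])
    exact hJ0 0 (by rw [this, zero_smul])
  refine ⟨c⁻¹, J, μ, ?_, hμ, ?_, hJ0⟩
  · rw [hJN, smul_smul, inv_mul_cancel₀ hc0, one_smul]
  · rw [← hcc]
    field_simp

/-- Proportional eigenvalues give an isogeny. -/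
theorem cm_ratio {N N' : M2 ℂ} {w w' : ℂ} {J J' : M2 K} {μ μ' r : K} (hN : N = w • toC J)
    (hJ : J * J = μ • (1 : M2 K)) (hw : w * w * algebraMap K ℂ μ = 1)
    (hJ0 : ∀ c : K, J ≠ c • (1 : M2 K)) (hN' : N' = w' • toC J')
    (hJ' : J' * J' = μ' • (1 : M2 K)) (hw' : w' * w' * algebraMap K ℂ μ' = 1)
    (hr : w = algebraMap K ℂ r * w') : ∃ g : M2 K, g ≠ 0 ∧ toC g * N = N' * toC g := by
  have hw0 : w ≠ 0 := by
    rintro rfl
    rw [zero_mul, zero_mul] at hw
    exact zero_ne_one hw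
  have hr0 : r ≠ 0 := by
    rintro rfl
    rw [map_zero, zero_mul] at hr
    exact hw0 hr
  have hw'0 : w' ≠ 0 := by
    rintro rfl
    rw [mul_zero] at hr
    exact hw0 hr
  have hμμ' : μ' = r * r * μ := by
    apply (algebraMap K ℂ).injective
    rw [map_mul, map_mul]
    have h1 : w' * w' * algebraMap K ℂ μ' = w' * w' * (algebraMap K ℂ r * algebraMap K ℂ r *
        algebraMap K ℂ μ) := by
      rw [hw', ← hw, hr]; ring
    exact mul_left_cancel₀ (mul_ne_zero hw'0 hw'0) h1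
  have hμ0 : μ ≠ 0 := by
    rintro rfl
    rw [map_zero, mul_zero] at hw
    exact zero_ne_one hw
  obtain ⟨I, hI⟩ : ∃ I : M2 K, I = r⁻¹ • J' := ⟨_, rfl⟩
  have hII : I * I = μ • (1 : M2 K) := by
    rw [hI, smul_mul_smul_comm, hJ', smul_smul, hμμ']
    congr 1
    field_simp
  have hN'' : N' = w • toC I := by
    rw [hI, toC_smul, smul_smul, hN', hr, map_inv₀]
    congr 1
    have : algebraMap K ℂ r ≠ 0 := (map_ne_zero _).2 hr0
    field_simp
  -- the candidate
  have key : ∀ m : M2 K, (I * m * J + μ • m) * J = I * (I * m * J + μ • m) := by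
    intro m
    have e1 : (I * m * J + μ • m) * J = I * m * (J * J) + μ • (m * J) := by
      simp only [add_mul, mul_assoc, smul_mul_assoc]
    have e2 : I * (I * m * J + μ • m) = (I * I) * m * J + μ • (I * m) := by
      simp only [mul_add, mul_assoc, mul_smul_comm]
    rw [e1, e2, hJ, hII, mul_smul_comm, mul_one, smul_mul_assoc, one_mul, smul_mul_assoc, add_comm]
  have hex : ∃ m : M2 K, I * m * J + μ • m ≠ 0 := by
    by_contra hcon
    push Not at hcon
    have h1 := hcon 1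
    rw [mul_one] at h1
    -- `I = - J`
    have h2 : I = -J := by
      have h3 : (I * J + μ • (1 : M2 K)) * J = 0 := by rw [h1, zero_mul]
      rw [add_mul, mul_assoc, hJ, mul_smul_comm, mul_one, smul_mul_assoc, one_mul, ← smul_add]
        at h3
      exact eq_neg_of_add_eq_zero_left ((smul_eq_zero.1 h3).resolve_left hμ0)
    have h3 : ∀ m : M2 K, J * m = m * J := by
      intro m
      have h4 := hcon m
      rw [h2] at h4
      have h5 : J * m * J = μ • m := by
        have : -J * m * J = -(J * m * J) := by rw [neg_mul, neg_mul]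
        rw [this, neg_add_eq_zero] at h4
        exact h4
      have h6 : J * m * J * J = μ • (m * J) := by rw [h5, smul_mul_assoc]
      rw [mul_assoc (J * m), hJ, mul_smul_comm, mul_one] at h6
      exact smul_right_injective _ hμ0 h6
    have h4 : J ∈ Set.range (Matrix.scalar (Fin 2) : K → M2 K) := by
      rw [Matrix.mem_range_scalar_iff_commute_single']
      exact fun i j => (h3 _).symm
    obtain ⟨c, hc⟩ := h4
    apply hJ0 c
    rw [← hc, Matrix.scalar_apply, Matrix.smul_one_eq_diagonal]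
  obtain ⟨m, hm⟩ := hex
  refine ⟨_, hm, ?_⟩
  rw [hN, hN'', mul_smul_comm, smul_mul_assoc, ← toC_mul, ← toC_mul, key]

end Pool.Agent.Q219.HD
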