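import Pool.Agent.Q50.BL.Opr
import Pool.Agent.Q219.HD.Lie

/-!
# The rational operators which are the coefficients of the Hodge operator
-/

open CategoryTheory AlgebraicGeometry TensorProduct

universe u

namespace Pool.Agent.Q219.HD

open Module
open Pool.Agent.H914 Pool.Agent.H914.VarClass Pool.Agent.H914.VarClass.Obj
  Pool.Agent.H914.WeilCohomology
open Pool.Agent.Y133.Half
open Pool.Agent.Y121.AH
open Pool.Agent.Q50.BL

section Lin

variable {K : Type*} [Field K] [Algebra K ℂ] {V V' : Type*} [AddCommGroup V] [Module K V]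
  [AddCommGroup V'] [Module K V']

/-- The map `z ⊗ v ↦ l z • v`. -/
noncomputable def ev (l : ℂ →ₗ[K] K) : ℂ ⊗[K] V →ₗ[K] V :=
  (TensorProduct.lid K V).toLinearMap ∘ₗ LinearMap.rTensor V l

theorem ev_tmul (l : ℂ →ₗ[K] K) (z : ℂ) (v : V) : ev l (z ⊗ₜ[K] v) = l z • v := rfl

theorem ev_add (l m : ℂ →ₗ[K] K) (x : ℂ ⊗[K] V) : ev (l + m) x = ev l x + ev m x := by
  induction x using TensorProduct.induction_on with
  | zero => rw [map_zero, map_zero, map_zero, add_zero]
  | add x y hx hy => rw [map_add, map_add, map_add, hx, hy]; abel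
  | tmul z v => rw [ev_tmul, ev_tmul, ev_tmul, LinearMap.add_apply, add_smul]

theorem ev_smul (c : K) (l : ℂ →ₗ[K] K) (x : ℂ ⊗[K] V) : ev (c • l) x = c • ev l x := by
  induction x using TensorProduct.induction_on with
  | zero => rw [map_zero, map_zero, smul_zero]
  | add x y hx hy => rw [map_add, map_add, hx, hy, smul_add]
  | tmul z v => rw [ev_tmul, ev_tmul, LinearMap.smul_apply, smul_eq_mul, mul_smul]

theorem ev_base (l : ℂ →ₗ[K] K) (f : V →ₗ[K] V') (x : ℂ ⊗[K] V) :
    ev l (f.baseChange ℂ x) = f (ev l x) := by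
  induction x using TensorProduct.induction_on with
  | zero => rw [map_zero, map_zero, map_zero, map_zero]
  | add x y hx hy => rw [map_add, map_add, map_add, map_add, hx, hy]
  | tmul z v => rw [LinearMap.baseChange_tmul, ev_tmul, ev_tmul, map_smul]

theorem ev_sep {x : ℂ ⊗[K] V} (h : ∀ l : ℂ →ₗ[K] K, ev l x = 0) : x = 0 := by
  classical
  let b := Basis.ofVectorSpace K V
  let c := b.baseChange ℂ
  apply c.ext_elem
  intro i
  rw [map_zero, Finsupp.zero_apply]
  apply (Module.forall_dual_apply_eq_zero_iff K _).1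
  intro l
  have key : ∀ y : ℂ ⊗[K] V, b.repr (ev l y) i = l (c.repr y i) := by
    intro y
    induction y using TensorProduct.induction_on with
    | zero => rw [map_zero, map_zero, map_zero, Finsupp.zero_apply, Finsupp.zero_apply, map_zero]
    | add x y hx hy =>
      rw [map_add, map_add, map_add, Finsupp.add_apply, Finsupp.add_apply, map_add, hx, hy]
    | tmul z v =>
      rw [ev_tmul, map_smul, Finsupp.smul_apply, smul_eq_mul, Basis.baseChange_repr_tmul,
        map_smul, smul_eq_mul, mul_comm]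
  rw [← key x, h l, map_zero, Finsupp.zero_apply]

variable {f g : ℂ ⊗[K] V →ₗ[ℂ] ℂ ⊗[K] V'}

/-- The rational maps which are the coefficients of a map over the complex numbers. -/
noncomputable def cofL (f : ℂ ⊗[K] V →ₗ[ℂ] ℂ ⊗[K] V') : (ℂ →ₗ[K] K) →ₗ[K] (V →ₗ[K] V') where
  toFun l :=
    { toFun := fun v => ev l (f (1 ⊗ₜ[K] v))
      map_add' := fun v w => by rw [tmul_add, map_add, map_add]
      map_smul' := fun c v => by
        rw [tmul_smul, ← algebraMap_smul (A := ℂ) c (1 ⊗ₜ[K] v : ℂ ⊗[K] V), map_smul,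
          algebraMap_smul, map_smul, RingHom.id_apply] }
  map_add' l m := by
    apply LinearMap.ext
    intro v
    exact ev_add l m _
  map_smul' c l := by
    apply LinearMap.ext
    intro v
    exact ev_smul c l _

theorem cofL_apply (l : ℂ →ₗ[K] K) (v : V) : cofL f l v = ev l (f (1 ⊗ₜ[K] v)) := rfl

theorem cofL_eq_zero {v : V} : (∀ l, cofL f l v = 0) ↔ f (1 ⊗ₜ[K] v) = 0 := by
  constructor
  · intro h
    exact ev_sep fun l => h l
  · intro h l
    rw [cofL_apply, h, map_zero]

end Lin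

section Alg

variable {K : Type*} [Field K] [Algebra K ℂ] {A : Type*} [Ring A] [Algebra K A]

theorem ev_mul_left (l : ℂ →ₗ[K] K) (a : A) (x : ℂ ⊗[K] A) :
    ev l ((1 ⊗ₜ[K] a) * x) = a * ev l x := by
  induction x using TensorProduct.induction_on with
  | zero => rw [mul_zero, map_zero, mul_zero]
  | add x y hx hy => rw [mul_add, map_add, map_add, mul_add, hx, hy]
  | tmul z v => rw [Algebra.TensorProduct.tmul_mul_tmul, one_mul, ev_tmul, ev_tmul, mul_smul_comm]

theorem ev_mul_right (l : ℂ →ₗ[K] K) (a : A) (x : ℂ ⊗[K] A) :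
    ev l (x * (1 ⊗ₜ[K] a)) = ev l x * a := by
  induction x using TensorProduct.induction_on with
  | zero => rw [zero_mul, map_zero, zero_mul]
  | add x y hx hy => rw [add_mul, map_add, map_add, add_mul, hx, hy]
  | tmul z v => rw [Algebra.TensorProduct.tmul_mul_tmul, mul_one, ev_tmul, ev_tmul, smul_mul_assoc]

end Alg

variable {k : Type u} [Field k] {𝒱 : VarClass k} {ops : CycleOps 𝒱} (T : HodgeTheory ops)
  {X Y Z : 𝒱.Obj}

/-- The rational functionals on the complex numbers. -/
abbrev Lam : Type := ℂ →ₗ[T.W.K] T.W.K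

/-- The endomorphisms of the cohomology. -/
abbrev EH (X : 𝒱.Obj) : Type := Module.End T.W.K (T.W.H X)

/-- The coefficients of the Hodge operator. -/
noncomputable def hg (X : 𝒱.Obj) : Lam T →ₗ[T.W.K] EH T X := cofL (hop T X)

variable {T}

theorem hg_apply (l : Lam T) (v : T.W.H X) : hg T X l v = ev l (hop T X (1 ⊗ₜ[T.W.K] v)) := rfl

theorem mem_hodge_iff {c : T.W.H X} : c ∈ (hodgeSys T).C X ↔ ∀ l, hg T X l c = 0 := by
  constructor
  · intro h l
    rw [hg_apply, hop_hodge h, map_zero]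
  · intro h
    exact hodge_of_hop (cofL_eq_zero.1 h)

theorem hg_mul (l : Lam T) (a b : T.W.H X) : hg T X l (a * b) = hg T X l a * b + a * hg T X l b := by
  have e : (1 ⊗ₜ[T.W.K] (a * b) : CH T X) = (1 ⊗ₜ[T.W.K] a) * (1 ⊗ₜ[T.W.K] b) := by
    rw [Algebra.TensorProduct.tmul_mul_tmul, one_mul]
  rw [hg_apply, e, hop_mul, map_add, ev_mul_left, ev_mul_right]
  rfl

theorem hg_map (l : Lam T) (f : X ⟶ Y) (b : T.W.H Y) :
    hg T X l (T.W.map f b) = T.W.map f (hg T Y l b) := by
  have e : (1 ⊗ₜ[T.W.K] (T.W.map f b) : CH T X) = mp T f (1 ⊗ₜ[T.W.K] b) := (mp_tmul f 1 b).symm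
  rw [hg_apply, e, hop_mp]
  exact ev_base l (T.W.map f).toLinearMap _

theorem hg_one (l : Lam T) : hg T X l 1 = 0 := by
  have h := hg_mul l (1 : T.W.H X) 1
  rw [mul_one, mul_one, one_mul] at h
  exact (add_eq_left.1 h.symm)

/-- The operators on the factors of a product. -/
noncomputable def two (W : WeilCohomology.{u, 0} ops) (X Y : 𝒱.Obj) :
    (Module.End W.K (W.H X) × Module.End W.K (W.H Y)) →ₗ[W.K] Module.End W.K (W.H (X.prod Y)) where
  toFun p := extOp W p.1 1 + extOp W 1 p.2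
  map_add' p q := by
    rw [Prod.fst_add, Prod.snd_add, extOp_add_left, extOp_add_right]
    abel
  map_smul' c p := by
    rw [Prod.smul_fst, Prod.smul_snd, extOp_smul_left, extOp_smul_right, RingHom.id_apply, smul_add]

theorem two_apply (W : WeilCohomology.{u, 0} ops) (φ : Module.End W.K (W.H X))
    (ψ : Module.End W.K (W.H Y)) : two W X Y (φ, ψ) = extOp W φ 1 + extOp W 1 ψ := rfl

theorem two_tmul (W : WeilCohomology.{u, 0} ops) (φ : Module.End W.K (W.H X))
    (ψ : Module.End W.K (W.H Y)) (a : W.H X) (b : W.H Y) :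
    two W X Y (φ, ψ) (W.map (fst X Y) a * W.map (snd X Y) b) =
      W.map (fst X Y) (φ a) * W.map (snd X Y) b + W.map (fst X Y) a * W.map (snd X Y) (ψ b) := by
  rw [two_apply, LinearMap.add_apply, extOp_tmul, extOp_tmul]
  rfl

theorem two_isLieMap (W : WeilCohomology.{u, 0} ops) (X Y : 𝒱.Obj) : IsLieMap (two W X Y) := by
  rintro ⟨φ, ψ⟩ ⟨φ', ψ'⟩
  apply ext_kunneth_lin
  intro a b
  have e : ((φ, ψ) * (φ', ψ') - (φ', ψ') * (φ, ψ) : Module.End W.K (W.H X) ×
      Module.End W.K (W.H Y)) = (φ * φ' - φ' * φ, ψ * ψ' - ψ' * ψ) := rfl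
  rw [e, two_tmul]
  change _ = two W X Y (φ, ψ) (two W X Y (φ', ψ') (W.map (fst X Y) a * W.map (snd X Y) b)) -
    two W X Y (φ', ψ') (two W X Y (φ, ψ) (W.map (fst X Y) a * W.map (snd X Y) b))
  rw [two_tmul, two_tmul, map_add, map_add, two_tmul, two_tmul, two_tmul, two_tmul]
  simp only [LinearMap.sub_apply, Module.End.mul_apply, map_sub, sub_mul, mul_sub]
  abel

theorem hg_prod (l : Lam T) : hg T (X.prod Y) l = two T.W X Y (hg T X l, hg T Y l) := by
  apply ext_kunneth_lin
  intro a b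
  rw [hg_mul, hg_map, hg_map, two_tmul]

end Pool.Agent.Q219.HD
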