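import Mathlib
import Pool.Agent.Q219.HD.Lie

/-!
# The number of the factors which are not independent of a given one
-/

set_option autoImplicit false
set_option linter.unusedSectionVars false

namespace Pool.Agent.Q219.HD

variable {K : Type*} [Field K] {Λ : Type*} [AddCommGroup Λ] [Module K Λ]

/-- The ideals of a Lie algebra. -/
def IsIdeal {R : Type*} [Ring R] [Algebra K R] (P G : Submodule K R) : Prop :=
  P ≤ G ∧ ∀ x ∈ G, ∀ y ∈ P, x * y - y * x ∈ P

section

variable {B : Type*} [Fintype B] [DecidableEq B] {A : Option B → Type*}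
  [∀ j, Ring (A j)] [∀ j, Algebra K (A j)] [∀ j, FiniteDimensional K (A j)]
  (h : ∀ j, Λ →ₗ[K] A j)

/-- The elements with trivial component `none`. -/
def nul : Submodule K (∀ j, A j) := fam h ⊓ LinearMap.ker (LinearMap.proj none : (∀ j, A j) →ₗ[K] A none)

/-- The components of these elements. -/
def comp (b : B) : Submodule K (A (some b)) :=
  (nul h).map (LinearMap.proj (some b) : (∀ j, A j) →ₗ[K] A (some b))

variable {h}

theorem mem_comp {b : B} {x : A (some b)} :
    x ∈ comp h b ↔ ∃ X ∈ fam h, X (some b) = x ∧ X none = 0 := by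
  constructor
  · rintro ⟨X, ⟨h1, h2⟩, rfl⟩
    exact ⟨X, h1, rfl, h2⟩
  · rintro ⟨X, h1, rfl, h2⟩
    exact ⟨X, ⟨h1, h2⟩, rfl⟩

theorem comp_ideal (b : B) : IsIdeal (comp h b) (gen (h (some b))) := by
  constructor
  · intro x hx
    obtain ⟨X, h1, rfl, -⟩ := mem_comp.1 hx
    exact fam_eval h1
  · intro x hx y hy
    obtain ⟨X, hX, rfl⟩ := fam_lift hx
    obtain ⟨Y, hY, rfl, hY'⟩ := mem_comp.1 hy
    refine mem_comp.2 ⟨X * Y - Y * X, fam_isLie _ hX _ hY, rfl, ?_⟩
    change X none * Y none - Y none * X none = 0
    rw [hY', mul_zero, zero_mul, sub_zero]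

theorem free_of_comp {b : B} (hb : comp h b = gen (h (some b))) : Free h none (some b) := by
  intro x hx
  rw [← hb] at hx
  exact mem_comp.1 hx

theorem finrank_nul_le : Module.finrank K (nul h) ≤ ∑ b, Module.finrank K (comp h b) := by
  have hm : ∀ (X : nul h) (b : B), X.1 (some b) ∈ comp h b := fun X b => ⟨X.1, X.2, rfl⟩
  let f : nul h →ₗ[K] ∀ b, comp h b :=
    { toFun := fun X b => ⟨X.1 (some b), hm X b⟩
      map_add' := fun X Y => rfl
      map_smul' := fun c X => rfl }
  have hf : Function.Injective f := by
    intro X Y hXY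
    apply Subtype.ext
    funext j
    cases j with
    | none =>
      have h1 : X.1 none = 0 := X.2.2
      have h2 : Y.1 none = 0 := Y.2.2
      rw [h1, h2]
    | some b => exact congrArg Subtype.val (congrFun hXY b)
  refine (LinearMap.finrank_le_finrank_of_injective hf).trans ?_
  rw [Module.finrank_pi_fintype]

theorem exists_tuple (hp : ∀ b, IsPerfect (gen (h (some b))))
    (hfree : ∀ b b', b ≠ b' → Free h (some b') (some b)) (x : ∀ b, gen (h (some b))) :
    ∃ X ∈ fam h, ∀ b, X (some b) = x b := by
  have h1 : ∀ b, ∃ X ∈ fam h, X (some b) = x b ∧ ∀ b', b' ≠ b → X (some b') = 0 := by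
    intro b
    obtain ⟨X, hX, hX1, hX2⟩ := kill (hp b) ((Finset.univ.erase b).image some)
      (fun a ha => by
        obtain ⟨b', hb', rfl⟩ := Finset.mem_image.1 ha
        exact hfree b b' (Finset.ne_of_mem_erase hb').symm) (x b) (x b).2
    exact ⟨X, hX, hX1, fun b' hb' => hX2 _ (Finset.mem_image_of_mem _
      (Finset.mem_erase.2 ⟨hb', Finset.mem_univ _⟩))⟩
  choose X hX hX1 hX2 using h1
  refine ⟨∑ b, X b, Submodule.sum_mem _ fun b _ => hX b, fun b => ?_⟩
  rw [Finset.sum_apply, Finset.sum_eq_single b]
  · exact hX1 b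
  · intro b' _ hb'
    exact hX2 b' b hb'.symm
  · intro hb
    exact absurd (Finset.mem_univ b) hb

/-- **The counting theorem.** -/
theorem count_bad (hp : ∀ b, IsPerfect (gen (h (some b))))
    (hfree : ∀ b b', b ≠ b' → Free h (some b') (some b)) (hbad : ∀ b, ¬ Free h none (some b))
    (D : B → ℕ) (hD : ∀ b (P : Submodule K (A (some b))), IsIdeal P (gen (h (some b))) →
      P ≠ gen (h (some b)) → Module.finrank K P + D b ≤ Module.finrank K (gen (h (some b)))) :
    ∑ b, D b ≤ Module.finrank K (gen (h none)) := by
  have h1 : ∀ b, Module.finrank K (comp h b) + D b ≤ Module.finrank K (gen (h (some b))) :=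
    fun b => hD b _ (comp_ideal b) fun hb => hbad b (free_of_comp hb)
  have h2 : ∑ b, Module.finrank K (comp h b) + ∑ b, D b ≤
      ∑ b, Module.finrank K (gen (h (some b))) := by
    rw [← Finset.sum_add_distrib]
    exact Finset.sum_le_sum fun b _ => h1 b
  -- the projection to the other components
  have h3 : ∑ b, Module.finrank K (gen (h (some b))) ≤ Module.finrank K (fam h) := by
    let f : fam h →ₗ[K] ∀ b, gen (h (some b)) :=
      { toFun := fun X b => ⟨X.1 (some b), fam_eval X.2⟩
        map_add' := fun X Y => rfl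
        map_smul' := fun c X => rfl }
    have hf : Function.Surjective f := by
      intro x
      obtain ⟨X, hX, hX'⟩ := exists_tuple hp hfree x
      exact ⟨⟨X, hX⟩, funext fun b => Subtype.ext (hX' b)⟩
    have := LinearMap.finrank_le_finrank_of_surjective hf
    rwa [Module.finrank_pi_fintype] at this
  -- the projection to the component `none`
  have h4 : Module.finrank K (fam h) ≤ Module.finrank K (gen (h none)) +
      Module.finrank K (nul h) := by
    let g : fam h →ₗ[K] gen (h none) :=
      { toFun := fun X => ⟨X.1 none, fam_eval X.2⟩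
        map_add' := fun X Y => rfl
        map_smul' := fun c X => rfl }
    have h5 := LinearMap.finrank_range_add_finrank_ker g
    have h6 : Module.finrank K (LinearMap.range g) ≤ Module.finrank K (gen (h none)) :=
      Submodule.finrank_le _
    have h7 : Module.finrank K (LinearMap.ker g) ≤ Module.finrank K (nul h) := by
      let i : LinearMap.ker g →ₗ[K] nul h :=
        { toFun := fun X => ⟨X.1.1, X.1.2, congrArg Subtype.val (show g X.1 = 0 from X.2)⟩
          map_add' := fun X Y => rfl
          map_smul' := fun c X => rfl }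
      refine LinearMap.finrank_le_finrank_of_injective (f := i) fun X Y hXY => ?_
      exact Subtype.ext (Subtype.ext (congrArg (fun z : nul h => z.1) hXY))
    omega
  have h8 := finrank_nul_le (h := h)
  omega

end

end Pool.Agent.Q219.HD
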