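import Mathlib

/-!
# Linear independence of square roots, and modulo finite-dimensional spaces
-/

set_option autoImplicit false
set_option linter.unusedSectionVars false

open Module Polynomial

namespace Pool.Agent.Q219.HD

section Trace

variable {K F : Type*} [Field K] [Field F] [Algebra K F] [FiniteDimensional K F]

/-- The trace of a square root. -/
theorem trace_sqrt {x : F} {a : K} (hx : x * x = algebraMap K F a)
    (hx' : ∀ r : K, x ≠ algebraMap K F r) : Algebra.trace K F x = 0 := by
  rw [trace_eq_finrank_mul_minpoly_nextCoeff]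
  have hint : IsIntegral K x := IsIntegral.of_finite K x
  have hmin : minpoly K x = X ^ 2 - C a := by
    have hdvd : minpoly K x ∣ X ^ 2 - C a := by
      apply minpoly.dvd
      rw [map_sub, map_pow, aeval_X, aeval_C, pow_two, hx, sub_self]
    have hmon : (X ^ 2 - C a : K[X]).Monic := monic_X_pow_sub_C a two_ne_zero
    have hdeg : (X ^ 2 - C a : K[X]).natDegree = 2 := natDegree_X_pow_sub_C
    have h1 : (minpoly K x).natDegree ≤ 2 := by
      rw [← hdeg]; exact natDegree_le_of_dvd hdvd hmon.ne_zero
    have h2 : 2 ≤ (minpoly K x).natDegree := by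
      rw [minpoly.two_le_natDegree_iff hint]
      rintro ⟨r, hr⟩
      exact hx' r hr.symm
    exact (eq_of_monic_of_dvd_of_natDegree_le (minpoly.monic hint) hmon hdvd (by omega)).symm
  have hnext : (minpoly K x).nextCoeff = 0 := by
    rw [hmin, nextCoeff_of_natDegree_pos (by rw [natDegree_X_pow_sub_C]; norm_num),
      natDegree_X_pow_sub_C]
    simp [coeff_X_pow]
  rw [hnext, neg_zero, mul_zero]

end Trace

/-- **Square roots of elements of `K` are linearly independent if their ratios are not in `K`.** -/
theorem sqrt_independent {K L ι : Type*} [Field K] [CharZero K] [Field L] [Algebra K L]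
    {w : ι → L} (hw : ∀ i, w i ≠ 0) (hsq : ∀ i, ∃ a : K, w i * w i = algebraMap K L a)
    (hne : ∀ i j, i ≠ j → ∀ r : K, w i ≠ algebraMap K L r * w j) : LinearIndependent K w := by
  classical
  rw [linearIndependent_iff']
  intro s g hg j hj
  set S : Finset L := s.image w with hS
  have hint : ∀ x ∈ S, IsIntegral K x := by
    intro x hx
    obtain ⟨i, -, rfl⟩ := Finset.mem_image.1 hx
    obtain ⟨a, ha⟩ := hsq i
    refine ⟨X ^ 2 - C a, monic_X_pow_sub_C a two_ne_zero, ?_⟩
    rw [← aeval_def, map_sub, map_pow, aeval_X, aeval_C, pow_two, ha, sub_self]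
  set F := IntermediateField.adjoin K (S : Set L) with hF
  have hfin : FiniteDimensional K F := IntermediateField.finiteDimensional_adjoin hint
  have hmem : ∀ i ∈ s, w i ∈ F := fun i hi =>
    IntermediateField.subset_adjoin K _ (Finset.mem_coe.2 (Finset.mem_image_of_mem w hi))
  have hsum : ∑ i ∈ s.attach, g i • ((⟨w i, hmem i i.2⟩ : F) * ⟨w j, hmem j hj⟩) = 0 := by
    apply Subtype.ext
    have e0 : ((∑ i ∈ s.attach, g i • ((⟨w i, hmem i i.2⟩ : F) * ⟨w j, hmem j hj⟩) : F) : L) =
        ∑ i ∈ s.attach, ((g i • ((⟨w i, hmem i i.2⟩ : F) * ⟨w j, hmem j hj⟩) : F) : L) :=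
      map_sum F.val _ _
    rw [e0]
    have e : ∀ i : s, ((g i • ((⟨w i, hmem i i.2⟩ : F) * ⟨w j, hmem j hj⟩) : F) : L) =
        (g i • w i) * w j := by
      intro i
      rw [smul_mul_assoc]
      rfl
    rw [Finset.sum_congr rfl fun i _ => e i, ← Finset.sum_mul,
      Finset.sum_attach s fun i => g i • w i, hg, zero_mul]
    rfl
  have htr := congrArg (Algebra.trace K F) hsum
  rw [map_sum, map_zero, Finset.sum_eq_single (⟨j, hj⟩ : s)] at htr
  · obtain ⟨a, ha⟩ := hsq j
    have e : ((⟨w j, hmem j hj⟩ : F) * ⟨w j, hmem j hj⟩) = algebraMap K F a := by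
      apply Subtype.ext
      exact ha
    change Algebra.trace K F (g j • ((⟨w j, hmem j hj⟩ : F) * ⟨w j, hmem j hj⟩)) = 0 at htr
    rw [map_smul, e, Algebra.trace_algebraMap, smul_eq_mul, nsmul_eq_mul] at htr
    have ha0 : a ≠ 0 := by
      rintro rfl
      rw [map_zero] at ha
      exact hw j (mul_self_eq_zero.1 ha)
    have hn : ((finrank K F : ℕ) : K) ≠ 0 := by
      exact_mod_cast (Module.finrank_pos (R := K) (M := F)).ne'
    exact (mul_eq_zero.1 htr).resolve_right (mul_ne_zero hn ha0)
  · intro i _ hij
    have hij' : (i : ι) ≠ j := fun h => hij (Subtype.ext h)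
    rw [map_smul]
    obtain ⟨a, ha⟩ := hsq i
    obtain ⟨b, hb⟩ := hsq j
    have hb0 : b ≠ 0 := by
      rintro rfl
      rw [map_zero] at hb
      exact hw j (mul_self_eq_zero.1 hb)
    have e : Algebra.trace K F ((⟨w i, hmem i i.2⟩ : F) * ⟨w j, hmem j hj⟩) = 0 := by
      refine trace_sqrt (a := a * b) ?_ fun r hr => ?_
      · apply Subtype.ext
        change w i * w j * (w i * w j) = algebraMap K L (a * b)
        rw [map_mul, ← ha, ← hb]
        ring
      · have h1 : w i * w j = algebraMap K L r := congrArg Subtype.val hr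
        refine hne i j hij' (r / b) ?_
        rw [map_div₀, ← h1, ← hb]
        have := hw j
        field_simp
    rw [e, smul_zero]
  · intro h
    exact absurd (Finset.mem_attach _ _) h

/-- Linear independence modulo a space of finite dimension. -/
theorem exchange {K V V' ι : Type*} [Field K] [AddCommGroup V] [Module K V] [AddCommGroup V']
    [Module K V'] {v : ι → V} (hv : LinearIndependent K v) (f : V →ₗ[K] V') {m : ℕ}
    [FiniteDimensional K (LinearMap.ker f)] (hm : finrank K (LinearMap.ker f) ≤ m) :
    ∃ S : Finset ι, S.card ≤ m ∧ LinearIndependent K fun i : {i // i ∉ S} => f (v i) := by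
  classical
  obtain ⟨κ, a, ha, hspan, hli⟩ := exists_linearIndependent' K (fun i => f (v i))
  -- the complement of the range of `a` is finite
  have hbound : ∀ T : Finset ι, (∀ t ∈ T, t ∉ Set.range a) → T.card ≤ m := by
    intro T hT
    have h1 : ∀ t : T, ∃ l : κ →₀ K, f (v t) = Finsupp.linearCombination K (fun k => f (v (a k))) l := by
      intro t
      have h2 : f (v t) ∈ Submodule.span K (Set.range fun i => f (v i)) :=
        Submodule.subset_span ⟨t, rfl⟩
      rw [← hspan] at h2
      obtain ⟨l, hl⟩ := (Finsupp.mem_span_range_iff_exists_finsupp).1 h2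
      refine ⟨l, ?_⟩
      rw [Finsupp.linearCombination_apply]
      exact hl.symm
    choose l hl using h1
    -- elements of the kernel
    let u : T → LinearMap.ker f := fun t =>
      ⟨v t - Finsupp.linearCombination K (fun k => v (a k)) (l t), by
        rw [LinearMap.mem_ker, map_sub, hl t, sub_eq_zero]
        simp only [Finsupp.linearCombination_apply, Finsupp.sum, map_sum, map_smul]⟩
    have hu : LinearIndependent K u := by
      rw [Fintype.linearIndependent_iff]
      intro g hg t
      have h3 : ∑ t, g t • (v t - Finsupp.linearCombination K (fun k => v (a k)) (l t)) = 0 := by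
        have := congrArg Subtype.val hg
        rw [Submodule.coe_sum] at this
        exact this
      -- write it as one combination of the `v i`
      set G : ι →₀ K := ∑ t : T, (Finsupp.single (t : ι) (g t) - g t • (l t).mapDomain a) with hG
      have h4 : Finsupp.linearCombination K v G = 0 := by
        rw [hG, map_sum, ← h3]
        refine Finset.sum_congr rfl fun t _ => ?_
        rw [map_sub, map_smul, Finsupp.linearCombination_single,
          Finsupp.linearCombination_mapDomain, smul_sub]
        rfl
      have h5 : G = 0 := (linearIndependent_iff.1 hv) G h4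
      have h6 : G t = g t := by
        rw [hG, Finsupp.finsetSum_apply, Finset.sum_eq_single t]
        · rw [Finsupp.sub_apply, Finsupp.single_eq_same, Finsupp.smul_apply,
            Finsupp.mapDomain_of_notMem_range _ _ (hT t t.2), smul_zero, sub_zero]
        · intro t' _ ht'
          rw [Finsupp.sub_apply, Finsupp.single_eq_of_ne (fun h => ht' (Subtype.ext h.symm)),
            Finsupp.smul_apply, Finsupp.mapDomain_of_notMem_range _ _ (hT t t.2), smul_zero, sub_zero]
        · intro h
          exact absurd (Finset.mem_univ t) h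
      rw [← h6, h5, Finsupp.zero_apply]
    have h7 := hu.fintype_card_le_finrank
    rw [Fintype.card_coe] at h7
    exact h7.trans hm
  have hfin : (Set.range a)ᶜ.Finite := by
    by_contra hinf
    obtain ⟨T, hT, hTc⟩ := Set.Infinite.exists_subset_card_eq hinf (m + 1)
    have := hbound T fun t ht => hT (Finset.mem_coe.2 ht)
    omega
  refine ⟨hfin.toFinset, hbound _ fun t ht => (Set.Finite.mem_toFinset hfin).1 ht, ?_⟩
  have hr : ∀ i : {i // i ∉ hfin.toFinset}, ∃ k, a k = i := by
    rintro ⟨i, hi⟩
    rw [Set.Finite.mem_toFinset, Set.notMem_compl_iff] at hi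
    exact hi
  choose b hb using hr
  have hbinj : Function.Injective b := by
    intro i j hij
    apply Subtype.ext
    rw [← hb i, ← hb j, hij]
  have h8 := hli.comp b hbinj
  have h9 : (fun i : {i // i ∉ hfin.toFinset} => f (v i)) = ((fun i => f (v i)) ∘ a) ∘ b := by
    funext i
    change f (v i) = f (v (a (b i)))
    rw [hb i]
  rw [h9]
  exact h8

/-- Finitely many independent functionals take arbitrary values. -/
theorem exists_value {K V ι : Type*} [Field K] [AddCommGroup V] [Module K V] [Fintype ι]
    [DecidableEq ι] {φ : ι → (V →ₗ[K] K)} (hφ : LinearIndependent K φ) (i : ι) :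
    ∃ x : V, φ i x = 1 ∧ ∀ j, j ≠ i → φ j x = 0 := by
  set P : V →ₗ[K] (ι → K) := LinearMap.pi φ with hP
  have hsurj : LinearMap.range P = ⊤ := by
    by_contra hne
    obtain ⟨g, hg, hle⟩ := Submodule.exists_le_ker_of_lt_top _ (lt_top_iff_ne_top.2 hne)
    apply hg
    have h1 : ∑ j, g (Pi.single j 1) • φ j = 0 := by
      apply LinearMap.ext
      intro x
      have h2 : g (P x) = 0 := hle ⟨x, rfl⟩
      rw [LinearMap.zero_apply, ← h2]
      have h3 : P x = ∑ j, (φ j x) • (Pi.single j (1 : K) : ι → K) := by
        funext k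
        rw [Finset.sum_apply, Finset.sum_eq_single k]
        · simp [hP]
        · intro j _ hj
          simp [Pi.single_eq_of_ne hj.symm]
        · intro h
          exact absurd (Finset.mem_univ k) h
      rw [h3, map_sum, LinearMap.sum_apply]
      refine Finset.sum_congr rfl fun j _ => ?_
      rw [map_smul, LinearMap.smul_apply, smul_eq_mul, smul_eq_mul, mul_comm]
    have h4 := (Fintype.linearIndependent_iff.1 hφ) _ h1
    apply LinearMap.pi_ext'
    intro j
    apply LinearMap.ext_ring
    rw [LinearMap.comp_apply, LinearMap.zero_comp, LinearMap.zero_apply]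
    exact h4 j
  have : (Pi.single i (1 : K) : ι → K) ∈ LinearMap.range P := by rw [hsurj]; trivial
  obtain ⟨x, hx⟩ := this
  refine ⟨x, ?_, fun j hj => ?_⟩
  · have := congrFun hx i
    rw [Pi.single_eq_same] at this
    exact this
  · have := congrFun hx j
    rw [Pi.single_eq_of_ne hj] at this
    exact this

end Pool.Agent.Q219.HD
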