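import Mathlib
import Pool.Agent.Q219.HD.Count
import Pool.Agent.Q219.HD.Quad

/-!
# Families with commutative members
-/

set_option autoImplicit false
set_option linter.unusedSectionVars false

open Module

namespace Pool.Agent.Q219.HD

variable {K : Type*} [Field K] {Λ : Type*} [AddCommGroup Λ] [Module K Λ]

section

variable {B : Type*} [Fintype B] [DecidableEq B] {A : Option B → Type*}
  [∀ j, Ring (A j)] [∀ j, Algebra K (A j)] {h : ∀ j, Λ →ₗ[K] A j}

/-- The members of the family are independent. -/
theorem decouple (cm : B → Prop) (χ : B → (Λ →ₗ[K] K)) (J : ∀ b, A (some b))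
    (hnc : ∀ b, ¬ cm b → IsPerfect (gen (h (some b))))
    (hpair : ∀ b b', ¬ cm b → ¬ cm b' → b ≠ b' → Free h (some b') (some b))
    (hnone : ∀ b, ¬ cm b → Free h none (some b))
    (hcm : ∀ b, cm b → ∀ l, h (some b) l = χ b l • J b)
    (hval : ∀ b, cm b → ∃ l, h none l = 0 ∧ χ b l = 1 ∧ ∀ b', cm b' → b' ≠ b → χ b' l = 0) :
    ∀ b, ∀ x ∈ gen (h (some b)), (Pi.single (some b) x : ∀ j, A j) ∈ fam h := by
  classical
  have hle : ∀ b, cm b → gen (h (some b)) ≤ Submodule.span K {J b} := by
    intro b hb
    refine gen_le ?_ fun l => by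
      rw [hcm b hb l]
      exact Submodule.smul_mem _ _ (Submodule.mem_span_singleton_self _)
    intro x hx y hy
    obtain ⟨c, rfl⟩ := Submodule.mem_span_singleton.1 hx
    obtain ⟨d, rfl⟩ := Submodule.mem_span_singleton.1 hy
    rw [smul_mul_smul_comm, smul_mul_smul_comm, mul_comm c d, sub_self]
    exact Submodule.zero_mem _
  have hcomm : ∀ b, cm b → ∀ x ∈ gen (h (some b)), ∀ y ∈ gen (h (some b)), x * y = y * x := by
    intro b hb x hx y hy
    obtain ⟨c, rfl⟩ := Submodule.mem_span_singleton.1 (hle b hb hx)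
    obtain ⟨d, rfl⟩ := Submodule.mem_span_singleton.1 (hle b hb hy)
    rw [smul_mul_smul_comm, smul_mul_smul_comm, mul_comm c d]
  have key : ∀ b, ¬ cm b → ∀ x ∈ gen (h (some b)), (Pi.single (some b) x : ∀ j, A j) ∈ fam h := by
    intro b hb x hx
    refine single_mem (hnc b hb) (fun a ha => ?_) hx
    cases a with
    | none => exact hnone b hb
    | some b' =>
      have hbb' : b ≠ b' := fun e => ha (by rw [e])
      by_cases hb' : cm b'
      · exact free_of_comm (hnc b hb) (hcomm b' hb')
      · exact hpair b b' hb hb' hbb'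
  intro b x hx
  by_cases hb : cm b
  · obtain ⟨c, rfl⟩ := Submodule.mem_span_singleton.1 (hle b hb hx)
    obtain ⟨l, hl0, hl1, hl2⟩ := hval b hb
    have h1 : (fun j => h j l) ∈ fam h := fam_mem l
    have h2 : (∑ b' : B, if cm b' then 0 else (Pi.single (some b') (h (some b') l) :
        ∀ j, A j)) ∈ fam h := by
      refine Submodule.sum_mem _ fun b' _ => ?_
      split_ifs with hb'
      · exact Submodule.zero_mem _
      · exact key b' hb' _ (gen_mem _ l)
    have h3 : (Pi.single (some b) (J b) : ∀ j, A j) = (fun j => h j l) -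
        ∑ b' : B, if cm b' then 0 else (Pi.single (some b') (h (some b') l) : ∀ j, A j) := by
      funext j
      rw [Pi.sub_apply, Finset.sum_apply]
      cases j with
      | none =>
        rw [Pi.single_eq_of_ne (by simp), hl0, Finset.sum_eq_zero, sub_zero]
        intro b' _
        split_ifs
        · rfl
        · rw [Pi.single_eq_of_ne (by simp)]
      | some a =>
        rw [Finset.sum_eq_single a]
        · by_cases ha : cm a
          · rw [if_pos ha, Pi.zero_apply, sub_zero, hcm a ha]
            by_cases hab : a = b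
            · subst hab
              rw [Pi.single_eq_same, hl1, one_smul]
            · rw [Pi.single_eq_of_ne (fun e => hab (Option.some.inj e)), hl2 a ha hab, zero_smul]
          · rw [if_neg ha, Pi.single_eq_same, sub_self]
            rw [Pi.single_eq_of_ne]
            intro e
            exact ha (Option.some.inj e ▸ hb)
        · intro b' _ hb'
          split_ifs
          · rfl
          · rw [Pi.single_eq_of_ne (fun e => hb' (Option.some.inj e).symm)]
        · intro h'
          exact absurd (Finset.mem_univ a) h'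
    have h4 : (Pi.single (some b) (J b) : ∀ j, A j) ∈ fam h := by
      rw [h3]
      exact Submodule.sub_mem _ h1 h2
    have h5 : (Pi.single (some b) (c • J b) : ∀ j, A j) = c • Pi.single (some b) (J b) := by
      rw [Pi.single_smul]
    rw [h5]
    exact Submodule.smul_mem _ _ h4
  · exact key b hb x hx

end

/-- The choice of the exceptional set for the commutative members: `χ i` are independent functionals,
`f` is a linear map to a space of finite dimension `m`. -/
theorem exists_set {ι R : Type*} [AddCommGroup R] [Module K R] [FiniteDimensional K R]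
    {χ : ι → (Λ →ₗ[K] K)} (hχ : LinearIndependent K χ) (f : Λ →ₗ[K] R) :
    ∃ S : Finset ι, S.card ≤ finrank K R ∧ ∀ (T : Finset ι), Disjoint S T → ∀ i ∈ T,
      ∃ l, f l = 0 ∧ χ i l = 1 ∧ ∀ j ∈ T, j ≠ i → χ j l = 0 := by
  classical
  set N : Submodule K Λ := LinearMap.ker f with hN
  set r : (Λ →ₗ[K] K) →ₗ[K] (N →ₗ[K] K) := N.dualRestrict with hr
  have hker : LinearMap.ker r = LinearMap.range f.dualMap := by
    rw [hr, Submodule.dualRestrict_ker_eq_dualAnnihilator, hN,
      LinearMap.range_dualMap_eq_dualAnnihilator_ker]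
  have hfin : FiniteDimensional K (LinearMap.ker r) := by
    rw [hker]
    infer_instance
  have hle : finrank K (LinearMap.ker r) ≤ finrank K R := by
    rw [hker, ← Subspace.dual_finrank_eq (K := K) (V := R)]
    exact LinearMap.finrank_range_le _
  obtain ⟨S, hS, hS'⟩ := exchange hχ r hle
  refine ⟨S, hS, fun T hT i hi => ?_⟩
  have hT' : ∀ t : T, (t : ι) ∉ S := fun t ht => (Finset.disjoint_left.1 hT) ht t.2
  have hli : LinearIndependent K fun t : T => r (χ t) :=
    hS'.comp (fun t : T => (⟨t, hT' t⟩ : {i // i ∉ S})) fun a b hab =>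
      Subtype.ext (congrArg (fun z : {i // i ∉ S} => (z : ι)) hab)
  obtain ⟨x, hx1, hx2⟩ := exists_value hli ⟨i, hi⟩
  refine ⟨x, x.2, hx1, fun j hj hji => ?_⟩
  exact hx2 ⟨j, hj⟩ fun e => hji (congrArg Subtype.val e)

/-- The choice of the exceptional set for the commutative members, strong form. -/
theorem exists_set_strong {ι R : Type*} [AddCommGroup R] [Module K R] [FiniteDimensional K R]
    {χ : ι → (Λ →ₗ[K] K)} (hχ : LinearIndependent K χ) (f : Λ →ₗ[K] R) :
    ∃ S : Finset ι, ∀ (T : Finset ι), Disjoint S T → ∀ i ∈ T,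
      ∃ l, f l = 0 ∧ (∀ s ∈ S, χ s l = 0) ∧ χ i l = 1 ∧ ∀ j ∈ T, j ≠ i → χ j l = 0 := by
  classical
  set A : Submodule K (Λ →ₗ[K] K) := LinearMap.range f.dualMap with hA
  set c : (ι →₀ K) →ₗ[K] (Λ →ₗ[K] K) := Finsupp.linearCombination K χ with hc
  have hcinj : Function.Injective c := hχ
  set U : Submodule K (ι →₀ K) := A.comap c with hU
  have hUfin : FiniteDimensional K U := by
    let g : U →ₗ[K] A := (c.comp U.subtype).codRestrict A fun u => u.2
    have hg : Function.Injective g := by
      intro u v huv
      exact Subtype.ext (hcinj (congrArg Subtype.val huv))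
    exact Module.Finite.of_injective g hg
  obtain ⟨t, ht⟩ := (Module.Finite.iff_fg.1 hUfin : U.FG)
  obtain ⟨S, hS⟩ : ∃ S : Finset ι, ∀ u ∈ U, ∀ i, i ∉ S → u i = 0 := by
    refine ⟨t.biUnion Finsupp.support, fun u hu i hi => ?_⟩
    rw [← ht] at hu
    refine Submodule.span_induction (p := fun u _ => u i = 0) ?_ ?_ ?_ ?_ hu
    · intro u hu
      by_contra h
      exact hi (Finset.mem_biUnion.2 ⟨u, hu, Finsupp.mem_support_iff.2 h⟩)
    · rfl
    · intro u v _ _ hu hv
      rw [Finsupp.add_apply, hu, hv, add_zero]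
    · intro r u _ hu
      rw [Finsupp.smul_apply, hu, smul_zero]
  refine ⟨S, fun T hT i hi => ?_⟩
  set f' : Λ →ₗ[K] R × (S → K) := f.prod (LinearMap.pi fun s : S => χ s) with hf'
  set r' : (Λ →ₗ[K] K) →ₗ[K] (LinearMap.ker f' →ₗ[K] K) := (LinearMap.ker f').dualRestrict with hr'
  have hker : LinearMap.ker r' = LinearMap.range f'.dualMap := by
    rw [hr', Submodule.dualRestrict_ker_eq_dualAnnihilator,
      LinearMap.range_dualMap_eq_dualAnnihilator_ker]
  have hli : LinearIndependent K fun t : T => r' (χ t) := by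
    rw [Fintype.linearIndependent_iff]
    intro g hg t
    have h1 : ∑ t : T, g t • χ t ∈ LinearMap.ker r' := by
      rw [LinearMap.mem_ker, map_sum, ← hg]
      exact Finset.sum_congr rfl fun t _ => map_smul _ _ _
    rw [hker] at h1
    obtain ⟨φ, hφ⟩ := h1
    set u : ι →₀ K := ∑ t : T, Finsupp.single (t : ι) (g t) -
      ∑ s : S, Finsupp.single (s : ι) (φ (0, Pi.single s 1)) with hu
    have h2 : c u = f.dualMap (φ ∘ₗ LinearMap.inl K R (S → K)) := by
      rw [hu, map_sub, map_sum, map_sum]
      have e1 : ∑ t : T, c (Finsupp.single (t : ι) (g t)) = f'.dualMap φ := by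
        rw [hφ]
        exact Finset.sum_congr rfl fun t _ => Finsupp.linearCombination_single K _ _
      have e2 : ∑ s : S, c (Finsupp.single (s : ι) (φ (0, Pi.single s 1))) =
          ∑ s : S, φ (0, Pi.single s 1) • χ s :=
        Finset.sum_congr rfl fun t _ => Finsupp.linearCombination_single K _ _
      rw [e1, e2]
      apply LinearMap.ext
      intro x
      rw [LinearMap.sub_apply, LinearMap.sum_apply, LinearMap.dualMap_apply,
        LinearMap.dualMap_apply, LinearMap.comp_apply]
      have e3 : f' x = LinearMap.inl K R (S → K) (f x) +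
          ∑ s : S, χ s x • ((0, Pi.single s 1) : R × (S → K)) := by
        refine Prod.ext ?_ ?_
        · rw [Prod.fst_add, Prod.fst_sum]
          simp [hf']
        · rw [Prod.snd_add, Prod.snd_sum]
          funext s
          simp [hf', Finset.sum_apply, Pi.single_apply]
      rw [e3, map_add, map_sum, add_sub_assoc]
      have e4 : ∑ s : S, φ (χ s x • ((0, Pi.single s 1) : R × (S → K))) -
          ∑ s : S, (φ (0, Pi.single s 1) • χ s) x = 0 := by
        rw [← Finset.sum_sub_distrib]
        refine Finset.sum_eq_zero fun s _ => ?_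
        rw [map_smul, LinearMap.smul_apply, smul_eq_mul, smul_eq_mul, mul_comm, sub_self]
      rw [e4, add_zero]
    have h3 : u ∈ U := by
      rw [hU, Submodule.mem_comap, h2]
      exact ⟨_, rfl⟩
    have ht : (t : ι) ∉ S := fun h => (Finset.disjoint_left.1 hT) h t.2
    have h4 := hS u h3 t ht
    rw [hu, Finsupp.sub_apply, Finsupp.finsetSum_apply, Finsupp.finsetSum_apply,
      Finset.sum_eq_single t, Finsupp.single_eq_same, Finset.sum_eq_zero, sub_zero] at h4
    · exact h4
    · intro s _
      exact Finsupp.single_eq_of_ne (fun h => ht (h ▸ s.2))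
    · intro t' _ ht'
      exact Finsupp.single_eq_of_ne (fun h => ht' (Subtype.ext h.symm))
    · intro h
      exact absurd (Finset.mem_univ t) h
  obtain ⟨x, hx1, hx2⟩ := exists_value hli ⟨i, hi⟩
  have hx : f' x = 0 := x.2
  refine ⟨x, congrArg Prod.fst hx, fun s hs => congrFun (congrArg Prod.snd hx) ⟨s, hs⟩, hx1,
    fun j hj hji => ?_⟩
  exact hx2 ⟨j, hj⟩ fun e => hji (congrArg Subtype.val e)

end Pool.Agent.Q219.HD
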