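import Mathlib
import Pool.Agent.Q219.HD.Dec

/-!
# Families with commutative members and exceptional members
-/

set_option autoImplicit false
set_option linter.unusedSectionVars false

open Module

namespace Pool.Agent.Q219.HD

variable {K : Type*} [Field K] {Λ : Type*} [AddCommGroup Λ] [Module K Λ]
  {B : Type*} [Fintype B] [DecidableEq B] {A : Option B → Type*}
  [∀ j, Ring (A j)] [∀ j, Algebra K (A j)] {h : ∀ j, Λ →ₗ[K] A j}

/-- The members of the family which are not exceptional are independent of all others. -/
theorem decouple' (gd : B → Prop) (cm : B → Prop) (χ : B → (Λ →ₗ[K] K)) (J : ∀ b, A (some b))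
    (hnc : ∀ b, gd b → ¬ cm b → IsPerfect (gen (h (some b))))
    (hpair : ∀ b b', gd b → ¬ cm b → ¬ cm b' → b ≠ b' → Free h (some b') (some b))
    (hnone : ∀ b, gd b → ¬ cm b → Free h none (some b))
    (hcm : ∀ b, cm b → ∀ l, h (some b) l = χ b l • J b)
    (hval : ∀ b, gd b → cm b → ∃ l, h none l = 0 ∧ (∀ b', ¬ gd b' → h (some b') l = 0) ∧
      χ b l = 1 ∧ ∀ b', gd b' → cm b' → b' ≠ b → χ b' l = 0) :
    ∀ b, gd b → ∀ x ∈ gen (h (some b)), (Pi.single (some b) x : ∀ j, A j) ∈ fam h := by
  classical
  have hle : ∀ b, cm b → gen (h (some b)) ≤ Submodule.span K {J b} := by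
    intro b hb
    refine gen_le ?_ fun l => by
      rw [hcm b hb l]
      exact Submodule.smul_mem _ _ (Submodule.mem_span_singleton_self _)
    intro x hx y hy
    obtain ⟨c, rfl⟩ := Submodule.mem_span_singleton.1 hx
    obtain ⟨d, rfl⟩ := Submodule.mem_span_singleton.1 hy
    rw [smul_mul_smul_comm, smul_mul_smul_comm, mul_comm c d, sub_self]
    exact Submodule.zero_mem _
  have hcomm : ∀ b, cm b → ∀ x ∈ gen (h (some b)), ∀ y ∈ gen (h (some b)), x * y = y * x := by
    intro b hb x hx y hy
    obtain ⟨c, rfl⟩ := Submodule.mem_span_singleton.1 (hle b hb hx)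
    obtain ⟨d, rfl⟩ := Submodule.mem_span_singleton.1 (hle b hb hy)
    rw [smul_mul_smul_comm, smul_mul_smul_comm, mul_comm c d]
  have key : ∀ b, gd b → ¬ cm b → ∀ x ∈ gen (h (some b)),
      (Pi.single (some b) x : ∀ j, A j) ∈ fam h := by
    intro b hg hb x hx
    refine single_mem (hnc b hg hb) (fun a ha => ?_) hx
    cases a with
    | none => exact hnone b hg hb
    | some b' =>
      have hbb' : b ≠ b' := fun e => ha (by rw [e])
      by_cases hb' : cm b'
      · exact free_of_comm (hnc b hg hb) (hcomm b' hb')
      · exact hpair b b' hg hb hb' hbb'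
  intro b hg x hx
  by_cases hb : cm b
  · obtain ⟨c, rfl⟩ := Submodule.mem_span_singleton.1 (hle b hb hx)
    obtain ⟨l, hl0, hlb, hl1, hl2⟩ := hval b hg hb
    have h1 : (fun j => h j l) ∈ fam h := fam_mem l
    have h2 : (∑ b' : B, if gd b' ∧ ¬ cm b' then (Pi.single (some b') (h (some b') l) :
        ∀ j, A j) else 0) ∈ fam h := by
      refine Submodule.sum_mem _ fun b' _ => ?_
      split_ifs with hb'
      · exact key b' hb'.1 hb'.2 _ (gen_mem _ l)
      · exact Submodule.zero_mem _
    have h3 : (Pi.single (some b) (J b) : ∀ j, A j) = (fun j => h j l) -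
        ∑ b' : B, if gd b' ∧ ¬ cm b' then (Pi.single (some b') (h (some b') l) : ∀ j, A j)
          else 0 := by
      funext j
      rw [Pi.sub_apply, Finset.sum_apply]
      cases j with
      | none =>
        rw [Pi.single_eq_of_ne (by simp), hl0, Finset.sum_eq_zero, sub_zero]
        intro b' _
        split_ifs
        · rw [Pi.single_eq_of_ne (by simp)]
        · rfl
      | some a =>
        rw [Finset.sum_eq_single a]
        · by_cases hga : gd a
          · by_cases ha : cm a
            · rw [if_neg (fun h => h.2 ha), Pi.zero_apply, sub_zero, hcm a ha]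
              by_cases hab : a = b
              · subst hab
                rw [Pi.single_eq_same, hl1, one_smul]
              · rw [Pi.single_eq_of_ne (fun e => hab (Option.some.inj e)), hl2 a hga ha hab,
                  zero_smul]
            · rw [if_pos ⟨hga, ha⟩, Pi.single_eq_same, sub_self]
              rw [Pi.single_eq_of_ne]
              intro e
              exact ha (Option.some.inj e ▸ hb)
          · rw [if_neg (fun h => hga h.1), Pi.zero_apply, sub_zero, hlb a hga]
            rw [Pi.single_eq_of_ne]
            intro e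
            exact hga (Option.some.inj e ▸ hg)
        · intro b' _ hb'
          split_ifs
          · rw [Pi.single_eq_of_ne (fun e => hb' (Option.some.inj e).symm)]
          · rfl
        · intro h'
          exact absurd (Finset.mem_univ a) h'
    have h4 : (Pi.single (some b) (J b) : ∀ j, A j) ∈ fam h := by
      rw [h3]
      exact Submodule.sub_mem _ h1 h2
    have h5 : (Pi.single (some b) (c • J b) : ∀ j, A j) = c • Pi.single (some b) (J b) := by
      rw [Pi.single_smul]
    rw [h5]
    exact Submodule.smul_mem _ _ h4
  · exact key b hg hb x hx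

end Pool.Agent.Q219.HD
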