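import Mathlib
import Pool.Agent.Q219.HD.Dec2
import Pool.Agent.Q219.HD.CMat

/-!
# The exceptional set: linear algebra
-/

set_option autoImplicit false
set_option linter.unusedSectionVars false

open Module Matrix

namespace Pool.Agent.Q219.HD

variable {K : Type} [Field K] [CharZero K] [Algebra K ℂ]

/-- The numbers which describe the complex multiplication. -/
theorem exists_w {N : M2 ℂ} (h : IsHodgeMat K N) (hcm : ¬ NoCM K N) :
    ∃ (w : ℂ) (J : M2 K) (μ : K), N = w • toC J ∧ J * J = μ • (1 : M2 K) ∧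
      w * w * algebraMap K ℂ μ = 1 ∧ ∀ c : K, J ≠ c • (1 : M2 K) := cm_form h hcm

theorem cofM_smul {w : ℂ} {J : M2 K} {N : M2 ℂ} (h : N = w • toC J) (l : ℂ →ₗ[K] K) :
    cofM N l = l w • J := by
  ext i j
  rw [cofM_apply, h, Matrix.smul_apply, Matrix.smul_apply, smul_eq_mul, smul_eq_mul, toC,
    Matrix.map_apply, lin_mul']

/-- Simultaneous components. -/
theorem exists_sum {J : Type*} {A : J → Type*} [∀ j, Ring (A j)] [∀ j, Algebra K (A j)]
    {h : ∀ j, (ℂ →ₗ[K] K) →ₗ[K] A j} {L : Finset J} {s : Set J}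
    (H : ∀ j ∈ L, ∀ x ∈ gen (h j), ∃ r ∈ fam h, (∀ i ∈ s, r i = 0) ∧
      (∀ i ∈ L, i ≠ j → r i = 0) ∧ r j = x) (l : ℂ →ₗ[K] K) :
    ∃ r ∈ fam h, (∀ i ∈ s, r i = 0) ∧ ∀ j ∈ L, r j = h j l := by
  classical
  have h4 : ∀ j, ∃ r : ∀ j, A j, j ∈ L → r ∈ fam h ∧ (∀ i ∈ s, r i = 0) ∧
      (∀ i ∈ L, i ≠ j → r i = 0) ∧ r j = h j l := by
    intro j
    by_cases hj : j ∈ L
    · obtain ⟨r, hr⟩ := H j hj _ (gen_mem (h j) l)
      exact ⟨r, fun _ => hr⟩
    · exact ⟨0, fun h => absurd h hj⟩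
  choose r hr using h4
  refine ⟨∑ j ∈ L, r j, Submodule.sum_mem _ fun j hj => (hr j hj).1, fun i hi => ?_,
    fun i hi => ?_⟩
  · rw [Finset.sum_apply]
    exact Finset.sum_eq_zero fun j hj => (hr j hj).2.1 i hi
  · rw [Finset.sum_apply, Finset.sum_eq_single i]
    · exact (hr i hi).2.2.2
    · intro j hj hne
      exact (hr j hj).2.2.1 i hi hne.symm
    · intro h
      exact absurd hi h

section

variable {R : Type} [Ring R] [Algebra K R]

/-- The rings of the family with one general member; the other members are indexed by matrices. -/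
def AA (K R : Type) : Option (M2 ℂ) → Type := fun j => j.elim R fun _ => M2 K

noncomputable instance instRingAA (j : Option (M2 ℂ)) : Ring (AA K R j) :=
  match j with
  | none => (inferInstance : Ring R)
  | some _ => (inferInstance : Ring (M2 K))

noncomputable instance instAlgAA (j : Option (M2 ℂ)) : Algebra K (AA K R j) :=
  match j with
  | none => (inferInstance : Algebra K R)
  | some _ => (inferInstance : Algebra K (M2 K))

instance instFinAA [FiniteDimensional K R] (j : Option (M2 ℂ)) :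
    FiniteDimensional K (AA K R j) :=
  match j with
  | none => (inferInstance : FiniteDimensional K R)
  | some _ => (inferInstance : FiniteDimensional K (M2 K))

/-- The family with one general member. -/
noncomputable def hh (f : (ℂ →ₗ[K] K) →ₗ[K] R) (j : Option (M2 ℂ)) :
    (ℂ →ₗ[K] K) →ₗ[K] AA K R j :=
  match j with
  | none => f
  | some N => cofM N

variable {f : (ℂ →ₗ[K] K) →ₗ[K] R}

theorem free2_pair {N N' : M2 ℂ} (h : IsHodgeMat K N) (hn : NoCM K N) (h' : IsHodgeMat K N')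
    (hn' : NoCM K N') (hiso : ∀ g : M2 K, toC g * N = N' * toC g → g = 0) :
    Free2 (cofM (K := K) N) (cofM (K := K) N') := pair_free h hn h' hn' hiso

theorem cof_perfect {N : M2 ℂ} (h : IsHodgeMat K N) (hn : NoCM K N) :
    IsPerfect (gen (cofM (K := K) N)) := by
  rw [gen_eq_sl h hn]
  exact sl_perfect two_ne

theorem core_card [FiniteDimensional K R] {𝓜 : Set (M2 ℂ)} (hH : ∀ N ∈ 𝓜, IsHodgeMat K N)
    (hne : ∀ N ∈ 𝓜, ∀ N' ∈ 𝓜, N ≠ N' → ∀ g : M2 K, toC g * N = N' * toC g → g = 0)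
    {S : Finset (M2 ℂ)} (hS : ∀ N ∈ S, N ∈ 𝓜 ∧ NoCM K N ∧ ¬ Free2 f (cofM (K := K) N)) :
    3 * S.card ≤ finrank K (gen f) := by
  classical
  have h1 := count_bad (B := S) (A := fun j => AA K R (j.map Subtype.val))
    (h := fun j : Option S => hh f (j.map Subtype.val))
    (fun b => cof_perfect (hH b.1 (hS b b.2).1) (hS b b.2).2.1)
    (fun b b' hbb' => free_iff.2 (free2_pair (hH b'.1 (hS b' b'.2).1) (hS b' b'.2).2.1
      (hH b.1 (hS b b.2).1) (hS b b.2).2.1 (hne b'.1 (hS b' b'.2).1 b.1 (hS b b.2).1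
        fun e => hbb' (Subtype.ext e.symm))))
    (fun b hb => (hS b b.2).2.2 (free_iff (h := fun j : Option S => hh f (j.map Subtype.val))
      (a := none) (i := some b) |>.1 hb)) (fun _ => 3)
    (fun b P hP hne' => perfect_codim (cof_perfect (hH b.1 (hS b b.2).1) (hS b b.2).2.1)
      (gen_isLie _) hP.1 hP.2 hne')
  rw [Finset.sum_const, Finset.card_univ, Fintype.card_coe, smul_eq_mul, mul_comm] at h1
  exact h1

open Classical in
/-- **The exceptional set.** -/
theorem core [FiniteDimensional K R] (f : (ℂ →ₗ[K] K) →ₗ[K] R) {𝓜 : Set (M2 ℂ)}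
    (hH : ∀ N ∈ 𝓜, IsHodgeMat K N)
    (hne : ∀ N ∈ 𝓜, ∀ N' ∈ 𝓜, N ≠ N' → ∀ g : M2 K, toC g * N = N' * toC g → g = 0) :
    ∃ S : Finset (M2 ℂ), (∀ N ∈ S, N ∈ 𝓜) ∧
      3 * (S.filter fun N => NoCM K N).card ≤ finrank K (gen f) ∧
      ∀ L : Finset (M2 ℂ), (∀ N ∈ L, N ∈ 𝓜) → (∀ N ∈ L, N ∉ S) →
        ∀ N ∈ L, ∀ x ∈ gen (cofM (K := K) N), ∃ r ∈ fam (hh f),
          r none = (0 : R) ∧ (∀ N' ∈ S ∪ L, N' ≠ N → r (some N') = (0 : M2 K)) ∧
            r (some N) = x := by
  -- the exceptional matrices without complex multiplication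
  have hfin : {N | N ∈ 𝓜 ∧ NoCM K N ∧ ¬ Free2 f (cofM (K := K) N)}.Finite := by
    by_contra hinf
    obtain ⟨S, hS, hSc⟩ := Set.Infinite.exists_subset_card_eq hinf (finrank K (gen f) + 1)
    have h1 := core_card hH hne (S := S) (f := f) fun N hN => hS hN
    omega
  set S1 := hfin.toFinset with hS1
  have hS1' : ∀ N, N ∈ S1 ↔ N ∈ 𝓜 ∧ NoCM K N ∧ ¬ Free2 f (cofM (K := K) N) := fun N =>
    Set.Finite.mem_toFinset hfin
  -- the matrices with complex multiplication
  have hw : ∀ N : {N // N ∈ 𝓜 ∧ ¬ NoCM K N}, ∃ w : ℂ, ∃ (J : M2 K) (μ : K), N.1 = w • toC J ∧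
      J * J = μ • (1 : M2 K) ∧ w * w * algebraMap K ℂ μ = 1 ∧ ∀ c : K, J ≠ c • (1 : M2 K) :=
    fun N => exists_w (hH N.1 N.2.1) N.2.2
  choose w J μ hw1 hw2 hw3 hw4 using hw
  have hw0 : ∀ N, w N ≠ 0 := by
    intro N h0
    have := hw3 N
    rw [h0, zero_mul, zero_mul] at this
    exact zero_ne_one this
  have hind : LinearIndependent K w := by
    refine sqrt_independent hw0 (fun N => ⟨(μ N)⁻¹, ?_⟩) ?_
    · rw [map_inv₀]
      exact eq_inv_of_mul_eq_one_left (hw3 N)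
    · intro N N' hNN' r hr
      obtain ⟨g, hg0, hg⟩ := cm_ratio (hw1 N) (hw2 N) (hw3 N) (hw4 N) (hw1 N') (hw2 N') (hw3 N') hr
      exact hg0 (hne N.1 N.2.1 N'.1 N'.2.1 (fun e => hNN' (Subtype.ext e)) g hg)
  have hχ : LinearIndependent K fun N => Module.Dual.eval K ℂ (w N) :=
    hind.map' (Module.Dual.eval K ℂ) (Module.eval_ker K ℂ)
  let f' : (ℂ →ₗ[K] K) →ₗ[K] (R × (S1 → M2 K)) :=
    f.prod (LinearMap.pi fun N : S1 => cofM (K := K) N.1)
  obtain ⟨S2, hS2⟩ := exists_set_strong hχ f'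
  refine ⟨S1 ∪ S2.image Subtype.val, ?_, ?_, ?_⟩
  · intro N hN
    rcases Finset.mem_union.1 hN with hN | hN
    · exact ((hS1' N).1 hN).1
    · obtain ⟨M, -, rfl⟩ := Finset.mem_image.1 hN
      exact M.2.1
  · have h1 : (S1 ∪ S2.image Subtype.val).filter (fun N => NoCM K N) ⊆ S1 := by
      intro N hN
      rw [Finset.mem_filter, Finset.mem_union] at hN
      rcases hN.1 with h | h
      · exact h
      · obtain ⟨M, -, rfl⟩ := Finset.mem_image.1 h
        exact absurd hN.2 M.2.2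
    have h2 := Finset.card_le_card h1
    have h3 := core_card hH hne (S := S1) (f := f) fun N hN => (hS1' N).1 hN
    omega
  · intro L hL1 hL2 N hN x hx
    set B : Finset (M2 ℂ) := (S1 ∪ S2.image Subtype.val) ∪ L with hB
    have hBM : ∀ b : B, b.1 ∈ 𝓜 := by
      intro b
      rcases Finset.mem_union.1 b.2 with hb | hb
      · rcases Finset.mem_union.1 hb with hb | hb
        · exact ((hS1' _).1 hb).1
        · obtain ⟨M, -, h⟩ := Finset.mem_image.1 hb
          rw [← h]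
          exact M.2.1
      · exact hL1 _ hb
    have hdis : ∀ {M}, M ∈ L → M ∉ S1 ∧ M ∉ S2.image Subtype.val := fun {M} hM =>
      ⟨fun h => hL2 M hM (Finset.mem_union_left _ h), fun h => hL2 M hM (Finset.mem_union_right _ h)⟩
    let wB : B → ℂ := fun b => if h : NoCM K b.1 then 0 else w ⟨b.1, hBM b, h⟩
    let JB : B → M2 K := fun b => if h : NoCM K b.1 then 0 else J ⟨b.1, hBM b, h⟩
    have hwB : ∀ (b : B) (h : ¬ NoCM K b.1), wB b = w ⟨b.1, hBM b, h⟩ := fun b h => dif_neg h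
    have hJB : ∀ (b : B) (h : ¬ NoCM K b.1), JB b = J ⟨b.1, hBM b, h⟩ := fun b h => dif_neg h
    have hd := decouple' (B := B) (A := fun j => AA K R (j.map Subtype.val))
      (h := fun j : Option B => hh f (j.map Subtype.val))
      (fun b => b.1 ∈ L) (fun b => ¬ NoCM K b.1) (fun b => Module.Dual.eval K ℂ (wB b)) JB
      (fun b hb hb' => cof_perfect (hH b.1 (hBM b)) (not_not.1 hb'))
      (fun b b' hb hb' hb'' hbb' => free_iff.2 (free2_pair (hH b'.1 (hBM b')) (not_not.1 hb'')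
        (hH b.1 (hBM b)) (not_not.1 hb') (hne b'.1 (hBM b') b.1 (hBM b)
        fun e => hbb' (Subtype.ext e.symm))))
      (fun b hb hb' => free_iff.2 (by
        by_contra hcon
        exact (hdis hb).1 ((hS1' b.1).2 ⟨hBM b, not_not.1 hb', hcon⟩)))
      (fun b hb l => by
        change cofM b.1 l = l (wB b) • JB b
        rw [hwB b hb, hJB b hb]
        exact cofM_smul (hw1 ⟨b.1, hBM b, hb⟩) l)
      (fun b hb hb' => by
        obtain ⟨T, hT⟩ : ∃ T : Finset {N // N ∈ 𝓜 ∧ ¬ NoCM K N}, ∀ M, M ∈ T ↔ M.1 ∈ L :=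
          ⟨L.subtype _, fun M => Finset.mem_subtype⟩
        have hdT : Disjoint S2 T := by
          rw [Finset.disjoint_left]
          intro M hM hM'
          exact (hdis ((hT M).1 hM')).2 (Finset.mem_image_of_mem _ hM)
        obtain ⟨l, e1, e2, e3, e4⟩ := hS2 T hdT ⟨b.1, hBM b, hb'⟩ ((hT _).2 hb)
        refine ⟨l, congrArg Prod.fst e1, fun b' hb'' => ?_, ?_, fun b' hb'' hb3 hne' => ?_⟩
        · rcases Finset.mem_union.1 b'.2 with h | h
          · rcases Finset.mem_union.1 h with h | h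
            · exact congrFun (congrArg Prod.snd e1) ⟨b'.1, h⟩
            · obtain ⟨M, hM, hMb⟩ := Finset.mem_image.1 h
              have h5 := e2 M hM
              change cofM b'.1 l = 0
              rw [← hMb, cofM_smul (hw1 M) l]
              have h6 : l (w M) = 0 := h5
              rw [h6, zero_smul]
          · exact absurd h hb''
        · change l (wB b) = 1
          rw [hwB b hb']
          exact e3
        · change l (wB b') = 0
          rw [hwB b' hb3]
          refine e4 ⟨b'.1, hBM b', hb3⟩ ((hT _).2 hb'') fun e => ?_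
          have e' : b'.1 = b.1 := congrArg (fun M : {N // N ∈ 𝓜 ∧ ¬ NoCM K N} => M.1) e
          exact hne' (Subtype.ext e'))
      ⟨N, Finset.mem_union_right _ hN⟩ hN x hx
    obtain ⟨r, hr, hr'⟩ := fam_extend (h := hh f) (fun j : Option B => j.map Subtype.val) hd
    refine ⟨r, hr, ?_, ?_, ?_⟩
    · refine (hr' none).trans ?_
      rw [Pi.single_eq_of_ne (by simp)]
      rfl
    · intro N' hN' hne'
      refine (hr' (some ⟨N', hN'⟩)).trans ?_
      rw [Pi.single_eq_of_ne]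
      · rfl
      · intro e
        exact hne' (congrArg Subtype.val (Option.some.inj e))
    · refine (hr' (some ⟨N, Finset.mem_union_right _ hN⟩)).trans ?_
      rw [Pi.single_eq_same]

/-- **The exceptional set**, second form. -/
theorem core_sum [FiniteDimensional K R] (f : (ℂ →ₗ[K] K) →ₗ[K] R) {𝓜 : Set (M2 ℂ)}
    (hH : ∀ N ∈ 𝓜, IsHodgeMat K N)
    (hne : ∀ N ∈ 𝓜, ∀ N' ∈ 𝓜, N ≠ N' → ∀ g : M2 K, toC g * N = N' * toC g → g = 0) :
    ∃ S : Finset (M2 ℂ), (∀ N ∈ S, N ∈ 𝓜) ∧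
      (∀ S' : Finset (M2 ℂ), (∀ N ∈ S', N ∈ S ∧ NoCM K N) → 3 * S'.card ≤ finrank K (gen f)) ∧
      ∀ L : Finset (M2 ℂ), (∀ N ∈ L, N ∈ 𝓜) → (∀ N ∈ L, N ∉ S) →
        ∀ l, ∃ r ∈ fam (hh f), (∀ j ∈ ({none} ∪ {j | ∃ N ∈ S, j = some N} : Set (Option (M2 ℂ))),
          r j = 0) ∧ ∀ j ∈ {j | ∃ N ∈ L, j = some N}, r j = hh f j l := by
  classical
  obtain ⟨S, hS1, hS2, hS3⟩ := core f hH hne
  refine ⟨S, hS1, fun S' hS' => ?_, fun L hL1 hL2 l => ?_⟩
  · have h1 : S' ⊆ S.filter fun N => NoCM K N := fun N hN => Finset.mem_filter.2 (hS' N hN)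
    have h2 := Finset.card_le_card h1
    omega
  · have hH' : ∀ j ∈ L.image some, ∀ x ∈ gen (hh f j), ∃ r ∈ fam (hh f),
        (∀ i ∈ ({none} ∪ {j | ∃ N ∈ S, j = some N} : Set (Option (M2 ℂ))), r i = 0) ∧
        (∀ i ∈ L.image some, i ≠ j → r i = 0) ∧ r j = x := by
      intro j hj x hx
      obtain ⟨N, hN, rfl⟩ := Finset.mem_image.1 hj
      obtain ⟨r, hr, h1, h2, h3⟩ := hS3 L hL1 hL2 N hN x hx
      refine ⟨r, hr, ?_, ?_, h3⟩
      · rintro j (rfl | ⟨N', hN', rfl⟩)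
        · exact h1
        · refine h2 N' (Finset.mem_union_left _ hN') ?_
          rintro rfl
          exact hL2 _ hN hN'
      · intro j hj hne'
        obtain ⟨N', hN', rfl⟩ := Finset.mem_image.1 hj
        exact h2 N' (Finset.mem_union_right _ hN') fun e => hne' (congrArg some e)
    obtain ⟨r, hr, hr1, hr2⟩ := exists_sum (h := hh f) hH' l
    refine ⟨r, hr, hr1, ?_⟩
    rintro j ⟨N, hN, rfl⟩
    exact hr2 _ (Finset.mem_image_of_mem _ hN)

end

end Pool.Agent.Q219.HD
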