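import Pool.Agent.Q219.HD.Rep
import Pool.Agent.Q50.BL.Main

/-!
# Products of powers of the members of a family
-/

open CategoryTheory AlgebraicGeometry TensorProduct

universe u

namespace Pool.Agent.Q219.HD

open Module
open Pool.Agent.H914 Pool.Agent.H914.VarClass Pool.Agent.H914.VarClass.Obj
  Pool.Agent.H914.WeilCohomology
open Pool.Agent.Y133.Half
open Pool.Agent.Y121.AH
open Pool.Agent.Q50.BL
open Pool.Agent.Q60.HDS (power)

variable {k : Type u} [Field k] {𝒱 : VarClass k} {ops : CycleOps 𝒱} {T : HodgeTheory ops}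
  {X Z P Q : 𝒱.Obj}

/-- The product `P × Y i₁ ^ m₁ × ⋯ × Y iᵣ ^ mᵣ`. -/
noncomputable def mulPow {ι : Type*} (Y : ι → 𝒱.Obj) (P : 𝒱.Obj) (l : List (ι × ℕ)) : 𝒱.Obj :=
  l.foldl (fun P p => P.prod (power (Y p.1) p.2)) P

/-- The family with one more member. -/
def cons {ι : Type*} (Z : 𝒱.Obj) (Y : ι → 𝒱.Obj) (j : Option ι) : 𝒱.Obj := j.elim Z Y

variable {ι : Type*} {Y : ι → 𝒱.Obj}

theorem HasRep.power {J : Type*} {A : J → Type*} [∀ j, Ring (A j)] [∀ j, Algebra T.W.K (A j)]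
    {h : ∀ j, Lam T →ₗ[T.W.K] A j} {s : Set J} (hX : HasRep h X s) (n : ℕ) :
    HasRep h (power X n) s := hX.pw _

/-- The family of the operators. -/
noncomputable def hfam (T : HodgeTheory ops) (Z : 𝒱.Obj) (Y : ι → 𝒱.Obj) (j : Option ι) :
    Lam T →ₗ[T.W.K] EH T (cons Z Y j) := hg T (cons Z Y j)

theorem HasRep.single (j : Option ι) : HasRep (hfam T Z Y) (cons Z Y j) {j} :=
  HasRep.of j (φ := LinearMap.id) (fun _ _ => rfl) fun _ => rfl

theorem HasRep.mulPow {s : Set (Option ι)} (h : HasRep (hfam T Z Y) P s) (l : List (ι × ℕ)) :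
    HasRep (hfam T Z Y) (mulPow Y P l) (s ∪ {j | ∃ p ∈ l, j = some p.1}) := by
  induction l generalizing P s with
  | nil => exact h.mono Set.subset_union_left
  | cons p l ih =>
    have h1 : HasRep (hfam T Z Y) (Y p.1) {some p.1} := HasRep.single (some p.1)
    refine (ih (h.prod (h1.power p.2))).mono ?_
    rintro j ((hj | hj) | ⟨q, hq, rfl⟩)
    · exact Or.inl hj
    · exact Or.inr ⟨p, List.mem_cons_self, hj⟩
    · exact Or.inr ⟨q, List.mem_cons_of_mem _ hq, rfl⟩

/-- The condition of independence. -/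
def Good (T : HodgeTheory ops) (Z : 𝒱.Obj) (Y : ι → 𝒱.Obj) (l : List (ι × ℕ)) (i : ι) : Prop :=
  ∀ x ∈ gen (hg T (Y i)), ∃ r ∈ fam (hfam T Z Y),
    r none = 0 ∧ (∀ p ∈ l, r (some p.1) = 0) ∧ r (some i) = x

theorem hodge_step {l : List (ι × ℕ)} {i : ι} (H : Good T Z Y l i) (n m : ℕ) :
    (hodgeSys T).C ((mulPow Y (power Z n) l).prod (power (Y i) m)) ≤
      prods T (mulPow Y (power Z n) l) (power (Y i) m) := by
  intro c hc
  have hZ : HasRep (hfam T Z Y) Z {none} := HasRep.single none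
  have hY : HasRep (hfam T Z Y) (Y i) {some i} := HasRep.single (some i)
  refine hodge_prod ((hZ.power n).mulPow l) (hY.power m) (fun f => ?_) hc
  obtain ⟨r, hr, h1, h2, h3⟩ := H _ (gen_mem _ f)
  refine ⟨r, hr, ?_, ?_⟩
  · rintro j (rfl | ⟨p, hp, rfl⟩)
    · exact h1
    · exact h2 p hp
  · rintro j rfl
    exact h3

theorem full_prod (h : (hodgeSys T).C (P.prod Q) ≤ prods T P Q) (hP : Full T P) (hQ : Full T Q) :
    Full T (P.prod Q) := by
  refine full_of fun c hc => ?_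
  have hle : prods T P Q ≤ (algSys T.W).C (P.prod Q) := by
    refine Submodule.span_le.2 ?_
    rintro _ ⟨a, ha, b, hb, rfl⟩
    exact (algSys T.W).mul ((algSys T.W).map _ (hP.mem ha)) ((algSys T.W).map _ (hQ.mem hb))
  exact hle (h hc)

theorem full_swap (h : Full T (P.prod Q)) : Full T (Q.prod P) := by
  refine h.retract (Obj.lift (snd Q P) (fst Q P)) (Obj.lift (snd P Q) (fst P Q)) ?_
  apply prod_hom_ext
  · rw [Category.assoc, Obj.lift_fst, Obj.lift_snd, Category.id_comp]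
  · rw [Category.assoc, Obj.lift_snd, Obj.lift_fst, Category.id_comp]

theorem full_fst [Nontrivial (T.W.H Q)] (h : Full T (P.prod Q)) : Full T P := (full_swap h).of_prod

end Pool.Agent.Q219.HD
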