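import Pool.Agent.Q219.HD.Count
import Pool.Agent.Q219.HD.Fold

/-!
# Families of independent varieties
-/

open CategoryTheory AlgebraicGeometry TensorProduct

universe u

namespace Pool.Agent.Q219.HD

open Module
open Pool.Agent.H914 Pool.Agent.H914.VarClass Pool.Agent.H914.VarClass.Obj
  Pool.Agent.H914.WeilCohomology
open Pool.Agent.Y133.Half
open Pool.Agent.Y121.AH
open Pool.Agent.Q50.BL
open Pool.Agent.Q60.HDS (power)

variable {k : Type u} [Field k] {𝒱 : VarClass k} {ops : CycleOps 𝒱} {T : HodgeTheory ops}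
  {Z P Q : 𝒱.Obj}

section

variable {ι : Type*} {Y : ι → 𝒱.Obj}

theorem family_count (hp : ∀ i, IsPerfect (gen (hg T (Y i))))
    (hf : ∀ i j, i ≠ j → Free2 (hg T (Y i)) (hg T (Y j))) {D : ι → ℕ}
    (hD : ∀ i P, IsIdeal P (gen (hg T (Y i))) → P ≠ gen (hg T (Y i)) →
      finrank T.W.K P + D i ≤ finrank T.W.K (gen (hg T (Y i)))) {S : Finset ι}
    (hS : ∀ i ∈ S, ¬ Free2 (hg T Z) (hg T (Y i))) :
    ∑ i ∈ S, D i ≤ finrank T.W.K (gen (hg T Z)) := by
  classical
  have h1 := count_bad (B := S) (h := fun j : Option S => hg T (cons Z (fun b : S => Y b.1) j))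
    (fun b => hp b.1)
    (fun b b' hbb' => free_iff.2 (hf b'.1 b.1 fun e => hbb' (Subtype.ext e.symm)))
    (fun b hb => hS b.1 b.2 (free_iff (h := fun j : Option S =>
      hg T (cons Z (fun b : S => Y b.1) j)) (a := none) (i := some b) |>.1 hb))
    (fun b => D b.1) (fun b P hP hne => hD b.1 P hP hne)
  rw [Finset.sum_coe_sort S D] at h1
  exact h1

theorem good_family (hp : ∀ i, IsPerfect (gen (hg T (Y i))))
    (hf : ∀ i j, i ≠ j → Free2 (hg T (Y i)) (hg T (Y j))) {D : ι → ℕ}
    (hD : ∀ i P, IsIdeal P (gen (hg T (Y i))) → P ≠ gen (hg T (Y i)) →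
      finrank T.W.K P + D i ≤ finrank T.W.K (gen (hg T (Y i)))) (Z : 𝒱.Obj) :
    ∃ S : Finset ι, ∑ i ∈ S, max 3 (D i) ≤ finrank T.W.K (gen (hg T Z)) ∧
      ∀ i ∉ S, ∀ l : List (ι × ℕ), (∀ p ∈ l, p.1 ≠ i) → Good T Z Y l i := by
  classical
  have hD' : ∀ i P, IsIdeal P (gen (hg T (Y i))) → P ≠ gen (hg T (Y i)) →
      finrank T.W.K P + max 3 (D i) ≤ finrank T.W.K (gen (hg T (Y i))) := by
    intro i P hP hne
    have h1 := hD i P hP hne
    have h2 := perfect_codim (hp i) (gen_isLie _) hP.1 hP.2 hne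
    rcases le_total 3 (D i) with h | h
    · rw [max_eq_right h]; exact h1
    · rw [max_eq_left h]; exact h2
  have hfin : {i | ¬ Free2 (hg T Z) (hg T (Y i))}.Finite := by
    by_contra hinf
    obtain ⟨S, hS, hSc⟩ := Set.Infinite.exists_subset_card_eq hinf
      (finrank T.W.K (gen (hg T Z)) + 1)
    have h1 := family_count (Z := Z) hp hf hD' (S := S) fun i hi => hS hi
    have h2 : ∑ i ∈ S, 1 ≤ ∑ i ∈ S, max 3 (D i) :=
      Finset.sum_le_sum fun i _ => le_trans (by norm_num) (le_max_left _ _)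
    rw [Finset.sum_const, smul_eq_mul, mul_one, hSc] at h2
    omega
  refine ⟨hfin.toFinset, family_count hp hf hD' fun i hi =>
    (Set.Finite.mem_toFinset hfin).1 hi, fun i hi l hl x hx => ?_⟩
  have hi' : Free2 (hg T Z) (hg T (Y i)) := by
    by_contra h
    exact hi ((Set.Finite.mem_toFinset hfin).2 h)
  obtain ⟨r, hr, h1, h2⟩ := kill (h := fun j : Option ι => hg T (cons Z Y j)) (i := some i) (hp i)
    (insert none ((l.map fun p => some p.1).toFinset)) (fun a ha => by
      rcases Finset.mem_insert.1 ha with rfl | ha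
      · exact free_iff.2 hi'
      · rw [List.mem_toFinset, List.mem_map] at ha
        obtain ⟨p, hp', rfl⟩ := ha
        exact free_iff.2 (hf p.1 i (hl p hp'))) x hx
  refine ⟨r, hr, h2 _ (Finset.mem_insert_self _ _), fun p hp' => ?_, h1⟩
  refine h2 _ (Finset.mem_insert_of_mem ?_)
  rw [List.mem_toFinset, List.mem_map]
  exact ⟨p, hp', rfl⟩

end

/-! ### The Hodge conjecture -/

section

variable {ι : Type*} {Y : ι → 𝒱.Obj}

theorem mulPow_append (P : 𝒱.Obj) (l l' : List (ι × ℕ)) :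
    mulPow Y P (l ++ l') = mulPow Y (mulPow Y P l) l' := List.foldl_append

theorem mulPow_concat (P : 𝒱.Obj) (l : List (ι × ℕ)) (i : ι) (m : ℕ) :
    mulPow Y P (l ++ [(i, m)]) = (mulPow Y P l).prod (power (Y i) m) := by
  rw [mulPow_append]
  rfl

theorem full_mulPow {l₀ l : List (ι × ℕ)} {n : ℕ}
    (h : ∀ l₁ l₂ i m, l = l₁ ++ (i, m) :: l₂ → Good T Z Y (l₀ ++ l₁) i)
    (h0 : Full T (mulPow Y (power Z n) l₀)) (hl : ∀ p ∈ l, Full T (power (Y p.1) p.2)) :
    Full T (mulPow Y (power Z n) (l₀ ++ l)) := by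
  induction l using List.reverseRecOn with
  | nil => rw [List.append_nil]; exact h0
  | append_singleton l p ih =>
    obtain ⟨i, m⟩ := p
    rw [← List.append_assoc, mulPow_concat]
    refine full_prod (hodge_step (h l [] i m rfl) n m) ?_
      (hl (i, m) (List.mem_append_right _ (List.mem_singleton_self _)))
    refine ih (fun l₁ l₂ j m' he => h l₁ (l₂ ++ [(i, m)]) j m' ?_) fun q hq =>
      hl q (List.mem_append_left _ hq)
    rw [he]
    simp

theorem nontrivial_prod [Nontrivial (T.W.H P)] [Nontrivial (T.W.H Q)] :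
    Nontrivial (T.W.H (P.prod Q)) := by
  apply Module.nontrivial_of_finrank_pos (R := T.W.K)
  rw [Pool.Agent.Y133.Half.finrank_prod]
  exact Nat.mul_pos Module.finrank_pos Module.finrank_pos

theorem nontrivial_pw [Nontrivial (T.W.H P)] : ∀ n, Nontrivial (T.W.H (pw P n))
  | 0 => (inferInstance : Nontrivial (T.W.H P))
  | n + 1 => by
    have := nontrivial_pw n
    exact nontrivial_prod (P := pw P n) (Q := P)

theorem full_of_mulPow {l : List (ι × ℕ)} (hne : ∀ p ∈ l, Nontrivial (T.W.H (Y p.1)))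
    (h : Full T (mulPow Y P l)) : Full T P := by
  induction l using List.reverseRecOn with
  | nil => exact h
  | append_singleton l p ih =>
    obtain ⟨i, m⟩ := p
    rw [mulPow_concat] at h
    have h1 : Nontrivial (T.W.H (Y i)) := hne (i, m) (List.mem_append_right _
      (List.mem_singleton_self _))
    have h2 : Nontrivial (T.W.H (power (Y i) m)) := nontrivial_pw _
    exact ih (fun p hp => hne p (List.mem_append_left _ hp)) (full_fst h)

end

end Pool.Agent.Q219.HD
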