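import Pool.Agent.Q219.HD.Let2
import Pool.Agent.Q219.HD.FamA

/-!
# Isomorphisms of products, and replacing a factor by an isogenous one
-/

open CategoryTheory AlgebraicGeometry TensorProduct

universe u

namespace Pool.Agent.Q219.HD

open Module
open Pool.Agent.H914 Pool.Agent.H914.VarClass Pool.Agent.H914.VarClass.Obj
  Pool.Agent.H914.WeilCohomology
open Pool.Agent.Y133.Half
open Pool.Agent.Y121.AH
open Pool.Agent.Q50.BL

variable {k : Type u} [Field k] {𝒱 : VarClass k}

/-! ### Isomorphisms of products -/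

section Iso

variable {X Y Z P Q R X' Y' : 𝒱.Obj}

/-- The objects are isomorphic. -/
def Eqv (X Y : 𝒱.Obj) : Prop := ∃ (f : X ⟶ Y) (g : Y ⟶ X), f ≫ g = 𝟙 X ∧ g ≫ f = 𝟙 Y

theorem Eqv.refl (X : 𝒱.Obj) : Eqv X X := ⟨𝟙 X, 𝟙 X, Category.id_comp _, Category.id_comp _⟩

theorem Eqv.symm (h : Eqv X Y) : Eqv Y X := by
  obtain ⟨f, g, h1, h2⟩ := h
  exact ⟨g, f, h2, h1⟩

theorem Eqv.trans (h : Eqv X Y) (h' : Eqv Y Z) : Eqv X Z := by
  obtain ⟨f, g, h1, h2⟩ := h
  obtain ⟨f', g', h3, h4⟩ := h'
  refine ⟨f ≫ f', g' ≫ g, ?_, ?_⟩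
  · rw [Category.assoc, ← Category.assoc f', h3, Category.id_comp, h1]
  · rw [Category.assoc, ← Category.assoc g, h2, Category.id_comp, h4]

theorem Eqv.comm (X Y : 𝒱.Obj) : Eqv (X.prod Y) (Y.prod X) := by
  refine ⟨Obj.lift (snd X Y) (fst X Y), Obj.lift (snd Y X) (fst Y X), ?_, ?_⟩
  · apply prod_hom_ext
    · rw [Category.assoc, Obj.lift_fst, Obj.lift_snd, Category.id_comp]
    · rw [Category.assoc, Obj.lift_snd, Obj.lift_fst, Category.id_comp]
  · apply prod_hom_ext
    · rw [Category.assoc, Obj.lift_fst, Obj.lift_snd, Category.id_comp]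
    · rw [Category.assoc, Obj.lift_snd, Obj.lift_fst, Category.id_comp]

theorem Eqv.congr_left (h : Eqv X Y) (Q : 𝒱.Obj) : Eqv (X.prod Q) (Y.prod Q) := by
  obtain ⟨f, g, h1, h2⟩ := h
  refine ⟨Obj.lift (fst X Q ≫ f) (snd X Q), Obj.lift (fst Y Q ≫ g) (snd Y Q), ?_, ?_⟩
  · apply prod_hom_ext
    · rw [Category.assoc, Obj.lift_fst, ← Category.assoc, Obj.lift_fst, Category.assoc, h1,
        Category.comp_id, Category.id_comp]
    · rw [Category.assoc, Obj.lift_snd, Obj.lift_snd, Category.id_comp]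
  · apply prod_hom_ext
    · rw [Category.assoc, Obj.lift_fst, ← Category.assoc, Obj.lift_fst, Category.assoc, h2,
        Category.comp_id, Category.id_comp]
    · rw [Category.assoc, Obj.lift_snd, Obj.lift_snd, Category.id_comp]

theorem Eqv.congr_right (h : Eqv X Y) (Q : 𝒱.Obj) : Eqv (Q.prod X) (Q.prod Y) :=
  (Eqv.comm Q X).trans ((h.congr_left Q).trans (Eqv.comm Y Q))

theorem Eqv.assoc (X Y Z : 𝒱.Obj) : Eqv ((X.prod Y).prod Z) (X.prod (Y.prod Z)) := by
  refine ⟨Obj.lift (fst (X.prod Y) Z ≫ fst X Y)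
      (Obj.lift (fst (X.prod Y) Z ≫ snd X Y) (snd (X.prod Y) Z)),
    Obj.lift (Obj.lift (fst X (Y.prod Z)) (snd X (Y.prod Z) ≫ fst Y Z))
      (snd X (Y.prod Z) ≫ snd Y Z), ?_, ?_⟩
  · apply prod_hom_ext
    · rw [Category.assoc, Obj.lift_fst]
      apply prod_hom_ext
      · rw [Category.assoc, Obj.lift_fst, Obj.lift_fst, Category.id_comp]
      · rw [Category.assoc, Obj.lift_snd, ← Category.assoc, Obj.lift_snd, Obj.lift_fst,
          Category.id_comp]
    · rw [Category.assoc, Obj.lift_snd, ← Category.assoc, Obj.lift_snd, Obj.lift_snd,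
        Category.id_comp]
  · apply prod_hom_ext
    · rw [Category.assoc, Obj.lift_fst, ← Category.assoc, Obj.lift_fst, Obj.lift_fst,
        Category.id_comp]
    · rw [Category.assoc, Obj.lift_snd]
      apply prod_hom_ext
      · rw [Category.assoc, Obj.lift_fst, ← Category.assoc, Obj.lift_fst, Obj.lift_snd,
          Category.id_comp]
      · rw [Category.assoc, Obj.lift_snd, Obj.lift_snd, Category.id_comp]

theorem Eqv.times (h : Eqv X Y) (l : List 𝒱.Obj) : Eqv (HD.times X l) (HD.times Y l) := by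
  induction l generalizing X Y with
  | nil => exact h
  | cons E l ih => exact ih (h.congr_left E)

theorem Eqv.right_comm (X Y Z : 𝒱.Obj) : Eqv ((X.prod Y).prod Z) ((X.prod Z).prod Y) :=
  (Eqv.assoc X Y Z).trans (((Eqv.comm Y Z).congr_right X).trans (Eqv.assoc X Z Y).symm)

/-- `times X l × Y` is isomorphic to `times (X × Y) l`. -/
theorem Eqv.times_prod (X Y : 𝒱.Obj) (l : List 𝒱.Obj) :
    Eqv ((HD.times X l).prod Y) (HD.times (X.prod Y) l) := by
  induction l generalizing X with
  | nil => exact Eqv.refl _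
  | cons E l ih => exact (ih (X.prod E)).trans ((Eqv.right_comm X E Y).times l)

/-- `X × times Y l` is isomorphic to `times (X × Y) l`. -/
theorem Eqv.prod_times (X Y : 𝒱.Obj) (l : List 𝒱.Obj) :
    Eqv (X.prod (HD.times Y l)) (HD.times (X.prod Y) l) :=
  (Eqv.comm X _).trans ((Eqv.times_prod Y X l).trans ((Eqv.comm Y X).times l))

theorem Eqv.perm {l l' : List 𝒱.Obj} (h : l.Perm l') (X : 𝒱.Obj) :
    Eqv (HD.times X l) (HD.times X l') := by
  induction h generalizing X with
  | nil => exact Eqv.refl _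
  | cons a _ ih => exact ih (X.prod a)
  | swap a b l => exact (Eqv.right_comm X b a).times l
  | trans _ _ ih1 ih2 => exact (ih1 X).trans (ih2 X)

theorem times_append (X : 𝒱.Obj) (l l' : List 𝒱.Obj) :
    times X (l ++ l') = times (times X l) l' := List.foldl_append

end Iso

variable {ops : CycleOps 𝒱} {T : HodgeTheory ops} {X Y Z E E' P Q R W : 𝒱.Obj}
  {c : ℂ ≃ₐ[T.W.K] ℂ}

theorem Eqv.full (h : Eqv X Y) (hX : Full T X) : Full T Y := by
  obtain ⟨f, g, h1, h2⟩ := h
  exact hX.retract g f h2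

/-! ### Replacing a factor -/

/-- For every `Q` the Hodge conjecture for `W × Q` implies the Hodge conjecture for `Y × Q`. -/
def Sub (T : HodgeTheory ops) (W Y : 𝒱.Obj) : Prop := ∀ Q, Full T (W.prod Q) → Full T (Y.prod Q)

theorem Sub.trans (h : Sub T W Y) (h' : Sub T Y X) : Sub T W X := fun Q hQ => h' Q (h Q hQ)

theorem sub_of_op {α : T.W.H X →ₗ[T.W.K] T.W.H Y} {β : T.W.H Y →ₗ[T.W.K] T.W.H X}
    (hα : α ∈ (algSys T.W).Op X Y) (hβ : β ∈ (hodgeSys T).Op Y X)
    (h : β ∘ₗ α = LinearMap.id) : Sub T Y X := by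
  intro Q hQ
  refine full_of fun d hd => ?_
  have h1 : T.W.corr d ∘ₗ β ∈ (algSys T.W).Op Y Q := hQ.op (Sys.Op.comp (Sys.Op.corr hd) hβ)
  have h2 : (T.W.corr d ∘ₗ β) ∘ₗ α ∈ (algSys T.W).Op X Q := Sys.Op.comp h1 hα
  rw [LinearMap.comp_assoc, h, LinearMap.comp_id] at h2
  obtain ⟨d', hd', h3⟩ := Sys.mem_Op.1 h2
  have h4 : d' = d := (corrL_bijective T.W X Q).1 h3
  rw [← h4]
  exact hd'

theorem sub_times [Nontrivial (T.W.H X)] {l : List 𝒱.Obj}
    (hl : ∀ E ∈ l, Nontrivial (T.W.H E)) : Sub T (times X l) X := by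
  intro Q hQ
  induction l using List.reverseRecOn with
  | nil => exact hQ
  | append_singleton l E ih =>
    refine ih (fun F hF => hl F (List.mem_append_left _ hF)) ?_
    rw [times_concat] at hQ
    have h1 : Nontrivial (T.W.H E) := hl E (List.mem_append_right _ (List.mem_singleton_self E))
    have h2 : Eqv (((times X l).prod E).prod Q) (E.prod ((times X l).prod Q)) :=
      ((Eqv.comm _ _).congr_left Q).trans (Eqv.assoc _ _ _)
    exact (h2.full hQ).of_prod

theorem nontrivial_times' [Nontrivial (T.W.H X)] {l : List 𝒱.Obj}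
    (hl : ∀ E ∈ l, Nontrivial (T.W.H E)) : Nontrivial (T.W.H (times X l)) := by
  induction l using List.reverseRecOn with
  | nil => exact (inferInstance : Nontrivial (T.W.H X))
  | append_singleton l E ih =>
    have h1 := ih fun F hF => hl F (List.mem_append_left _ hF)
    have h2 : Nontrivial (T.W.H E) := hl E (List.mem_append_right _ (List.mem_singleton_self E))
    rw [times_concat]
    exact nontrivial_prod

/-- A member of the list. -/
theorem sub_mem [Nontrivial (T.W.H X)] {l : List 𝒱.Obj} (hl : ∀ E ∈ l, Nontrivial (T.W.H E))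
    (hE : E ∈ l) : Sub T (times X l) E := by
  obtain ⟨l₁, l₂, rfl⟩ := List.append_of_mem hE
  have h1 : Nontrivial (T.W.H E) := hl E hE
  have h2 : Nontrivial (T.W.H (times X l₁)) :=
    nontrivial_times' fun F hF => hl F (List.mem_append_left _ hF)
  have h3 : Nontrivial (T.W.H ((times X l₁).prod E)) := nontrivial_prod
  have h4 : Sub T (times X (l₁ ++ E :: l₂)) ((times X l₁).prod E) := by
    rw [times_append]
    exact sub_times fun F hF => hl F (List.mem_append_right _ (List.mem_cons_of_mem _ hF))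
  refine h4.trans fun Q hQ => ?_
  exact ((Eqv.assoc _ _ _).full hQ).of_prod

/-- **All products of objects which can be replaced.** -/
theorem full_times (hW : ∀ m, Full T (pw W m)) {l : List 𝒱.Obj} (hl : ∀ Y ∈ l, Sub T W Y) (m : ℕ) :
    Full T (times (pw W m) l) := by
  induction l using List.reverseRecOn generalizing m with
  | nil => exact hW m
  | append_singleton l Y ih =>
    have h1 := ih (fun F hF => hl F (List.mem_append_left _ hF)) (m + 1)
    have h2 : Eqv (times (pw W (m + 1)) l) (W.prod (times (pw W m) l)) :=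
      ((Eqv.comm (pw W m) W).times l).trans (Eqv.prod_times W (pw W m) l).symm
    have h3 := hl Y (List.mem_append_right _ (List.mem_singleton_self Y)) _ (h2.full h1)
    rw [times_concat]
    exact (Eqv.comm _ _).full h3

theorem pw_eqv (Z : 𝒱.Obj) (n : ℕ) : Eqv (pw Z n) (times Z (List.replicate n Z)) := by
  induction n with
  | zero => exact Eqv.refl _
  | succ n ih =>
    have h1 : Eqv (pw Z (n + 1)) ((times Z (List.replicate n Z)).prod Z) := ih.congr_left Z
    refine h1.trans ?_
    rw [← times_concat, ← List.replicate_succ']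
    exact Eqv.refl _

/-- **The Hodge conjecture for all powers of `W`** implies it for the products. -/
theorem full_sub [Nontrivial (T.W.H W)] (hW : ∀ m, Full T (pw W m)) (hZ : Sub T W Z) (n : ℕ)
    {l : List 𝒱.Obj} (hl : ∀ Y ∈ l, Sub T W Y) : Full T (times (pw Z n) l) := by
  have h1 : Full T (times (pw W 0) (Z :: (List.replicate n Z ++ l))) := by
    refine full_times hW (fun Y hY => ?_) 0
    rcases List.mem_cons.1 hY with rfl | hY
    · exact hZ
    · rcases List.mem_append.1 hY with hY | hY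
      · rw [List.eq_of_mem_replicate hY]
        exact hZ
      · exact hl Y hY
  have h2 : Eqv (times (pw W 0) (Z :: (List.replicate n Z ++ l)))
      (W.prod (times Z (List.replicate n Z ++ l))) :=
    (Eqv.prod_times W Z (List.replicate n Z ++ l)).symm
  have h3 := (h2.full h1).of_prod
  rw [times_append] at h3
  exact ((pw_eqv Z n).symm.times l).full h3

/-- The powers of the product. -/
theorem pw_times (Z : 𝒱.Obj) (S : List 𝒱.Obj) (m : ℕ) : ∃ l : List 𝒱.Obj, (∀ E ∈ l, E ∈ S) ∧
    Eqv (times (pw Z m) l) (pw (times Z S) m) := by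
  induction m with
  | zero => exact ⟨S, fun _ h => h, Eqv.refl _⟩
  | succ m ih =>
    obtain ⟨l, hl, h1⟩ := ih
    refine ⟨l ++ S, fun E hE => (List.mem_append.1 hE).elim (hl E) id, ?_⟩
    rw [times_append]
    have h2 : Eqv ((times (pw Z m) l).prod (times Z S)) (pw (times Z S) (m + 1)) :=
      h1.congr_left _
    refine Eqv.trans ?_ h2
    refine (Eqv.trans (Eqv.prod_times _ Z S) ?_).symm
    exact (Eqv.times_prod (pw Z m) Z l).times S

end Pool.Agent.Q219.HD
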