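import Pool.Agent.Q219.HD.HMain
import Pool.Agent.Q219.HD.Dom

/-!
# Replacing an elliptic curve by an isogenous one
-/

open CategoryTheory AlgebraicGeometry TensorProduct

universe u

namespace Pool.Agent.Q219.HD

open Module
open Pool.Agent.H914 Pool.Agent.H914.VarClass Pool.Agent.H914.VarClass.Obj
  Pool.Agent.H914.WeilCohomology
open Pool.Agent.Y133.Half
open Pool.Agent.Y121
open Pool.Agent.Q50.BL

variable {k : Type u} [Field k] {𝒱 : VarClass k} {ops : CycleOps 𝒱} {T : AH.HodgeTheory ops}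
  {X Y Z E E' E'' P Q : 𝒱.Obj} {c : ℂ ≃ₐ[T.W.K] ℂ}

/-- Maps which commute with the rational operators are morphisms of Hodge structures. -/
theorem mor_of_hg {f : T.W.H X →ₗ[T.W.K] T.W.H Y}
    (h : ∀ l v, f (HD.hg T X l v) = HD.hg T Y l (f v)) : Mor (hop T X) (hop T Y) f := by
  have h1 : ∀ v : T.W.H X, f.baseChange ℂ (hop T X (1 ⊗ₜ[T.W.K] v)) =
      hop T Y (f.baseChange ℂ (1 ⊗ₜ[T.W.K] v)) := by
    intro v
    rw [← sub_eq_zero]
    apply ev_sep
    intro l
    rw [map_sub, ev_base, LinearMap.baseChange_tmul, sub_eq_zero]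
    exact h l v
  intro x
  induction x using TensorProduct.induction_on with
  | zero => simp only [map_zero]
  | add x y hx hy => simp only [map_add, hx, hy]
  | tmul z v =>
    have h3 : (z ⊗ₜ[T.W.K] v : CH T X) = z • (1 ⊗ₜ[T.W.K] v) := by
      rw [TensorProduct.smul_tmul', smul_eq_mul, mul_one]
    rw [h3, map_smul, map_smul, h1, map_smul, map_smul]

theorem phi_comp {b : Bas T E} {b' : Bas T E'} {b'' : Bas T E''} (g h : M2 T.W.K) :
    phi b' b'' g ∘ₗ phi b b' h = phi b b'' (g * h) := by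
  refine ext_gr b ?_ ?_
  · intro i hi v hv
    rw [LinearMap.comp_apply, phi_ne _ hi hv, phi_ne _ hi hv, map_zero]
  · intro j
    rw [LinearMap.comp_apply, phi_b, phi_b, map_sum]
    have h1 : ∀ i, phi b' b'' g (h i j • (b' i : T.W.H E')) =
        ∑ a, (g a i * h i j) • (b'' a : T.W.H E'') := by
      intro i
      rw [map_smul, phi_b, Finset.smul_sum]
      exact Finset.sum_congr rfl fun a _ => by rw [smul_smul, mul_comm]
    rw [Finset.sum_congr rfl fun i _ => h1 i, Finset.sum_comm]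
    refine Finset.sum_congr rfl fun a _ => ?_
    rw [← Finset.sum_smul, Matrix.mul_apply]

theorem phi_phi {b : Bas T E} {b' : Bas T E'} {b'' : Bas T E''} (g h : M2 T.W.K)
    (v : T.W.H E) : phi b' b'' g (phi b b' h v) = phi b b'' (g * h) v :=
  LinearMap.congr_fun (phi_comp g h) v

theorem phi_one {b : Bas T E} {v : T.W.H E} (hv : v ∈ T.W.gr E 1) : phi b b 1 v = v := by
  rw [phi_apply, pr1_same hv, Matrix.toLin_one]
  rfl

/-- There is a class of trace one on a curve. -/
theorem exists_pt [Nontrivial (T.W.H E)] (hd : E.dim = 1) :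
    ∃ p ∈ T.W.gr E 2, T.W.tr E p = 1 := by
  obtain ⟨p, hp, hne⟩ : ∃ p ∈ T.W.gr E 2, T.W.tr E p ≠ 0 := by
    by_contra hcon
    push Not at hcon
    refine one_ne_zero (α := T.W.H E) (T.W.nondeg 1 fun b => ?_)
    rw [one_mul]
    refine gr_induction (T.W.isInternal E) (p := fun b => T.W.tr E b = 0) ?_ ?_ b
    · intro i v hv
      by_cases hi : i = 2
      · subst hi
        exact hcon v hv
      · exact T.W.tr_eq_zero hv (by omega)
    · intro v w hv hw
      rw [map_add, hv, hw, add_zero]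
  refine ⟨(T.W.tr E p)⁻¹ • p, Submodule.smul_mem _ _ hp, ?_⟩
  rw [map_smul, smul_eq_mul, inv_mul_cancel₀ hne]

theorem eq_tr_smul (hd : E.dim = 1) {p z : T.W.H E} (hp : p ∈ T.W.gr E 2)
    (hp1 : T.W.tr E p = 1) (hz : z ∈ T.W.gr E 2) : z = T.W.tr E z • p := by
  rw [← sub_eq_zero]
  apply T.W.nondeg
  intro b
  have hy : z - T.W.tr E z • p ∈ T.W.gr E 2 :=
    Submodule.sub_mem _ hz (Submodule.smul_mem _ _ hp)
  have hy0 : T.W.tr E (z - T.W.tr E z • p) = 0 := by
    rw [map_sub, map_smul, hp1, smul_eq_mul, mul_one, sub_self]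
  refine gr_induction (T.W.isInternal E)
    (p := fun b => T.W.tr E ((z - T.W.tr E z • p) * b) = 0) ?_ ?_ b
  · intro i v hv
    by_cases hi : i = 0
    · subst hi
      rw [T.W.gr_zero E] at hv
      obtain ⟨r, rfl⟩ := Submodule.mem_span_singleton.1 hv
      rw [mul_smul_comm, mul_one, map_smul, hy0, smul_zero]
    · exact T.W.tr_eq_zero (T.W.mul_mem hy hv) (by omega)
  · intro v w hv hw
    rw [mul_add, map_add, hv, hw, add_zero]

/-- The isomorphism of the even cohomology of two curves. -/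
noncomputable def eps (T : AH.HodgeTheory ops) (E E' : 𝒱.Obj) (p : T.W.H E) (p' : T.W.H E') :
    T.W.H E →ₗ[T.W.K] T.W.H E' :=
  (T.W.tr E ∘ₗ LinearMap.mulRight T.W.K p).smulRight 1 + (T.W.tr E).smulRight p'

theorem eps_apply (p : T.W.H E) (p' : T.W.H E') (z : T.W.H E) :
    eps T E E' p p' z = T.W.tr E (z * p) • 1 + T.W.tr E z • p' := rfl

section

variable {p : T.W.H E} {p' : T.W.H E'}

theorem eps_one (hd : E.dim = 1) (hp1 : T.W.tr E p = 1) : eps T E E' p p' 1 = 1 := by
  rw [eps_apply, one_mul, hp1, one_smul, T.W.tr_eq_zero (T.W.one_mem E) (by omega), zero_smul,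
    add_zero]

theorem eps_two (hd : E.dim = 1) (hp : p ∈ T.W.gr E 2) {z : T.W.H E} (hz : z ∈ T.W.gr E 2) :
    eps T E E' p p' z = T.W.tr E z • p' := by
  rw [eps_apply, T.W.tr_eq_zero (T.W.mul_mem hz hp) (by omega), zero_smul, zero_add]

theorem eps_ne (hd : E.dim = 1) (hp : p ∈ T.W.gr E 2) {z : T.W.H E} (hz : z ∈ T.W.gr E 1) :
    eps T E E' p p' z = 0 := by
  rw [eps_apply, T.W.tr_eq_zero (T.W.mul_mem hz hp) (by omega), zero_smul, zero_add,
    T.W.tr_eq_zero hz (by omega), zero_smul]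

theorem phi_eps {b' : Bas T E'} {b'' : Bas T E''} (g : M2 T.W.K) (hp' : p' ∈ T.W.gr E' 2)
    (z : T.W.H E) : phi b' b'' g (eps T E E' p p' z) = 0 := by
  rw [eps_apply, map_add, map_smul, map_smul, phi_ne g (by decide) (T.W.one_mem E'),
    phi_ne g (by decide) hp', smul_zero, smul_zero, add_zero]

end

/-- The isomorphism of the cohomology of two isogenous curves. -/
noncomputable def isoE (b : Bas T E) (b' : Bas T E') (p : T.W.H E) (p' : T.W.H E') :
    T.W.H E →ₗ[T.W.K] T.W.H E' := phi b b' 1 + eps T E E' p p'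

theorem isoE_mor {b : Bas T E} {b' : Bas T E'} {p : T.W.H E} {p' : T.W.H E'} {N : M2 ℂ}
    (hE : CurveRange T E) (hE' : CurveRange T E') (hN : IsMat b N) (hN' : IsMat b' N)
    (hd : E.dim = 1) (hp : p ∈ T.W.gr E 2) (hp' : p' ∈ T.W.gr E' 2) :
    isoE b b' p p' ∈ (AH.hodgeSys T).Op E E' := by
  refine op_of_mor (mor_of_hg fun l v => ?_)
  rw [hg_eq hE hN, hg_eq hE' hN', isoE, LinearMap.add_apply, LinearMap.add_apply, map_add,
    phi_eps _ hp', add_zero, eps_ne hd hp (phi_mem _ _), add_zero, phi_phi, phi_phi, one_mul,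
    mul_one]

theorem isoE_inv {b : Bas T E} {b' : Bas T E'} {p : T.W.H E} {p' : T.W.H E'}
    (hd : E.dim = 1) (hd' : E'.dim = 1) (hp : p ∈ T.W.gr E 2) (hp' : p' ∈ T.W.gr E' 2)
    (hp1 : T.W.tr E p = 1) (hp1' : T.W.tr E' p' = 1) :
    isoE b' b p' p ∘ₗ isoE b b' p p' = LinearMap.id := by
  apply LinearMap.ext
  intro v
  rw [LinearMap.id_apply]
  refine gr_induction (T.W.isInternal E)
    (p := fun v => (isoE b' b p' p ∘ₗ isoE b b' p p') v = v) ?_ ?_ v
  · intro i v hv
    rw [LinearMap.comp_apply]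
    rcases (by omega : i = 0 ∨ i = 1 ∨ i = 2 ∨ 2 < i) with rfl | rfl | rfl | h
    · rw [T.W.gr_zero E] at hv
      obtain ⟨r, rfl⟩ := Submodule.mem_span_singleton.1 hv
      have h1 : isoE b b' p p' 1 = 1 := by
        rw [isoE, LinearMap.add_apply, phi_ne _ (by decide) (T.W.one_mem E), zero_add,
          eps_one hd hp1]
      have h2 : isoE b' b p' p 1 = 1 := by
        rw [isoE, LinearMap.add_apply, phi_ne _ (by decide) (T.W.one_mem E'), zero_add,
          eps_one hd' hp1']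
      rw [map_smul, map_smul, h1, h2]
    · have h1 : isoE b b' p p' v = phi b b' 1 v := by
        rw [isoE, LinearMap.add_apply, eps_ne hd hp hv, add_zero]
      have h2 : isoE b' b p' p (phi b b' 1 v) = phi b' b 1 (phi b b' 1 v) := by
        rw [isoE, LinearMap.add_apply, eps_ne hd' hp' (phi_mem _ _), add_zero]
      rw [h1, h2, phi_phi, one_mul, phi_one hv]
    · have h1 : isoE b b' p p' v = T.W.tr E v • p' := by
        rw [isoE, LinearMap.add_apply, phi_ne _ (by decide) hv, zero_add, eps_two hd hp hv]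
      have h2 : isoE b' b p' p p' = p := by
        rw [isoE, LinearMap.add_apply, phi_ne _ (by decide) hp', zero_add, eps_two hd' hp' hp',
          hp1', one_smul]
      rw [h1, map_smul, h2]
      exact (eq_tr_smul hd hp hp1 hv).symm
    · rw [T.W.gr_eq_bot E i (by omega)] at hv
      rw [(Submodule.mem_bot _).1 hv, map_zero, map_zero]
  · intro v w hv hw
    rw [map_add, hv, hw]

/-- **Replacing an elliptic curve by an isogenous one.** -/
theorem sub_isog (h11 : ∀ (X : 𝒱.Obj), ∀ v ∈ T.W.gr X 2, v ∈ (AH.hodgeSys T).C X →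
    v ∈ (algSys T.W).C X) (hE : IsEll T c E) (hE' : IsEll T c E') (hd : E.dim = 1)
    (hd' : E'.dim = 1) (hi : Isog T E E') : Sub T E E' := by
  obtain ⟨mtx, hm1, hm2⟩ := exists_mtx T c
  obtain ⟨b, hb⟩ := hm1 E hE
  obtain ⟨b', hb'⟩ := hm1 E' hE'
  have hm := (hm2 E E' hE hE').2 hi
  rw [← hm] at hb'
  have := nontrivial_ell hE
  have := nontrivial_ell hE'
  obtain ⟨p, hp, hp1⟩ := exists_pt (T := T) (E := E) hd
  obtain ⟨p', hp', hp1'⟩ := exists_pt (T := T) (E := E') hd'
  have h1 : Full T (E'.prod E) := full_le_three h11 (by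
    have : (E'.prod E).dim = E'.dim + E.dim := Obj.dim_prod _ _
    omega)
  exact sub_of_op (h1.op (isoE_mor hE'.range hE.range hb' hb hd' hp' hp))
    (isoE_mor hE.range hE'.range hb hb' hd hp hp') (isoE_inv hd' hd hp' hp hp1' hp1)

end Pool.Agent.Q219.HD
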