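import Pool.Agent.Q219.HD.Cof
import Pool.Agent.Q219.HD.CMat
import Pool.Agent.Q50.BL.PolX

/-!
# The first cohomology of an elliptic curve
-/

open CategoryTheory AlgebraicGeometry TensorProduct

universe u

namespace Pool.Agent.Q219.HD

open Module
open Pool.Agent.H914 Pool.Agent.H914.VarClass Pool.Agent.H914.VarClass.Obj
  Pool.Agent.H914.WeilCohomology
open Pool.Agent.Y133.Half
open Pool.Agent.Y121.AH
open Pool.Agent.Q50.BL

variable {k : Type u} [Field k] {𝒱 : VarClass k} {ops : CycleOps 𝒱} {T : HodgeTheory ops}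
  {E E' : 𝒱.Obj}

/-- The types of the classes on a curve. -/
def CurveRange (T : HodgeTheory ops) (E : 𝒱.Obj) : Prop :=
  ∀ (p q : ℤ) (x : CH T E), x ∈ pqC T E p q → x ≠ 0 → 0 ≤ p ∧ p ≤ 1 ∧ 0 ≤ q ∧ q ≤ 1

/-- A basis of the first cohomology. -/
abbrev Bas (T : HodgeTheory ops) (E : 𝒱.Obj) : Type := Basis (Fin 2) T.W.K (T.W.gr E 1)

/-- The class `1 ⊗ b j`. -/
noncomputable def bc (b : Bas T E) (j : Fin 2) : CH T E := 1 ⊗ₜ[T.W.K] (b j : T.W.H E)

variable {b : Bas T E} {b' : Bas T E'}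

theorem bc_mem (j : Fin 2) : bc b j ∈ (T.W.gr E 1).baseChange ℂ :=
  Submodule.tmul_mem_baseChange_of_mem _ (b j).2

theorem exists_comb (b : Bas T E) {x : CH T E} (hx : x ∈ (T.W.gr E 1).baseChange ℂ) :
    ∃ c : Fin 2 → ℂ, x = ∑ i, c i • bc b i := by
  refine base_induction (P := fun x => ∃ c : Fin 2 → ℂ, x = ∑ i, c i • bc b i) ?_ ?_ ?_ hx
  · exact ⟨0, by simp⟩
  · rintro _ _ ⟨c, rfl⟩ ⟨d, rfl⟩
    refine ⟨c + d, ?_⟩
    rw [← Finset.sum_add_distrib]
    exact Finset.sum_congr rfl fun i _ => by rw [Pi.add_apply, add_smul]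
  · intro z a ha
    refine ⟨fun i => z * algebraMap T.W.K ℂ (b.repr ⟨a, ha⟩ i), ?_⟩
    have h1 : a = ∑ i, b.repr ⟨a, ha⟩ i • (b i : T.W.H E) := by
      have := congrArg Subtype.val (b.sum_repr ⟨a, ha⟩)
      rw [Submodule.coe_sum] at this
      exact this.symm
    conv_lhs => rw [h1]
    rw [tmul_sum]
    refine Finset.sum_congr rfl fun i _ => ?_
    rw [bc, TensorProduct.smul_tmul', smul_eq_mul, mul_one]
    change _ = (z * algebraMap T.W.K ℂ (b.repr ⟨a, ha⟩ i)) ⊗ₜ[T.W.K] (b i : T.W.H E)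
    rw [mul_comm, ← Algebra.smul_def, TensorProduct.tmul_smul, TensorProduct.smul_tmul']

theorem ev_comb (l : Lam T) (c : Fin 2 → ℂ) : ev l (∑ i, c i • bc b i) =
    ∑ i, l (c i) • (b i : T.W.H E) := by
  rw [map_sum]
  refine Finset.sum_congr rfl fun i _ => ?_
  rw [bc, TensorProduct.smul_tmul', smul_eq_mul, mul_one, ev_tmul]

theorem bas_indep {c d : Fin 2 → T.W.K}
    (h : ∑ i, c i • (b i : T.W.H E) = ∑ i, d i • (b i : T.W.H E)) : c = d := by
  have h1 : ∑ i, c i • b i = ∑ i, d i • b i := by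
    apply Subtype.ext
    rw [Submodule.coe_sum, Submodule.coe_sum]
    exact h
  funext i
  have h2 := congrArg (fun x => b.repr x i) h1
  rw [b.repr_sum_self, b.repr_sum_self] at h2
  exact h2

theorem comb_inj {c d : Fin 2 → ℂ} (h : ∑ i, c i • bc b i = ∑ i, d i • bc b i) : c = d := by
  funext i
  refine sep_eq (K := T.W.K) fun l => ?_
  have h1 := congrArg (ev l) h
  rw [ev_comb, ev_comb] at h1
  exact congrFun (bas_indep h1) i

/-- The matrix of the Hodge operator. -/
def IsMat (b : Bas T E) (N : M2 ℂ) : Prop := ∀ j, hop T E (bc b j) = ∑ i, N i j • bc b i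

theorem exists_mat (b : Bas T E) : ∃ N, IsMat b N := by
  have h1 : ∀ j, ∃ c : Fin 2 → ℂ, hop T E (bc b j) = ∑ i, c i • bc b i := fun j =>
    exists_comb b (hop_gr (bc_mem j))
  choose c hc using h1
  exact ⟨Matrix.of fun i j => c j i, fun j => hc j⟩

variable {N : M2 ℂ} {N' : M2 ℂ}

theorem hop_comb (hN : IsMat b N) (c : Fin 2 → ℂ) :
    hop T E (∑ i, c i • bc b i) = ∑ i, (N.mulVec c) i • bc b i := by
  rw [map_sum]
  have h1 : ∀ j, hop T E (c j • bc b j) = ∑ i, (N i j * c j) • bc b i := by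
    intro j
    rw [map_smul, hN j, Finset.smul_sum]
    exact Finset.sum_congr rfl fun i _ => by rw [smul_smul, mul_comm]
  rw [Finset.sum_congr rfl fun j _ => h1 j, Finset.sum_comm]
  refine Finset.sum_congr rfl fun i _ => ?_
  rw [← Finset.sum_smul]
  rfl

theorem mem_of_pq {i : ℕ} {p q : ℤ} (h : p + q = i) {x : CH T E} (hx : x ∈ pqC T E p q) :
    x ∈ (T.W.gr E i).baseChange ℂ := pq_gr h hx

theorem hop_hop (hr : CurveRange T E) {x : CH T E} (hx : x ∈ (T.W.gr E 1).baseChange ℂ) :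
    hop T E (hop T E x) = x := by
  refine gr_ind (p := fun x => hop T E (hop T E x) = x) ?_ ?_ ?_ hx
  · intro a b hab x hx
    by_cases h0 : x = 0
    · rw [h0, map_zero, map_zero]
    · obtain ⟨h1, h2, h3, h4⟩ := hr a b x hx h0
      rw [hop_pq hx, map_smul, hop_pq hx, smul_smul]
      have h5 : (a - b) * (a - b) = 1 := by
        have h6 : (a = 0 ∧ b = 1) ∨ (a = 1 ∧ b = 0) := by
          push_cast at hab
          omega
        rcases h6 with ⟨rfl, rfl⟩ | ⟨rfl, rfl⟩ <;> norm_num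
      have h7 : ((a - b : ℤ) : ℂ) * ((a - b : ℤ) : ℂ) = 1 := by exact_mod_cast h5
      rw [h7, one_smul]
  · intro x y hx hy; rw [map_add, map_add, hx, hy]
  · rw [map_zero, map_zero]

theorem bc_eq_comb (j : Fin 2) : bc b j = ∑ i, (Pi.single j (1 : ℂ) : Fin 2 → ℂ) i • bc b i := by
  rw [Finset.sum_eq_single j]
  · rw [Pi.single_eq_same, one_smul]
  · intro i _ hi; rw [Pi.single_eq_of_ne hi, zero_smul]
  · intro h; exact absurd (Finset.mem_univ j) h

theorem mat_sq (hr : CurveRange T E) (hN : IsMat b N) : N * N = 1 := by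
  ext i j
  have h1 := hop_hop hr (bc_mem (b := b) j)
  rw [hN j] at h1
  have h2 := hop_comb hN (fun i => N i j)
  rw [h2, bc_eq_comb] at h1
  have h3 := congrFun (comb_inj h1) i
  rw [Matrix.mul_apply]
  have h4 : (N.mulVec fun i => N i j) i = ∑ a, N i a * N a j := rfl
  rw [h4] at h3
  rw [h3, Pi.single_apply, Matrix.one_apply]

/-- The complex conjugation. -/
def ConjOK (T : HodgeTheory ops) (E : 𝒱.Obj) (c : ℂ ≃ₐ[T.W.K] ℂ) : Prop :=
  ∀ x, hop T E (sg (T.W.H E) c x) = - sg (T.W.H E) c (hop T E x)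

variable {c : ℂ ≃ₐ[T.W.K] ℂ}

theorem mat_conj (hc : ConjOK T E c) (hN : IsMat b N) (i j : Fin 2) : c (N i j) = - N i j := by
  have e0 : ∀ j, sg (T.W.H E) c (bc b j) = bc b j := by
    intro j
    rw [bc, sg_tmul, map_one]
  have h1 := hc (bc b j)
  rw [e0, hN j, map_sum, ← Finset.sum_neg_distrib] at h1
  have h2 : ∀ i, - sg (T.W.H E) c (N i j • bc b i) = (- c (N i j)) • bc b i := by
    intro i
    rw [sg_smul, e0, neg_smul]
  rw [Finset.sum_congr rfl fun i _ => h2 i] at h1
  have h3 := congrFun (comb_inj h1) i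
  change N i j = - c (N i j) at h3
  rw [h3, neg_neg, ← h3]

theorem sq_one {z : ℂ} (h : z * z = 1) : c z = z := by
  rcases mul_self_eq_one_iff.1 h with rfl | rfl
  · exact map_one c
  · rw [map_neg, map_one]

theorem isHodgeMat (hr : CurveRange T E) (hc : ConjOK T E c) (hN : IsMat b N) :
    IsHodgeMat T.W.K N := by
  have hsq := mat_sq hr hN
  have hcj := mat_conj hc hN
  have h2 : (2 : ℂ) ≠ 0 := two_ne_zero
  refine ⟨hsq, ?_, ?_⟩
  · -- the trace
    by_contra ht
    have e : ∀ i j, (N * N) i j = N i 0 * N 0 j + N i 1 * N 1 j := by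
      intro i j
      rw [Matrix.mul_apply, Fin.sum_univ_two]
    have e00 := e 0 0
    have e01 := e 0 1
    have e10 := e 1 0
    have e11 := e 1 1
    rw [hsq] at e00 e01 e10 e11
    simp only [Matrix.one_apply_eq, Matrix.one_apply_ne (show (0 : Fin 2) ≠ 1 by decide),
      Matrix.one_apply_ne (show (1 : Fin 2) ≠ 0 by decide)] at e00 e01 e10 e11
    rw [Matrix.trace_fin_two] at ht
    have h01 : N 0 1 = 0 := by
      have : (N 0 0 + N 1 1) * N 0 1 = 0 := by rw [add_mul]; linear_combination -e01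
      exact (mul_eq_zero.1 this).resolve_left ht
    rw [h01, zero_mul, add_zero] at e00
    have h3 : c (N 0 0) = N 0 0 := sq_one e00.symm
    rw [hcj] at h3
    have h4 : N 0 0 = 0 := by
      have : 2 * N 0 0 = 0 := by linear_combination -h3
      exact (mul_eq_zero.1 this).resolve_left h2
    rw [h4, zero_mul] at e00
    exact one_ne_zero e00
  · intro v hv z hz
    obtain ⟨V, hV⟩ : ∃ V : Fin 2 → ℂ, V = fun i => algebraMap T.W.K ℂ (v i) := ⟨_, rfl⟩
    rw [← hV] at hz
    obtain ⟨i, hi⟩ := Function.ne_iff.1 hv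
    have hi' : v i ≠ 0 := hi
    have hVi : V i ≠ 0 := by
      rw [hV]
      exact (map_ne_zero _).2 hi'
    have hcV : ∀ j, c (V j) = V j := by
      intro j
      rw [hV]
      exact c.commutes _
    have h5 : z * z = 1 := by
      have h6 : N.mulVec (N.mulVec V) = V := by rw [Matrix.mulVec_mulVec, hsq, Matrix.one_mulVec]
      rw [hz, Matrix.mulVec_smul, hz, smul_smul] at h6
      have h7 := congrFun h6 i
      rw [Pi.smul_apply, smul_eq_mul] at h7
      exact mul_right_cancel₀ hVi (by rw [h7, one_mul])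
    have h6 : c (z * V i) = - (z * V i) := by
      have h7 : z * V i = N i 0 * V 0 + N i 1 * V 1 := by
        have := congrFun hz i
        rw [Pi.smul_apply, smul_eq_mul] at this
        rw [← this, Matrix.mulVec, dotProduct, Fin.sum_univ_two]
      rw [h7, map_add, map_mul, map_mul, hcj, hcj, hcV, hcV]
      ring
    rw [map_mul, sq_one h5, hcV] at h6
    have h7 : z * V i = 0 := by
      have : 2 * (z * V i) = 0 := by linear_combination h6
      exact (mul_eq_zero.1 this).resolve_left h2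
    have h8 : z = 0 := (mul_eq_zero.1 h7).resolve_right hVi
    rw [h8, zero_mul] at h5
    exact zero_ne_one h5

end Pool.Agent.Q219.HD
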