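import Pool.Agent.Q219.HD.Ell

/-!
# Elliptic curves: the Lie algebra, complex multiplication and isogenies
-/

open CategoryTheory AlgebraicGeometry TensorProduct

universe u

namespace Pool.Agent.Q219.HD

open Module
open Pool.Agent.H914 Pool.Agent.H914.VarClass Pool.Agent.H914.VarClass.Obj
  Pool.Agent.H914.WeilCohomology
open Pool.Agent.Y133.Half
open Pool.Agent.Y121.AH
open Pool.Agent.Q50.BL

variable {k : Type u} [Field k] {𝒱 : VarClass k} {ops : CycleOps 𝒱} {T : HodgeTheory ops}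
  {E E' : 𝒱.Obj}

/-- The projection to the first cohomology. -/
noncomputable def pr1 (T : HodgeTheory ops) (E : 𝒱.Obj) : T.W.H E →ₗ[T.W.K] T.W.gr E 1 :=
  (H914.proj (T.W.isInternal E) 1).codRestrict _ fun _ => proj_mem _ _ _

theorem pr1_same {v : T.W.H E} (hv : v ∈ T.W.gr E 1) : pr1 T E v = ⟨v, hv⟩ :=
  Subtype.ext (proj_same _ hv)

theorem pr1_ne {i : ℕ} (hi : i ≠ 1) {v : T.W.H E} (hv : v ∈ T.W.gr E i) : pr1 T E v = 0 :=
  Subtype.ext (proj_ne _ hv hi)

/-- The map of the total cohomology given by a matrix. -/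
noncomputable def phi (b : Bas T E) (b' : Bas T E') : M2 T.W.K →ₗ[T.W.K] (T.W.H E →ₗ[T.W.K] T.W.H E') where
  toFun g := (T.W.gr E' 1).subtype ∘ₗ Matrix.toLin b b' g ∘ₗ pr1 T E
  map_add' g h := by rw [map_add, LinearMap.add_comp, LinearMap.comp_add]
  map_smul' c g := by rw [map_smul, LinearMap.smul_comp, LinearMap.comp_smul, RingHom.id_apply]

variable {b : Bas T E} {b' : Bas T E'}

theorem phi_apply (g : M2 T.W.K) (v : T.W.H E) :
    phi b b' g v = (Matrix.toLin b b' g (pr1 T E v) : T.W.H E') := rfl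

theorem phi_b (g : M2 T.W.K) (j : Fin 2) :
    phi b b' g (b j) = ∑ i, g i j • (b' i : T.W.H E') := by
  rw [phi_apply, pr1_same (b j).2, Subtype.coe_eta, Matrix.toLin_self, Submodule.coe_sum]
  rfl

theorem phi_ne (g : M2 T.W.K) {i : ℕ} (hi : i ≠ 1) {v : T.W.H E} (hv : v ∈ T.W.gr E i) :
    phi b b' g v = 0 := by
  rw [phi_apply, pr1_ne hi hv, map_zero]
  rfl

theorem phi_mem (g : M2 T.W.K) (v : T.W.H E) : phi b b' g v ∈ T.W.gr E' 1 :=
  (Matrix.toLin b b' g (pr1 T E v)).2

/-- Linear maps are determined by their values on the pieces. -/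
theorem ext_gr {V : Type*} [AddCommGroup V] [Module T.W.K V] {f g : T.W.H E →ₗ[T.W.K] V}
    (b : Bas T E) (h : ∀ i, i ≠ 1 → ∀ v ∈ T.W.gr E i, f v = g v)
    (hb : ∀ j, f (b j) = g (b j)) : f = g := by
  apply LinearMap.ext
  intro v
  refine gr_induction (T.W.isInternal E) (p := fun v => f v = g v) ?_ ?_ v
  · intro i v hv
    by_cases hi : i = 1
    · subst hi
      have h1 : v = ∑ i, b.repr ⟨v, hv⟩ i • (b i : T.W.H E) := by
        have := congrArg Subtype.val (b.sum_repr ⟨v, hv⟩)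
        rw [Submodule.coe_sum] at this
        exact this.symm
      rw [h1, map_sum, map_sum]
      exact Finset.sum_congr rfl fun i _ => by rw [map_smul, map_smul, hb]
    · exact h i hi v hv
  · intro v w hv hw; rw [map_add, map_add, hv, hw]

theorem phi_mul (g h : M2 T.W.K) : phi b b (g * h) = phi b b g * phi b b h := by
  refine ext_gr b ?_ ?_
  · intro i hi v hv
    rw [Module.End.mul_apply, phi_ne _ hi hv, phi_ne _ hi hv, map_zero]
  · intro j
    rw [Module.End.mul_apply, phi_b, phi_b, map_sum]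
    have h1 : ∀ i, phi b b g (h i j • (b i : T.W.H E)) =
        ∑ a, (g a i * h i j) • (b a : T.W.H E) := by
      intro i
      rw [map_smul, phi_b, Finset.smul_sum]
      exact Finset.sum_congr rfl fun a _ => by rw [smul_smul, mul_comm]
    rw [Finset.sum_congr rfl fun i _ => h1 i, Finset.sum_comm]
    refine Finset.sum_congr rfl fun a _ => ?_
    rw [← Finset.sum_smul, Matrix.mul_apply]

theorem phi_isLieMap : IsLieMap (phi b b) := by
  intro g h
  rw [map_sub, phi_mul, phi_mul]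

theorem phi_inj {g h : M2 T.W.K} (e : phi b b' g = phi b b' h) : g = h := by
  ext i j
  have h1 := LinearMap.congr_fun e (b j)
  rw [phi_b, phi_b] at h1
  exact congrFun (bas_indep h1) i

variable {N N' : M2 ℂ}

/-- The operators are given by the matrices. -/
theorem hg_eq (hr : CurveRange T E) (hN : IsMat b N) (l : Lam T) :
    hg T E l = phi b b (cofM N l) := by
  refine ext_gr b ?_ ?_
  · intro i hi v hv
    rw [phi_ne _ hi hv, hg_apply]
    have h1 : hop T E (1 ⊗ₜ[T.W.K] v) = 0 := by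
      have h2 : (1 ⊗ₜ[T.W.K] v : CH T E) ∈ (T.W.gr E i).baseChange ℂ :=
        Submodule.tmul_mem_baseChange_of_mem _ hv
      refine gr_ind (p := fun x => hop T E x = 0) ?_ ?_ ?_ h2
      · intro p q hpq x hx
        by_cases h0 : x = 0
        · rw [h0, map_zero]
        · obtain ⟨h3, h4, h5, h6⟩ := hr p q x hx h0
          rw [hop_pq hx]
          have h7 : p - q = 0 := by omega
          rw [h7, Int.cast_zero, zero_smul]
      · intro x y hx hy; rw [map_add, hx, hy, add_zero]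
      · rw [map_zero]
    rw [h1, map_zero]
  · intro j
    rw [phi_b, hg_apply]
    have h1 : (1 ⊗ₜ[T.W.K] (b j : T.W.H E) : CH T E) = bc b j := rfl
    rw [h1, hN j, ev_comb]
    rfl

theorem gen_hg_eq (hr : CurveRange T E) (hN : IsMat b N) :
    gen (hg T E) = (gen (cofM (K := T.W.K) N)).map (phi b b) := by
  have h1 : hg T E = phi b b ∘ₗ cofM N := LinearMap.ext fun l => hg_eq hr hN l
  rw [h1, map_gen phi_isLieMap]

theorem hg_perfect (hr : CurveRange T E) (hN : IsMat b N) (hH : IsHodgeMat T.W.K N)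
    (hn : NoCM T.W.K N) : IsPerfect (gen (hg T E)) := by
  rw [gen_hg_eq hr hN, gen_eq_sl hH hn]
  rintro _ ⟨x, hx, rfl⟩
  have h1 := sl_perfect (K := T.W.K) two_ne hx
  have h2 : phi b b x ∈ (Submodule.span T.W.K {z : M2 T.W.K | ∃ x ∈ sl T.W.K, ∃ y ∈ sl T.W.K,
      z = x * y - y * x}).map (phi b b) := ⟨x, h1, rfl⟩
  rw [Submodule.map_span] at h2
  refine Submodule.span_mono ?_ h2
  rintro _ ⟨_, ⟨y, hy, z, hz, rfl⟩, rfl⟩
  exact ⟨_, ⟨y, hy, rfl⟩, _, ⟨z, hz, rfl⟩, phi_isLieMap y z⟩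

theorem hg_free (hr : CurveRange T E) (hN : IsMat b N) (hr' : CurveRange T E')
    (hN' : IsMat b' N') (h : Free2 (cofM (K := T.W.K) N) (cofM (K := T.W.K) N')) :
    Free2 (hg T E) (hg T E') := by
  intro x hx
  rw [gen_hg_eq hr' hN'] at hx
  obtain ⟨y, hy, rfl⟩ := hx
  have h1 := h y hy
  let ψ : (M2 T.W.K × M2 T.W.K) →ₗ[T.W.K] (EH T E × EH T E') :=
    (phi b b).prodMap (phi b' b')
  have hψ : IsLieMap ψ := by
    intro p q
    exact Prod.ext (phi_isLieMap p.1 q.1) (phi_isLieMap p.2 q.2)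
  have h2 := map_gen_mem hψ (h := (cofM (K := T.W.K) N).prod (cofM (K := T.W.K) N'))
    (h' := (hg T E).prod (hg T E')) (fun l => by
      refine Prod.ext ?_ ?_
      · exact (hg_eq hr hN l).symm
      · exact (hg_eq hr' hN' l).symm) h1
  have h3 : ψ (0, y) = (0, phi b' b' y) := Prod.ext (map_zero (phi b b)) rfl
  rw [h3] at h2
  exact h2

/-- The map respects the types. -/
def HMor (T : HodgeTheory ops) (X Y : 𝒱.Obj) (f : T.W.H X →ₗ[T.W.K] T.W.H Y) : Prop :=
  ∀ (p q : ℤ) (x : CH T X), x ∈ pqC T X p q → f.baseChange ℂ x ∈ pqC T Y p q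

theorem base_zero {i : ℕ} {f : T.W.H E →ₗ[T.W.K] T.W.H E'} (h : ∀ v ∈ T.W.gr E i, f v = 0)
    {x : CH T E} (hx : x ∈ (T.W.gr E i).baseChange ℂ) : f.baseChange ℂ x = 0 := by
  refine base_induction (P := fun x => f.baseChange ℂ x = 0) ?_ ?_ ?_ hx
  · rw [map_zero]
  · intro x y hx hy; rw [map_add, hx, hy, add_zero]
  · intro z a ha; rw [LinearMap.baseChange_tmul, h a ha, tmul_zero]

theorem base_mem {i j : ℕ} {f : T.W.H E →ₗ[T.W.K] T.W.H E'}
    (h : ∀ v ∈ T.W.gr E i, f v ∈ T.W.gr E' j)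
    {x : CH T E} (hx : x ∈ (T.W.gr E i).baseChange ℂ) :
    f.baseChange ℂ x ∈ (T.W.gr E' j).baseChange ℂ := by
  refine base_induction (P := fun x => f.baseChange ℂ x ∈ (T.W.gr E' j).baseChange ℂ) ?_ ?_ ?_ hx
  · rw [map_zero]; exact Submodule.zero_mem _
  · intro x y hx hy; rw [map_add]; exact Submodule.add_mem _ hx hy
  · intro z a ha
    rw [LinearMap.baseChange_tmul]
    exact Submodule.tmul_mem_baseChange_of_mem _ (h a ha)

theorem phi_bc (g : M2 T.W.K) (j : Fin 2) :
    (phi b b' g).baseChange ℂ (bc b j) = ∑ i, (toC g) i j • bc b' i := by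
  rw [bc, LinearMap.baseChange_tmul, phi_b, tmul_sum]
  refine Finset.sum_congr rfl fun i _ => ?_
  rw [tmul_smul, bc, toC, Matrix.map_apply, algebraMap_smul]

theorem phi_comb (g : M2 T.W.K) (c : Fin 2 → ℂ) :
    (phi b b' g).baseChange ℂ (∑ j, c j • bc b j) = ∑ i, ((toC g).mulVec c) i • bc b' i := by
  rw [map_sum]
  have h1 : ∀ j, (phi b b' g).baseChange ℂ (c j • bc b j) =
      ∑ i, ((toC g) i j * c j) • bc b' i := by
    intro j
    rw [map_smul, phi_bc, Finset.smul_sum]
    exact Finset.sum_congr rfl fun i _ => by rw [smul_smul, mul_comm]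
  rw [Finset.sum_congr rfl fun j _ => h1 j, Finset.sum_comm]
  refine Finset.sum_congr rfl fun i _ => ?_
  rw [← Finset.sum_smul]
  rfl

/-- Matrices which intertwine the Hodge operators give morphisms of Hodge structures. -/
theorem hmor_of_mat (hr : CurveRange T E) (hN : IsMat b N) (hN' : IsMat b' N') {g : M2 T.W.K}
    (hg : toC g * N = N' * toC g) : HMor T E E' (phi b b' g) := by
  intro p q x hx
  by_cases h0 : x = 0
  · rw [h0, map_zero]; exact Submodule.zero_mem _
  obtain ⟨h1, h2, h3, h4⟩ := hr p q x hx h0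
  obtain ⟨i, hi⟩ : ∃ i : ℕ, p + q = i := ⟨(p + q).toNat, by omega⟩
  have hxi := pq_gr hi hx
  by_cases hi1 : i = 1
  · subst hi1
    have h5 : hop T E' ((phi b b' g).baseChange ℂ x) =
        ((p - q : ℤ) : ℂ) • (phi b b' g).baseChange ℂ x := by
      rw [← map_smul, ← hop_pq hx]
      obtain ⟨c, rfl⟩ := exists_comb b hxi
      rw [phi_comb, hop_comb hN', hop_comb hN, phi_comb, Matrix.mulVec_mulVec,
        Matrix.mulVec_mulVec, hg]
    have h6 : (phi b b' g).baseChange ℂ x ∈ (T.W.gr E' 1).baseChange ℂ :=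
      base_mem (fun v _ => phi_mem g v) hxi
    rcases eig_mem h6 h5 with ⟨a, c, hac, hac', h7⟩ | h7
    · have h8 : a = p := by push_cast at hi hac; omega
      have h9 : c = q := by push_cast at hi hac; omega
      rw [h8, h9] at h7
      exact h7
    · rw [h7]; exact Submodule.zero_mem _
  · rw [base_zero (fun v hv => phi_ne g hi1 hv) hxi]
    exact Submodule.zero_mem _

theorem HMor.hcomm {X Y : 𝒱.Obj} {f : T.W.H X →ₗ[T.W.K] T.W.H Y} (hf : HMor T X Y f) (x : CH T X) :
    f.baseChange ℂ (hop T X x) = hop T Y (f.baseChange ℂ x) := by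
  refine ch_ind (p := fun x => f.baseChange ℂ (hop T X x) = hop T Y (f.baseChange ℂ x))
    ?_ ?_ ?_ x
  · intro _ p q _ x hx
    rw [hop_pq hx, map_smul, hop_pq (hf p q x hx)]
  · intro x y hx hy; rw [map_add, map_add, hx, hy, map_add, map_add]
  · simp only [map_zero]

theorem HMor.gr {X Y : 𝒱.Obj} {f : T.W.H X →ₗ[T.W.K] T.W.H Y} (hf : HMor T X Y f) {i : ℕ}
    {v : T.W.H X} (hv : v ∈ T.W.gr X i) : f v ∈ T.W.gr Y i := by
  have h2 : (1 ⊗ₜ[T.W.K] v : CH T X) ∈ (T.W.gr X i).baseChange ℂ :=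
    Submodule.tmul_mem_baseChange_of_mem _ hv
  have h1 : f.baseChange ℂ (1 ⊗ₜ[T.W.K] v) ∈ (T.W.gr Y i).baseChange ℂ := by
    refine gr_ind (p := fun x => f.baseChange ℂ x ∈ (T.W.gr Y i).baseChange ℂ) ?_ ?_ ?_ h2
    · intro p q hpq x hx
      exact pq_gr hpq (hf p q x hx)
    · intro x y hx hy; rw [map_add]; exact Submodule.add_mem _ hx hy
    · rw [map_zero]; exact Submodule.zero_mem _
  rw [LinearMap.baseChange_tmul] at h1
  refine mem_of_proj (T.W.isInternal Y) fun j => ?_
  by_cases hj : i = j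
  · subst hj; exact proj_mem _ _ _
  · have h3 := proj_baseChange_ne hj h1
    rw [LinearMap.baseChange_tmul] at h3
    rw [tmul_injective (L := ℂ) _ h3]
    exact Submodule.zero_mem _

theorem mat_of_hmor (hN : IsMat b N) (hN' : IsMat b' N') {f : T.W.H E →ₗ[T.W.K] T.W.H E'}
    (hf : HMor T E E' f) : ∃ g : M2 T.W.K, (∀ j, f (b j) = ∑ i, g i j • (b' i : T.W.H E')) ∧
      toC g * N = N' * toC g := by
  refine ⟨Matrix.of fun i j => b'.repr ⟨f (b j), hf.gr (b j).2⟩ i, ?_, ?_⟩
  · intro j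
    have := congrArg Subtype.val (b'.sum_repr ⟨f (b j), hf.gr (b j).2⟩)
    rw [Submodule.coe_sum] at this
    exact this.symm
  · set g : M2 T.W.K := Matrix.of fun i j => b'.repr ⟨f (b j), hf.gr (b j).2⟩ i with hg
    have h1 : ∀ j, f (b j) = ∑ i, g i j • (b' i : T.W.H E') := by
      intro j
      have := congrArg Subtype.val (b'.sum_repr ⟨f (b j), hf.gr (b j).2⟩)
      rw [Submodule.coe_sum] at this
      exact this.symm
    have h2 : ∀ j, f.baseChange ℂ (bc b j) = ∑ i, (toC g) i j • bc b' i := by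
      intro j
      rw [bc, LinearMap.baseChange_tmul, h1, tmul_sum]
      refine Finset.sum_congr rfl fun i _ => ?_
      rw [tmul_smul, bc, toC, Matrix.map_apply, algebraMap_smul]
    have h3 : ∀ c : Fin 2 → ℂ, f.baseChange ℂ (∑ j, c j • bc b j) =
        ∑ i, ((toC g).mulVec c) i • bc b' i := by
      intro c
      have h1 : ∀ j, f.baseChange ℂ (c j • bc b j) = ∑ i, ((toC g) i j * c j) • bc b' i := by
        intro j
        rw [map_smul, h2, Finset.smul_sum]
        exact Finset.sum_congr rfl fun i _ => by rw [smul_smul, mul_comm]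
      rw [map_sum, Finset.sum_congr rfl fun j _ => h1 j, Finset.sum_comm]
      refine Finset.sum_congr rfl fun i _ => ?_
      rw [← Finset.sum_smul]
      rfl
    ext i j
    have h4 := hf.hcomm (bc b j)
    rw [hN j, h3, h2, hop_comb hN'] at h4
    have h5 := congrFun (comb_inj h4) i
    rw [Matrix.mul_apply, Matrix.mul_apply]
    exact h5

/-- The curves are isogenous. -/
def Isog (T : HodgeTheory ops) (E E' : 𝒱.Obj) : Prop :=
  ∃ f : T.W.H E →ₗ[T.W.K] T.W.H E', HMor T E E' f ∧ ∃ x ∈ T.W.gr E 1, f x ≠ 0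

/-- The curve has complex multiplication. -/
def CM (T : HodgeTheory ops) (E : 𝒱.Obj) : Prop :=
  ∃ f : T.W.H E →ₗ[T.W.K] T.W.H E, HMor T E E f ∧ ∀ c : T.W.K, ∃ x ∈ T.W.gr E 1, f x ≠ c • x

theorem isog_of_mat (hr : CurveRange T E) (hN : IsMat b N) (hN' : IsMat b' N') {g : M2 T.W.K}
    (hg : toC g * N = N' * toC g) (h0 : g ≠ 0) : Isog T E E' := by
  refine ⟨phi b b' g, hmor_of_mat hr hN hN' hg, ?_⟩
  by_contra hcon
  push Not at hcon
  apply h0
  have : phi b b' g = phi b b' 0 := by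
    refine ext_gr b ?_ ?_
    · intro i hi v hv
      rw [phi_ne _ hi hv, phi_ne _ hi hv]
    · intro j
      rw [hcon _ (b j).2, map_zero]
      rfl
  exact phi_inj this

theorem cm_iff (hr : CurveRange T E) (hN : IsMat b N) : CM T E ↔ ¬ NoCM T.W.K N := by
  constructor
  · rintro ⟨f, hf, hf'⟩ hn
    obtain ⟨g, h1, h2⟩ := mat_of_hmor hN hN hf
    obtain ⟨c, rfl⟩ := hn g h2
    obtain ⟨x, hx, hne⟩ := hf' c
    apply hne
    have h3 : ∀ j, f (b j) = c • (b j : T.W.H E) := by
      intro j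
      rw [h1, Finset.sum_eq_single j]
      · simp
      · intro i _ hi; simp [Matrix.one_apply_ne hi]
      · intro h; exact absurd (Finset.mem_univ j) h
    have h4 : x = ∑ i, b.repr ⟨x, hx⟩ i • (b i : T.W.H E) := by
      have := congrArg Subtype.val (b.sum_repr ⟨x, hx⟩)
      rw [Submodule.coe_sum] at this
      exact this.symm
    rw [h4, map_sum, Finset.smul_sum]
    exact Finset.sum_congr rfl fun i _ => by rw [map_smul, h3, smul_comm]
  · intro hn
    rw [NoCM] at hn
    push Not at hn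
    obtain ⟨g, hg, hg'⟩ := hn
    refine ⟨phi b b g, hmor_of_mat hr hN hN hg, fun c => ?_⟩
    by_contra hcon
    push Not at hcon
    apply hg' c
    have : phi b b g = phi b b (c • 1) := by
      refine ext_gr b ?_ ?_
      · intro i hi v hv
        rw [phi_ne _ hi hv, phi_ne _ hi hv]
      · intro j
        rw [hcon _ (b j).2, phi_b, Finset.sum_eq_single j]
        · simp
        · intro i _ hi; simp [Matrix.one_apply_ne hi]
        · intro h; exact absurd (Finset.mem_univ j) h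
    exact phi_inj this

end Pool.Agent.Q219.HD
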