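import Pool.Agent.Q219.HD.Mtx
import Pool.Agent.Q219.HD.Core
import Pool.Agent.Q219.HD.Fold

/-!
# Products with elliptic curves
-/

open CategoryTheory AlgebraicGeometry TensorProduct

universe u

namespace Pool.Agent.Q219.HD

open Module
open Pool.Agent.H914 Pool.Agent.H914.VarClass Pool.Agent.H914.VarClass.Obj
  Pool.Agent.H914.WeilCohomology
open Pool.Agent.Y133.Half
open Pool.Agent.Y121.AH
open Pool.Agent.Q50.BL
open Pool.Agent.Q60.HDS (power)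

variable {k : Type u} [Field k] {𝒱 : VarClass k} {ops : CycleOps 𝒱} {T : HodgeTheory ops}
  {X E E' F Z P : 𝒱.Obj} {c : ℂ ≃ₐ[T.W.K] ℂ}

/-- The product `X × E₁ × ⋯ × Eᵣ`. -/
noncomputable def times (X : 𝒱.Obj) (l : List 𝒱.Obj) : 𝒱.Obj := l.foldl Obj.prod X

theorem HasRep.times {J : Type*} {A : J → Type*} [∀ j, Ring (A j)] [∀ j, Algebra T.W.K (A j)]
    {h : ∀ j, Lam T →ₗ[T.W.K] A j} {s t : Set J} (hX : HasRep h X s) {l : List 𝒱.Obj}
    (hl : ∀ E ∈ l, HasRep h E t) : HasRep h (times X l) (s ∪ t) := by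
  induction l generalizing X s with
  | nil => exact hX.mono Set.subset_union_left
  | cons E l ih =>
    have h1 := ih (hX.prod (hl E List.mem_cons_self)) fun F hF => hl F (List.mem_cons_of_mem _ hF)
    exact h1.mono (by rw [Set.union_assoc, Set.union_self])

theorem IsEll.hasRep (hE : IsEll T c E) {b : Bas T E} {N : M2 ℂ} (hN : IsMat b N) :
    HasRep (hh (hg T Z)) E {some N} :=
  HasRep.of (h := hh (hg T Z)) (some N) (φ := phi b b) phi_isLieMap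
    fun l => (hg_eq hE.range hN l).symm

open Classical in
theorem ell_main (T : HodgeTheory ops) (c : ℂ ≃ₐ[T.W.K] ℂ) {Pr : 𝒱.Obj → Prop}
    (hPr : ∀ E, Pr E → IsEll T c E) (Z : 𝒱.Obj) : ∃ S : Finset 𝒱.Obj, (∀ E ∈ S, Pr E) ∧
      3 * (S.filter fun E => ¬ CM T E).card ≤ finrank T.W.K (gen (hg T Z)) ∧
      ∀ (n : ℕ) (l₁ : List 𝒱.Obj) (E₀ : 𝒱.Obj) (l₂ : List 𝒱.Obj),
        (∀ E ∈ l₁, Pr E ∧ ∃ E' ∈ S, Isog T E' E) →
        (∀ E ∈ E₀ :: l₂, Pr E ∧ ∀ E' ∈ S, ¬ Isog T E' E) →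
        (hodgeSys T).C ((times (power Z n) l₁).prod (times E₀ l₂)) ≤
          prods T (times (power Z n) l₁) (times E₀ l₂) := by
  obtain ⟨mtx, hm1, hm2⟩ := exists_mtx T c
  obtain ⟨𝓜, h𝓜⟩ : ∃ 𝓜 : Set (M2 ℂ), ∀ N, N ∈ 𝓜 ↔ ∃ E, Pr E ∧ mtx E = N :=
    ⟨{N | ∃ E, Pr E ∧ mtx E = N}, fun _ => Iff.rfl⟩
  have hH : ∀ N ∈ 𝓜, IsHodgeMat T.W.K N := by
    intro N hN
    obtain ⟨E, hE, rfl⟩ := (h𝓜 N).1 hN
    obtain ⟨b, hb⟩ := hm1 E (hPr E hE)
    exact (hPr E hE).isHodgeMat hb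
  have hne : ∀ N ∈ 𝓜, ∀ N' ∈ 𝓜, N ≠ N' → ∀ g : M2 T.W.K, toC g * N = N' * toC g → g = 0 := by
    intro N hN N' hN' hNN' g hg
    obtain ⟨E, hE, rfl⟩ := (h𝓜 N).1 hN
    obtain ⟨E', hE', rfl⟩ := (h𝓜 N').1 hN'
    obtain ⟨b, hb⟩ := hm1 E (hPr E hE)
    obtain ⟨b', hb'⟩ := hm1 E' (hPr E' hE')
    by_contra h0
    exact hNN' ((hm2 E E' (hPr E hE) (hPr E' hE')).2
      (isog_of_mat (hPr E hE).range hb hb' hg h0))
  obtain ⟨S, hS1, hS2, hS3⟩ := core_sum (hg T Z) hH hne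
  have hrep : ∀ N : M2 ℂ, ∃ E : 𝒱.Obj, N ∈ S → Pr E ∧ mtx E = N := by
    intro N
    by_cases hN : N ∈ S
    · obtain ⟨E, hE⟩ := (h𝓜 N).1 (hS1 N hN)
      exact ⟨E, fun _ => hE⟩
    · exact ⟨Z, fun h => absurd h hN⟩
  choose rep hrep using hrep
  refine ⟨S.image rep, ?_, ?_, ?_⟩
  · intro E hE
    obtain ⟨N, hN, rfl⟩ := Finset.mem_image.1 hE
    exact (hrep N hN).1
  · have h1 : (S.image rep).filter (fun E => ¬ CM T E) ⊆
        (S.filter fun N => NoCM T.W.K N).image rep := by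
      intro E hE
      rw [Finset.mem_filter] at hE
      obtain ⟨N, hN, rfl⟩ := Finset.mem_image.1 hE.1
      refine Finset.mem_image_of_mem _ (Finset.mem_filter.2 ⟨hN, ?_⟩)
      obtain ⟨hE1, hE2⟩ := hrep N hN
      obtain ⟨b, hb⟩ := hm1 _ (hPr _ hE1)
      by_contra hcon
      refine hE.2 ((cm_iff (hPr _ hE1).range hb).2 ?_)
      rw [hE2]
      exact hcon
    have h2 := (Finset.card_le_card h1).trans Finset.card_image_le
    have h3 := hS2 (S.filter fun N => NoCM T.W.K N) fun N hN => Finset.mem_filter.1 hN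
    omega
  · intro n l₁ E₀ l₂ h1 h2 x hx
    -- the matrices of the curves in the two lists
    have k1 : ∀ E ∈ l₁, mtx E ∈ S := by
      intro E hE
      obtain ⟨hE1, E', hE', hi⟩ := h1 E hE
      obtain ⟨N, hN, rfl⟩ := Finset.mem_image.1 hE'
      rw [← (hm2 _ _ (hPr _ (hrep N hN).1) (hPr _ hE1)).2 hi, (hrep N hN).2]
      exact hN
    have k2 : ∀ E ∈ E₀ :: l₂, mtx E ∉ S := by
      intro E hE hS
      obtain ⟨hE1, hE2⟩ := h2 E hE
      refine hE2 (rep (mtx E)) (Finset.mem_image_of_mem _ hS) ?_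
      exact (hm2 _ _ (hPr _ (hrep _ hS).1) (hPr _ hE1)).1 (hrep _ hS).2
    set L : Finset (M2 ℂ) := ((E₀ :: l₂).map mtx).toFinset with hL
    have k3 : ∀ N ∈ L, ∃ E ∈ E₀ :: l₂, mtx E = N := by
      intro N hN
      rw [hL, List.mem_toFinset, List.mem_map] at hN
      exact hN
    have k4 : ∀ E ∈ E₀ :: l₂, mtx E ∈ L := by
      intro E hE
      rw [hL, List.mem_toFinset, List.mem_map]
      exact ⟨E, hE, rfl⟩
    have hZ : HasRep (hh (hg T Z)) Z {none} :=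
      HasRep.of (h := hh (hg T Z)) none (φ := LinearMap.id) (fun _ _ => rfl) fun _ => rfl
    have hP : HasRep (hh (hg T Z)) (times (power Z n) l₁) ({none} ∪ {j | ∃ N ∈ S, j = some N}) := by
      refine (hZ.power n).times fun E hE => ?_
      obtain ⟨b, hb⟩ := hm1 E (hPr _ (h1 E hE).1)
      refine ((hPr _ (h1 E hE).1).hasRep hb).mono ?_
      rintro j rfl
      exact ⟨_, k1 E hE, rfl⟩
    have hE' : ∀ E ∈ E₀ :: l₂, HasRep (hh (hg T Z)) E {j | ∃ N ∈ L, j = some N} := by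
      intro E hE
      obtain ⟨b, hb⟩ := hm1 E (hPr _ (h2 E hE).1)
      refine ((hPr _ (h2 E hE).1).hasRep hb).mono ?_
      rintro j rfl
      exact ⟨_, k4 E hE, rfl⟩
    have hQ : HasRep (hh (hg T Z)) (times E₀ l₂) {j | ∃ N ∈ L, j = some N} := by
      have := (hE' E₀ List.mem_cons_self).times (l := l₂) (t := {j | ∃ N ∈ L, j = some N})
        fun E hE => hE' E (List.mem_cons_of_mem _ hE)
      rwa [Set.union_self] at this
    refine hodge_prod hP hQ (hS3 L (fun N hN => ?_) (fun N hN => ?_)) hx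
    · obtain ⟨E, hE, rfl⟩ := k3 N hN
      exact (h𝓜 _).2 ⟨E, (h2 E hE).1, rfl⟩
    · obtain ⟨E, hE, rfl⟩ := k3 N hN
      exact k2 E hE

end Pool.Agent.Q219.HD
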