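import Pool.Agent.Q219.HD.Glob
import Pool.Agent.Q219.HD.EllMain

/-!
# The first fundamental theorem for products of elliptic curves
-/

open CategoryTheory AlgebraicGeometry TensorProduct

universe u

namespace Pool.Agent.Q219.HD

open Module
open Pool.Agent.H914 Pool.Agent.H914.VarClass Pool.Agent.H914.VarClass.Obj
  Pool.Agent.H914.WeilCohomology
open Pool.Agent.Y133.Half
open Pool.Agent.Y121.AH
open Pool.Agent.Q50.BL

variable {k : Type u} [Field k] {𝒱 : VarClass k} {ops : CycleOps 𝒱} {T : HodgeTheory ops}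
  {X Y E E' P : 𝒱.Obj}

/-- Natural derivations of the cohomology with complex coefficients. -/
structure NatC (T : HodgeTheory ops) (D : ∀ X : 𝒱.Obj, CH T X →ₗ[ℂ] CH T X) : Prop where
  der : ∀ X (x y : CH T X), D X (x * y) = D X x * y + x * D X y
  map : ∀ {X Y : 𝒱.Obj} (f : X ⟶ Y) (y : CH T Y), D X (mp T f y) = mp T f (D Y y)
  alg : ∀ X, ∀ x ∈ algC T X, D X x = 0

theorem mp_comp (f : X ⟶ Y) (g : Y ⟶ E) (x : CH T E) :
    mp T (f ≫ g) x = mp T f (mp T g x) := by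
  induction x using TensorProduct.induction_on with
  | zero => simp only [map_zero]
  | add x y hx hy => simp only [map_add, hx, hy]
  | tmul z v => rw [mp_tmul, mp_tmul, mp_tmul, T.W.map_comp]

theorem mp_one (f : X ⟶ Y) : mp T f (1 : CH T Y) = 1 := by
  have h : (1 : CH T Y) = 1 ⊗ₜ[T.W.K] (1 : T.W.H Y) := rfl
  rw [h, mp_tmul, map_one]
  rfl

/-- The letters: classes of degree one on curves which are divided into finitely many classes, and
the operators of the Lie algebras. -/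
structure Letters (T : HodgeTheory ops) (Γ : Type) [DecidableEq Γ] where
  /-- the curve is in the class -/
  El : Γ → 𝒱.Obj → Prop
  /-- the class has complex multiplication -/
  cm : Γ → Prop
  /-- the index set of the classes of even degree -/
  κ : 𝒱.Obj → Type
  [fin : ∀ E, Fintype (κ E)]
  /-- the classes of even degree -/
  t : ∀ E, κ E → CH T E
  /-- the first letter -/
  e : ∀ E : 𝒱.Obj, CH T E
  /-- the second letter -/
  f : ∀ E : 𝒱.Obj, CH T E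
  /-- the weight operators -/
  D0 : Γ → ∀ X : 𝒱.Obj, CH T X →ₗ[ℂ] CH T X
  /-- the raising operators -/
  Dp : Γ → ∀ X : 𝒱.Obj, CH T X →ₗ[ℂ] CH T X
  /-- the lowering operators -/
  Dm : Γ → ∀ X : 𝒱.Obj, CH T X →ₗ[ℂ] CH T X
  n0 : ∀ γ, NatC T (D0 γ)
  np : ∀ γ, ¬ cm γ → NatC T (Dp γ)
  nm : ∀ γ, ¬ cm γ → NatC T (Dm γ)
  alg : ∀ γ E, El γ E → ∀ i, t E i ∈ algC T E
  e0 : ∀ γ γ' E, El γ E → D0 γ' E (e E) = if γ' = γ then e E else 0
  f0 : ∀ γ γ' E, El γ E → D0 γ' E (f E) = if γ' = γ then - f E else 0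
  ep : ∀ γ γ' E, El γ E → ¬ cm γ' → Dp γ' E (e E) = 0
  fp : ∀ γ γ' E, El γ E → ¬ cm γ' → Dp γ' E (f E) = if γ' = γ then e E else 0
  em : ∀ γ γ' E, El γ E → ¬ cm γ' → Dm γ' E (e E) = if γ' = γ then f E else 0
  fm : ∀ γ γ' E, El γ E → ¬ cm γ' → Dm γ' E (f E) = 0
  pair : ∀ γ E E', El γ E → El γ E' → ¬ cm γ →
    mp T (fst E E') (e E) * mp T (snd E E') (f E') -
      mp T (fst E E') (f E) * mp T (snd E E') (e E') ∈ algC T (E.prod E')
  pair1 : ∀ γ E E', El γ E → El γ E' → cm γ →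
    mp T (fst E E') (e E) * mp T (snd E E') (f E') ∈ algC T (E.prod E')
  pair2 : ∀ γ E E', El γ E → El γ E' → cm γ →
    mp T (fst E E') (f E) * mp T (snd E E') (e E') ∈ algC T (E.prod E')
  anti : ∀ γ γ' E E', El γ E → El γ' E' → ∀ (X : 𝒱.Obj) (g : X ⟶ E) (g' : X ⟶ E'),
    ∀ x, (x = e E ∨ x = f E) → ∀ y, (y = e E' ∨ y = f E') →
      mp T g x * mp T g' y = - (mp T g' y * mp T g x)
  one : ∀ γ E, El γ E → ∀ x : CH T E, ∃ (y : κ E → ℂ) (a b : ℂ),
    x = ∑ i, y i • t E i + a • e E + b • f E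
  kun : ∀ γ E, El γ E → ∀ (P : 𝒱.Obj) (x : CH T (P.prod E)), ∃ (y : κ E → CH T P) (a b : CH T P),
    x = ∑ i, mp T (fst P E) (y i) * mp T (snd P E) (t E i) +
      mp T (fst P E) a * mp T (snd P E) (e E) + mp T (fst P E) b * mp T (snd P E) (f E)
  uni1 : ∀ γ E, El γ E → ∀ (y : κ E → ℂ) (a b : ℂ),
    ∑ i, y i • t E i + a • e E + b • f E = 0 → (∀ i, y i = 0) ∧ a = 0 ∧ b = 0
  uni : ∀ γ E, El γ E → ∀ (P : 𝒱.Obj) (y : κ E → CH T P) (a b : CH T P),
    ∑ i, mp T (fst P E) (y i) * mp T (snd P E) (t E i) +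
      mp T (fst P E) a * mp T (snd P E) (e E) + mp T (fst P E) b * mp T (snd P E) (f E) = 0 →
    (∀ i, y i = 0) ∧ a = 0 ∧ b = 0

attribute [instance] Letters.fin

variable {Γ : Type} [DecidableEq Γ] (𝓛 : Letters T Γ)

/-- The highest weight vectors, generated by letters and algebraic classes. -/
inductive Mw (X : 𝒱.Obj) : (Γ → ℤ) → CH T X → Prop
  | zero (w : Γ → ℤ) : Mw X w 0
  | alg {a : CH T X} (ha : a ∈ algC T X) : Mw X 0 a
  | add {w : Γ → ℤ} {x y : CH T X} : Mw X w x → Mw X w y → Mw X w (x + y)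
  | mul {w : Γ → ℤ} {a x : CH T X} (ha : a ∈ algC T X) : Mw X w x → Mw X w (a * x)
  | e {w : Γ → ℤ} {x : CH T X} {γ : Γ} {E : 𝒱.Obj} (hE : 𝓛.El γ E) (g : X ⟶ E) (hw : 0 ≤ w γ) :
      Mw X w x → Mw X (w + Pi.single γ 1) (x * mp T g (𝓛.e E))
  | f {w : Γ → ℤ} {x : CH T X} {γ : Γ} {E : 𝒱.Obj} (hE : 𝓛.El γ E) (hc : 𝓛.cm γ) (g : X ⟶ E)
      (hw : w γ ≤ 0) : Mw X w x → Mw X (w - Pi.single γ 1) (x * mp T g (𝓛.f E))

variable {𝓛}

theorem Mw.neg {w : Γ → ℤ} {x : CH T X} (h : Mw 𝓛 X w x) : Mw 𝓛 X w (-x) := by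
  have h1 : -x = (-1 : CH T X) * x := by rw [neg_mul, one_mul]
  rw [h1]
  exact Mw.mul (Submodule.neg_mem _ algC_one) h

theorem Mw.congr {w w' : Γ → ℤ} {x x' : CH T X} (h : Mw 𝓛 X w x) (hw : w = w') (hx : x = x') :
    Mw 𝓛 X w' x' := by
  subst hw hx
  exact h

/-- Pull-back. -/
theorem Mw.map {w : Γ → ℤ} {y : CH T Y} (h : Mw 𝓛 Y w y) (g : X ⟶ Y) :
    Mw 𝓛 X w (mp T g y) := by
  induction h with
  | zero w => rw [map_zero]; exact Mw.zero w
  | alg ha => exact Mw.alg (algC_map g ha)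
  | add _ _ h1 h2 => rw [map_add]; exact h1.add h2
  | mul ha _ h1 => rw [mp_mul]; exact Mw.mul (algC_map g ha) h1
  | e hE g' hw _ h1 => rw [mp_mul, ← mp_comp]; exact Mw.e hE (g ≫ g') hw h1
  | f hE hc g' hw _ h1 => rw [mp_mul, ← mp_comp]; exact Mw.f hE hc (g ≫ g') hw h1

/-- Negative weights do not occur without complex multiplication. -/
theorem Mw.nonneg {w : Γ → ℤ} {x : CH T X} (h : Mw 𝓛 X w x) {γ : Γ} (hγ : ¬ 𝓛.cm γ)
    (hw : w γ < 0) : x = 0 := by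
  induction h with
  | zero w => rfl
  | alg ha => exact absurd hw (by simp)
  | add _ _ h1 h2 => rw [h1 hw, h2 hw, add_zero]
  | mul ha _ h1 => rw [h1 hw, mul_zero]
  | @e w x γ' E hE g' hw' _ h1 =>
    rw [Pi.add_apply, Pi.single_apply] at hw
    split_ifs at hw with h2
    · subst h2
      omega
    · rw [h1 (by omega), zero_mul]
  | @f w x γ' E hE hc g' hw' _ h1 =>
    rw [Pi.sub_apply, Pi.single_apply] at hw
    split_ifs at hw with h2
    · subst h2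
      exact absurd hc hγ
    · rw [h1 (by omega), zero_mul]

/-- Vectors of weight zero are algebraic. -/
theorem Mw.alg_of_zero {w : Γ → ℤ} {x : CH T X} (h : Mw 𝓛 X w x) (hw : w = 0) :
    x ∈ algC T X := by
  induction h with
  | zero w => exact Submodule.zero_mem _
  | alg ha => exact ha
  | add _ _ h1 h2 => exact Submodule.add_mem _ (h1 hw) (h2 hw)
  | mul ha _ h1 => exact algC_mul ha (h1 hw)
  | @e w x γ' E hE g' hw' _ h1 =>
    have := congrFun hw γ'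
    rw [Pi.add_apply, Pi.single_eq_same, Pi.zero_apply] at this
    omega
  | @f w x γ' E hE hc g' hw' _ h1 =>
    have := congrFun hw γ'
    rw [Pi.sub_apply, Pi.single_eq_same, Pi.zero_apply] at this
    omega

theorem mp_lift1 {g : X ⟶ E} {g' : X ⟶ E'} (x : CH T E) :
    mp T (Obj.lift g g') (mp T (fst E E') x) = mp T g x := by
  rw [← mp_comp, Obj.lift_fst]

theorem mp_lift2 {g : X ⟶ E} {g' : X ⟶ E'} (x : CH T E') :
    mp T (Obj.lift g g') (mp T (snd E E') x) = mp T g' x := by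
  rw [← mp_comp, Obj.lift_snd]

theorem pair_mem {γ : Γ} (hE : 𝓛.El γ E) (hE' : 𝓛.El γ E') (hγ : ¬ 𝓛.cm γ) (g : X ⟶ E)
    (g' : X ⟶ E') : mp T g (𝓛.e E) * mp T g' (𝓛.f E') - mp T g (𝓛.f E) * mp T g' (𝓛.e E') ∈
      algC T X := by
  have h := algC_map (Obj.lift g g') (𝓛.pair γ E E' hE hE' hγ)
  rwa [map_sub, mp_mul, mp_mul, mp_lift1, mp_lift1, mp_lift2, mp_lift2] at h

theorem pair1_mem {γ : Γ} (hE : 𝓛.El γ E) (hE' : 𝓛.El γ E') (hγ : 𝓛.cm γ) (g : X ⟶ E)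
    (g' : X ⟶ E') : mp T g (𝓛.e E) * mp T g' (𝓛.f E') ∈ algC T X := by
  have h := algC_map (Obj.lift g g') (𝓛.pair1 γ E E' hE hE' hγ)
  rwa [mp_mul, mp_lift1, mp_lift2] at h

theorem pair2_mem {γ : Γ} (hE : 𝓛.El γ E) (hE' : 𝓛.El γ E') (hγ : 𝓛.cm γ) (g : X ⟶ E)
    (g' : X ⟶ E') : mp T g (𝓛.f E) * mp T g' (𝓛.e E') ∈ algC T X := by
  have h := algC_map (Obj.lift g g') (𝓛.pair2 γ E E' hE hE' hγ)
  rwa [mp_mul, mp_lift1, mp_lift2] at h

/-- Multiplication by the first letter, complex multiplication. -/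
theorem Mw.mul_e {w : Γ → ℤ} {x : CH T X} (h : Mw 𝓛 X w x) {γ : Γ} (hγ : 𝓛.cm γ)
    (hE : 𝓛.El γ E) (g : X ⟶ E) : Mw 𝓛 X (w + Pi.single γ 1) (x * mp T g (𝓛.e E)) := by
  induction h with
  | zero w => rw [zero_mul]; exact Mw.zero _
  | alg ha => exact Mw.e hE g le_rfl (Mw.alg ha)
  | add _ _ h1 h2 => rw [add_mul]; exact h1.add h2
  | mul ha _ h1 => rw [mul_assoc]; exact Mw.mul ha h1
  | @e w x γ' E' hE' g' hw' hx h1 =>
    by_cases h2 : γ' = γ
    · subst h2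
      refine Mw.e hE g ?_ (Mw.e hE' g' hw' hx)
      rw [Pi.add_apply, Pi.single_eq_same]
      omega
    · have h3 : x * mp T g' (𝓛.e E') * mp T g (𝓛.e E) =
          -(x * mp T g (𝓛.e E) * mp T g' (𝓛.e E')) := by
        rw [mul_assoc, 𝓛.anti γ' γ E' E hE' hE X g' g _ (Or.inl rfl) _ (Or.inl rfl), mul_neg,
          mul_assoc]
      refine (Mw.neg (Mw.e hE' g' ?_ h1)).congr ?_ h3.symm
      · rw [Pi.add_apply, Pi.single_eq_of_ne h2]
        omega
      · abel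
  | @f w x γ' E' hE' hc g' hw' hx h1 =>
    by_cases h2 : γ' = γ
    · subst h2
      have h3 : x * mp T g' (𝓛.f E') * mp T g (𝓛.e E) =
          mp T g' (𝓛.f E') * mp T g (𝓛.e E) * x := by
        rw [mul_assoc, algC_comm (pair2_mem hE' hE hc g' g)]
      exact (Mw.mul (pair2_mem hE' hE hc g' g) hx).congr (by abel) h3.symm
    · have h3 : x * mp T g' (𝓛.f E') * mp T g (𝓛.e E) =
          -(x * mp T g (𝓛.e E) * mp T g' (𝓛.f E')) := by
        rw [mul_assoc, 𝓛.anti γ' γ E' E hE' hE X g' g _ (Or.inr rfl) _ (Or.inl rfl), mul_neg,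
          mul_assoc]
      refine (Mw.neg (Mw.f hE' hc g' ?_ h1)).congr ?_ h3.symm
      · rw [Pi.add_apply, Pi.single_eq_of_ne h2]
        omega
      · abel

/-- Multiplication by the second letter, complex multiplication. -/
theorem Mw.mul_f {w : Γ → ℤ} {x : CH T X} (h : Mw 𝓛 X w x) {γ : Γ} (hγ : 𝓛.cm γ)
    (hE : 𝓛.El γ E) (g : X ⟶ E) : Mw 𝓛 X (w - Pi.single γ 1) (x * mp T g (𝓛.f E)) := by
  induction h with
  | zero w => rw [zero_mul]; exact Mw.zero _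
  | alg ha => exact Mw.f hE hγ g le_rfl (Mw.alg ha)
  | add _ _ h1 h2 => rw [add_mul]; exact h1.add h2
  | mul ha _ h1 => rw [mul_assoc]; exact Mw.mul ha h1
  | @e w x γ' E' hE' g' hw' hx h1 =>
    by_cases h2 : γ' = γ
    · subst h2
      have h3 : x * mp T g' (𝓛.e E') * mp T g (𝓛.f E) =
          mp T g' (𝓛.e E') * mp T g (𝓛.f E) * x := by
        rw [mul_assoc, algC_comm (pair1_mem hE' hE hγ g' g)]
      exact (Mw.mul (pair1_mem hE' hE hγ g' g) hx).congr (by abel) h3.symm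
    · have h3 : x * mp T g' (𝓛.e E') * mp T g (𝓛.f E) =
          -(x * mp T g (𝓛.f E) * mp T g' (𝓛.e E')) := by
        rw [mul_assoc, 𝓛.anti γ' γ E' E hE' hE X g' g _ (Or.inl rfl) _ (Or.inr rfl), mul_neg,
          mul_assoc]
      refine (Mw.neg (Mw.e hE' g' ?_ h1)).congr ?_ h3.symm
      · rw [Pi.sub_apply, Pi.single_eq_of_ne h2]
        omega
      · abel
  | @f w x γ' E' hE' hc g' hw' hx h1 =>
    by_cases h2 : γ' = γ
    · subst h2
      refine Mw.f hE hγ g ?_ (Mw.f hE' hc g' hw' hx)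
      rw [Pi.sub_apply, Pi.single_eq_same]
      omega
    · have h3 : x * mp T g' (𝓛.f E') * mp T g (𝓛.f E) =
          -(x * mp T g (𝓛.f E) * mp T g' (𝓛.f E')) := by
        rw [mul_assoc, 𝓛.anti γ' γ E' E hE' hE X g' g _ (Or.inr rfl) _ (Or.inr rfl), mul_neg,
          mul_assoc]
      refine (Mw.neg (Mw.f hE' hc g' ?_ h1)).congr ?_ h3.symm
      · rw [Pi.sub_apply, Pi.single_eq_of_ne h2]
        omega
      · abel

/-- The weight. -/
theorem Mw.wt {w : Γ → ℤ} {x : CH T X} (h : Mw 𝓛 X w x) (γ : Γ) :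
    𝓛.D0 γ X x = (w γ : ℂ) • x := by
  induction h with
  | zero w => rw [map_zero, smul_zero]
  | alg ha => rw [(𝓛.n0 γ).alg X _ ha, Pi.zero_apply, Int.cast_zero, zero_smul]
  | add _ _ h1 h2 => rw [map_add, h1, h2, smul_add]
  | mul ha _ h1 => rw [(𝓛.n0 γ).der, (𝓛.n0 γ).alg X _ ha, zero_mul, zero_add, h1, mul_smul_comm]
  | @e w x γ' E hE g' hw' _ h1 =>
    rw [(𝓛.n0 γ).der, h1, (𝓛.n0 γ).map, 𝓛.e0 γ' γ E hE, Pi.add_apply, Pi.single_apply]
    split_ifs with h2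
    · rw [smul_mul_assoc, Int.cast_add, Int.cast_one, add_smul, one_smul]
    · rw [map_zero, mul_zero, add_zero, add_zero, smul_mul_assoc]
  | @f w x γ' E hE hc g' hw' _ h1 =>
    rw [(𝓛.n0 γ).der, h1, (𝓛.n0 γ).map, 𝓛.f0 γ' γ E hE, Pi.sub_apply, Pi.single_apply]
    split_ifs with h2
    · rw [smul_mul_assoc, Int.cast_sub, Int.cast_one, sub_smul, one_smul, map_neg, mul_neg,
        sub_eq_add_neg]
    · rw [map_zero, mul_zero, add_zero, sub_zero, smul_mul_assoc]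

/-- The raising operators. -/
theorem Mw.hw {w : Γ → ℤ} {x : CH T X} (h : Mw 𝓛 X w x) {γ : Γ} (hγ : ¬ 𝓛.cm γ) :
    𝓛.Dp γ X x = 0 := by
  induction h with
  | zero w => rw [map_zero]
  | alg ha => exact (𝓛.np γ hγ).alg X _ ha
  | add _ _ h1 h2 => rw [map_add, h1, h2, add_zero]
  | mul ha _ h1 => rw [(𝓛.np γ hγ).der, (𝓛.np γ hγ).alg X _ ha, zero_mul, zero_add, h1, mul_zero]
  | @e w x γ' E hE g' hw' _ h1 =>
    rw [(𝓛.np γ hγ).der, h1, (𝓛.np γ hγ).map, 𝓛.ep γ' γ E hE hγ, map_zero, zero_mul, mul_zero,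
      add_zero]
  | @f w x γ' E hE hc g' hw' _ h1 =>
    have h2 : γ ≠ γ' := fun h => hγ (h ▸ hc)
    rw [(𝓛.np γ hγ).der, h1, (𝓛.np γ hγ).map, 𝓛.fp γ' γ E hE hγ, if_neg h2, map_zero, zero_mul,
      mul_zero, add_zero]

end Pool.Agent.Q219.HD
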