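import Pool.Agent.Q219.HD.FFT

/-!
# The first fundamental theorem for products of elliptic curves, second part
-/

open CategoryTheory AlgebraicGeometry TensorProduct

universe u

namespace Pool.Agent.Q219.HD

open Module
open Pool.Agent.H914 Pool.Agent.H914.VarClass Pool.Agent.H914.VarClass.Obj
  Pool.Agent.H914.WeilCohomology
open Pool.Agent.Y133.Half
open Pool.Agent.Y121.AH
open Pool.Agent.Q50.BL

section Nil

variable {V : Type*} [AddCommGroup V] [Module ℂ V] [FiniteDimensional ℂ V]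

/-- There is no vector of weight `-2` whose image has weight zero and is killed by the lowering
operator. -/
theorem no_neg_two {e f h : V →ₗ[ℂ] V} (hf : ∀ x, h (f x) = f (h x) - (2 : ℂ) • f x)
    (he : ∀ x, e (f x) = f (e x) + h x) {a : V} (ha : h a = (-2 : ℂ) • a) (hb : f (e a) = 0) :
    a = 0 := by
  obtain ⟨s, hs0, hs⟩ : ∃ s : ℕ → V, s 0 = a ∧ ∀ n, s (n + 1) = f (s n) :=
    ⟨fun n => (f ^ n) a, by simp, fun n => by
      change (f ^ (n + 1)) a = f ((f ^ n) a)
      rw [pow_succ', Module.End.mul_apply]⟩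
  have h1 : ∀ n : ℕ, h (s n) = (-2 - 2 * (n : ℂ)) • s n := by
    intro n
    induction n with
    | zero => rw [hs0, ha]; simp
    | succ n ih =>
      rw [hs, hf, ih, map_smul, ← sub_smul]
      congr 1
      push_cast
      ring
  have h2 : ∀ n : ℕ, e (s (n + 1)) = (-((n : ℂ) + 1) * (n + 2)) • s n := by
    intro n
    induction n with
    | zero =>
      rw [hs, he, hs0, hb, zero_add, ha]
      congr 1
      push_cast
      ring
    | succ n ih =>
      rw [hs (n + 1), he, ih, map_smul, ← hs, h1, ← add_smul]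
      congr 1
      push_cast
      ring
  have h3 : ∃ n, s n = 0 := by
    by_contra hcon
    push Not at hcon
    have hfin := Module.End.finite_hasEigenvalue (f := h)
    refine Set.infinite_of_injective_forall_mem (f := fun n : ℕ => (-2 - 2 * (n : ℂ))) ?_ ?_ hfin
    · intro m n hmn
      have h4 : (-2 - 2 * (m : ℂ)) = (-2 - 2 * (n : ℂ)) := hmn
      have h5 : (m : ℂ) = n := by linear_combination (-1 / 2) * h4
      exact_mod_cast h5
    · intro n
      exact Module.End.hasEigenvalue_of_hasEigenvector (x := s n)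
        ⟨Module.End.mem_eigenspace_iff.2 (h1 n), hcon n⟩
  obtain ⟨n, hn⟩ := h3
  rw [← hs0]
  induction n with
  | zero => exact hn
  | succ n ih =>
    apply ih
    have h4 := h2 n
    rw [hn, map_zero] at h4
    refine (smul_eq_zero.1 h4.symm).resolve_left ?_
    refine mul_ne_zero ?_ ?_
    · rw [neg_ne_zero]
      exact_mod_cast Nat.succ_ne_zero n
    · exact_mod_cast (by omega : n + 2 ≠ 0)

end Nil

variable {k : Type u} [Field k] {𝒱 : VarClass k} {ops : CycleOps 𝒱} {T : HodgeTheory ops}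
  {X Y E E' P : 𝒱.Obj}

theorem mp_id (x : CH T X) : mp T (𝟙 X) x = x := by
  induction x using TensorProduct.induction_on with
  | zero => simp only [map_zero]
  | add x y hx hy => rw [map_add, hx, hy]
  | tmul z v => rw [mp_tmul, T.W.map_id]

variable {Γ : Type} [DecidableEq Γ] {𝓛 : Letters T Γ}

/-- The lowering operators. -/
theorem Mw.lw {w : Γ → ℤ} {x : CH T X} (h : Mw 𝓛 X w x) {γ : Γ} (hγ : ¬ 𝓛.cm γ) (hw : w γ = 0) :
    𝓛.Dm γ X x = 0 := by
  induction h with
  | zero w => rw [map_zero]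
  | alg ha => exact (𝓛.nm γ hγ).alg X _ ha
  | add _ _ h1 h2 => rw [map_add, h1 hw, h2 hw, add_zero]
  | mul ha _ h1 =>
    rw [(𝓛.nm γ hγ).der, (𝓛.nm γ hγ).alg X _ ha, zero_mul, zero_add, h1 hw, mul_zero]
  | @e w x γ' E hE g' hw' _ h1 =>
    rw [Pi.add_apply, Pi.single_apply] at hw
    split_ifs at hw with h2
    · subst h2
      omega
    · rw [(𝓛.nm γ hγ).der, h1 (by omega), (𝓛.nm γ hγ).map, 𝓛.em γ' γ E hE hγ, if_neg h2, map_zero,
        zero_mul, mul_zero, add_zero]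
  | @f w x γ' E hE hc g' hw' _ h1 =>
    have h2 : γ ≠ γ' := fun h => hγ (h ▸ hc)
    rw [Pi.sub_apply, Pi.single_apply, if_neg h2] at hw
    rw [(𝓛.nm γ hγ).der, h1 (by omega), (𝓛.nm γ hγ).map, 𝓛.fm γ' γ E hE hγ, map_zero, zero_mul,
      mul_zero, add_zero]

/-- The preimages of highest weight vectors of positive weight. -/
theorem Mw.pre {w : Γ → ℤ} {b : CH T P} (h : Mw 𝓛 P w b) {γ : Γ} (hγ : ¬ 𝓛.cm γ)
    (hw : 1 ≤ w γ) : ∃ a : CH T P, 𝓛.Dp γ P a = -b ∧
      (∀ γ', ¬ 𝓛.cm γ' → γ' ≠ γ → 𝓛.Dp γ' P a = 0) ∧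
      (∀ γ', 𝓛.D0 γ' P a = (((w - Pi.single γ 2 : Γ → ℤ) γ' : ℤ) : ℂ) • a) ∧
      ∀ (X E : 𝒱.Obj) (p : X ⟶ P), 𝓛.El γ E → ∀ g : X ⟶ E,
        Mw 𝓛 X (w - Pi.single γ 1) (mp T p a * mp T g (𝓛.e E) + mp T p b * mp T g (𝓛.f E)) := by
  induction h with
  | zero w =>
    refine ⟨0, by rw [map_zero, neg_zero], fun _ _ _ => map_zero _, fun _ => ?_,
      fun X E p _ g => ?_⟩
    · rw [map_zero, smul_zero]
    · rw [map_zero, zero_mul, zero_mul, add_zero]
      exact Mw.zero _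
  | alg ha => exact absurd hw (by simp)
  | add _ _ h1 h2 =>
    obtain ⟨a, k1, k2, k3, k4⟩ := h1 hw
    obtain ⟨a', k1', k2', k3', k4'⟩ := h2 hw
    refine ⟨a + a', ?_, fun γ' h3 h4 => ?_, fun γ' => ?_, fun X E p hE g => ?_⟩
    · rw [map_add, k1, k1', neg_add]
    · rw [map_add, k2 γ' h3 h4, k2' γ' h3 h4, add_zero]
    · rw [map_add, k3, k3', smul_add]
    · refine (Mw.add (k4 X E p hE g) (k4' X E p hE g)).congr rfl ?_
      rw [map_add, map_add, add_mul, add_mul]
      abel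
  | @mul w c x hc _ h1 =>
    obtain ⟨a, k1, k2, k3, k4⟩ := h1 hw
    refine ⟨c * a, ?_, fun γ' h3 h4 => ?_, fun γ' => ?_, fun X E p hE g => ?_⟩
    · rw [(𝓛.np γ hγ).der, (𝓛.np γ hγ).alg P _ hc, zero_mul, zero_add, k1, mul_neg]
    · rw [(𝓛.np γ' h3).der, (𝓛.np γ' h3).alg P _ hc, zero_mul, zero_add, k2 γ' h3 h4, mul_zero]
    · rw [(𝓛.n0 γ').der, (𝓛.n0 γ').alg P _ hc, zero_mul, zero_add, k3, mul_smul_comm]
    · refine (Mw.mul (algC_map p hc) (k4 X E p hE g)).congr rfl ?_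
      rw [mp_mul, mp_mul, mul_add, mul_assoc, mul_assoc]
  | @e w x γ' E' hE' g' hw' hx h1 =>
    by_cases h2 : γ' = γ
    · subst h2
      refine ⟨-(x * mp T g' (𝓛.f E')), ?_, fun γ₁ h3 h4 => ?_, fun γ₁ => ?_, fun X E p hE g => ?_⟩
      · rw [map_neg, (𝓛.np γ' hγ).der, hx.hw hγ, zero_mul, zero_add, (𝓛.np γ' hγ).map,
          𝓛.fp γ' γ' E' hE' hγ, if_pos rfl]
      · rw [map_neg, (𝓛.np γ₁ h3).der, hx.hw h3, zero_mul, zero_add, (𝓛.np γ₁ h3).map,
          𝓛.fp γ' γ₁ E' hE' h3, if_neg h4, map_zero, mul_zero, neg_zero]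
      · rw [map_neg, (𝓛.n0 γ₁).der, hx.wt, (𝓛.n0 γ₁).map, 𝓛.f0 γ' γ₁ E' hE', smul_neg]
        congr 1
        by_cases h5 : γ₁ = γ'
        · subst h5
          rw [if_pos rfl, map_neg, mul_neg, smul_mul_assoc, ← sub_eq_add_neg]
          nth_rewrite 2 [← one_smul ℂ (x * mp T g' (𝓛.f E'))]
          rw [← sub_smul]
          congr 1
          rw [Pi.sub_apply, Pi.add_apply, Pi.single_eq_same, Pi.single_eq_same]
          push_cast
          ring
        · rw [if_neg h5, map_zero, mul_zero, add_zero, smul_mul_assoc]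
          congr 1
          rw [Pi.sub_apply, Pi.add_apply, Pi.single_eq_of_ne h5, Pi.single_eq_of_ne h5]
          push_cast
          ring
      · refine (Mw.mul (pair_mem hE' hE hγ (p ≫ g') g) (hx.map p)).congr ?_ ?_
        · abel
        · rw [algC_comm (pair_mem hE' hE hγ (p ≫ g') g), map_neg, mp_mul, mp_mul, ← mp_comp,
            ← mp_comp, mul_sub, neg_mul, mul_assoc, mul_assoc]
          abel
    · have h3 : (Pi.single γ' (1 : ℤ) : Γ → ℤ) γ = 0 := Pi.single_eq_of_ne (Ne.symm h2) _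
      rw [Pi.add_apply, h3, add_zero] at hw
      obtain ⟨a, k1, k2, k3, k4⟩ := h1 hw
      refine ⟨a * mp T g' (𝓛.e E'), ?_, fun γ₁ h3 h4 => ?_, fun γ₁ => ?_, fun X E p hE g => ?_⟩
      · rw [(𝓛.np γ hγ).der, k1, (𝓛.np γ hγ).map, 𝓛.ep γ' γ E' hE' hγ, map_zero, mul_zero, add_zero,
          neg_mul]
      · rw [(𝓛.np γ₁ h3).der, k2 γ₁ h3 h4, zero_mul, zero_add, (𝓛.np γ₁ h3).map,
          𝓛.ep γ' γ₁ E' hE' h3, map_zero, mul_zero]
      · rw [(𝓛.n0 γ₁).der, k3, (𝓛.n0 γ₁).map, 𝓛.e0 γ' γ₁ E' hE']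
        by_cases h5 : γ₁ = γ'
        · subst h5
          rw [if_pos rfl, smul_mul_assoc]
          nth_rewrite 2 [← one_smul ℂ (a * mp T g' (𝓛.e E'))]
          rw [← add_smul]
          congr 1
          rw [Pi.sub_apply, Pi.sub_apply, Pi.add_apply, Pi.single_eq_same]
          push_cast
          ring
        · rw [if_neg h5, map_zero, mul_zero, add_zero, smul_mul_assoc]
          congr 1
          rw [Pi.sub_apply, Pi.sub_apply, Pi.add_apply, Pi.single_eq_of_ne h5, add_zero]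
      · have h5 := 𝓛.anti γ' γ E' E hE' hE X (p ≫ g') g _ (Or.inl rfl) _ (Or.inl rfl)
        have h6 := 𝓛.anti γ' γ E' E hE' hE X (p ≫ g') g _ (Or.inl rfl) _ (Or.inr rfl)
        refine (Mw.neg (Mw.e hE' (p ≫ g') ?_ (k4 X E p hE g))).congr ?_ ?_
        · rw [Pi.sub_apply, Pi.single_eq_of_ne h2]
          omega
        · abel
        · rw [mp_mul, mp_mul, ← mp_comp, mul_assoc, mul_assoc, h5, h6, add_mul, mul_assoc,
            mul_assoc, mul_neg, mul_neg]
          abel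
  | @f w x γ' E' hE' hc g' hw' hx h1 =>
    have h2 : ¬ γ' = γ := fun h => hγ (h ▸ hc)
    have h3 : (Pi.single γ' (1 : ℤ) : Γ → ℤ) γ = 0 := Pi.single_eq_of_ne (Ne.symm h2) _
    rw [Pi.sub_apply, h3, sub_zero] at hw
    obtain ⟨a, k1, k2, k3, k4⟩ := h1 hw
    refine ⟨a * mp T g' (𝓛.f E'), ?_, fun γ₁ h3 h4 => ?_, fun γ₁ => ?_, fun X E p hE g => ?_⟩
    · rw [(𝓛.np γ hγ).der, k1, (𝓛.np γ hγ).map, 𝓛.fp γ' γ E' hE' hγ, if_neg (Ne.symm h2), map_zero,
        mul_zero, add_zero, neg_mul]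
    · have h5 : γ₁ ≠ γ' := fun h => h3 (h ▸ hc)
      rw [(𝓛.np γ₁ h3).der, k2 γ₁ h3 h4, zero_mul, zero_add, (𝓛.np γ₁ h3).map,
        𝓛.fp γ' γ₁ E' hE' h3, if_neg h5, map_zero, mul_zero]
    · rw [(𝓛.n0 γ₁).der, k3, (𝓛.n0 γ₁).map, 𝓛.f0 γ' γ₁ E' hE']
      by_cases h5 : γ₁ = γ'
      · subst h5
        rw [if_pos rfl, map_neg, mul_neg, smul_mul_assoc, ← sub_eq_add_neg]
        nth_rewrite 2 [← one_smul ℂ (a * mp T g' (𝓛.f E'))]
        rw [← sub_smul]
        congr 1
        rw [Pi.sub_apply, Pi.sub_apply, Pi.sub_apply, Pi.single_eq_same]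
        push_cast
        ring
      · rw [if_neg h5, map_zero, mul_zero, add_zero, smul_mul_assoc]
        congr 1
        rw [Pi.sub_apply, Pi.sub_apply, Pi.sub_apply, Pi.single_eq_of_ne h5, sub_zero]
    · have h5 := 𝓛.anti γ' γ E' E hE' hE X (p ≫ g') g _ (Or.inr rfl) _ (Or.inl rfl)
      have h6 := 𝓛.anti γ' γ E' E hE' hE X (p ≫ g') g _ (Or.inr rfl) _ (Or.inr rfl)
      refine (Mw.neg (Mw.f hE' hc (p ≫ g') ?_ (k4 X E p hE g))).congr ?_ ?_
      · rw [Pi.sub_apply, Pi.single_eq_of_ne h2]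
        omega
      · abel
      · rw [mp_mul, mp_mul, ← mp_comp, mul_assoc, mul_assoc, h5, h6, add_mul, mul_assoc,
          mul_assoc, mul_neg, mul_neg]
        abel

/-! ### Natural derivations on products -/

theorem NatC.comm {D D' : ∀ X : 𝒱.Obj, CH T X →ₗ[ℂ] CH T X} (h : NatC T D) (h' : NatC T D') :
    NatC T fun X => D X ∘ₗ D' X - D' X ∘ₗ D X where
  der X x y := by
    change D X (D' X (x * y)) - D' X (D X (x * y)) =
      (D X (D' X x) - D' X (D X x)) * y + x * (D X (D' X y) - D' X (D X y))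
    rw [h'.der, h.der, map_add, map_add, h.der, h.der, h'.der, h'.der, sub_mul, mul_sub]
    abel
  map f y := by
    change D _ (D' _ _) - D' _ (D _ _) = mp T f (D _ (D' _ y) - D' _ (D _ y))
    rw [h'.map, h.map, h.map, h'.map, map_sub]
  alg X x hx := by
    change D X (D' X x) - D' X (D X x) = 0
    rw [h'.alg X x hx, h.alg X x hx, map_zero, map_zero, sub_zero]

theorem NatC.smul {D : ∀ X : 𝒱.Obj, CH T X →ₗ[ℂ] CH T X} (h : NatC T D) (z : ℂ) :
    NatC T fun X => z • D X where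
  der X x y := by
    change z • D X (x * y) = (z • D X x) * y + x * (z • D X y)
    rw [h.der, smul_add, smul_mul_assoc, mul_smul_comm]
  map f y := by
    change z • D _ _ = mp T f (z • D _ y)
    rw [h.map, map_smul]
  alg X x hx := by
    change z • D X x = 0
    rw [h.alg X x hx, smul_zero]

theorem times_concat (X : 𝒱.Obj) (l : List 𝒱.Obj) (E : 𝒱.Obj) :
    times X (l ++ [E]) = (times X l).prod E := by
  rw [times, List.foldl_append]
  rfl

/-- Natural derivations which agree on the letters agree. -/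
theorem NatC.agree (𝓛 : Letters T Γ) {D D' : ∀ X : 𝒱.Obj, CH T X →ₗ[ℂ] CH T X} (h : NatC T D)
    (h' : NatC T D') {E₀ : 𝒱.Obj} (l : List 𝒱.Obj) (hl : ∀ E ∈ E₀ :: l, (∃ γ, 𝓛.El γ E) ∧
      D E (𝓛.e E) = D' E (𝓛.e E) ∧ D E (𝓛.f E) = D' E (𝓛.f E)) (x : CH T (times E₀ l)) :
    D _ x = D' _ x := by
  induction l using List.reverseRecOn with
  | nil =>
    obtain ⟨⟨γ, hE⟩, h1, h2⟩ := hl E₀ List.mem_cons_self
    have key : ∀ x : CH T E₀, D _ x = D' _ x := by
      intro x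
      obtain ⟨y, a, b, hx⟩ := 𝓛.one γ E₀ hE x
      rw [hx]
      simp only [map_add, map_sum, map_smul]
      rw [h1, h2]
      congr 2
      refine Finset.sum_congr rfl fun i _ => ?_
      rw [h.alg _ _ (𝓛.alg γ E₀ hE i), h'.alg _ _ (𝓛.alg γ E₀ hE i)]
    exact key x
  | append_singleton l E ih =>
    have ih' := ih fun F hF => hl F (by
      rcases List.mem_cons.1 hF with rfl | hF
      · exact List.mem_cons_self
      · exact List.mem_cons_of_mem _ (List.mem_append_left _ hF))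
    obtain ⟨⟨γ, hE⟩, h1, h2⟩ := hl E (List.mem_cons_of_mem _ (List.mem_append_right _
      (List.mem_singleton_self E)))
    have key : ∀ x : CH T ((times E₀ l).prod E), D _ x = D' _ x := by
      intro x
      obtain ⟨y, a, b, hx⟩ := 𝓛.kun γ E hE _ x
      rw [hx]
      simp only [map_add, map_sum, h.der, h'.der, h.map, h'.map, h1, h2, ih']
      congr 2
      refine Finset.sum_congr rfl fun i _ => ?_
      rw [h.alg _ _ (𝓛.alg γ E hE i), h'.alg _ _ (𝓛.alg γ E hE i)]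
    have e := times_concat E₀ l E
    revert x
    rw [e]
    exact key

/-- The decomposition of the classes on `P × E`. -/
noncomputable def Letters.F (𝓛 : Letters T Γ) (P E : 𝒱.Obj) (y : 𝓛.κ E → CH T P) (a b : CH T P) :
    CH T (P.prod E) :=
  ∑ i, mp T (fst P E) (y i) * mp T (snd P E) (𝓛.t E i) +
    mp T (fst P E) a * mp T (snd P E) (𝓛.e E) + mp T (fst P E) b * mp T (snd P E) (𝓛.f E)

theorem F_smul (z : ℂ) (y : 𝓛.κ E → CH T P) (a b : CH T P) :
    z • 𝓛.F P E y a b = 𝓛.F P E (fun i => z • y i) (z • a) (z • b) := by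
  simp only [Letters.F, smul_add, Finset.smul_sum, map_smul, smul_mul_assoc]

theorem F_zero : 𝓛.F P E (fun _ => 0) 0 0 = 0 := by
  simp only [Letters.F, map_zero, zero_mul, Finset.sum_const_zero, add_zero]

theorem F_inj {γ : Γ} (hE : 𝓛.El γ E) {y y' : 𝓛.κ E → CH T P} {a b a' b' : CH T P}
    (h : 𝓛.F P E y a b = 𝓛.F P E y' a' b') : (∀ i, y i = y' i) ∧ a = a' ∧ b = b' := by
  have h1 := 𝓛.uni γ E hE P (fun i => y i - y' i) (a - a') (b - b') (by
    simp only [map_sub, sub_mul, Finset.sum_sub_distrib]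
    rw [Letters.F, Letters.F] at h
    linear_combination (norm := module) h)
  exact ⟨fun i => sub_eq_zero.1 (h1.1 i), sub_eq_zero.1 h1.2.1, sub_eq_zero.1 h1.2.2⟩

theorem F_D {γ : Γ} (hE : 𝓛.El γ E) {D : ∀ X : 𝒱.Obj, CH T X →ₗ[ℂ] CH T X} (h : NatC T D)
    (y : 𝓛.κ E → CH T P) (a b : CH T P) : D _ (𝓛.F P E y a b) =
      𝓛.F P E (fun i => D _ (y i)) (D _ a) (D _ b) +
      (mp T (fst P E) a * mp T (snd P E) (D E (𝓛.e E)) +
        mp T (fst P E) b * mp T (snd P E) (D E (𝓛.f E))) := by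
  simp only [Letters.F, map_add, map_sum, h.der, h.map, h.alg _ _ (𝓛.alg γ E hE _), map_zero,
    mul_zero, add_zero]
  abel

theorem F_0 {γ : Γ} (hE : 𝓛.El γ E) (γ' : Γ) (y : 𝓛.κ E → CH T P) (a b : CH T P) :
    𝓛.D0 γ' _ (𝓛.F P E y a b) = 𝓛.F P E (fun i => 𝓛.D0 γ' _ (y i))
      (𝓛.D0 γ' _ a + if γ' = γ then a else 0) (𝓛.D0 γ' _ b - if γ' = γ then b else 0) := by
  rw [F_D hE (𝓛.n0 γ'), 𝓛.e0 γ γ' E hE, 𝓛.f0 γ γ' E hE]
  simp only [Letters.F]
  split_ifs
  · simp only [map_add, map_sub, map_neg, add_mul, sub_mul, mul_neg]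
    abel
  · simp only [map_zero, mul_zero, add_zero, sub_zero]

theorem F_p {γ : Γ} (hE : 𝓛.El γ E) {γ' : Γ} (h : ¬ 𝓛.cm γ') (y : 𝓛.κ E → CH T P) (a b : CH T P) :
    𝓛.Dp γ' _ (𝓛.F P E y a b) = 𝓛.F P E (fun i => 𝓛.Dp γ' _ (y i))
      (𝓛.Dp γ' _ a + if γ' = γ then b else 0) (𝓛.Dp γ' _ b) := by
  rw [F_D hE (𝓛.np γ' h), 𝓛.ep γ γ' E hE h, 𝓛.fp γ γ' E hE h]
  simp only [Letters.F]
  split_ifs
  · simp only [map_add, map_zero, mul_zero, add_mul]
    abel
  · simp only [map_zero, mul_zero, add_zero]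

/-- The relations between the operators. -/
theorem rel_m {γ : Γ} (hγ : ¬ 𝓛.cm γ) {E₀ : 𝒱.Obj} (l : List 𝒱.Obj)
    (hl : ∀ E ∈ E₀ :: l, ∃ γ, 𝓛.El γ E) (x : CH T (times E₀ l)) :
    𝓛.D0 γ _ (𝓛.Dm γ _ x) = 𝓛.Dm γ _ (𝓛.D0 γ _ x) - (2 : ℂ) • 𝓛.Dm γ _ x := by
  have h1 := NatC.agree 𝓛 ((𝓛.n0 γ).comm (𝓛.nm γ hγ)) ((𝓛.nm γ hγ).smul (-2)) l (fun E hE => by
    obtain ⟨γ', hE'⟩ := hl E hE
    refine ⟨⟨γ', hE'⟩, ?_, ?_⟩
    · change 𝓛.D0 γ E (𝓛.Dm γ E (𝓛.e E)) - 𝓛.Dm γ E (𝓛.D0 γ E (𝓛.e E)) =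
        (-2 : ℂ) • 𝓛.Dm γ E (𝓛.e E)
      rw [𝓛.em γ' γ E hE' hγ, 𝓛.e0 γ' γ E hE']
      split_ifs with h
      · rw [𝓛.f0 γ' γ E hE', 𝓛.em γ' γ E hE' hγ, if_pos h, if_pos h, neg_smul, two_smul, neg_add]
        abel
      · rw [map_zero, map_zero, smul_zero, sub_zero]
    · change 𝓛.D0 γ E (𝓛.Dm γ E (𝓛.f E)) - 𝓛.Dm γ E (𝓛.D0 γ E (𝓛.f E)) =
        (-2 : ℂ) • 𝓛.Dm γ E (𝓛.f E)
      rw [𝓛.fm γ' γ E hE' hγ, 𝓛.f0 γ' γ E hE']
      split_ifs with h
      · rw [map_zero, map_neg, 𝓛.fm γ' γ E hE' hγ, smul_zero, neg_zero, sub_zero]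
      · rw [map_zero, map_zero, smul_zero, sub_zero]) x
  change 𝓛.D0 γ _ (𝓛.Dm γ _ x) - 𝓛.Dm γ _ (𝓛.D0 γ _ x) = (-2 : ℂ) • 𝓛.Dm γ _ x at h1
  rw [sub_eq_iff_eq_add'] at h1
  rw [h1, neg_smul, sub_eq_add_neg]

theorem rel_pm {γ : Γ} (hγ : ¬ 𝓛.cm γ) {E₀ : 𝒱.Obj} (l : List 𝒱.Obj)
    (hl : ∀ E ∈ E₀ :: l, ∃ γ, 𝓛.El γ E) (x : CH T (times E₀ l)) :
    𝓛.Dp γ _ (𝓛.Dm γ _ x) = 𝓛.Dm γ _ (𝓛.Dp γ _ x) + 𝓛.D0 γ _ x := by
  have h1 := NatC.agree 𝓛 ((𝓛.np γ hγ).comm (𝓛.nm γ hγ)) (𝓛.n0 γ) l (fun E hE => by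
    obtain ⟨γ', hE'⟩ := hl E hE
    refine ⟨⟨γ', hE'⟩, ?_, ?_⟩
    · change 𝓛.Dp γ E (𝓛.Dm γ E (𝓛.e E)) - 𝓛.Dm γ E (𝓛.Dp γ E (𝓛.e E)) = 𝓛.D0 γ E (𝓛.e E)
      rw [𝓛.em γ' γ E hE' hγ, 𝓛.e0 γ' γ E hE', 𝓛.ep γ' γ E hE' hγ, map_zero, sub_zero]
      split_ifs with h
      · rw [𝓛.fp γ' γ E hE' hγ, if_pos h]
      · rw [map_zero]
    · change 𝓛.Dp γ E (𝓛.Dm γ E (𝓛.f E)) - 𝓛.Dm γ E (𝓛.Dp γ E (𝓛.f E)) = 𝓛.D0 γ E (𝓛.f E)
      rw [𝓛.fm γ' γ E hE' hγ, 𝓛.f0 γ' γ E hE', 𝓛.fp γ' γ E hE' hγ, map_zero, zero_sub]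
      split_ifs with h
      · rw [𝓛.em γ' γ E hE' hγ, if_pos h]
      · rw [map_zero, neg_zero]) x
  change 𝓛.Dp γ _ (𝓛.Dm γ _ x) - 𝓛.Dm γ _ (𝓛.Dp γ _ x) = 𝓛.D0 γ _ x at h1
  rw [← sub_eq_iff_eq_add', h1]

theorem Mw.sum {ι : Type*} (s : Finset ι) {w : Γ → ℤ} {y : ι → CH T X}
    (h : ∀ i ∈ s, Mw 𝓛 X w (y i)) : Mw 𝓛 X w (∑ i ∈ s, y i) :=
  Finset.sum_induction y (Mw 𝓛 X w) (fun _ _ => Mw.add) (Mw.zero w) h

/-- **Highest weight vectors are generated by letters and algebraic classes.** -/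
theorem mem_mw {E₀ : 𝒱.Obj} (l : List 𝒱.Obj) (hl : ∀ E ∈ E₀ :: l, ∃ γ, 𝓛.El γ E) (w : Γ → ℤ)
    (x : CH T (times E₀ l)) (h0 : ∀ γ, 𝓛.D0 γ _ x = (w γ : ℂ) • x)
    (hp : ∀ γ, ¬ 𝓛.cm γ → 𝓛.Dp γ _ x = 0) : Mw 𝓛 _ w x := by
  induction l using List.reverseRecOn generalizing w with
  | nil =>
    obtain ⟨γ, hE⟩ := hl E₀ List.mem_cons_self
    have key : ∀ x : CH T E₀, (∀ γ, 𝓛.D0 γ _ x = (w γ : ℂ) • x) →
        (∀ γ, ¬ 𝓛.cm γ → 𝓛.Dp γ _ x = 0) → Mw 𝓛 _ w x := by
      intro x h0 hp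
      obtain ⟨y, a, b, hx⟩ := 𝓛.one γ E₀ hE x
      have hy : ∀ z : ℂ, ∑ i, (z * y i) • 𝓛.t E₀ i = z • ∑ i, y i • 𝓛.t E₀ i := fun z => by
        rw [Finset.smul_sum]
        exact Finset.sum_congr rfl fun i _ => mul_smul _ _ _
      have hD : ∀ {D : ∀ X : 𝒱.Obj, CH T X →ₗ[ℂ] CH T X}, NatC T D →
          D E₀ x = a • D E₀ (𝓛.e E₀) + b • D E₀ (𝓛.f E₀) := by
        intro D hD
        rw [hx]
        simp only [map_add, map_sum, map_smul, hD.alg _ _ (𝓛.alg γ E₀ hE _), smul_zero,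
          Finset.sum_const_zero, zero_add]
      have k1 : (∀ i, (w γ : ℂ) * y i = 0) ∧ (w γ : ℂ) * a - a = 0 ∧ (w γ : ℂ) * b + b = 0 := by
        refine 𝓛.uni1 γ E₀ hE _ _ _ ?_
        have h1 := h0 γ
        rw [hD (𝓛.n0 γ), 𝓛.e0 γ γ E₀ hE, 𝓛.f0 γ γ E₀ hE, if_pos rfl, if_pos rfl, hx] at h1
        rw [hy]
        linear_combination (norm := module) (-1 : ℂ) • h1
      have k2 : ∀ γ', γ' ≠ γ → (∀ i, (w γ' : ℂ) * y i = 0) ∧ (w γ' : ℂ) * a = 0 ∧
          (w γ' : ℂ) * b = 0 := by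
        intro γ' hne
        refine 𝓛.uni1 γ E₀ hE _ _ _ ?_
        have h1 := h0 γ'
        rw [hD (𝓛.n0 γ'), 𝓛.e0 γ γ' E₀ hE, 𝓛.f0 γ γ' E₀ hE, if_neg hne, if_neg hne, hx] at h1
        rw [hy]
        linear_combination (norm := module) (-1 : ℂ) • h1
      by_cases hw : w = 0
      · subst hw
        have ha : a = 0 := by simpa using k1.2.1
        have hb : b = 0 := by simpa using k1.2.2
        rw [hx, ha, hb, zero_smul, zero_smul, add_zero, add_zero]
        exact Mw.alg (Submodule.sum_mem _ fun i _ =>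
          Submodule.smul_mem _ _ (𝓛.alg γ E₀ hE i))
      · have hy0 : ∀ i, y i = 0 := by
          obtain ⟨γ', hγ'⟩ := Function.ne_iff.1 hw
          have hc : (w γ' : ℂ) ≠ 0 := Int.cast_ne_zero.2 hγ'
          intro i
          by_cases h : γ' = γ
          · subst h
            exact (mul_eq_zero.1 (k1.1 i)).resolve_left hc
          · exact (mul_eq_zero.1 ((k2 γ' h).1 i)).resolve_left hc
        have hx' : x = a • 𝓛.e E₀ + b • 𝓛.f E₀ := by
          rw [hx, Finset.sum_eq_zero fun i _ => by rw [hy0 i, zero_smul], zero_add]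
        by_cases ha : a = 0
        · by_cases hb : b = 0
          · rw [hx', ha, hb, zero_smul, zero_smul, add_zero]
            exact Mw.zero _
          · have hc : 𝓛.cm γ := by
              by_contra hc
              have h1 := hp γ hc
              rw [hD (𝓛.np γ hc), 𝓛.ep γ γ E₀ hE hc, 𝓛.fp γ γ E₀ hE hc, if_pos rfl, smul_zero,
                zero_add] at h1
              exact hb (𝓛.uni1 γ E₀ hE (fun _ => 0) b 0 (by simp [h1])).2.1
            have hw1 : w = 0 - Pi.single γ 1 := by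
              funext γ'
              rw [Pi.sub_apply, Pi.zero_apply, Pi.single_apply]
              split_ifs with h
              · subst h
                have h2 : ((w γ' : ℂ) + 1) * b = 0 := by linear_combination k1.2.2
                have h3 := (mul_eq_zero.1 h2).resolve_right hb
                have h4 : (w γ' : ℂ) = ((-1 : ℤ) : ℂ) := by
                  push_cast
                  linear_combination h3
                have h5 : w γ' = -1 := by exact_mod_cast h4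
                omega
              · have h2 := (mul_eq_zero.1 (k2 γ' h).2.2).resolve_right hb
                have h3 : w γ' = 0 := by exact_mod_cast h2
                omega
            rw [hw1]
            refine (Mw.f hE hc (𝟙 E₀) le_rfl
              (Mw.alg (a := b • (1 : CH T E₀)) (Submodule.smul_mem _ _ algC_one))).congr rfl ?_
            rw [hx', ha, zero_smul, zero_add, mp_id, smul_mul_assoc, one_mul]
        · have hw1 : w = 0 + Pi.single γ 1 := by
            funext γ'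
            rw [Pi.add_apply, Pi.zero_apply, Pi.single_apply]
            split_ifs with h
            · subst h
              have h2 : ((w γ' : ℂ) - 1) * a = 0 := by linear_combination k1.2.1
              have h3 := (mul_eq_zero.1 h2).resolve_right ha
              have h4 : (w γ' : ℂ) = ((1 : ℤ) : ℂ) := by
                push_cast
                linear_combination h3
              have h5 : w γ' = 1 := by exact_mod_cast h4
              omega
            · have h2 := (mul_eq_zero.1 (k2 γ' h).2.1).resolve_right ha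
              have h3 : w γ' = 0 := by exact_mod_cast h2
              omega
          have hb : b = 0 := by
            have h1 := k1.2.2
            rw [hw1, Pi.add_apply, Pi.zero_apply, Pi.single_eq_same] at h1
            push_cast at h1
            have h2 : (2 : ℂ) * b = 0 := by linear_combination h1
            exact (mul_eq_zero.1 h2).resolve_left two_ne_zero
          rw [hw1]
          refine (Mw.e hE (𝟙 E₀) le_rfl
            (Mw.alg (a := a • (1 : CH T E₀)) (Submodule.smul_mem _ _ algC_one))).congr rfl ?_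
          rw [hx', hb, zero_smul, add_zero, mp_id, smul_mul_assoc, one_mul]
    exact key x h0 hp
  | append_singleton l E ih =>
    have hl' : ∀ F ∈ E₀ :: l, ∃ γ, 𝓛.El γ F := fun F hF => hl F (by
      rcases List.mem_cons.1 hF with rfl | hF
      · exact List.mem_cons_self
      · exact List.mem_cons_of_mem _ (List.mem_append_left _ hF))
    obtain ⟨γ, hE⟩ := hl E (List.mem_cons_of_mem _ (List.mem_append_right _
      (List.mem_singleton_self E)))
    have ih' : ∀ (w : Γ → ℤ) (x : CH T (times E₀ l)), (∀ γ, 𝓛.D0 γ _ x = (w γ : ℂ) • x) →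
      (∀ γ, ¬ 𝓛.cm γ → 𝓛.Dp γ _ x = 0) → Mw 𝓛 _ w x := fun w x h0 hp => ih hl' w x h0 hp
    have key : ∀ x : CH T ((times E₀ l).prod E), (∀ γ, 𝓛.D0 γ _ x = (w γ : ℂ) • x) →
        (∀ γ, ¬ 𝓛.cm γ → 𝓛.Dp γ _ x = 0) → Mw 𝓛 _ w x := by
      intro x h0 hp
      obtain ⟨y, a, b, hx⟩ := 𝓛.kun γ E hE _ x
      change x = 𝓛.F _ E y a b at hx
      have k0 : ∀ γ', (∀ i, 𝓛.D0 γ' _ (y i) = (w γ' : ℂ) • y i) ∧
          (𝓛.D0 γ' _ a + if γ' = γ then a else 0) = (w γ' : ℂ) • a ∧
          (𝓛.D0 γ' _ b - if γ' = γ then b else 0) = (w γ' : ℂ) • b := by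
        intro γ'
        have h1 := h0 γ'
        rw [hx, F_0 hE, F_smul] at h1
        exact F_inj hE h1
      have kp : ∀ γ', ¬ 𝓛.cm γ' → (∀ i, 𝓛.Dp γ' _ (y i) = 0) ∧
          (𝓛.Dp γ' _ a + if γ' = γ then b else 0) = 0 ∧ 𝓛.Dp γ' _ b = 0 := by
        intro γ' hc
        have h1 := (hp γ' hc).trans (F_zero (𝓛 := 𝓛) (P := times E₀ l) (E := E)).symm
        rw [hx, F_p hE hc] at h1
        exact F_inj hE h1
      have hb0 : ∀ γ', 𝓛.D0 γ' _ b = (((w + Pi.single γ 1 : Γ → ℤ) γ' : ℤ) : ℂ) • b := by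
        intro γ'
        have h1 := (k0 γ').2.2
        rw [Pi.add_apply, Pi.single_apply]
        split_ifs at h1 ⊢ with h
        · rw [sub_eq_iff_eq_add] at h1
          rw [h1]
          push_cast
          rw [add_smul, one_smul]
        · rw [sub_zero] at h1
          rw [h1, add_zero]
      have ha0 : ∀ γ', 𝓛.D0 γ' _ a = (((w - Pi.single γ 1 : Γ → ℤ) γ' : ℤ) : ℂ) • a := by
        intro γ'
        have h1 := (k0 γ').2.1
        rw [Pi.sub_apply, Pi.single_apply]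
        split_ifs at h1 ⊢ with h
        · rw [← eq_sub_iff_add_eq] at h1
          rw [h1]
          push_cast
          rw [sub_smul, one_smul]
        · rw [add_zero] at h1
          rw [h1, sub_zero]
      have hb : Mw 𝓛 _ (w + Pi.single γ 1) b := ih' _ _ hb0 fun γ' hc => (kp γ' hc).2.2
      have hlast : Mw 𝓛 _ w (mp T (fst _ E) a * mp T (snd _ E) (𝓛.e E) +
          mp T (fst _ E) b * mp T (snd _ E) (𝓛.f E)) := by
        by_cases hc : 𝓛.cm γ
        · have ha : Mw 𝓛 _ (w - Pi.single γ 1) a := by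
            refine ih' _ _ ha0 fun γ' hc' => ?_
            have h1 := (kp γ' hc').2.1
            rwa [if_neg (fun h : γ' = γ => hc' (h ▸ hc)), add_zero] at h1
          exact Mw.add (((ha.map (fst _ E)).mul_e hc hE (snd _ E)).congr (by abel) rfl)
            (((hb.map (fst _ E)).mul_f hc hE (snd _ E)).congr (by abel) rfl)
        · have hab : 𝓛.Dp γ _ a = -b := by
            have h1 := (kp γ hc).2.1
            rw [if_pos rfl] at h1
            exact eq_neg_of_add_eq_zero_left h1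
          have hap : ∀ γ', ¬ 𝓛.cm γ' → γ' ≠ γ → 𝓛.Dp γ' _ a = 0 := by
            intro γ' hc' hne
            have h1 := (kp γ' hc').2.1
            rwa [if_neg hne, add_zero] at h1
          by_cases hw : 1 ≤ (w + Pi.single γ 1 : Γ → ℤ) γ
          · obtain ⟨a₀, k1, k2, k3, k4⟩ := hb.pre hc hw
            have h5 := k4 _ E (fst _ E) hE (snd _ E)
            have h6 : Mw 𝓛 _ (w - Pi.single γ 1) (a - a₀) := by
              refine ih' _ _ (fun γ' => ?_) fun γ' hc' => ?_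
              · rw [map_sub, ha0, k3, smul_sub]
                congr 3
                rw [Pi.sub_apply, Pi.sub_apply, Pi.add_apply, Pi.single_apply, Pi.single_apply]
                split_ifs <;> omega
              · by_cases hne : γ' = γ
                · subst hne
                  rw [map_sub, hab, k1, sub_self]
                · rw [map_sub, hap γ' hc' hne, k2 γ' hc' hne, sub_self]
            by_cases h7 : 0 ≤ (w - Pi.single γ 1 : Γ → ℤ) γ
            · have h8 := Mw.e hE (snd _ E) h7 (h6.map (fst _ E))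
              refine (Mw.add (h8.congr (by abel) rfl) (h5.congr (by abel) rfl)).congr rfl ?_
              rw [map_sub, sub_mul]
              abel
            · have h8 := sub_eq_zero.1 (h6.nonneg hc (by omega))
              rw [h8]
              exact h5.congr (by abel) rfl
          · have ha : a = 0 := by
              rw [Pi.add_apply, Pi.single_eq_same] at hw
              by_cases hw' : w γ + 1 = 0
              · refine no_neg_two (e := 𝓛.Dp γ (times E₀ l)) (f := 𝓛.Dm γ (times E₀ l))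
                  (h := 𝓛.D0 γ (times E₀ l)) (rel_m hc l hl') (rel_pm hc l hl') ?_ ?_
                · rw [ha0, Pi.sub_apply, Pi.single_eq_same]
                  congr 1
                  have h8 : w γ = -1 := by omega
                  rw [h8]
                  norm_num
                · rw [hab, map_neg, hb.lw hc (by rw [Pi.add_apply, Pi.single_eq_same]; exact hw'),
                    neg_zero]
              · have h8 : b = 0 := hb.nonneg hc (by
                  rw [Pi.add_apply, Pi.single_eq_same]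
                  omega)
                have h9 : Mw 𝓛 _ (w - Pi.single γ 1) a := by
                  refine ih' _ _ ha0 fun γ' hc' => ?_
                  by_cases hne : γ' = γ
                  · subst hne
                    rw [hab, h8, neg_zero]
                  · exact hap γ' hc' hne
                exact h9.nonneg hc (by
                  rw [Pi.sub_apply, Pi.single_eq_same]
                  omega)
            have hb' : b = 0 := by
              rw [ha, map_zero] at hab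
              exact neg_eq_zero.1 hab.symm
            rw [ha, hb', map_zero, zero_mul, zero_mul, add_zero]
            exact Mw.zero _
      rw [hx]
      refine (Mw.add (Mw.sum Finset.univ (y := fun i => mp T (fst _ E) (y i) *
        mp T (snd _ E) (𝓛.t E i)) fun i _ => ?_) hlast).congr rfl ?_
      · have h1 : Mw 𝓛 _ w (y i) := ih' w _ (fun γ' => (k0 γ').1 i) fun γ' hc => (kp γ' hc).1 i
        have h2 := algC_map (snd (times E₀ l) E) (𝓛.alg γ E hE i)
        refine (Mw.mul h2 (h1.map (fst _ E))).congr rfl ?_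
        exact algC_comm h2 _
      · rw [Letters.F]
        abel
    have e := times_concat E₀ l E
    revert x
    rw [e]
    exact fun x h0 hp => key x h0 hp

end Pool.Agent.Q219.HD
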