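import Mathlib

/-!
# Tensors killed by operators on the factors
-/

set_option autoImplicit false

open Module TensorProduct

namespace Pool.Agent.Q219.HD

variable {K V V' : Type*} [Field K] [AddCommGroup V] [Module K V] [AddCommGroup V'] [Module K V']

/-- The slice with respect to a functional on the second factor. -/
noncomputable def slR (φ : V' →ₗ[K] K) : V ⊗[K] V' →ₗ[K] V :=
  (TensorProduct.rid K V).toLinearMap ∘ₗ LinearMap.lTensor V φ

/-- The slice with respect to a functional on the first factor. -/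
noncomputable def slL (φ : V →ₗ[K] K) : V ⊗[K] V' →ₗ[K] V' :=
  (TensorProduct.lid K V').toLinearMap ∘ₗ LinearMap.rTensor V' φ

theorem slR_tmul (φ : V' →ₗ[K] K) (v : V) (w : V') : slR φ (v ⊗ₜ[K] w) = φ w • v := rfl

theorem slL_tmul (φ : V →ₗ[K] K) (v : V) (w : V') : slL φ (v ⊗ₜ[K] w) = φ v • w := rfl

theorem slR_map (φ : V' →ₗ[K] K) (f : V →ₗ[K] V) (x : V ⊗[K] V') :
    slR φ (TensorProduct.map f LinearMap.id x) = f (slR φ x) := by
  induction x using TensorProduct.induction_on with
  | zero => rw [map_zero, map_zero, map_zero]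
  | add x y hx hy => rw [map_add, map_add, map_add, map_add, hx, hy]
  | tmul v w => rw [TensorProduct.map_tmul, slR_tmul, slR_tmul, map_smul]; rfl

theorem slL_map (φ : V →ₗ[K] K) (g : V' →ₗ[K] V') (x : V ⊗[K] V') :
    slL φ (TensorProduct.map LinearMap.id g x) = g (slL φ x) := by
  induction x using TensorProduct.induction_on with
  | zero => rw [map_zero, map_zero, map_zero]
  | add x y hx hy => rw [map_add, map_add, map_add, map_add, hx, hy]
  | tmul v w => rw [TensorProduct.map_tmul, slL_tmul, slL_tmul, map_smul]; rfl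

theorem sepR {x : V ⊗[K] V'} (h : ∀ φ : V' →ₗ[K] K, slR φ x = 0) : x = 0 := by
  classical
  let b := Basis.ofVectorSpace K V
  let c := Basis.ofVectorSpace K V'
  apply (b.tensorProduct c).ext_elem
  rintro ⟨i, j⟩
  have key : ∀ y : V ⊗[K] V', (b.tensorProduct c).repr y (i, j) = b.repr (slR (c.coord j) y) i := by
    intro y
    induction y using TensorProduct.induction_on with
    | zero => simp
    | add x y hx hy => rw [map_add, map_add, map_add, Finsupp.add_apply, Finsupp.add_apply, hx, hy]
    | tmul v w =>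
      rw [slR_tmul, Basis.tensorProduct_repr_tmul_apply, map_smul, Finsupp.smul_apply,
        Basis.coord_apply, smul_eq_mul]
  rw [key, h, map_zero, map_zero, Finsupp.zero_apply, Finsupp.zero_apply]

theorem sepL {x : V ⊗[K] V'} (h : ∀ φ : V →ₗ[K] K, slL φ x = 0) : x = 0 := by
  classical
  let b := Basis.ofVectorSpace K V
  let c := Basis.ofVectorSpace K V'
  apply (b.tensorProduct c).ext_elem
  rintro ⟨i, j⟩
  have key : ∀ y : V ⊗[K] V', (b.tensorProduct c).repr y (i, j) = c.repr (slL (b.coord i) y) j := by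
    intro y
    induction y using TensorProduct.induction_on with
    | zero => simp
    | add x y hx hy => rw [map_add, map_add, map_add, Finsupp.add_apply, Finsupp.add_apply, hx, hy]
    | tmul v w =>
      rw [slL_tmul, Basis.tensorProduct_repr_tmul_apply, map_smul, Finsupp.smul_apply,
        Basis.coord_apply, smul_eq_mul, smul_eq_mul, mul_comm]
  rw [key, h, map_zero, map_zero, Finsupp.zero_apply, Finsupp.zero_apply]

theorem mem_span_of_killed {Λ : Type*} (A : Λ → (V →ₗ[K] V)) (B : Λ → (V' →ₗ[K] V'))
    {c : V ⊗[K] V'} (hA : ∀ l, TensorProduct.map (A l) LinearMap.id c = 0)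
    (hB : ∀ l, TensorProduct.map LinearMap.id (B l) c = 0) :
    c ∈ Submodule.span K {x | ∃ u w, (∀ l, A l u = 0) ∧ (∀ l, B l w = 0) ∧ x = u ⊗ₜ[K] w} := by
  set U : Submodule K V := ⨅ l, LinearMap.ker (A l) with hU
  set W : Submodule K V' := ⨅ l, LinearMap.ker (B l) with hW
  have hUm : ∀ {u}, u ∈ U ↔ ∀ l, A l u = 0 := by
    intro u
    rw [hU, Submodule.mem_iInf]
    rfl
  have hWm : ∀ {w}, w ∈ W ↔ ∀ l, B l w = 0 := by
    intro u
    rw [hW, Submodule.mem_iInf]
    rfl
  obtain ⟨p, hp⟩ := LinearMap.exists_leftInverse_of_injective U.subtype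
    (LinearMap.ker_eq_bot.2 U.subtype_injective)
  obtain ⟨q, hq⟩ := LinearMap.exists_leftInverse_of_injective W.subtype
    (LinearMap.ker_eq_bot.2 W.subtype_injective)
  have hp' : ∀ u, u ∈ U → (U.subtype ∘ₗ p) u = u := fun u hu => by
    have := LinearMap.congr_fun hp ⟨u, hu⟩
    exact congrArg Subtype.val this
  have hq' : ∀ u, u ∈ W → (W.subtype ∘ₗ q) u = u := fun u hu => by
    have := LinearMap.congr_fun hq ⟨u, hu⟩
    exact congrArg Subtype.val this
  have e1 : TensorProduct.map (U.subtype ∘ₗ p) LinearMap.id c = c := by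
    rw [← sub_eq_zero]
    apply sepR
    intro φ
    rw [map_sub, slR_map, sub_eq_zero]
    apply hp'
    rw [hUm]
    intro l
    rw [← slR_map, hA, map_zero]
  have e2 : TensorProduct.map LinearMap.id (W.subtype ∘ₗ q) c = c := by
    rw [← sub_eq_zero]
    apply sepL
    intro φ
    rw [map_sub, slL_map, sub_eq_zero]
    apply hq'
    rw [hWm]
    intro l
    rw [← slL_map, hB, map_zero]
  rw [← e1, ← e2]
  generalize c = d
  induction d using TensorProduct.induction_on with
  | zero => rw [map_zero, map_zero]; exact Submodule.zero_mem _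
  | add x y hx hy => rw [map_add, map_add]; exact Submodule.add_mem _ hx hy
  | tmul v w =>
    rw [TensorProduct.map_tmul, TensorProduct.map_tmul]
    refine Submodule.subset_span ⟨_, _, ?_, ?_, rfl⟩
    · exact hUm.1 (p v).2
    · exact hWm.1 (q w).2

end Pool.Agent.Q219.HD
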