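import Pool.Agent.Q219.HD.Cof
import Pool.Agent.Q219.HD.Ten

/-!
# Hodge classes on products of independent factors
-/

open CategoryTheory AlgebraicGeometry TensorProduct

universe u

namespace Pool.Agent.Q219.HD

open Module
open Pool.Agent.H914 Pool.Agent.H914.VarClass Pool.Agent.H914.VarClass.Obj
  Pool.Agent.H914.WeilCohomology
open Pool.Agent.Y133.Half
open Pool.Agent.Y121.AH
open Pool.Agent.Q50.BL

variable {k : Type u} [Field k] {𝒱 : VarClass k} {ops : CycleOps 𝒱} {T : HodgeTheory ops}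
  {X Y Z P Q : 𝒱.Obj}

/-- The elements of the Lie algebra kill the Hodge classes. -/
theorem kill_hodge {g : EH T X} (h : g ∈ gen (hg T X)) {c : T.W.H X}
    (hc : c ∈ (hodgeSys T).C X) : g c = 0 := by
  let S : Submodule T.W.K (EH T X) :=
    { carrier := {g | g c = 0}
      zero_mem' := rfl
      add_mem' := by
        intro a b ha hb
        change (a + b) c = 0
        rw [LinearMap.add_apply, show a c = 0 from ha, show b c = 0 from hb, add_zero]
      smul_mem' := by
        intro r a ha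
        change (r • a) c = 0
        rw [LinearMap.smul_apply, show a c = 0 from ha, smul_zero] }
  have hS : IsLie S := by
    intro x hx y hy
    change (x * y - y * x) c = 0
    have hx' : x c = 0 := hx
    have hy' : y c = 0 := hy
    rw [LinearMap.sub_apply, Module.End.mul_apply, Module.End.mul_apply, hx', hy', map_zero,
      map_zero, sub_zero]
  exact gen_le hS (fun l => mem_hodge_iff.1 hc l) h

variable {J : Type*} {A : J → Type*} [∀ j, Ring (A j)] [∀ j, Algebra T.W.K (A j)]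

/-- The Lie algebra of the family `h` acts on the cohomology of `X`, and the components with index
outside `s` act trivially. -/
def HasRep (h : ∀ j, Lam T →ₗ[T.W.K] A j) (X : 𝒱.Obj) (s : Set J) : Prop :=
  ∃ ρ : (∀ j, A j) →ₗ[T.W.K] EH T X, IsLieMap ρ ∧
    (∀ l, ρ (fun j => h j l) = hg T X l) ∧ ∀ r, (∀ j ∈ s, r j = 0) → ρ r = 0

variable {h : ∀ j, Lam T →ₗ[T.W.K] A j} {s t : Set J}

theorem HasRep.mono (hX : HasRep h X s) (hst : s ⊆ t) : HasRep h X t := by
  obtain ⟨ρ, h1, h2, h3⟩ := hX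
  exact ⟨ρ, h1, h2, fun r hr => h3 r fun j hj => hr j (hst hj)⟩

theorem HasRep.of (j : J) {φ : A j →ₗ[T.W.K] EH T X} (hφ : IsLieMap φ)
    (hv : ∀ l, φ (h j l) = hg T X l) : HasRep h X {j} :=
  ⟨φ ∘ₗ LinearMap.proj j, fun x y => hφ (x j) (y j), hv, fun r hr => by
    change φ (r j) = 0
    rw [hr j rfl, map_zero]⟩

theorem HasRep.prod (hX : HasRep h X s) (hY : HasRep h Y t) :
    HasRep h (X.prod Y) (s ∪ t) := by
  obtain ⟨ρ, h1, h2, h3⟩ := hX
  obtain ⟨σ, k1, k2, k3⟩ := hY
  refine ⟨two T.W X Y ∘ₗ ρ.prod σ, ?_, ?_, ?_⟩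
  · intro x y
    change two T.W X Y (ρ (x * y - y * x), σ (x * y - y * x)) = _
    rw [h1, k1]
    exact two_isLieMap T.W X Y (ρ x, σ x) (ρ y, σ y)
  · intro l
    change two T.W X Y (ρ _, σ _) = _
    rw [h2, k2, hg_prod]
  · intro r hr
    change two T.W X Y (ρ r, σ r) = 0
    rw [h3 r fun j hj => hr j (Or.inl hj), k3 r fun j hj => hr j (Or.inr hj)]
    exact map_zero _

theorem HasRep.pw (hX : HasRep h X s) : ∀ n, HasRep h (pw X n) s
  | 0 => hX
  | n + 1 => ((HasRep.pw hX n).prod hX).mono (by rw [Set.union_self])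

/-- The products of the pull-backs of a Hodge class on `P` and a Hodge class on `Q`. -/
noncomputable def prods (T : HodgeTheory ops) (P Q : 𝒱.Obj) : Submodule T.W.K (T.W.H (P.prod Q)) :=
  Submodule.span T.W.K {x | ∃ a ∈ (hodgeSys T).C P, ∃ b ∈ (hodgeSys T).C Q,
    x = T.W.map (fst P Q) a * T.W.map (snd P Q) b}

/-- **Hodge classes on products of independent factors.** -/
theorem hodge_prod (hP : HasRep h P s) (hQ : HasRep h Q t)
    (H : ∀ l, ∃ r ∈ fam h, (∀ j ∈ s, r j = 0) ∧ ∀ j ∈ t, r j = h j l)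
    {c : T.W.H (P.prod Q)} (hc : c ∈ (hodgeSys T).C (P.prod Q)) : c ∈ prods T P Q := by
  obtain ⟨ρ, h1, h2, h3⟩ := hP
  obtain ⟨σ, k1, k2, k3⟩ := hQ
  have hL : IsLieMap (two T.W P Q ∘ₗ ρ.prod σ) := by
    intro x y
    change two T.W P Q (ρ (x * y - y * x), σ (x * y - y * x)) = _
    rw [h1, k1]
    exact two_isLieMap T.W P Q (ρ x, σ x) (ρ y, σ y)
  have hR : ∀ l, extOp T.W (1 : EH T P) (hg T Q l) c = 0 := by
    intro l
    obtain ⟨r, hr, hr1, hr2⟩ := H l
    have e1 : ρ r = 0 := h3 r hr1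
    have e2 : σ r = hg T Q l := by
      rw [← k2 l, ← sub_eq_zero, ← map_sub]
      apply k3
      intro j hj
      rw [Pi.sub_apply, hr2 j hj, sub_self]
    have e3 : (two T.W P Q ∘ₗ ρ.prod σ) r ∈ gen (hg T (P.prod Q)) := by
      refine map_gen_mem hL (h := LinearMap.pi h) (fun l => ?_) hr
      change two T.W P Q (ρ _, σ _) = _
      rw [hg_prod, ← h2, ← k2]
      rfl
    have e4 := kill_hodge e3 hc
    have e5 : (two T.W P Q ∘ₗ ρ.prod σ) r = extOp T.W 0 1 + extOp T.W 1 (hg T Q l) := by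
      change two T.W P Q (ρ r, σ r) = _
      rw [e1, e2, two_apply]
    have e6 : extOp T.W (0 : EH T P) (1 : EH T Q) = 0 := by
      have := extOp_smul_left (W := T.W) (0 : T.W.K) (0 : EH T P) (1 : EH T Q)
      rw [zero_smul, zero_smul] at this
      exact this
    rw [e5, e6, zero_add] at e4
    exact e4
  have hLf : ∀ l, extOp T.W (hg T P l) (1 : EH T Q) c = 0 := by
    intro l
    have e1 := mem_hodge_iff.1 hc l
    rw [hg_prod, two_apply, LinearMap.add_apply, hR l, add_zero] at e1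
    exact e1
  set d := (kappa T.W P Q).symm c with hd
  have hcd : c = kappa T.W P Q d := ((kappa T.W P Q).apply_symm_apply c).symm
  have e1 : ∀ l, TensorProduct.map (hg T P l) LinearMap.id d = 0 := by
    intro l
    apply (kappa T.W P Q).injective
    rw [map_zero]
    exact hLf l
  have e2 : ∀ l, TensorProduct.map LinearMap.id (hg T Q l) d = 0 := by
    intro l
    apply (kappa T.W P Q).injective
    rw [map_zero]
    exact hR l
  have e3 := mem_span_of_killed _ _ e1 e2
  rw [hcd]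
  have e4 : kappa T.W P Q d ∈ (Submodule.span T.W.K {x | ∃ u w, (∀ l, hg T P l u = 0) ∧
      (∀ l, hg T Q l w = 0) ∧ x = u ⊗ₜ[T.W.K] w}).map (kappa T.W P Q).toLinearMap := ⟨d, e3, rfl⟩
  rw [Submodule.map_span] at e4
  refine Submodule.span_mono ?_ e4
  rintro _ ⟨_, ⟨u, w, hu, hw, rfl⟩, rfl⟩
  exact ⟨u, mem_hodge_iff.2 hu, w, mem_hodge_iff.2 hw, kappa_tmul u w⟩

end Pool.Agent.Q219.HD
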