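import Pool.Agent.Q219.HD.Mtx
import Pool.Agent.Q219.HD.Core
import Pool.Agent.Q219.HD.Rep

/-!
# Natural derivations of the cohomology
-/

open CategoryTheory AlgebraicGeometry TensorProduct

universe u

namespace Pool.Agent.Q219.HD

open Module
open Pool.Agent.H914 Pool.Agent.H914.VarClass Pool.Agent.H914.VarClass.Obj
  Pool.Agent.H914.WeilCohomology
open Pool.Agent.Y133.Half
open Pool.Agent.Y121.AH
open Pool.Agent.Q50.BL

variable {k : Type u} [Field k] {𝒱 : VarClass k} {ops : CycleOps 𝒱} {T : HodgeTheory ops}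
  {X Y E E' P : 𝒱.Obj} {c : ℂ ≃ₐ[T.W.K] ℂ}

/-- A natural derivation of the cohomology of all varieties. -/
structure IsNatural (T : HodgeTheory ops) (G : ∀ X : 𝒱.Obj, EH T X) : Prop where
  der : ∀ X a b, G X (a * b) = G X a * b + a * G X b
  map : ∀ {X Y : 𝒱.Obj} (f : X ⟶ Y) (b : T.W.H Y), G X (T.W.map f b) = T.W.map f (G Y b)
  hodge : ∀ X, ∀ c ∈ (hodgeSys T).C X, G X c = 0

theorem IsNatural.comm {G G' : ∀ X : 𝒱.Obj, EH T X} (h : IsNatural T G) (h' : IsNatural T G') :
    IsNatural T (G * G' - G' * G) where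
  der X a b := by
    change G X (G' X (a * b)) - G' X (G X (a * b)) =
      (G X (G' X a) - G' X (G X a)) * b + a * (G X (G' X b) - G' X (G X b))
    rw [h'.der, h.der, map_add, map_add, h.der, h.der, h'.der, h'.der, sub_mul, mul_sub]
    abel
  map f b := by
    change G _ (G' _ _) - G' _ (G _ _) = T.W.map f (G _ (G' _ b) - G' _ (G _ b))
    rw [h'.map, h.map, h.map, h'.map, map_sub]
  hodge X c hc := by
    change G X (G' X c) - G' X (G X c) = 0
    rw [h'.hodge X c hc, h.hodge X c hc, map_zero, map_zero, sub_zero]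

/-- The natural derivations. -/
def natural (T : HodgeTheory ops) : Submodule T.W.K (∀ X : 𝒱.Obj, EH T X) where
  carrier := {G | IsNatural T G}
  zero_mem' :=
    { der := fun X a b => by
        change (0 : T.W.H X) = 0 * b + a * 0
        rw [zero_mul, mul_zero, add_zero]
      map := fun f b => by
        change (0 : T.W.H _) = T.W.map f 0
        rw [map_zero]
      hodge := fun _ _ _ => rfl }
  add_mem' := by
    intro G G' h h'
    refine ⟨fun X a b => ?_, fun f b => ?_, fun X c hc => ?_⟩
    · change G X (a * b) + G' X (a * b) = (G X a + G' X a) * b + a * (G X b + G' X b)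
      rw [h.der, h'.der, add_mul, mul_add]
      abel
    · change G _ _ + G' _ _ = T.W.map f (G _ b + G' _ b)
      rw [h.map, h'.map, map_add]
    · change G X c + G' X c = 0
      rw [h.hodge X c hc, h'.hodge X c hc, add_zero]
  smul_mem' := by
    intro r G h
    refine ⟨fun X a b => ?_, fun f b => ?_, fun X c hc => ?_⟩
    · change r • G X (a * b) = (r • G X a) * b + a * (r • G X b)
      rw [h.der, smul_add, smul_mul_assoc, mul_smul_comm]
    · change r • G _ _ = T.W.map f (r • G _ b)
      rw [h.map, map_smul]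
    · change r • G X c = 0
      rw [h.hodge X c hc, smul_zero]

theorem hg_natural (l : Lam T) : IsNatural T (fun X => hg T X l) where
  der _ a b := hg_mul l a b
  map f b := hg_map l f b
  hodge _ _ hc := mem_hodge_iff.1 hc l

/-- Elements of the Lie algebra of the family of matrices give natural derivations. -/
theorem exists_global {r : M2 ℂ → M2 T.W.K} (hr : r ∈ fam (fun N : M2 ℂ => cofM (K := T.W.K) N)) :
    ∃ G : ∀ X : 𝒱.Obj, EH T X, IsNatural T G ∧
      ∀ (E : 𝒱.Obj) (b : Bas T E) (N : M2 ℂ), CurveRange T E → IsMat b N →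
        G E = phi b b (r N) := by
  have hfst : IsLieMap (LinearMap.fst T.W.K (M2 ℂ → M2 T.W.K) (∀ X : 𝒱.Obj, EH T X)) :=
    fun _ _ => rfl
  obtain ⟨p, hp, hpr⟩ := lift_gen hfst (h := (LinearMap.pi fun N : M2 ℂ =>
    cofM (K := T.W.K) N).prod (LinearMap.pi fun X : 𝒱.Obj => hg T X)) (fun _ => rfl) hr
  let Q : Submodule T.W.K ((M2 ℂ → M2 T.W.K) × (∀ X : 𝒱.Obj, EH T X)) :=
    { carrier := {p | IsNatural T p.2 ∧ ∀ (E : 𝒱.Obj) (b : Bas T E) (N : M2 ℂ),
        CurveRange T E → IsMat b N → p.2 E = phi b b (p.1 N)}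
      zero_mem' := ⟨(natural T).zero_mem, fun E b N _ _ => by
        change (0 : EH T E) = phi b b 0
        rw [map_zero]⟩
      add_mem' := by
        rintro p q ⟨h1, h2⟩ ⟨h3, h4⟩
        refine ⟨(natural T).add_mem h1 h3, fun E b N hE hN => ?_⟩
        change p.2 E + q.2 E = phi b b (p.1 N + q.1 N)
        rw [h2 E b N hE hN, h4 E b N hE hN, map_add]
      smul_mem' := by
        rintro r p ⟨h1, h2⟩
        refine ⟨(natural T).smul_mem r h1, fun E b N hE hN => ?_⟩
        change r • p.2 E = phi b b (r • p.1 N)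
        rw [h2 E b N hE hN, map_smul] }
  have hQ : IsLie Q := by
    rintro p ⟨h1, h2⟩ q ⟨h3, h4⟩
    refine ⟨h1.comm h3, fun E b N hE hN => ?_⟩
    change p.2 E * q.2 E - q.2 E * p.2 E = phi b b (p.1 N * q.1 N - q.1 N * p.1 N)
    rw [h2 E b N hE hN, h4 E b N hE hN, phi_isLieMap]
  have hpQ : p ∈ Q := gen_le hQ (fun l => ⟨hg_natural l, fun E b N hE hN => hg_eq hE hN l⟩) hp
  refine ⟨p.2, hpQ.1, fun E b N hE hN => ?_⟩
  rw [hpQ.2 E b N hE hN, ← hpr]
  rfl

/-! ### The complexification -/

/-- The complexification of a natural derivation. -/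
noncomputable def dc (G : ∀ X : 𝒱.Obj, EH T X) (X : 𝒱.Obj) : CH T X →ₗ[ℂ] CH T X :=
  (G X).baseChange ℂ

variable {G G' : ∀ X : 𝒱.Obj, EH T X}

theorem dc_mul (h : IsNatural T G) (x y : CH T X) :
    dc G X (x * y) = dc G X x * y + x * dc G X y := by
  induction x using TensorProduct.induction_on with
  | zero => rw [zero_mul, map_zero, zero_mul, zero_mul, add_zero]
  | add x x' hx hx' => rw [add_mul, map_add, hx, hx', map_add, add_mul, add_mul]; abel
  | tmul z v =>
    induction y using TensorProduct.induction_on with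
    | zero => rw [mul_zero, map_zero, mul_zero, mul_zero, add_zero]
    | add x x' hx hx' => rw [mul_add, map_add, hx, hx', map_add, mul_add, mul_add]; abel
    | tmul w v' =>
      rw [dc, Algebra.TensorProduct.tmul_mul_tmul, LinearMap.baseChange_tmul,
        LinearMap.baseChange_tmul, LinearMap.baseChange_tmul, h.der, tmul_add,
        Algebra.TensorProduct.tmul_mul_tmul, Algebra.TensorProduct.tmul_mul_tmul]

theorem dc_map (h : IsNatural T G) (f : X ⟶ Y) (y : CH T Y) :
    dc G X (mp T f y) = mp T f (dc G Y y) := by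
  induction y using TensorProduct.induction_on with
  | zero => simp only [map_zero]
  | add x x' hx hx' => simp only [map_add, hx, hx']
  | tmul z v =>
    rw [mp_tmul, dc, dc, LinearMap.baseChange_tmul, LinearMap.baseChange_tmul, mp_tmul, h.map]

/-- The classes with complex coefficients of algebraic cycles. -/
noncomputable def algC (T : HodgeTheory ops) (X : 𝒱.Obj) : Submodule ℂ (CH T X) :=
  ((algSys T.W).C X).baseChange ℂ

theorem mem_base_of_ev {K V : Type*} [Field K] [Algebra K ℂ] [AddCommGroup V] [Module K V]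
    {S : Submodule K V} {x : ℂ ⊗[K] V} (h : ∀ l : ℂ →ₗ[K] K, ev l x ∈ S) :
    x ∈ S.baseChange ℂ := by
  obtain ⟨p, hp⟩ := LinearMap.exists_leftInverse_of_injective S.subtype
    (LinearMap.ker_eq_bot.2 S.subtype_injective)
  have hp' : ∀ u, u ∈ S → (S.subtype ∘ₗ p) u = u := fun u hu => by
    have := LinearMap.congr_fun hp ⟨u, hu⟩
    exact congrArg Subtype.val this
  have e1 : (S.subtype ∘ₗ p).baseChange ℂ x = x := by
    rw [← sub_eq_zero]
    apply ev_sep
    intro l
    rw [map_sub, ev_base, hp' _ (h l), sub_self]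
  rw [← e1]
  generalize x = y
  induction y using TensorProduct.induction_on with
  | zero => rw [map_zero]; exact Submodule.zero_mem _
  | add x y hx hy => rw [map_add]; exact Submodule.add_mem _ hx hy
  | tmul z v =>
    rw [LinearMap.baseChange_tmul]
    exact Submodule.tmul_mem_baseChange_of_mem _ (p v).2

theorem ev_smulC {K V : Type*} [Field K] [Algebra K ℂ] [AddCommGroup V] [Module K V]
    (l : ℂ →ₗ[K] K) (z : ℂ) (x : ℂ ⊗[K] V) :
    ev l (z • x) = ev (l ∘ₗ LinearMap.mulLeft K z) x := by
  induction x using TensorProduct.induction_on with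
  | zero => rw [smul_zero, map_zero, map_zero]
  | add x y hx hy => rw [smul_add, map_add, map_add, hx, hy]
  | tmul w v => rfl

theorem ev_mem {K V : Type*} [Field K] [Algebra K ℂ] [AddCommGroup V] [Module K V]
    {S : Submodule K V} {x : ℂ ⊗[K] V} (h : x ∈ S.baseChange ℂ) (l : ℂ →ₗ[K] K) : ev l x ∈ S := by
  rw [Submodule.baseChange_eq_span] at h
  have key : ∀ x ∈ Submodule.span ℂ ((S.map (TensorProduct.mk K ℂ V 1) : Submodule K _) : Set _),
      ∀ l : ℂ →ₗ[K] K, ev l x ∈ S := by
    intro x hx
    induction hx using Submodule.span_induction with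
    | mem x hx =>
      obtain ⟨v, hv, rfl⟩ := hx
      intro l
      exact S.smul_mem _ hv
    | zero => intro l; rw [map_zero]; exact S.zero_mem
    | add x y _ _ hx hy => intro l; rw [map_add]; exact S.add_mem (hx l) (hy l)
    | smul z x _ hx =>
      intro l
      rw [ev_smulC]
      exact hx _
  exact key x h l

theorem mem_of_one {K V : Type*} [Field K] [CharZero K] [Algebra K ℂ] [AddCommGroup V]
    [Module K V]
    {S : Submodule K V} {v : V} (h : (1 : ℂ) ⊗ₜ[K] v ∈ S.baseChange ℂ) : v ∈ S := by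
  obtain ⟨l, hl⟩ : ∃ l : ℂ →ₗ[K] K, l 1 = 1 := by
    by_contra hcon
    push Not at hcon
    refine one_ne_zero (α := ℂ) (sep (K := K) fun l => ?_)
    by_contra h1
    apply hcon ((l 1)⁻¹ • l)
    rw [LinearMap.smul_apply, smul_eq_mul, inv_mul_cancel₀ h1]
  have h2 := ev_mem h l
  rwa [ev_tmul, hl, one_smul] at h2

theorem algC_one : (1 : CH T X) ∈ algC T X :=
  Submodule.tmul_mem_baseChange_of_mem _ ((algSys T.W).one X)

theorem algC_mul {x y : CH T X} (hx : x ∈ algC T X) (hy : y ∈ algC T X) : x * y ∈ algC T X := by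
  refine base_induction (P := fun x => x * y ∈ algC T X) ?_ ?_ ?_ hx
  · rw [zero_mul]; exact Submodule.zero_mem _
  · intro a b ha hb; rw [add_mul]; exact Submodule.add_mem _ ha hb
  · intro z a ha
    refine base_induction (P := fun y => (z ⊗ₜ[T.W.K] a) * y ∈ algC T X) ?_ ?_ ?_ hy
    · rw [mul_zero]; exact Submodule.zero_mem _
    · intro a b ha hb; rw [mul_add]; exact Submodule.add_mem _ ha hb
    · intro w b hb
      rw [Algebra.TensorProduct.tmul_mul_tmul]
      exact Submodule.tmul_mem_baseChange_of_mem _ ((algSys T.W).mul ha hb)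

theorem algC_map (f : X ⟶ Y) {y : CH T Y} (hy : y ∈ algC T Y) : mp T f y ∈ algC T X := by
  refine base_induction (P := fun y => mp T f y ∈ algC T X) ?_ ?_ ?_ hy
  · rw [map_zero]; exact Submodule.zero_mem _
  · intro a b ha hb; rw [map_add]; exact Submodule.add_mem _ ha hb
  · intro w b hb
    rw [mp_tmul]
    exact Submodule.tmul_mem_baseChange_of_mem _ ((algSys T.W).map f hb)

theorem alg_le_hodge : (algSys T.W).C X ≤ (hodgeSys T).C X := ClassPred.alg_le (Q := hodgePred T)

theorem dc_alg (h : IsNatural T G) {x : CH T X} (hx : x ∈ algC T X) : dc G X x = 0 := by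
  refine base_induction (P := fun x => dc G X x = 0) ?_ ?_ ?_ hx
  · rw [map_zero]
  · intro a b ha hb; rw [map_add, ha, hb, add_zero]
  · intro z a ha
    rw [dc, LinearMap.baseChange_tmul, h.hodge X a (alg_le_hodge ha), tmul_zero]

theorem dc_hodge (h : IsNatural T G) {x : T.W.H X} (hx : x ∈ (hodgeSys T).C X) :
    dc G X (1 ⊗ₜ[T.W.K] x) = 0 := by
  rw [dc, LinearMap.baseChange_tmul, h.hodge X x hx, tmul_zero]

/-- Algebraic classes commute with all classes. -/
theorem algC_comm {x : CH T X} (hx : x ∈ algC T X) (y : CH T X) : x * y = y * x := by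
  refine base_induction (P := fun x => x * y = y * x) ?_ ?_ ?_ hx
  · rw [zero_mul, mul_zero]
  · intro a b ha hb; rw [add_mul, mul_add, ha, hb]
  · intro z a ha
    have h1 : ∀ v : T.W.H X, a * v = v * a := by
      intro v
      exact PH.even_comm ((algSys T.W).even ha) v
    induction y using TensorProduct.induction_on with
    | zero => rw [zero_mul, mul_zero]
    | add x y hx hy => rw [add_mul, mul_add, hx, hy]
    | tmul w v =>
      rw [Algebra.TensorProduct.tmul_mul_tmul, Algebra.TensorProduct.tmul_mul_tmul, h1, mul_comm]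

end Pool.Agent.Q219.HD
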