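import Pool.Agent.Q60.HDS.Defs

/-!
# Elliptic curves, the Lie algebra of the Hodge group, external products: definitions
-/

open CategoryTheory AlgebraicGeometry

universe u

namespace Pool.Agent.Q219.HD.St

open Pool.Agent.H914 Pool.Agent.H914.VarClass Pool.Agent.H914.VarClass.Obj
  Pool.Agent.H914.WeilCohomology
open Pool.Agent.Y121.AHS
open Pool.Agent.Q60.HDS (PolHodgeTheory power)

section Generic

variable {K A B C : Type} [Field K] [Ring A] [Algebra K A] [Ring B] [Algebra K B] [Ring C]
  [Algebra K C]

/-- The dimension of the subspace `G`. -/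
noncomputable def dimSub (G : Submodule K A) : ℕ := Module.finrank K G

variable (K A) in
/-- The dimension of `A`. -/
noncomputable def dimAll : ℕ := Module.finrank K A

variable (K) in
/-- The element `x` is a linear combination of elements of `S`. -/
def InSpan (S : Set A) (x : A) : Prop := x ∈ Submodule.span K S

/-- The product of the images of `a` and `b`. -/
def mulHom (f : A →ₐ[K] C) (g : B →ₐ[K] C) (a : A) (b : B) : C := f a * g b

variable [Algebra K ℂ]

variable (K A) in
/-- For integers `p` and `q`, a property of the elements of `A` with complex coefficients. -/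
abbrev TypesOn := ℤ → ℤ → Ext K ℂ A → Prop

/-- The linear map `f` respects the types. -/
def RespTypes (t : TypesOn K A) (t' : TypesOn K B) (f : A →ₗ[K] B) : Prop :=
  ∀ (p q : ℤ) (x : Ext K ℂ A), t p q x → t' p q (extMap K ℂ f x)

/-- There is a linear map which respects the types and is not zero on the subspace `G`. -/
def MapsOn (t : TypesOn K A) (t' : TypesOn K B) (G : Submodule K A) : Prop :=
  ∃ f : A →ₗ[K] B, RespTypes t t' f ∧ ∃ x ∈ G, f x ≠ 0

/-- There is a linear map which respects the types and is not a scalar on the subspace `G`. -/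
def NonScalarOn (t : TypesOn K A) (G : Submodule K A) : Prop :=
  ∃ f : A →ₗ[K] A, RespTypes t t f ∧ ∀ r : K, ∃ x ∈ G, f x ≠ r • x

/-- The operator which is `p - q` on the elements of type `(p, q)` is a linear combination, with
complex coefficients, of elements of `L`. -/
def HasOperator (t : TypesOn K A) (L : Submodule K (Module.End K A)) : Prop :=
  ∃ (m : ℕ) (z : Fin m → ℂ) (g : Fin m → Module.End K A), (∀ i, g i ∈ L) ∧
    ∀ (p q : ℤ) (x : Ext K ℂ A), t p q x →
      ∑ i, extSm K ℂ (z i) (extMap K ℂ (g i) x) = extSm K ℂ ((p - q : ℤ) : ℂ) x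

/-- The smallest space of endomorphisms which is closed under commutators and contains, after
extension of the coefficients to the complex numbers, the operator which is `p - q` on the elements
of type `(p, q)`. -/
noncomputable def lieOf (t : TypesOn K A) : Submodule K (Module.End K A) :=
  sInf {L | (∀ f ∈ L, ∀ g ∈ L, f * g - g * f ∈ L) ∧ HasOperator t L}

/-- The dimension of this Lie algebra. -/
noncomputable def lieDim (t : TypesOn K A) : ℕ := Module.finrank K (lieOf t)

end Generic

variable {k : Type u} [Field k] {𝒱 : VarClass k} {ops : CycleOps 𝒱}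

/-- The product of `X` and the members of the list `l`. -/
noncomputable def times (X : 𝒱.Obj) (l : List 𝒱.Obj) : 𝒱.Obj := l.foldl Obj.prod X

/-- The classes of type `(p, q)` in the cohomology of `X` with complex coefficients. -/
def types (T : HodgeTheory ops) (X : 𝒱.Obj) : TypesOn T.W.K (T.W.H X) := fun p q x =>
  IsType (X := X) T.pq p q x

/-- The curve `E` is an elliptic curve: a curve whose first Betti number is two. -/
def IsEllipticCurve (T : HodgeTheory ops) (E : 𝒱.Obj) : Prop := E.dim = 1 ∧ dimSub (T.W.gr E 1) = 2

/-- The elliptic curves `E` and `E'` are isogenous: there is a morphism of Hodge structures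
`H(E) → H(E')` which is not zero on the first cohomology. -/
def Isogenous (T : HodgeTheory ops) (E E' : 𝒱.Obj) : Prop :=
  MapsOn (types T E) (types T E') (T.W.gr E 1)

/-- The elliptic curve `E` has complex multiplication: there is an endomorphism of the Hodge
structure `H(E)` which is not a scalar on the first cohomology. -/
def HasCM (T : HodgeTheory ops) (E : 𝒱.Obj) : Prop := NonScalarOn (types T E) (T.W.gr E 1)

/-- The dimension of the Lie algebra of the Hodge group of `X`, that is of the smallest Lie algebra
of rational endomorphisms of the cohomology which contains the operator `p - q` after extension of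
the coefficients. -/
noncomputable def hodgeLieDim (T : HodgeTheory ops) (X : 𝒱.Obj) : ℕ := lieDim (types T X)

/-- The classes of algebraic cycles of codimension `j` on `X`. -/
def CycleClasses (T : HodgeTheory ops) (X : 𝒱.Obj) (j : ℕ) : Set (T.W.H X) :=
  {x | ∃ z, X.IsCyc j z ∧ T.W.cl X z = x}

/-- The Hodge conjecture for the classes of degree `2 j` on `X`: all Hodge classes of degree `2 j`
are linear combinations of classes of algebraic cycles. -/
def HodgeConjectureIn (T : HodgeTheory ops) (X : 𝒱.Obj) (j : ℕ) : Prop :=
  ∀ c, IsHodge T X j c → InSpan T.W.K (CycleClasses T X j) c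

/-- The Lefschetz theorem on classes of type `(1, 1)`: Hodge classes of degree two are linear
combinations of classes of divisors. -/
def LefschetzOneOne (T : HodgeTheory ops) : Prop := ∀ X : 𝒱.Obj, HodgeConjectureIn T X 1

/-- The external products of a Hodge class on `P` and a Hodge class on `Q`. -/
def ExternalProducts (T : HodgeTheory ops) (P Q : 𝒱.Obj) : Set (T.W.H (P.prod Q)) :=
  {x | ∃ i j a b, IsHodge T P i a ∧ IsHodge T Q j b ∧
    x = mulHom (T.W.map (fst P Q)) (T.W.map (snd P Q)) a b}

/-- All Hodge classes on `P × Q` are linear combinations of external products of Hodge classes. -/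
def Decoupled (T : HodgeTheory ops) (P Q : 𝒱.Obj) : Prop :=
  ∀ j c, IsHodge T (P.prod Q) j c → InSpan T.W.K (ExternalProducts T P Q) c

/-- The members of `l` are elliptic curves, each of which is isogenous to a member of `S`. -/
def AllIn (T : HodgeTheory ops) (S l : List 𝒱.Obj) : Prop :=
  ∀ E ∈ l, IsEllipticCurve T E ∧ ∃ E' ∈ S, Isogenous T E' E

/-- The members of `l` are elliptic curves, none of which is isogenous to a member of `S`. -/
def AllOutside (T : HodgeTheory ops) (S l : List 𝒱.Obj) : Prop :=
  ∀ E ∈ l, IsEllipticCurve T E ∧ ∀ E' ∈ S, ¬ Isogenous T E' E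

/-- At most `n` members of `S` have no complex multiplication. -/
def AtMostNonCM (T : HodgeTheory ops) (S : List 𝒱.Obj) (n : ℕ) : Prop :=
  ∀ S' : Finset 𝒱.Obj, (∀ E ∈ S', E ∈ S ∧ ¬ HasCM T E) → S'.card ≤ n

/-- The Hodge conjecture in all degrees holds for `X`. -/
def HC (T : PolHodgeTheory ops) (X : 𝒱.Obj) : Prop := ∀ j, HodgeConjectureIn T.toHodgeTheory X j

/-- The Hodge conjecture holds for the products of all powers of `Z` and all elliptic curves. -/
def HCForAll (T : PolHodgeTheory ops) (Z : 𝒱.Obj) : Prop :=
  ∀ (n : ℕ) (l : List 𝒱.Obj), (∀ E ∈ l, IsEllipticCurve T.toHodgeTheory E) →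
    HC T (times (power Z n) l)

/-- The total Betti number of `X`, the dimension of the cohomology. -/
noncomputable def totalBetti (T : HodgeTheory ops) (X : 𝒱.Obj) : ℕ := dimAll T.W.K (T.W.H X)

/-- The power `W ^ N` with `N = (2 b) ^ (3 b ^ 2)`, where `b` is the total Betti number of `W`. -/
noncomputable def largePower (T : HodgeTheory ops) (W : 𝒱.Obj) : 𝒱.Obj :=
  power W ((2 * totalBetti T W) ^ (3 * totalBetti T W ^ 2))

end Pool.Agent.Q219.HD.St
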