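import Pool.Agent.Q219.HD.Dom2

/-!
# Products with elliptic curves: the main theorem
-/

open CategoryTheory AlgebraicGeometry TensorProduct

universe u

namespace Pool.Agent.Q219.HD

open Module
open Pool.Agent.H914 Pool.Agent.H914.VarClass Pool.Agent.H914.VarClass.Obj
  Pool.Agent.H914.WeilCohomology
open Pool.Agent.Y133.Half
open Pool.Agent.Y121
open Pool.Agent.Q50.BL
open Pool.Agent.Q60.HDS (PolHodgeTheory power)

variable {k : Type u} [Field k] {𝒱 : VarClass k} {ops : CycleOps 𝒱}

section AH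

variable {T : AH.HodgeTheory ops} {X Y Z E E' P Q : 𝒱.Obj}

theorem full_of_subsingleton (h : Subsingleton (T.W.H X)) : Full T X := by
  refine full_of fun c _ => ?_
  rw [Subsingleton.elim c 0]
  exact Submodule.zero_mem _

theorem subsingleton_prod (h : Subsingleton (T.W.H X)) : Subsingleton (T.W.H (X.prod Y)) := by
  refine (Module.finrank_zero_iff (R := T.W.K)).1 ?_
  rw [Pool.Agent.Y133.Half.finrank_prod, Module.finrank_zero_of_subsingleton, zero_mul]

theorem subsingleton_pw (h : Subsingleton (T.W.H X)) : ∀ n, Subsingleton (T.W.H (pw X n))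
  | 0 => h
  | n + 1 => subsingleton_prod (subsingleton_pw h n)

theorem subsingleton_times (h : Subsingleton (T.W.H X)) (l : List 𝒱.Obj) :
    Subsingleton (T.W.H (times X l)) := by
  induction l generalizing X with
  | nil => exact h
  | cons E l ih => exact ih (subsingleton_prod h)

end AH

variable {X Y Z E E' P Q : 𝒱.Obj}

theorem hC_iff {T : PolHodgeTheory ops} : St.HC T X ↔ Full (tH T) X := hC_iff'.trans (hc_iff T)

/-- **The main theorem.** -/
theorem elliptic_factors (T : PolHodgeTheory ops) (Z : 𝒱.Obj) :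
    ∃ S : List 𝒱.Obj, (∀ E ∈ S, St.IsEllipticCurve T.toHodgeTheory E) ∧
      St.AtMostNonCM T.toHodgeTheory S (St.hodgeLieDim T.toHodgeTheory Z / 3) ∧
      (∀ (n : ℕ) (l₁ : List 𝒱.Obj) (E₀ : 𝒱.Obj) (l₂ : List 𝒱.Obj),
        St.AllIn T.toHodgeTheory S l₁ → St.AllOutside T.toHodgeTheory S (E₀ :: l₂) →
        St.Decoupled T.toHodgeTheory (St.times (power Z n) l₁) (St.times E₀ l₂) ∧
        (St.HC T (St.times E₀ l₂) →
          (St.HC T ((St.times (power Z n) l₁).prod (St.times E₀ l₂)) ↔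
            St.HC T (St.times (power Z n) l₁)))) ∧
      (St.LefschetzOneOne T.toHodgeTheory →
        (∀ (n : ℕ) (l₁ : List 𝒱.Obj) (E₀ : 𝒱.Obj) (l₂ : List 𝒱.Obj),
          St.AllIn T.toHodgeTheory S l₁ → St.AllOutside T.toHodgeTheory S (E₀ :: l₂) →
          (St.HC T ((St.times (power Z n) l₁).prod (St.times E₀ l₂)) ↔
            St.HC T (St.times (power Z n) l₁))) ∧
        (Z.dim ≤ 3 → ∀ (E₀ : 𝒱.Obj) (l₂ : List 𝒱.Obj),
          St.AllOutside T.toHodgeTheory S (E₀ :: l₂) → St.HC T (Z.prod (St.times E₀ l₂))) ∧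
        (St.HC T (St.largePower T.toHodgeTheory (St.times Z S)) ↔ St.HCForAll T Z)) := by
  classical
  obtain ⟨S, hS1, hS2, hS3⟩ := ell_main (tH T) (cj T)
    (Pr := fun E => St.IsEllipticCurve T.toHodgeTheory E) (fun E hE => isEll_of hE) Z
  have hmem : ∀ E, E ∈ S.toList ↔ E ∈ S := fun E => Finset.mem_toList
  have hS3' : ∀ (n : ℕ) (l₁ : List 𝒱.Obj) (E₀ : 𝒱.Obj) (l₂ : List 𝒱.Obj),
      St.AllIn T.toHodgeTheory S.toList l₁ → St.AllOutside T.toHodgeTheory S.toList (E₀ :: l₂) →
      (AH.hodgeSys (tH T)).C ((times (power Z n) l₁).prod (times E₀ l₂)) ≤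
        prods (tH T) (times (power Z n) l₁) (times E₀ l₂) := by
    intro n l₁ E₀ l₂ h1 h2
    refine hS3 n l₁ E₀ l₂ (fun E hE => ?_) fun E hE => ?_
    · obtain ⟨h3, E', hE', h4⟩ := h1 E hE
      exact ⟨h3, E', (hmem E').1 hE', h4⟩
    · obtain ⟨h3, h4⟩ := h2 E hE
      exact ⟨h3, fun E' hE' => h4 E' ((hmem E').2 hE')⟩
  refine ⟨S.toList, fun E hE => hS1 E ((hmem E).1 hE), fun S' hS' => ?_,
    fun n l₁ E₀ l₂ h1 h2 => ⟨decoupled_of (hS3' n l₁ E₀ l₂ h1 h2), fun h => ⟨fun h' => ?_,
      fun h' => hC_iff.2 ?_⟩⟩, fun h11 => ?_⟩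
  · have h1 : S' ⊆ S.filter fun E => ¬ CM (tH T) E := fun E hE =>
      Finset.mem_filter.2 ⟨(hmem E).1 (hS' E hE).1, (hS' E hE).2⟩
    have h2 := Finset.card_le_card h1
    have h3 : finrank (tH T).W.K (gen (hg (tH T) Z)) ≤
        St.hodgeLieDim T.toHodgeTheory Z := finrank_le_hodgeLie
    have h4 : 3 * (S.filter fun E => ¬ CM (tH T) E).card ≤
      finrank (tH T).W.K (gen (hg (tH T) Z)) := hS2
    have h5 := h4.trans h3
    omega
  · have k3 : Nontrivial ((tH T).W.H (times E₀ l₂)) :=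
      nontrivial_times l₂ fun E hE => nontrivial_ell (isEll_of (h2 E hE).1)
    exact hC_iff.2 (full_fst (Q := times E₀ l₂) (hC_iff.1 h'))
  · exact full_prod (hS3' n l₁ E₀ l₂ h1 h2) (hC_iff.1 h') (hC_iff.1 h)
  · -- the Hodge conjecture for the second factor
    have k2 : ∀ (E₀ : 𝒱.Obj) (l₂ : List 𝒱.Obj),
        St.AllOutside T.toHodgeTheory S.toList (E₀ :: l₂) → Full (tH T) (times E₀ l₂) := by
      intro E₀ l₂ h2
      exact full_ell (tH T) (cj T) (h11_of h11) (fun E hE => isEll_of (h2 E hE).1)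
        fun E hE => even_curve (h11_of h11) (isEll_of (h2 E hE).1) (h2 E hE).1.1
    have k4 : ∀ (n : ℕ) (l₁ : List 𝒱.Obj) (E₀ : 𝒱.Obj) (l₂ : List 𝒱.Obj),
        St.AllIn T.toHodgeTheory S.toList l₁ → St.AllOutside T.toHodgeTheory S.toList (E₀ :: l₂) →
        Full (tH T) (times (power Z n) l₁) →
        Full (tH T) ((times (power Z n) l₁).prod (times E₀ l₂)) :=
      fun n l₁ E₀ l₂ h1 h2 h => full_prod (hS3' n l₁ E₀ l₂ h1 h2) h (k2 E₀ l₂ h2)
    refine ⟨fun n l₁ E₀ l₂ h1 h2 => ⟨fun h => hC_iff.2 ?_, fun h => hC_iff.2 ?_⟩,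
      fun hZ E₀ l₂ h2 => hC_iff.2 ?_, fun h n l hl => hC_iff.2 ?_, fun h => ?_⟩
    · have k3 : Nontrivial ((tH T).W.H (times E₀ l₂)) :=
        nontrivial_times l₂ fun E hE => nontrivial_ell (isEll_of (h2 E hE).1)
      exact full_fst (Q := times E₀ l₂) (hC_iff.1 h)
    · exact k4 n l₁ E₀ l₂ h1 h2 (hC_iff.1 h)
    · exact k4 1 [] E₀ l₂ (fun E hE => absurd hE List.not_mem_nil) h2
        (full_le_three (h11_of h11) hZ)
    · -- one power is enough
      change Full (tH T) (times (pw Z (n - 1)) l)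
      rcases subsingleton_or_nontrivial ((tH T).W.H Z) with hs | hs
      · exact full_of_subsingleton (subsingleton_times (subsingleton_pw hs _) _)
      have hSn : ∀ E ∈ S.toList, Nontrivial ((tH T).W.H E) := fun E hE =>
        nontrivial_ell (isEll_of (hS1 E ((hmem E).1 hE)))
      have hWn : Nontrivial ((tH T).W.H (times Z S.toList)) := nontrivial_times' hSn
      have hW : ∀ m, Full (tH T) (pw (times Z S.toList) m) := fun m =>
        hC_iff.1 (hC_iff'.2 (Pool.Agent.Q60.HDS.determination (T := T)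
          (X := times Z S.toList) (hC_iff'.1 h) (m + 1)))
      set p : 𝒱.Obj → Bool := fun E => decide (∃ E' ∈ S.toList, St.Isogenous T.toHodgeTheory E' E)
        with hp
      have hperm : (l.filter p ++ l.filter fun E => !p E).Perm l := List.filter_append_perm p l
      have hin : St.AllIn T.toHodgeTheory S.toList (l.filter p) := by
        intro E hE
        rw [List.mem_filter] at hE
        exact ⟨hl E hE.1, of_decide_eq_true hE.2⟩
      have hout : St.AllOutside T.toHodgeTheory S.toList (l.filter fun E => !p E) := by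
        intro E hE
        rw [List.mem_filter] at hE
        refine ⟨hl E hE.1, fun E' hE' hi => ?_⟩
        have h3 : p E = true := decide_eq_true ⟨E', hE', hi⟩
        have h4 := hE.2
        rw [h3] at h4
        exact absurd h4 (by decide)
      have hfin : Full (tH T) (times (pw Z (n - 1)) (l.filter p)) := by
        refine full_sub hW (sub_times hSn) (n - 1) fun E hE => ?_
        obtain ⟨h3, E', hE', h4⟩ := hin E hE
        have h5 := hS1 E' ((hmem E').1 hE')
        exact (sub_mem hSn hE').trans (sub_isog (h11_of h11) (isEll_of h5) (isEll_of h3) h5.1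
          h3.1 h4)
      refine (Eqv.perm hperm (pw Z (n - 1))).full ?_
      generalize l.filter (fun E => !p E) = lo at hout
      cases lo with
      | nil => rw [List.append_nil]; exact hfin
      | cons E₀ l₂ =>
        have h6 : Full (tH T) ((times (pw Z (n - 1)) (l.filter p)).prod (times E₀ l₂)) :=
          k4 n (l.filter p) E₀ l₂ hin hout hfin
        have h7 := (Eqv.prod_times (times (pw Z (n - 1)) (l.filter p)) E₀ l₂).full h6
        rw [times_append]
        exact h7
    · obtain ⟨l, hl, he⟩ := pw_times Z S.toList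
        ((2 * St.totalBetti T.toHodgeTheory (times Z S.toList)) ^
          (3 * St.totalBetti T.toHodgeTheory (times Z S.toList) ^ 2) - 1)
      refine hC_iff.2 (he.full ?_)
      exact hC_iff.1 (h (_ + 1) l fun E hE => hS1 E ((hmem E).1 (hl E hE)))

end Pool.Agent.Q219.HD
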