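import Pool.Agent.Q219.HD.Let

/-!
# The letters, second part
-/

open CategoryTheory AlgebraicGeometry TensorProduct

universe u

namespace Pool.Agent.Q219.HD

open Module
open Pool.Agent.H914 Pool.Agent.H914.VarClass Pool.Agent.H914.VarClass.Obj
  Pool.Agent.H914.WeilCohomology
open Pool.Agent.Y133.Half
open Pool.Agent.Y121.AH
open Pool.Agent.Q50.BL

variable {k : Type u} [Field k] {𝒱 : VarClass k} {ops : CycleOps 𝒱} {T : HodgeTheory ops}
  {X Y E E' P : 𝒱.Obj} {c : ℂ ≃ₐ[T.W.K] ℂ}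

/-! ### Bases and the Kunneth decomposition -/

section

variable {ι : Type*} [Fintype ι]

/-- The Kunneth map of a family of classes. -/
noncomputable def Psi (P : 𝒱.Obj) (s : ι → CH T E) : (ι → CH T P) →ₗ[ℂ] CH T (P.prod E) where
  toFun y := ∑ i, mp T (fst P E) (y i) * mp T (snd P E) (s i)
  map_add' y z := by
    rw [← Finset.sum_add_distrib]
    exact Finset.sum_congr rfl fun i _ => by rw [Pi.add_apply, map_add, add_mul]
  map_smul' r y := by
    rw [RingHom.id_apply, Finset.smul_sum]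
    exact Finset.sum_congr rfl fun i _ => by rw [Pi.smul_apply, map_smul, smul_mul_assoc]

theorem psi_apply (s : ι → CH T E) (y : ι → CH T P) :
    Psi P s y = ∑ i, mp T (fst P E) (y i) * mp T (snd P E) (s i) := rfl

theorem psi_surj (s : Basis ι ℂ (CH T E)) : Function.Surjective (Psi P (s : ι → CH T E)) := by
  have h1 : ∀ (a : T.W.H P) (b : T.W.H E), (1 ⊗ₜ[T.W.K] (T.W.map (fst P E) a *
      T.W.map (snd P E) b) : CH T (P.prod E)) ∈ LinearMap.range (Psi P (s : ι → CH T E)) := by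
    intro a b
    refine ⟨fun i => s.repr (1 ⊗ₜ[T.W.K] b) i • (1 ⊗ₜ[T.W.K] a), ?_⟩
    have h2 : (1 ⊗ₜ[T.W.K] (T.W.map (fst P E) a * T.W.map (snd P E) b) : CH T (P.prod E)) =
        mp T (fst P E) (1 ⊗ₜ[T.W.K] a) * mp T (snd P E) (1 ⊗ₜ[T.W.K] b) := by
      rw [mp_tmul, mp_tmul, Algebra.TensorProduct.tmul_mul_tmul, one_mul]
    rw [h2, psi_apply]
    conv_rhs => rw [← s.sum_repr (1 ⊗ₜ[T.W.K] b), map_sum, Finset.mul_sum]
    exact Finset.sum_congr rfl fun i _ => by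
      rw [map_smul, map_smul, smul_mul_assoc, mul_smul_comm]
  intro x
  change x ∈ LinearMap.range (Psi P (s : ι → CH T E))
  induction x using TensorProduct.induction_on with
  | zero => exact Submodule.zero_mem _
  | add x y hx hy => exact Submodule.add_mem _ hx hy
  | tmul z v =>
    have h3 : (z ⊗ₜ[T.W.K] v : CH T (P.prod E)) = z • (1 ⊗ₜ[T.W.K] v) := by
      rw [TensorProduct.smul_tmul', smul_eq_mul, mul_one]
    rw [h3]
    refine Submodule.smul_mem _ _ ?_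
    refine T.W.kunneth_induction (p := fun c => (1 ⊗ₜ[T.W.K] c : CH T (P.prod E)) ∈
      LinearMap.range (Psi P (s : ι → CH T E))) ?_ ?_ v
    · intro a b ha hb
      rw [tmul_add]
      exact Submodule.add_mem _ ha hb
    · intro i j a _ b _
      exact h1 a b

theorem psi_inj (s : Basis ι ℂ (CH T E)) : Function.Injective (Psi P (s : ι → CH T E)) := by
  have h1 : finrank ℂ (ι → CH T P) = finrank ℂ (CH T (P.prod E)) := by
    rw [Module.finrank_pi_fintype, Finset.sum_const, Finset.card_univ, smul_eq_mul,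
      ← Module.finrank_eq_card_basis s, Module.finrank_baseChange, Module.finrank_baseChange,
      Module.finrank_baseChange, ← (kappa T.W P E).finrank_eq, Module.finrank_tensorProduct,
      mul_comm]
  exact (LinearMap.injective_iff_surjective_of_finrank_eq_finrank h1).2 (psi_surj s)

end

/-- The index set of the classes whose degree is not one. -/
abbrev Kap (T : HodgeTheory ops) (E : 𝒱.Obj) : Type :=
  Fin (finrank T.W.K (LinearMap.ker (pr1 T E)))

/-- The classes whose degree is not one. -/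
noncomputable def tt (T : HodgeTheory ops) (E : 𝒱.Obj) (i : Kap T E) : CH T E :=
  1 ⊗ₜ[T.W.K] (finBasis T.W.K (LinearMap.ker (pr1 T E)) i : T.W.H E)

theorem pr1_pr1 (v : T.W.H E) : pr1 T E (pr1 T E v : T.W.H E) = pr1 T E v :=
  pr1_same (pr1 T E v).2

theorem exists_basis (b : Bas T E) {u v : Fin 2 → ℂ} (huv : u 0 * v 1 - u 1 * v 0 ≠ 0) :
    ∃ s : Basis (Kap T E ⊕ Fin 2) ℂ (CH T E), (∀ i, s (Sum.inl i) = tt T E i) ∧
      s (Sum.inr 0) = cmb b u ∧ s (Sum.inr 1) = cmb b v := by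
  have hrk : finrank T.W.K (T.W.gr E 1) = 2 := by
    rw [Module.finrank_eq_card_basis b, Fintype.card_fin]
  let s : Kap T E ⊕ Fin 2 → CH T E := Sum.elim (tt T E) ![cmb b u, cmb b v]
  have hs0 : ∀ i, s (Sum.inl i) = tt T E i := fun _ => rfl
  have hs1 : s (Sum.inr 0) = cmb b u := rfl
  have hs2 : s (Sum.inr 1) = cmb b v := rfl
  have hspan : ⊤ ≤ Submodule.span ℂ (Set.range s) := by
    rintro x -
    induction x using TensorProduct.induction_on with
    | zero => exact Submodule.zero_mem _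
    | add x y hx hy => exact Submodule.add_mem _ hx hy
    | tmul z w =>
      have h3 : (z ⊗ₜ[T.W.K] w : CH T E) = z • (1 ⊗ₜ[T.W.K] w) := by
        rw [TensorProduct.smul_tmul', smul_eq_mul, mul_one]
      rw [h3]
      refine Submodule.smul_mem _ _ ?_
      have h4 : (1 ⊗ₜ[T.W.K] w : CH T E) = 1 ⊗ₜ[T.W.K] (w - (pr1 T E w : T.W.H E)) +
          1 ⊗ₜ[T.W.K] (pr1 T E w : T.W.H E) := by
        rw [← tmul_add, sub_add_cancel]
      rw [h4]
      refine Submodule.add_mem _ ?_ ?_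
      · have h5 : w - (pr1 T E w : T.W.H E) ∈ LinearMap.ker (pr1 T E) := by
          rw [LinearMap.mem_ker, map_sub, pr1_pr1, sub_self]
        have h6 : w - (pr1 T E w : T.W.H E) = ∑ i, (finBasis T.W.K (LinearMap.ker (pr1 T E))).repr
            ⟨_, h5⟩ i • (finBasis T.W.K (LinearMap.ker (pr1 T E)) i : T.W.H E) := by
          have := congrArg Subtype.val
            ((finBasis T.W.K (LinearMap.ker (pr1 T E))).sum_repr ⟨_, h5⟩)
          rw [Submodule.coe_sum] at this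
          exact this.symm
        rw [h6, tmul_sum]
        refine Submodule.sum_mem _ fun i _ => ?_
        rw [tmul_smul, ← algebraMap_smul (A := ℂ)]
        exact Submodule.smul_mem _ _ (Submodule.subset_span ⟨Sum.inl i, rfl⟩)
      · obtain ⟨d, hd⟩ := exists_comb b (x := 1 ⊗ₜ[T.W.K] (pr1 T E w : T.W.H E))
          (Submodule.tmul_mem_baseChange_of_mem _ (pr1 T E w).2)
        have h5 : d = ((d 0 * v 1 - d 1 * v 0) / (u 0 * v 1 - u 1 * v 0)) • u +
            ((u 0 * d 1 - u 1 * d 0) / (u 0 * v 1 - u 1 * v 0)) • v := by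
          funext j
          rw [Pi.add_apply, Pi.smul_apply, Pi.smul_apply, smul_eq_mul, smul_eq_mul]
          have h6 : (j = 0 ∨ j = 1) := by
            rcases j with ⟨_ | _ | n, hn⟩
            · exact Or.inl rfl
            · exact Or.inr rfl
            · omega
          rw [div_mul_eq_mul_div, div_mul_eq_mul_div, ← add_div, eq_div_iff huv]
          rcases h6 with rfl | rfl <;> ring
        have h6 : (1 ⊗ₜ[T.W.K] (pr1 T E w : T.W.H E) : CH T E) = cmb b d := hd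
        rw [h6, h5, cmb_add, cmb_smul, cmb_smul]
        exact Submodule.add_mem _
          (Submodule.smul_mem _ _ (Submodule.subset_span ⟨Sum.inr 0, rfl⟩))
          (Submodule.smul_mem _ _ (Submodule.subset_span ⟨Sum.inr 1, rfl⟩))
  have hcard : Fintype.card (Kap T E ⊕ Fin 2) = finrank ℂ (CH T E) := by
    have hsurj : LinearMap.range (pr1 T E) = ⊤ :=
      LinearMap.range_eq_top.2 fun v => ⟨v, pr1_same v.2⟩
    have h7 := LinearMap.finrank_range_add_finrank_ker (pr1 T E)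
    rw [hsurj, finrank_top, hrk] at h7
    rw [Fintype.card_sum, Fintype.card_fin, Fintype.card_fin, Module.finrank_baseChange, ← h7,
      add_comm]
  refine ⟨basisOfTopLeSpanOfCardEqFinrank s hspan hcard, fun i => ?_, ?_, ?_⟩
  · rw [coe_basisOfTopLeSpanOfCardEqFinrank]
    exact hs0 i
  · rw [coe_basisOfTopLeSpanOfCardEqFinrank]
    exact hs1
  · rw [coe_basisOfTopLeSpanOfCardEqFinrank]
    exact hs2

theorem tt_mem (h : ∀ i, i ≠ 1 → T.W.gr E i ≤ (algSys T.W).C E) (i : Kap T E) :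
    tt T E i ∈ algC T E := by
  refine Submodule.tmul_mem_baseChange_of_mem _ ?_
  have h1 : pr1 T E (finBasis T.W.K (LinearMap.ker (pr1 T E)) i : T.W.H E) = 0 :=
    (finBasis T.W.K (LinearMap.ker (pr1 T E)) i).2
  have key : ∀ v : T.W.H E, v - (pr1 T E v : T.W.H E) ∈ (algSys T.W).C E := by
    intro v
    refine gr_induction (T.W.isInternal E)
      (p := fun v => v - (pr1 T E v : T.W.H E) ∈ (algSys T.W).C E) ?_ ?_ v
    · intro i v hv
      by_cases hi : i = 1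
      · subst hi
        rw [pr1_same hv, sub_self]
        exact Submodule.zero_mem _
      · rw [pr1_ne hi hv, Submodule.coe_zero, sub_zero]
        exact h i hi hv
    · intro v w hv hw
      rw [map_add, Submodule.coe_add, add_sub_add_comm]
      exact Submodule.add_mem _ hv hw
  have h2 := key (finBasis T.W.K (LinearMap.ker (pr1 T E)) i : T.W.H E)
  rwa [h1, Submodule.coe_zero, sub_zero] at h2

/-! ### The data of one isogeny class -/

/-- The letters and the operators of one isogeny class. -/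
structure LetDat (T : HodgeTheory ops) (L : Finset (M2 ℂ)) (N : M2 ℂ) where
  /-- the first letter -/
  u : Fin 2 → ℂ
  /-- the second letter -/
  v : Fin 2 → ℂ
  /-- the weight operator -/
  D0 : ∀ X : 𝒱.Obj, CH T X →ₗ[ℂ] CH T X
  /-- the raising operator -/
  Dp : ∀ X : 𝒱.Obj, CH T X →ₗ[ℂ] CH T X
  /-- the lowering operator -/
  Dm : ∀ X : 𝒱.Obj, CH T X →ₗ[ℂ] CH T X
  det : u 0 * v 1 - u 1 * v 0 ≠ 0
  n0 : NatC T D0
  np : NatC T Dp
  nm : NatC T Dm
  z0 : ∀ N' ∈ L, N' ≠ N → ∀ (E : 𝒱.Obj) (b : Bas T E), CurveRange T E → IsMat b N' →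
    ∀ x, D0 E x = 0
  zp : ∀ N' ∈ L, N' ≠ N → ∀ (E : 𝒱.Obj) (b : Bas T E), CurveRange T E → IsMat b N' →
    ∀ x, Dp E x = 0
  zm : ∀ N' ∈ L, N' ≠ N → ∀ (E : 𝒱.Obj) (b : Bas T E), CurveRange T E → IsMat b N' →
    ∀ x, Dm E x = 0
  e0 : ∀ (E : 𝒱.Obj) (b : Bas T E), CurveRange T E → IsMat b N → D0 E (cmb b u) = cmb b u
  f0 : ∀ (E : 𝒱.Obj) (b : Bas T E), CurveRange T E → IsMat b N → D0 E (cmb b v) = - cmb b v
  ep : NoCM T.W.K N → ∀ (E : 𝒱.Obj) (b : Bas T E), CurveRange T E → IsMat b N →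
    Dp E (cmb b u) = 0
  fp : NoCM T.W.K N → ∀ (E : 𝒱.Obj) (b : Bas T E), CurveRange T E → IsMat b N →
    Dp E (cmb b v) = cmb b u
  em : NoCM T.W.K N → ∀ (E : 𝒱.Obj) (b : Bas T E), CurveRange T E → IsMat b N →
    Dm E (cmb b u) = cmb b v
  fm : NoCM T.W.K N → ∀ (E : 𝒱.Obj) (b : Bas T E), CurveRange T E → IsMat b N →
    Dm E (cmb b v) = 0
  h0 : ∀ (X : 𝒱.Obj), ∀ x ∈ (hodgeSys T).C X, D0 X (1 ⊗ₜ[T.W.K] x) = 0
  hp : ∀ (X : 𝒱.Obj), ∀ x ∈ (hodgeSys T).C X, Dp X (1 ⊗ₜ[T.W.K] x) = 0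
  pair : NoCM T.W.K N → ∀ (E E' : 𝒱.Obj) (b : Bas T E) (b' : Bas T E'), CurveRange T E →
    CurveRange T E' → IsMat b N → IsMat b' N →
    mp T (fst E E') (cmb b u) * mp T (snd E E') (cmb b' v) -
      mp T (fst E E') (cmb b v) * mp T (snd E E') (cmb b' u) ∈ algC T (E.prod E')
  pair1 : ¬ NoCM T.W.K N → ∀ (E E' : 𝒱.Obj) (b : Bas T E) (b' : Bas T E'), CurveRange T E →
    CurveRange T E' → IsMat b N → IsMat b' N →
    mp T (fst E E') (cmb b u) * mp T (snd E E') (cmb b' v) ∈ algC T (E.prod E')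
  pair2 : ¬ NoCM T.W.K N → ∀ (E E' : 𝒱.Obj) (b : Bas T E) (b' : Bas T E'), CurveRange T E →
    CurveRange T E' → IsMat b N → IsMat b' N →
    mp T (fst E E') (cmb b v) * mp T (snd E E') (cmb b' u) ∈ algC T (E.prod E')

theorem natC_zero : NatC T (fun X => (0 : CH T X →ₗ[ℂ] CH T X)) where
  der X x y := by
    simp only [LinearMap.zero_apply, zero_mul, mul_zero, add_zero]
  map f y := by
    simp only [LinearMap.zero_apply, map_zero]
  alg _ _ _ := rfl

theorem toC_mk (a b c : T.W.K) : toC (mk a b c) = !![algebraMap T.W.K ℂ a, algebraMap T.W.K ℂ b;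
    algebraMap T.W.K ℂ c, -algebraMap T.W.K ℂ a] := by
  ext i j
  fin_cases i <;> fin_cases j <;> simp [toC, mk]

theorem letDat (h11 : ∀ (X : 𝒱.Obj), ∀ v ∈ T.W.gr X 2, v ∈ (hodgeSys T).C X →
    v ∈ (algSys T.W).C X) {L : Finset (M2 ℂ)} (hH : ∀ N ∈ L, IsHodgeMat T.W.K N)
    (hne : ∀ N ∈ L, ∀ N' ∈ L, N ≠ N' → ∀ g : M2 T.W.K, toC g * N = N' * toC g → g = 0)
    {N : M2 ℂ} (hN : N ∈ L) : Nonempty (LetDat T L N) := by
  by_cases hcm : NoCM T.W.K N
  · have hg : ∀ a b c : T.W.K, mk a b c ∈ gen (cofM (K := T.W.K) N) := by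
      intro a b c
      rw [gen_eq_sl (hH N hN) hcm]
      exact mk_mem a b c
    obtain ⟨G0, g1, g2, g3⟩ := exists_op (𝒱 := 𝒱) (T := T) hH hne hN (hg 1 0 0)
    obtain ⟨Gp, p1, p2, p3⟩ := exists_op (𝒱 := 𝒱) (T := T) hH hne hN (hg 0 1 0)
    obtain ⟨Gm, m1, m2, m3⟩ := exists_op (𝒱 := 𝒱) (T := T) hH hne hN (hg 0 0 1)
    have hu : ∀ (E : 𝒱.Obj) (b : Bas T E), cmb b ![1, 0] = bc b 0 := by
      intro E b
      rw [cmb, Fin.sum_univ_two]
      simp
    have hv : ∀ (E : 𝒱.Obj) (b : Bas T E), cmb b ![0, 1] = bc b 1 := by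
      intro E b
      rw [cmb, Fin.sum_univ_two]
      simp
    refine ⟨⟨![1, 0], ![0, 1], fun X => dc G0 X, fun X => dc Gp X, fun X => dc Gm X, ?_,
      natC_dc g1, natC_dc p1, natC_dc m1, ?_, ?_, ?_, ?_, ?_, ?_, ?_, ?_, ?_, ?_, ?_, ?_, ?_, ?_⟩⟩
    · simp
    · intro N' hN' hne' E b hE hb x
      exact dc_zero (g3 N' hN' hne' E b hE hb) x
    · intro N' hN' hne' E b hE hb x
      exact dc_zero (p3 N' hN' hne' E b hE hb) x
    · intro N' hN' hne' E b hE hb x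
      exact dc_zero (m3 N' hN' hne' E b hE hb) x
    · intro E b hE hb
      rw [dc_cmb (g2 E b hE hb), toC_mk]
      congr 1
      funext i
      fin_cases i <;> simp [Matrix.mulVec, dotProduct, Fin.sum_univ_two]
    · intro E b hE hb
      rw [dc_cmb (g2 E b hE hb), toC_mk, ← cmb_neg]
      congr 1
      funext i
      fin_cases i <;> simp [Matrix.mulVec, dotProduct, Fin.sum_univ_two]
    · intro _ E b hE hb
      rw [dc_cmb (p2 E b hE hb), toC_mk, ← cmb_zero b]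
      congr 1
      funext i
      fin_cases i <;> simp [Matrix.mulVec, dotProduct, Fin.sum_univ_two]
    · intro _ E b hE hb
      rw [dc_cmb (p2 E b hE hb), toC_mk]
      congr 1
      funext i
      fin_cases i <;> simp [Matrix.mulVec, dotProduct, Fin.sum_univ_two]
    · intro _ E b hE hb
      rw [dc_cmb (m2 E b hE hb), toC_mk]
      congr 1
      funext i
      fin_cases i <;> simp [Matrix.mulVec, dotProduct, Fin.sum_univ_two]
    · intro _ E b hE hb
      rw [dc_cmb (m2 E b hE hb), toC_mk, ← cmb_zero b]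
      congr 1
      funext i
      fin_cases i <;> simp [Matrix.mulVec, dotProduct, Fin.sum_univ_two]
    · intro X x hx
      exact dc_hodge g1 hx
    · intro X x hx
      exact dc_hodge p1 hx
    · intro _ E E' b b' hE hE' hb hb'
      rw [hu, hv, hu, hv]
      exact pair_alg h11 hE hE' hb hb' (hH N hN).tr
    · intro h
      exact absurd hcm h
    · intro h
      exact absurd hcm h
  · obtain ⟨w, J, μ, hw1, hw2, hw3, hw4⟩ := exists_w (hH N hN) hcm
    have hw0 : w ≠ 0 := by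
      rintro rfl
      rw [zero_mul, zero_mul] at hw3
      exact zero_ne_one hw3
    have hJ : J ∈ gen (cofM (K := T.W.K) N) := by
      obtain ⟨l, hl⟩ : ∃ l : Lam T, l w ≠ 0 := by
        by_contra hcon
        push Not at hcon
        exact hw0 (sep (K := T.W.K) hcon)
      have h1 : J = (l w)⁻¹ • cofM N l := by
        rw [cofM_smul hw1 l, smul_smul, inv_mul_cancel₀ hl, one_smul]
      rw [h1]
      exact Submodule.smul_mem _ _ (gen_mem _ l)
    obtain ⟨G, g1, g2, g3⟩ := exists_op (𝒱 := 𝒱) (T := T) hH hne hN hJ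
    obtain ⟨u, v, hu, hv, huv⟩ := exists_eig (hH N hN)
    have hD : ∀ (E : 𝒱.Obj) (b : Bas T E), CurveRange T E → IsMat b N → ∀ d : Fin 2 → ℂ,
        w • dc G E (cmb b d) = cmb b (N.mulVec d) := by
      intro E b hE hb d
      rw [dc_cmb (g2 E b hE hb), ← cmb_smul, ← Matrix.smul_mulVec, ← hw1]
    have hhg : ∀ (E : 𝒱.Obj) (b : Bas T E), CurveRange T E → IsMat b N → ∀ l : Lam T,
        hg T E l = l w • G E := by
      intro E b hE hb l
      rw [hg_eq hE hb, g2 E b hE hb, cofM_smul hw1, map_smul]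
    have he : ∀ (E : 𝒱.Obj) (b : Bas T E), CurveRange T E → IsMat b N →
        w • dc G E (cmb b u) = cmb b u := by
      intro E b hE hb
      rw [hD E b hE hb, hu]
    have hf : ∀ (E : 𝒱.Obj) (b : Bas T E), CurveRange T E → IsMat b N →
        w • dc G E (cmb b v) = - cmb b v := by
      intro E b hE hb
      rw [hD E b hE hb, hv, cmb_neg]
    refine ⟨⟨u, v, fun X => w • dc G X, fun X => 0, fun X => 0, huv,
      (natC_dc g1).smul w, natC_zero, natC_zero, ?_, ?_, ?_, he, hf, ?_, ?_, ?_, ?_, ?_, ?_, ?_,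
      ?_, ?_⟩⟩
    · intro N' hN' hne' E b hE hb x
      rw [LinearMap.smul_apply, dc_zero (g3 N' hN' hne' E b hE hb), smul_zero]
    · intro N' hN' hne' E b hE hb x
      rfl
    · intro N' hN' hne' E b hE hb x
      rfl
    · intro h
      exact absurd h hcm
    · intro h
      exact absurd h hcm
    · intro h
      exact absurd h hcm
    · intro h
      exact absurd h hcm
    · intro X x hx
      rw [LinearMap.smul_apply, dc_hodge g1 hx, smul_zero]
    · intro X x hx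
      rfl
    · intro h
      exact absurd h hcm
    · intro _ E E' b b' hE hE' hb hb'
      refine pairJ_alg h11 g1 hw0 (cmb_mem b u) (cmb_mem b' v) ?_ (hhg E b hE hb)
        (hhg E' b' hE' hb')
      rw [dc_mul g1, dc_map g1, dc_map g1, smul_add, ← smul_mul_assoc, ← mul_smul_comm,
        ← map_smul (mp T (fst E E')), ← map_smul (mp T (snd E E')), he E b hE hb,
        hf E' b' hE' hb', map_neg, mul_neg, add_neg_cancel]
    · intro _ E E' b b' hE hE' hb hb'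
      refine pairJ_alg h11 g1 hw0 (cmb_mem b v) (cmb_mem b' u) ?_ (hhg E b hE hb)
        (hhg E' b' hE' hb')
      rw [dc_mul g1, dc_map g1, dc_map g1, smul_add, ← smul_mul_assoc, ← mul_smul_comm,
        ← map_smul (mp T (fst E E')), ← map_smul (mp T (snd E E')), hf E b hE hb,
        he E' b' hE' hb', map_neg, neg_mul, neg_add_cancel]

/-! ### The letters -/

/-- **The letters exist.** -/
theorem exists_letters (T : HodgeTheory ops) (c : ℂ ≃ₐ[T.W.K] ℂ)
    (h11 : ∀ (X : 𝒱.Obj), ∀ v ∈ T.W.gr X 2, v ∈ (hodgeSys T).C X → v ∈ (algSys T.W).C X)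
    {s : List 𝒱.Obj} (hs : ∀ E ∈ s, IsEll T c E)
    (hev : ∀ E ∈ s, ∀ i, i ≠ 1 → T.W.gr E i ≤ (algSys T.W).C E) :
    ∃ (Γ : Type) (_ : DecidableEq Γ) (𝓛 : Letters T Γ), (∀ E ∈ s, ∃ γ, 𝓛.El γ E) ∧
      (∀ γ X, ∀ x ∈ (hodgeSys T).C X, 𝓛.D0 γ X (1 ⊗ₜ[T.W.K] x) = 0) ∧
      ∀ γ X, ∀ x ∈ (hodgeSys T).C X, 𝓛.Dp γ X (1 ⊗ₜ[T.W.K] x) = 0 := by
  classical
  obtain ⟨mtx, hm1, hm2⟩ := exists_mtx T c
  set L : Finset (M2 ℂ) := (s.map mtx).toFinset with hL
  have k3 : ∀ N ∈ L, ∃ E ∈ s, mtx E = N := by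
    intro N hN
    rw [hL, List.mem_toFinset, List.mem_map] at hN
    exact hN
  have k4 : ∀ E ∈ s, mtx E ∈ L := by
    intro E hE
    rw [hL, List.mem_toFinset, List.mem_map]
    exact ⟨E, hE, rfl⟩
  have hH : ∀ N ∈ L, IsHodgeMat T.W.K N := by
    intro N hN
    obtain ⟨E, hE, rfl⟩ := k3 N hN
    obtain ⟨b, hb⟩ := hm1 E (hs E hE)
    exact (hs E hE).isHodgeMat hb
  have hne : ∀ N ∈ L, ∀ N' ∈ L, N ≠ N' → ∀ g : M2 T.W.K, toC g * N = N' * toC g → g = 0 := by
    intro N hN N' hN' hNN' g hg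
    obtain ⟨E, hE, rfl⟩ := k3 N hN
    obtain ⟨E', hE', rfl⟩ := k3 N' hN'
    obtain ⟨b, hb⟩ := hm1 E (hs E hE)
    obtain ⟨b', hb'⟩ := hm1 E' (hs E' hE')
    by_contra h0
    exact hNN' ((hm2 E E' (hs E hE) (hs E' hE')).2 (isog_of_mat (hs E hE).range hb hb' hg h0))
  have dat : ∀ γ : {N // N ∈ L}, LetDat T L γ.1 := fun γ =>
    Classical.choice (letDat h11 hH hne γ.2)
  have hef : ∀ E : 𝒱.Obj, ∃ e f : CH T E, ∀ γ : {N // N ∈ L}, E ∈ s → mtx E = γ.1 →
      ∃ b : Bas T E, IsMat b γ.1 ∧ e = cmb b (dat γ).u ∧ f = cmb b (dat γ).v := by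
    intro E
    by_cases hE : E ∈ s
    · obtain ⟨b, hb⟩ := hm1 E (hs E hE)
      refine ⟨cmb b (dat ⟨mtx E, k4 E hE⟩).u, cmb b (dat ⟨mtx E, k4 E hE⟩).v, fun γ _ hγ => ?_⟩
      have h1 : γ = ⟨mtx E, k4 E hE⟩ := Subtype.ext hγ.symm
      subst h1
      exact ⟨b, hb, rfl, rfl⟩
    · exact ⟨0, 0, fun γ h => absurd h hE⟩
  choose e f hef using hef
  have hsame : ∀ {γ γ' : {N // N ∈ L}} {E : 𝒱.Obj}, mtx E = γ.1 → γ' ≠ γ → mtx E ∈ L ∧
      mtx E ≠ γ'.1 := by
    intro γ γ' E h h'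
    refine ⟨h ▸ γ.2, fun h'' => h' (Subtype.ext (h''.symm.trans h))⟩
  refine ⟨{N // N ∈ L}, inferInstance, ⟨fun γ E => E ∈ s ∧ mtx E = γ.1,
    fun γ => ¬ NoCM T.W.K γ.1, fun E => Kap T E, fun E => tt T E, e, f, fun γ => (dat γ).D0,
    fun γ => (dat γ).Dp, fun γ => (dat γ).Dm, fun γ => (dat γ).n0, fun γ _ => (dat γ).np,
    fun γ _ => (dat γ).nm, ?_, ?_, ?_, ?_, ?_, ?_, ?_, ?_, ?_, ?_, ?_, ?_, ?_, ?_, ?_⟩, ?_, ?_, ?_⟩
  · rintro γ E ⟨hE, hγ⟩ i
    exact tt_mem (hev E hE) i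
  · rintro γ γ' E ⟨hE, hγ⟩
    obtain ⟨b, hb, h1, h2⟩ := hef E γ hE hγ
    rw [h1]
    split_ifs with h
    · subst h
      exact (dat γ').e0 E b (hs E hE).range hb
    · exact (dat γ').z0 γ.1 γ.2 (fun h' => h (Subtype.ext h'.symm)) E b (hs E hE).range hb _
  · rintro γ γ' E ⟨hE, hγ⟩
    obtain ⟨b, hb, h1, h2⟩ := hef E γ hE hγ
    rw [h2]
    split_ifs with h
    · subst h
      exact (dat γ').f0 E b (hs E hE).range hb
    · exact (dat γ').z0 γ.1 γ.2 (fun h' => h (Subtype.ext h'.symm)) E b (hs E hE).range hb _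
  · rintro γ γ' E ⟨hE, hγ⟩ hc
    obtain ⟨b, hb, h1, h2⟩ := hef E γ hE hγ
    rw [h1]
    by_cases h : γ' = γ
    · subst h
      exact (dat γ').ep (not_not.1 hc) E b (hs E hE).range hb
    · exact (dat γ').zp γ.1 γ.2 (fun h' => h (Subtype.ext h'.symm)) E b (hs E hE).range hb _
  · rintro γ γ' E ⟨hE, hγ⟩ hc
    obtain ⟨b, hb, h1, h2⟩ := hef E γ hE hγ
    rw [h1, h2]
    split_ifs with h
    · subst h
      exact (dat γ').fp (not_not.1 hc) E b (hs E hE).range hb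
    · exact (dat γ').zp γ.1 γ.2 (fun h' => h (Subtype.ext h'.symm)) E b (hs E hE).range hb _
  · rintro γ γ' E ⟨hE, hγ⟩ hc
    obtain ⟨b, hb, h1, h2⟩ := hef E γ hE hγ
    rw [h1, h2]
    split_ifs with h
    · subst h
      exact (dat γ').em (not_not.1 hc) E b (hs E hE).range hb
    · exact (dat γ').zm γ.1 γ.2 (fun h' => h (Subtype.ext h'.symm)) E b (hs E hE).range hb _
  · rintro γ γ' E ⟨hE, hγ⟩ hc
    obtain ⟨b, hb, h1, h2⟩ := hef E γ hE hγ
    rw [h2]
    by_cases h : γ' = γ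
    · subst h
      exact (dat γ').fm (not_not.1 hc) E b (hs E hE).range hb
    · exact (dat γ').zm γ.1 γ.2 (fun h' => h (Subtype.ext h'.symm)) E b (hs E hE).range hb _
  · rintro γ E E' ⟨hE, hγ⟩ ⟨hE', hγ'⟩ hc
    obtain ⟨b, hb, h1, h2⟩ := hef E γ hE hγ
    obtain ⟨b', hb', h1', h2'⟩ := hef E' γ hE' hγ'
    rw [h1, h2, h1', h2']
    exact (dat γ).pair (not_not.1 hc) E E' b b' (hs E hE).range (hs E' hE').range hb hb'
  · rintro γ E E' ⟨hE, hγ⟩ ⟨hE', hγ'⟩ hc
    obtain ⟨b, hb, h1, h2⟩ := hef E γ hE hγ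
    obtain ⟨b', hb', h1', h2'⟩ := hef E' γ hE' hγ'
    rw [h1, h2']
    exact (dat γ).pair1 hc E E' b b' (hs E hE).range (hs E' hE').range hb hb'
  · rintro γ E E' ⟨hE, hγ⟩ ⟨hE', hγ'⟩ hc
    obtain ⟨b, hb, h1, h2⟩ := hef E γ hE hγ
    obtain ⟨b', hb', h1', h2'⟩ := hef E' γ hE' hγ'
    rw [h2, h1']
    exact (dat γ).pair2 hc E E' b b' (hs E hE).range (hs E' hE').range hb hb'
  · rintro γ γ' E E' ⟨hE, hγ⟩ ⟨hE', hγ'⟩ X g g' x hx y hy
    obtain ⟨b, hb, h1, h2⟩ := hef E γ hE hγ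
    obtain ⟨b', hb', h1', h2'⟩ := hef E' γ' hE' hγ'
    have h3 : x ∈ (T.W.gr E 1).baseChange ℂ := by
      rcases hx with rfl | rfl
      · rw [h1]; exact cmb_mem _ _
      · rw [h2]; exact cmb_mem _ _
    have h4 : y ∈ (T.W.gr E' 1).baseChange ℂ := by
      rcases hy with rfl | rfl
      · rw [h1']; exact cmb_mem _ _
      · rw [h2']; exact cmb_mem _ _
    exact anti_one (mp_gr g h3) (mp_gr g' h4)
  · rintro γ E ⟨hE, hγ⟩ x
    obtain ⟨b, hb, h1, h2⟩ := hef E γ hE hγ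
    obtain ⟨S, s1, s2, s3⟩ := exists_basis b (dat γ).det
    refine ⟨fun i => S.repr x (Sum.inl i), S.repr x (Sum.inr 0), S.repr x (Sum.inr 1), ?_⟩
    have h3 := S.sum_repr x
    rw [Fintype.sum_sum_type, Fin.sum_univ_two, s2, s3] at h3
    simp only [s1] at h3
    rw [h1, h2, add_assoc]
    exact h3.symm
  · rintro γ E ⟨hE, hγ⟩ P x
    obtain ⟨b, hb, h1, h2⟩ := hef E γ hE hγ
    obtain ⟨S, s1, s2, s3⟩ := exists_basis b (dat γ).det
    obtain ⟨y, hy⟩ := psi_surj (P := P) S x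
    refine ⟨fun i => y (Sum.inl i), y (Sum.inr 0), y (Sum.inr 1), ?_⟩
    rw [psi_apply, Fintype.sum_sum_type, Fin.sum_univ_two, s2, s3] at hy
    simp only [s1] at hy
    rw [h1, h2, add_assoc]
    exact hy.symm
  · rintro γ E ⟨hE, hγ⟩ y a d h0
    obtain ⟨b, hb, h1, h2⟩ := hef E γ hE hγ
    obtain ⟨S, s1, s2, s3⟩ := exists_basis b (dat γ).det
    have h3 : ∑ j, (Sum.elim y ![a, d]) j • S j = 0 := by
      rw [Fintype.sum_sum_type, Fin.sum_univ_two, s2, s3]
      simp only [s1, Sum.elim_inl, Sum.elim_inr]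
      rw [← h1, ← h2, ← add_assoc]
      exact h0
    have h4 := Fintype.linearIndependent_iff.1 S.linearIndependent _ h3
    exact ⟨fun i => h4 (Sum.inl i), h4 (Sum.inr 0), h4 (Sum.inr 1)⟩
  · rintro γ E ⟨hE, hγ⟩ P y a d h0
    obtain ⟨b, hb, h1, h2⟩ := hef E γ hE hγ
    obtain ⟨S, s1, s2, s3⟩ := exists_basis b (dat γ).det
    have h3 : Psi P (S : _ → CH T E) (Sum.elim y ![a, d]) = 0 := by
      rw [psi_apply, Fintype.sum_sum_type, Fin.sum_univ_two, s2, s3]
      simp only [s1, Sum.elim_inl, Sum.elim_inr]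
      rw [← h1, ← h2, ← add_assoc]
      exact h0
    have h4 : Sum.elim y ![a, d] = 0 := psi_inj (P := P) S (h3.trans (map_zero _).symm)
    exact ⟨fun i => congrFun h4 (Sum.inl i), congrFun h4 (Sum.inr 0), congrFun h4 (Sum.inr 1)⟩
  · intro E hE
    exact ⟨⟨mtx E, k4 E hE⟩, hE, rfl⟩
  · intro γ X x hx
    exact (dat γ).h0 X x hx
  · intro γ X x hx
    exact (dat γ).hp X x hx

/-- **The Hodge conjecture for products of elliptic curves** follows from the Lefschetz theorem on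
classes of type `(1, 1)`. -/
theorem full_ell (T : HodgeTheory ops) (c : ℂ ≃ₐ[T.W.K] ℂ)
    (h11 : ∀ (X : 𝒱.Obj), ∀ v ∈ T.W.gr X 2, v ∈ (hodgeSys T).C X → v ∈ (algSys T.W).C X)
    {E₀ : 𝒱.Obj} {l : List 𝒱.Obj} (hs : ∀ E ∈ E₀ :: l, IsEll T c E)
    (hev : ∀ E ∈ E₀ :: l, ∀ i, i ≠ 1 → T.W.gr E i ≤ (algSys T.W).C E) : Full T (times E₀ l) := by
  obtain ⟨Γ, _, 𝓛, h1, h2, h3⟩ := exists_letters T c h11 hs hev
  refine full_of fun x hx => mem_of_one ?_
  have h4 := mem_mw (𝓛 := 𝓛) l h1 0 (1 ⊗ₜ[T.W.K] x) (fun γ => by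
    rw [h2 γ _ x hx, Pi.zero_apply, Int.cast_zero, zero_smul]) fun γ _ => h3 γ _ x hx
  exact h4.alg_of_zero rfl

end Pool.Agent.Q219.HD
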