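import Pool.Agent.Q219.HD.HDefs
import Pool.Agent.Q219.HD.Let2
import Pool.Agent.Q219.HD.FamA

/-!
# Products with elliptic curves: the theorem in terms of Hodge theories
-/

open CategoryTheory AlgebraicGeometry TensorProduct

universe u

namespace Pool.Agent.Q219.HD

open Module
open Pool.Agent.H914 Pool.Agent.H914.VarClass Pool.Agent.H914.VarClass.Obj
  Pool.Agent.H914.WeilCohomology
open Pool.Agent.Y133.Half
open Pool.Agent.Y121
open Pool.Agent.Q50.BL

variable {k : Type u} [Field k] {𝒱 : VarClass k} {ops : CycleOps 𝒱}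

section AH

variable {T : AH.HodgeTheory ops} {X Y Z E : 𝒱.Obj} {c : ℂ ≃ₐ[T.W.K] ℂ}

theorem hg_gr (l : Lam T) {i : ℕ} {v : T.W.H X} (hv : v ∈ T.W.gr X i) :
    hg T X l v ∈ T.W.gr X i := by
  rw [hg_apply]
  exact ev_mem (hop_gr (Submodule.tmul_mem_baseChange_of_mem _ hv)) l

theorem gr_zero_le : T.W.gr X 0 ≤ (algSys T.W).C X := by
  rw [T.W.gr_zero X]
  refine Submodule.span_le.2 ?_
  rintro _ rfl
  exact (algSys T.W).one X

/-- The even cohomology of a curve is algebraic. -/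
theorem even_curve (h11 : ∀ (X : 𝒱.Obj), ∀ v ∈ T.W.gr X 2, v ∈ (AH.hodgeSys T).C X →
    v ∈ (algSys T.W).C X) (hE : IsEll T c E) (hd : E.dim = 1) (i : ℕ) (hi : i ≠ 1) :
    T.W.gr E i ≤ (algSys T.W).C E := by
  rcases (by omega : i = 0 ∨ i = 2 ∨ 2 < i) with rfl | rfl | h
  · exact gr_zero_le
  · intro v hv
    obtain ⟨b, N, hN⟩ := hE.exists_mat
    refine h11 E v hv (mem_hodge_iff.2 fun l => ?_)
    rw [hg_eq hE.range hN, phi_ne _ (by decide) hv]
  · rw [T.W.gr_eq_bot E i (by omega)]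
    exact bot_le

/-- The Hodge conjecture in dimension at most three. -/
theorem full_le_three (h11 : ∀ (X : 𝒱.Obj), ∀ v ∈ T.W.gr X 2, v ∈ (AH.hodgeSys T).C X →
    v ∈ (algSys T.W).C X) (hZ : Z.dim ≤ 3) : Full T Z := by
  obtain ⟨D, hD, hL, -⟩ := T.dec.polar Z
  have hDalg : T.W.cl Z D ∈ (algSys T.W).C Z := Pool.Agent.W536.RR.cl_mem_algSpan hD
  have hpow : ∀ n, ∀ a ∈ (algSys T.W).C Z,
      (LinearMap.mulLeft T.W.K (T.W.cl Z D) ^ n) a ∈ (algSys T.W).C Z := by
    intro n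
    induction n with
    | zero => intro a ha; exact ha
    | succ n ih =>
      intro a ha
      rw [pow_succ', Module.End.mul_apply, LinearMap.mulLeft_apply]
      exact (algSys T.W).mul hDalg (ih a ha)
  refine full_of fun c hc => ?_
  refine ClassPred.sp_ind (Q := AH.hodgePred T) (q := fun c => c ∈ (algSys T.W).C Z) ?_
    (Submodule.zero_mem _) (fun a b => Submodule.add_mem _) hc
  intro j c hc
  have hc' : c ∈ (AH.hodgeSys T).C Z := ClassPred.sp_of (Q := AH.hodgePred T) (j := j) hc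
  have hgr : c ∈ T.W.gr Z (2 * j) := hc.1
  rcases (by omega : j = 0 ∨ j = 1 ∨ Z.dim < j ∨ (2 ≤ j ∧ j = Z.dim) ∨ (j = 2 ∧ Z.dim = 3)) with
    rfl | rfl | h | ⟨h, h'⟩ | ⟨rfl, h⟩
  · exact gr_zero_le hgr
  · exact h11 Z c hgr hc'
  · rw [T.W.gr_eq_bot Z _ (by omega)] at hgr
    rw [(Submodule.mem_bot _).1 hgr]
    exact Submodule.zero_mem _
  · obtain ⟨a, ha, rfl⟩ := (hL 0 (Nat.zero_le _)).2 c (by
      rw [h', ← Nat.sub_zero (2 * Z.dim)] at hgr
      exact hgr)
    exact hpow _ _ (gr_zero_le ha)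
  · obtain ⟨a, ha, rfl⟩ := (hL 2 (by omega)).2 c (by
      rw [h]
      exact hgr)
    have hD' : T.W.cl Z D ∈ (AH.hodgeSys T).C Z := alg_le_hodge hDalg
    refine hpow _ _ (h11 Z a ha (mem_hodge_iff.2 fun l => ?_))
    refine (hL 2 (by omega)).1 _ (hg_gr l ha) ?_
    have h1 := mem_hodge_iff.1 hc' l
    have h2 : Z.dim - 2 = 1 := by omega
    rw [h2, pow_one, LinearMap.mulLeft_apply] at h1 ⊢
    rwa [hg_mul, mem_hodge_iff.1 hD' l, zero_mul, zero_add] at h1

theorem gen_le_of {L : Submodule T.W.K (EH T X)} (hL : IsLie L) {m : ℕ} {z : Fin m → ℂ}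
    {g : Fin m → EH T X} (hg : ∀ i, g i ∈ L)
    (hz : ∀ (p q : ℤ) (x : CH T X), x ∈ pqC T X p q →
      ∑ i, z i • (g i).baseChange ℂ x = ((p - q : ℤ) : ℂ) • x) : gen (HD.hg T X) ≤ L := by
  refine gen_le hL fun l => ?_
  have h1 : ∀ x : CH T X, ∑ i, z i • (g i).baseChange ℂ x = hop T X x := by
    intro x
    refine ch_ind (p := fun x => ∑ i, z i • (g i).baseChange ℂ x = hop T X x) ?_ ?_ ?_ x
    · intro _ p q _ x hx
      rw [hop_pq hx]
      exact hz p q x hx
    · intro x y hx hy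
      simp only [map_add, smul_add, Finset.sum_add_distrib]
      rw [hx, hy]
    · simp only [map_zero, smul_zero, Finset.sum_const_zero]
  have h2 : HD.hg T X l = ∑ i, l (z i) • g i := by
    apply LinearMap.ext
    intro v
    rw [hg_apply, ← h1, map_sum, LinearMap.sum_apply]
    refine Finset.sum_congr rfl fun i _ => ?_
    rw [LinearMap.baseChange_tmul, TensorProduct.smul_tmul', smul_eq_mul, mul_one, ev_tmul]
    rfl
  rw [h2]
  exact Submodule.sum_mem _ fun i _ => Submodule.smul_mem _ _ (hg i)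

theorem spanCycles_le (j : ℤ) : spanCycles T.W X j ≤ (algSys T.W).C X := by
  refine Submodule.span_le.2 ?_
  rintro _ ⟨p, -, z, hz, rfl⟩
  exact Pool.Agent.W536.RR.cl_mem_algSpan hz

theorem h11_of' (h : ∀ (X : 𝒱.Obj) (c : T.W.H X), AH.IsHodge T X 1 c → c ∈ spanCycles T.W X 1)
    (X : 𝒱.Obj) (v : T.W.H X) (hv : v ∈ T.W.gr X 2) (hv' : v ∈ (AH.hodgeSys T).C X) :
    v ∈ (algSys T.W).C X := by
  refine spanCycles_le 1 (h X v ⟨hv, ?_⟩)
  have h1 : (1 ⊗ₜ[T.W.K] v : CH T X) ∈ (T.W.gr X 2).baseChange ℂ :=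
    Submodule.tmul_mem_baseChange_of_mem _ hv
  have h2 : hop T X (1 ⊗ₜ[T.W.K] v) = ((0 : ℤ) : ℂ) • (1 ⊗ₜ[T.W.K] v : CH T X) := by
    rw [hop_hodge hv', Int.cast_zero, zero_smul]
  rcases eig_mem h1 h2 with ⟨a, b, hab, hab', h3⟩ | h3
  · have h4 : a = 1 := by push_cast at hab; omega
    have h5 : b = 1 := by push_cast at hab; omega
    rw [h4, h5] at h3
    exact h3
  · have h4 : (1 ⊗ₜ[T.W.K] v : CH T X) ∈ pqC T X 1 1 := by
      rw [h3]
      exact Submodule.zero_mem _
    exact h4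

theorem prods_le {P Q : 𝒱.Obj} {S : Submodule T.W.K (T.W.H (P.prod Q))}
    (h : ∀ i j a b, AH.IsHodge T P i a → AH.IsHodge T Q j b →
      T.W.map (fst P Q) a * T.W.map (snd P Q) b ∈ S) : prods T P Q ≤ S := by
  refine Submodule.span_le.2 ?_
  rintro _ ⟨a, ha, b, hb, rfl⟩
  refine ClassPred.sp_ind (Q := AH.hodgePred T)
    (q := fun a => T.W.map (fst P Q) a * T.W.map (snd P Q) b ∈ S) ?_ ?_ ?_ ha
  · intro i a ha
    refine ClassPred.sp_ind (Q := AH.hodgePred T)
      (q := fun b => T.W.map (fst P Q) a * T.W.map (snd P Q) b ∈ S) ?_ ?_ ?_ hb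
    · intro j b hb
      exact h i j a b ha hb
    · rw [map_zero, mul_zero]; exact Submodule.zero_mem _
    · intro x y hx hy; rw [map_add, mul_add]; exact Submodule.add_mem _ hx hy
  · rw [map_zero, zero_mul]; exact Submodule.zero_mem _
  · intro x y hx hy; rw [map_add, add_mul]; exact Submodule.add_mem _ hx hy

theorem nontrivial_ell (hE : IsEll T c E) : Nontrivial (T.W.H E) := by
  obtain ⟨b, -, -⟩ := hE.exists_mat
  refine ⟨(b 0 : T.W.H E), 0, fun h => b.ne_zero 0 (Subtype.ext h)⟩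

theorem nontrivial_times {E₀ : 𝒱.Obj} (l : List 𝒱.Obj)
    (hl : ∀ E ∈ E₀ :: l, Nontrivial (T.W.H E)) : Nontrivial (T.W.H (times E₀ l)) := by
  induction l using List.reverseRecOn with
  | nil => exact hl E₀ List.mem_cons_self
  | append_singleton l E ih =>
    have h1 := ih fun F hF => hl F (by
      rcases List.mem_cons.1 hF with rfl | hF
      · exact List.mem_cons_self
      · exact List.mem_cons_of_mem _ (List.mem_append_left _ hF))
    have h2 : Nontrivial (T.W.H E) := hl E (List.mem_cons_of_mem _ (List.mem_append_right _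
      (List.mem_singleton_self E)))
    rw [times_concat]
    exact nontrivial_prod

end AH

open Pool.Agent.Q60.HDS (PolHodgeTheory HodgeConjectureFor power)

variable {T : PolHodgeTheory ops} {X Y Z E E' P Q : 𝒱.Obj}

/-- The associated Hodge theory in the old sense. -/
noncomputable abbrev tH (T : PolHodgeTheory ops) : AH.HodgeTheory ops := AHS.toH T.toHodgeTheory

/-- The complex conjugation. -/
noncomputable abbrev cj (T : PolHodgeTheory ops) : ℂ ≃ₐ[(tH T).W.K] ℂ := cnjK (tH T).W.K T.rat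

theorem isEll_of (h : St.IsEllipticCurve T.toHodgeTheory E) : IsEll (tH T) (cj T) E where
  rk := h.2
  range p q x hx h0 := by
    have h1 := T.range E p q x hx h0
    have h2 : (E.dim : ℤ) = 1 := by exact_mod_cast h.1
    rw [h2] at h1
    exact h1
  conj x := by
    obtain ⟨Q, hQ⟩ := exists_pol (polH T) E
    exact hQ.conj x

theorem inSpan_iff {j : ℕ} {c : T.W.H X} :
    St.InSpan T.W.K (St.CycleClasses T.toHodgeTheory X j) c ↔ c ∈ spanCycles T.W X j := by
  have h1 : St.CycleClasses T.toHodgeTheory X j =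
      {c | ∃ p : ℕ, (p : ℤ) = j ∧ ∃ z, X.IsCyc p z ∧ T.W.cl X z = c} := by
    apply Set.ext
    intro c
    constructor
    · rintro ⟨z, hz⟩
      exact ⟨j, rfl, z, hz⟩
    · rintro ⟨p, hp, z, hz⟩
      obtain rfl : p = j := by exact_mod_cast hp
      exact ⟨z, hz⟩
  change c ∈ Submodule.span T.W.K (St.CycleClasses T.toHodgeTheory X j) ↔ _
  rw [h1]
  exact Iff.rfl

theorem hC_iff' : St.HC T X ↔ HodgeConjectureFor T.toHodgeTheory X :=
  forall_congr' fun _ => forall_congr' fun _ => imp_congr_right fun _ => inSpan_iff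

theorem h11_of (h : St.LefschetzOneOne T.toHodgeTheory) (X : 𝒱.Obj) (v : (tH T).W.H X)
    (hv : v ∈ (tH T).W.gr X 2) (hv' : v ∈ (AH.hodgeSys (tH T)).C X) :
    v ∈ (algSys (tH T).W).C X :=
  h11_of' (T := tH T) (fun X c hc => inSpan_iff.1 (h X c hc)) X v hv hv'

/-- The elements of the Lie algebra belong to every Lie algebra which contains the Hodge
operator. -/
theorem gen_le_lieOf : gen (hg (tH T) X) ≤ St.lieOf (St.types T.toHodgeTheory X) := by
  refine le_sInf ?_
  rintro L ⟨hL, m, z, g, hg, hz⟩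
  exact gen_le_of (T := tH T) hL hg hz

theorem finrank_le {K V : Type*} [Field K] [AddCommGroup V] [Module K V] [FiniteDimensional K V]
    {s t : Submodule K V} (h : s ≤ t) : finrank K s ≤ finrank K t := Submodule.finrank_mono h

theorem finrank_le_hodgeLie : finrank (tH T).W.K (gen (hg (tH T) Z)) ≤
    St.hodgeLieDim T.toHodgeTheory Z :=
  finrank_le (K := (tH T).W.K) (V := EH (tH T) Z) (s := gen (hg (tH T) Z))
    (t := St.lieOf (St.types T.toHodgeTheory Z)) gen_le_lieOf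

theorem decoupled_of (h : (AH.hodgeSys (tH T)).C (P.prod Q) ≤ prods (tH T) P Q) :
    St.Decoupled T.toHodgeTheory P Q := by
  intro j c hc
  have h1 : c ∈ (AH.hodgeSys (tH T)).C (P.prod Q) :=
    ClassPred.sp_of (Q := AH.hodgePred (tH T)) (j := j) hc
  refine prods_le (T := tH T) (S := Submodule.span (tH T).W.K
    (St.ExternalProducts T.toHodgeTheory P Q)) ?_ (h h1)
  intro i j a b ha hb
  exact Submodule.subset_span ⟨i, j, a, b, ha, hb, rfl⟩

end Pool.Agent.Q219.HD
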