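import Mathlib
import Pool.Agent.Q219.HD.Core

/-!
# Independence of the matrices of the isogeny classes
-/

set_option autoImplicit false
set_option linter.unusedSectionVars false

open Module Matrix

namespace Pool.Agent.Q219.HD

variable {K : Type} [Field K] [CharZero K] [Algebra K ℂ]

/-- The component with index `N` can be moved alone. -/
theorem indep {L : Finset (M2 ℂ)} (hH : ∀ N ∈ L, IsHodgeMat K N)
    (hne : ∀ N ∈ L, ∀ N' ∈ L, N ≠ N' → ∀ g : M2 K, toC g * N = N' * toC g → g = 0)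
    {N : M2 ℂ} (hN : N ∈ L) {x : M2 K} (hx : x ∈ gen (cofM (K := K) N)) :
    ∃ r ∈ fam (fun N : M2 ℂ => cofM (K := K) N), r N = x ∧ ∀ N' ∈ L, N' ≠ N → r N' = 0 := by
  classical
  have hw : ∀ N : {N // N ∈ L ∧ ¬ NoCM K N}, ∃ w : ℂ, ∃ (J : M2 K) (μ : K), N.1 = w • toC J ∧
      J * J = μ • (1 : M2 K) ∧ w * w * algebraMap K ℂ μ = 1 ∧ ∀ c : K, J ≠ c • (1 : M2 K) :=
    fun N => exists_w (hH N.1 N.2.1) N.2.2
  choose w J μ hw1 hw2 hw3 hw4 using hw
  have hw0 : ∀ N, w N ≠ 0 := by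
    intro N h0
    have := hw3 N
    rw [h0, zero_mul, zero_mul] at this
    exact zero_ne_one this
  have hind : LinearIndependent K w := by
    refine sqrt_independent hw0 (fun N => ⟨(μ N)⁻¹, ?_⟩) ?_
    · rw [map_inv₀]
      exact eq_inv_of_mul_eq_one_left (hw3 N)
    · intro N N' hNN' r hr
      obtain ⟨g, hg0, hg⟩ := cm_ratio (hw1 N) (hw2 N) (hw3 N) (hw4 N) (hw1 N') (hw2 N') (hw3 N') hr
      exact hg0 (hne N.1 N.2.1 N'.1 N'.2.1 (fun e => hNN' (Subtype.ext e)) g hg)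
  have hχ : LinearIndependent K fun N => Module.Dual.eval K ℂ (w N) :=
    hind.map' (Module.Dual.eval K ℂ) (Module.eval_ker K ℂ)
  have hfin : Finite {N // N ∈ L ∧ ¬ NoCM K N} :=
    Set.Finite.subset L.finite_toSet fun _ h => h.1
  have hft : Fintype {N // N ∈ L ∧ ¬ NoCM K N} := Fintype.ofFinite _
  let wB : L → ℂ := fun b => if h : NoCM K b.1 then 0 else w ⟨b.1, b.2, h⟩
  let JB : L → M2 K := fun b => if h : NoCM K b.1 then 0 else J ⟨b.1, b.2, h⟩
  have hwB : ∀ (b : L) (h : ¬ NoCM K b.1), wB b = w ⟨b.1, b.2, h⟩ := fun b h => dif_neg h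
  have hJB : ∀ (b : L) (h : ¬ NoCM K b.1), JB b = J ⟨b.1, b.2, h⟩ := fun b h => dif_neg h
  have hd := decouple (B := L) (A := fun j => AA K K (j.map Subtype.val))
    (h := fun j : Option L => hh (0 : (ℂ →ₗ[K] K) →ₗ[K] K) (j.map Subtype.val))
    (fun b => ¬ NoCM K b.1) (fun b => Module.Dual.eval K ℂ (wB b)) JB
    (fun b hb => cof_perfect (hH b.1 b.2) (not_not.1 hb))
    (fun b b' hb hb' hbb' => free_iff.2 (free2_pair (hH b'.1 b'.2) (not_not.1 hb')
      (hH b.1 b.2) (not_not.1 hb) (hne b'.1 b'.2 b.1 b.2 fun e => hbb' (Subtype.ext e.symm))))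
    (fun b hb => free_of_comm (cof_perfect (hH b.1 b.2) (not_not.1 hb))
      fun x _ y _ => mul_comm (G := K) x y)
    (fun b hb l => by
      change cofM b.1 l = l (wB b) • JB b
      rw [hwB b hb, hJB b hb]
      exact cofM_smul (hw1 ⟨b.1, b.2, hb⟩) l)
    (fun b hb => by
      obtain ⟨l, h1, h2⟩ := exists_value hχ ⟨b.1, b.2, hb⟩
      refine ⟨l, rfl, ?_, fun b' hb' hne' => ?_⟩
      · change l (wB b) = 1
        rw [hwB b hb]
        exact h1
      · change l (wB b') = 0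
        rw [hwB b' hb']
        refine h2 ⟨b'.1, b'.2, hb'⟩ fun e => hne' (Subtype.ext ?_)
        exact congrArg (fun M : {N // N ∈ L ∧ ¬ NoCM K N} => M.1) e)
    ⟨N, hN⟩ x hx
  obtain ⟨r, hr, hr'⟩ := fam_extend (h := hh (0 : (ℂ →ₗ[K] K) →ₗ[K] K))
    (fun j : Option L => j.map Subtype.val) hd
  let R : (∀ j, AA K K j) →ₗ[K] (M2 ℂ → M2 K) :=
    { toFun := fun r N => r (some N)
      map_add' := fun _ _ => rfl
      map_smul' := fun _ _ => rfl }
  have hR : IsLieMap R := fun _ _ => rfl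
  refine ⟨R r, map_gen_mem hR (h := LinearMap.pi (hh (0 : (ℂ →ₗ[K] K) →ₗ[K] K)))
    (fun _ => rfl) hr, ?_, fun N' hN' hne' => ?_⟩
  · change r (some N) = x
    refine (hr' (some ⟨N, hN⟩)).trans ?_
    rw [Pi.single_eq_same]
  · change r (some N') = (0 : M2 K)
    refine (hr' (some ⟨N', hN'⟩)).trans ?_
    rw [Pi.single_eq_of_ne]
    · rfl
    · intro e
      exact hne' (congrArg Subtype.val (Option.some.inj e))

end Pool.Agent.Q219.HD
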