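import Pool.Agent.Q219.HD.FFT2
import Pool.Agent.Q219.HD.Ind

/-!
# The letters
-/

open CategoryTheory AlgebraicGeometry TensorProduct

universe u

namespace Pool.Agent.Q219.HD

open Module
open Pool.Agent.H914 Pool.Agent.H914.VarClass Pool.Agent.H914.VarClass.Obj
  Pool.Agent.H914.WeilCohomology
open Pool.Agent.Y133.Half
open Pool.Agent.Y121.AH
open Pool.Agent.Q50.BL

section Mat

variable {K : Type} [Field K] [CharZero K] [Algebra K ℂ]

/-- The eigenvectors of the Hodge operator. -/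
theorem exists_eig {N : M2 ℂ} (h : IsHodgeMat K N) : ∃ u v : Fin 2 → ℂ, N.mulVec u = u ∧
    N.mulVec v = -v ∧ u 0 * v 1 - u 1 * v 0 ≠ 0 := by
  have e : ∀ i j, (N * N) i j = N i 0 * N 0 j + N i 1 * N 1 j := by
    intro i j
    rw [Matrix.mul_apply, Fin.sum_univ_two]
  have e00 := e 0 0
  have e01 := e 0 1
  have e10 := e 1 0
  have e11 := e 1 1
  have ht := h.tr
  rw [Matrix.trace_fin_two] at ht
  rw [h.sq] at e00 e01 e10 e11
  simp only [Matrix.one_apply_eq, Matrix.one_apply_ne (show (0 : Fin 2) ≠ 1 by decide),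
    Matrix.one_apply_ne (show (1 : Fin 2) ≠ 0 by decide)] at e00 e01 e10 e11
  have h1 : (N - 1).det = 0 := by
    rw [Matrix.det_fin_two]
    simp only [Matrix.sub_apply, Matrix.one_apply_eq,
      Matrix.one_apply_ne (show (0 : Fin 2) ≠ 1 by decide),
      Matrix.one_apply_ne (show (1 : Fin 2) ≠ 0 by decide)]
    linear_combination e00 + (N 0 0 - 1) * ht
  have h2 : (N + 1).det = 0 := by
    rw [Matrix.det_fin_two]
    simp only [Matrix.add_apply, Matrix.one_apply_eq,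
      Matrix.one_apply_ne (show (0 : Fin 2) ≠ 1 by decide),
      Matrix.one_apply_ne (show (1 : Fin 2) ≠ 0 by decide)]
    linear_combination e00 + (N 0 0 + 1) * ht
  obtain ⟨u, hu0, hu⟩ := Matrix.exists_mulVec_eq_zero_iff.2 h1
  obtain ⟨v, hv0, hv⟩ := Matrix.exists_mulVec_eq_zero_iff.2 h2
  rw [Matrix.sub_mulVec, Matrix.one_mulVec, sub_eq_zero] at hu
  rw [Matrix.add_mulVec, Matrix.one_mulVec] at hv
  have hv' := eq_neg_of_add_eq_zero_left hv
  refine ⟨u, v, hu, hv', fun hdet => hv0 ?_⟩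
  obtain ⟨i, hi⟩ := Function.ne_iff.1 hu0
  have hi' : u i ≠ 0 := hi
  have h3 : v = (v i / u i) • u := prop_of_cross hi' (by linear_combination -hdet)
  have h4 : N.mulVec v = v := by
    rw [h3, Matrix.mulVec_smul, hu]
  rw [hv'] at h4
  have h5 : (2 : ℂ) • v = 0 := by
    rw [two_smul]
    nth_rewrite 1 [← h4]
    exact neg_add_cancel v
  exact (smul_eq_zero.1 h5).resolve_left two_ne_zero

end Mat

variable {k : Type u} [Field k] {𝒱 : VarClass k} {ops : CycleOps 𝒱} {T : HodgeTheory ops}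
  {X Y E E' P : 𝒱.Obj} {c : ℂ ≃ₐ[T.W.K] ℂ}

/-! ### Graded commutativity -/

theorem anti_one {u v : CH T X} (hu : u ∈ (T.W.gr X 1).baseChange ℂ)
    (hv : v ∈ (T.W.gr X 1).baseChange ℂ) : u * v = -(v * u) := by
  refine base_induction (P := fun u => u * v = -(v * u)) ?_ ?_ ?_ hu
  · rw [zero_mul, mul_zero, neg_zero]
  · intro a b ha hb
    rw [add_mul, ha, hb, mul_add, neg_add]
  · intro z a ha
    refine base_induction (P := fun v => (z ⊗ₜ[T.W.K] a) * v = -(v * (z ⊗ₜ[T.W.K] a))) ?_ ?_ ?_ hv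
    · rw [zero_mul, mul_zero, neg_zero]
    · intro a b ha hb
      rw [mul_add, ha, hb, add_mul, neg_add]
    · intro w b hb
      have h1 : a * b = -(b * a) := by
        have := T.W.comm ha hb
        rwa [one_mul, pow_one, neg_one_smul] at this
      rw [Algebra.TensorProduct.tmul_mul_tmul, Algebra.TensorProduct.tmul_mul_tmul, h1, tmul_neg,
        mul_comm]

theorem mp_gr (g : X ⟶ Y) {i : ℕ} {x : CH T Y} (hx : x ∈ (T.W.gr Y i).baseChange ℂ) :
    mp T g x ∈ (T.W.gr X i).baseChange ℂ := by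
  refine base_induction (P := fun x => mp T g x ∈ (T.W.gr X i).baseChange ℂ) ?_ ?_ ?_ hx
  · rw [map_zero]; exact Submodule.zero_mem _
  · intro x y hx hy; rw [map_add]; exact Submodule.add_mem _ hx hy
  · intro z a ha
    rw [mp_tmul]
    exact Submodule.tmul_mem_baseChange_of_mem _ (T.W.map_mem g ha)

theorem mul_gr {i j : ℕ} {x y : CH T X} (hx : x ∈ (T.W.gr X i).baseChange ℂ)
    (hy : y ∈ (T.W.gr X j).baseChange ℂ) : x * y ∈ (T.W.gr X (i + j)).baseChange ℂ := by
  refine base_induction (P := fun x => x * y ∈ (T.W.gr X (i + j)).baseChange ℂ) ?_ ?_ ?_ hx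
  · rw [zero_mul]; exact Submodule.zero_mem _
  · intro a b ha hb; rw [add_mul]; exact Submodule.add_mem _ ha hb
  · intro z a ha
    refine base_induction
      (P := fun y => (z ⊗ₜ[T.W.K] a) * y ∈ (T.W.gr X (i + j)).baseChange ℂ) ?_ ?_ ?_ hy
    · rw [mul_zero]; exact Submodule.zero_mem _
    · intro a b ha hb; rw [mul_add]; exact Submodule.add_mem _ ha hb
    · intro w b hb
      rw [Algebra.TensorProduct.tmul_mul_tmul]
      exact Submodule.tmul_mem_baseChange_of_mem _ (T.W.mul_mem ha hb)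

/-! ### Natural derivations -/

theorem natC_dc {G : ∀ X : 𝒱.Obj, EH T X} (h : IsNatural T G) : NatC T (fun X => dc G X) where
  der _ x y := dc_mul h x y
  map f y := dc_map h f y
  alg _ _ hx := dc_alg h hx

/-- The operator of one isogeny class. -/
theorem exists_op {L : Finset (M2 ℂ)} (hH : ∀ N ∈ L, IsHodgeMat T.W.K N)
    (hne : ∀ N ∈ L, ∀ N' ∈ L, N ≠ N' → ∀ g : M2 T.W.K, toC g * N = N' * toC g → g = 0)
    {N : M2 ℂ} (hN : N ∈ L) {x : M2 T.W.K} (hx : x ∈ gen (cofM (K := T.W.K) N)) :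
    ∃ G : ∀ X : 𝒱.Obj, EH T X, IsNatural T G ∧
      (∀ (E : 𝒱.Obj) (b : Bas T E), CurveRange T E → IsMat b N → G E = phi b b x) ∧
      ∀ N' ∈ L, N' ≠ N → ∀ (E : 𝒱.Obj) (b : Bas T E), CurveRange T E → IsMat b N' → G E = 0 := by
  obtain ⟨r, hr, hr1, hr2⟩ := indep hH hne hN hx
  obtain ⟨G, hG, hG'⟩ := exists_global (𝒱 := 𝒱) (T := T) hr
  refine ⟨G, hG, fun E b hE hb => ?_, fun N' hN' hne' E b hE hb => ?_⟩
  · rw [hG' E b N hE hb, hr1]
  · rw [hG' E b N' hE hb, hr2 N' hN' hne', map_zero]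

/-- Linear combinations of the basis. -/
noncomputable def cmb (b : Bas T E) (c : Fin 2 → ℂ) : CH T E := ∑ i, c i • bc b i

theorem cmb_mem (b : Bas T E) (c : Fin 2 → ℂ) : cmb b c ∈ (T.W.gr E 1).baseChange ℂ :=
  Submodule.sum_mem _ fun i _ => Submodule.smul_mem _ _ (bc_mem i)

theorem cmb_add (b : Bas T E) (c d : Fin 2 → ℂ) : cmb b (c + d) = cmb b c + cmb b d := by
  rw [cmb, cmb, cmb, ← Finset.sum_add_distrib]
  exact Finset.sum_congr rfl fun i _ => by rw [Pi.add_apply, add_smul]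

theorem cmb_smul (b : Bas T E) (z : ℂ) (c : Fin 2 → ℂ) : cmb b (z • c) = z • cmb b c := by
  rw [cmb, cmb, Finset.smul_sum]
  exact Finset.sum_congr rfl fun i _ => by rw [Pi.smul_apply, smul_eq_mul, mul_smul]

theorem cmb_zero (b : Bas T E) : cmb b (0 : Fin 2 → ℂ) = 0 := by
  rw [cmb]
  exact Finset.sum_eq_zero fun i _ => by rw [Pi.zero_apply, zero_smul]

theorem cmb_neg (b : Bas T E) (c : Fin 2 → ℂ) : cmb b (-c) = - cmb b c := by
  rw [← neg_one_smul ℂ c, cmb_smul, neg_one_smul]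

theorem dc_cmb {G : ∀ X : 𝒱.Obj, EH T X} {b : Bas T E} {x : M2 T.W.K} (h : G E = phi b b x)
    (c : Fin 2 → ℂ) : dc G E (cmb b c) = cmb b ((toC x).mulVec c) := by
  rw [dc, h, cmb, cmb, phi_comb]

theorem dc_zero {G : ∀ X : 𝒱.Obj, EH T X} (h : G E = 0) (x : CH T E) : dc G E x = 0 := by
  rw [dc, h, LinearMap.baseChange_zero, LinearMap.zero_apply]

theorem nat_prod {G : ∀ X : 𝒱.Obj, EH T X} (h : IsNatural T G) :
    G (E.prod E') = two T.W E E' (G E, G E') := by
  apply ext_kunneth_lin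
  intro a b
  rw [h.der, h.map, h.map, two_tmul]

/-! ### Algebraic classes on products of two curves -/

/-- The invariant form of two isogenous curves. -/
theorem pair_alg (h11 : ∀ (X : 𝒱.Obj), ∀ v ∈ T.W.gr X 2, v ∈ (hodgeSys T).C X →
    v ∈ (algSys T.W).C X) {b : Bas T E} {b' : Bas T E'} {N : M2 ℂ} (hr : CurveRange T E)
    (hr' : CurveRange T E') (hN : IsMat b N) (hN' : IsMat b' N) (ht : N.trace = 0) :
    mp T (fst E E') (bc b 0) * mp T (snd E E') (bc b' 1) -
      mp T (fst E E') (bc b 1) * mp T (snd E E') (bc b' 0) ∈ algC T (E.prod E') := by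
  have h1 : ∀ i j, mp T (fst E E') (bc b i) * mp T (snd E E') (bc b' j) =
      1 ⊗ₜ[T.W.K] (T.W.map (fst E E') (b i : T.W.H E) * T.W.map (snd E E') (b' j : T.W.H E')) := by
    intro i j
    rw [bc, bc, mp_tmul, mp_tmul, Algebra.TensorProduct.tmul_mul_tmul, one_mul]
  rw [h1, h1, ← tmul_sub]
  refine Submodule.tmul_mem_baseChange_of_mem _ (h11 _ _ ?_ ?_)
  · exact Submodule.sub_mem _
      (T.W.mul_mem (i := 1) (j := 1) (T.W.map_mem _ (b 0).2) (T.W.map_mem _ (b' 1).2))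
      (T.W.mul_mem (i := 1) (j := 1) (T.W.map_mem _ (b 1).2) (T.W.map_mem _ (b' 0).2))
  · refine mem_hodge_iff.2 fun l => ?_
    have hm : cofM N l 0 0 + cofM N l 1 1 = 0 := by
      rw [cofM_apply, cofM_apply, ← map_add, ← Matrix.trace_fin_two, ht, map_zero]
    rw [hg_prod, map_sub, two_tmul, two_tmul, hg_eq hr hN, hg_eq hr' hN']
    simp only [phi_b, Fin.sum_univ_two, map_add, map_smul, add_mul, mul_add, smul_mul_assoc,
      mul_smul_comm]
    have h2 : cofM N l 1 1 = - cofM N l 0 0 := eq_neg_of_add_eq_zero_right hm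
    rw [h2]
    module

/-- The classes of type `(1, 1)` of two isogenous curves with complex multiplication. -/
theorem pairJ_alg (h11 : ∀ (X : 𝒱.Obj), ∀ v ∈ T.W.gr X 2, v ∈ (hodgeSys T).C X →
    v ∈ (algSys T.W).C X) {G : ∀ X : 𝒱.Obj, EH T X} (hG : IsNatural T G) {w : ℂ} (hw : w ≠ 0)
    {x : CH T E} {y : CH T E'} (hx : x ∈ (T.W.gr E 1).baseChange ℂ)
    (hy : y ∈ (T.W.gr E' 1).baseChange ℂ)
    (hxy : w • dc G (E.prod E') (mp T (fst E E') x * mp T (snd E E') y) = 0)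
    (h1 : ∀ l : Lam T, hg T E l = l w • G E) (h2 : ∀ l : Lam T, hg T E' l = l w • G E') :
    mp T (fst E E') x * mp T (snd E E') y ∈ algC T (E.prod E') := by
  have h3 := (smul_eq_zero.1 hxy).resolve_left hw
  refine mem_base_of_ev fun l => h11 _ _ ?_ (mem_hodge_iff.2 fun l' => ?_)
  · exact ev_mem (mul_gr (i := 1) (j := 1) (mp_gr _ hx) (mp_gr _ hy)) l
  · have h4 : hg T (E.prod E') l' = l' w • G (E.prod E') := by
      rw [hg_prod, h1, h2, nat_prod hG, ← map_smul]
      rfl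
    rw [h4, LinearMap.smul_apply, ← ev_base]
    change l' w • ev l (dc G (E.prod E') _) = 0
    rw [h3, map_zero, smul_zero]

end Pool.Agent.Q219.HD
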