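import Pool.Agent.Q219.HD.Ell2

/-!
# Elliptic curves: the isogeny classes
-/

open CategoryTheory AlgebraicGeometry TensorProduct

universe u

namespace Pool.Agent.Q219.HD

open Module
open Pool.Agent.H914 Pool.Agent.H914.VarClass Pool.Agent.H914.VarClass.Obj
  Pool.Agent.H914.WeilCohomology
open Pool.Agent.Y133.Half
open Pool.Agent.Y121.AH
open Pool.Agent.Q50.BL

section Mat

variable {K : Type} [Field K] [CharZero K] [Algebra K ℂ]

theorem prop_of_cross {V y : Fin 2 → ℂ} {i : Fin 2} (hV : V i ≠ 0) (h : y 0 * V 1 = y 1 * V 0) :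
    y = (y i / V i) • V := by
  have h5 : (i = 0 ∨ i = 1) := by
    rcases i with ⟨_ | _ | n, hn⟩
    · exact Or.inl rfl
    · exact Or.inr rfl
    · omega
  funext j
  have h6 : (j = 0 ∨ j = 1) := by
    rcases j with ⟨_ | _ | n, hn⟩
    · exact Or.inl rfl
    · exact Or.inr rfl
    · omega
  rw [Pi.smul_apply, smul_eq_mul, div_mul_eq_mul_div, eq_div_iff hV]
  rcases h5 with h5 | h5 <;> rcases h6 with h6 | h6
  · rw [h5, h6]
  · rw [h5, h6, h]
  · rw [h5, h6, h]
  · rw [h5, h6]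

/-- Nonzero matrices which intertwine the Hodge operators are invertible. -/
theorem det_ne {N N' : M2 ℂ} (hH : IsHodgeMat K N) {g : M2 K} (hg : toC g * N = N' * toC g)
    (h0 : g ≠ 0) : g.det ≠ 0 := by
  intro hdet
  obtain ⟨v, hv, hgv⟩ := Matrix.exists_mulVec_eq_zero_iff.2 hdet
  obtain ⟨V, hV⟩ : ∃ V : Fin 2 → ℂ, V = fun i => algebraMap K ℂ (v i) := ⟨_, rfl⟩
  obtain ⟨i, hi⟩ := Function.ne_iff.1 hv
  have hVi : V i ≠ 0 := by
    rw [hV]
    exact (map_ne_zero _).2 hi
  have h1 : (toC g).mulVec V = 0 := by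
    funext j
    have := congrArg (algebraMap K ℂ) (congrFun hgv j)
    rw [Matrix.mulVec, dotProduct, Fin.sum_univ_two, map_add, map_mul, map_mul, Pi.zero_apply,
      map_zero] at this
    rw [Matrix.mulVec, dotProduct, Fin.sum_univ_two, hV]
    exact this
  have h2 : (toC g).mulVec (N.mulVec V) = 0 := by
    rw [Matrix.mulVec_mulVec, hg, ← Matrix.mulVec_mulVec, h1, Matrix.mulVec_zero]
  obtain ⟨a, b, hab⟩ : ∃ a b, g a b ≠ 0 := by
    by_contra hcon
    push Not at hcon
    exact h0 (Matrix.ext hcon)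
  set y := N.mulVec V with hy
  have e1 : (toC g) a 0 * V 0 + (toC g) a 1 * V 1 = 0 := by
    have := congrFun h1 a
    rwa [Matrix.mulVec, dotProduct, Fin.sum_univ_two] at this
  have e2 : (toC g) a 0 * y 0 + (toC g) a 1 * y 1 = 0 := by
    have := congrFun h2 a
    rwa [Matrix.mulVec, dotProduct, Fin.sum_univ_two] at this
  have hab' : (toC g) a b ≠ 0 := by
    rw [toC, Matrix.map_apply]
    exact (map_ne_zero _).2 hab
  have h3 : y 0 * V 1 = y 1 * V 0 := by
    have h6 : (b = 0 ∨ b = 1) := by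
      rcases b with ⟨_ | _ | n, hn⟩
      · exact Or.inl rfl
      · exact Or.inr rfl
      · omega
    rcases h6 with h6 | h6
    · rw [h6] at hab'
      have : (toC g) a 0 * (y 0 * V 1 - y 1 * V 0) = 0 := by
        linear_combination V 1 * e2 - y 1 * e1
      exact sub_eq_zero.1 ((mul_eq_zero.1 this).resolve_left hab')
    · rw [h6] at hab'
      have : (toC g) a 1 * (y 0 * V 1 - y 1 * V 0) = 0 := by
        linear_combination y 0 * e1 - V 0 * e2
      exact sub_eq_zero.1 ((mul_eq_zero.1 this).resolve_left hab')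
  have h4 := prop_of_cross hVi h3
  rw [hV] at h4 hy
  exact hH.line v hv _ (hy.symm.trans h4)

/-- Equivalence of matrices over the subfield. -/
def eqv (K : Type) [Field K] [Algebra K ℂ] : Setoid (M2 ℂ) where
  r N N' := ∃ g g' : M2 K, g * g' = 1 ∧ g' * g = 1 ∧
    g.map (algebraMap K ℂ) * N = N' * g.map (algebraMap K ℂ)
  iseqv :=
    { refl := fun N => ⟨1, 1, one_mul 1, one_mul 1, by
        rw [Matrix.map_one _ (map_zero _) (map_one _), one_mul, mul_one]⟩
      symm := by
        rintro N N' ⟨g, g', h1, h2, h3⟩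
        refine ⟨g', g, h2, h1, ?_⟩
        have e1 : g'.map (algebraMap K ℂ) * g.map (algebraMap K ℂ) = 1 := by
          rw [← Matrix.map_mul, h2, Matrix.map_one _ (map_zero _) (map_one _)]
        have e2 : g.map (algebraMap K ℂ) * g'.map (algebraMap K ℂ) = 1 := by
          rw [← Matrix.map_mul, h1, Matrix.map_one _ (map_zero _) (map_one _)]
        calc g'.map (algebraMap K ℂ) * N' =
              g'.map (algebraMap K ℂ) * N' * (g.map (algebraMap K ℂ) * g'.map (algebraMap K ℂ)) := by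
                rw [e2, mul_one]
          _ = g'.map (algebraMap K ℂ) * (N' * g.map (algebraMap K ℂ)) * g'.map (algebraMap K ℂ) := by
                simp only [mul_assoc]
          _ = (g'.map (algebraMap K ℂ) * g.map (algebraMap K ℂ)) * N * g'.map (algebraMap K ℂ) := by
                rw [← h3]; simp only [mul_assoc]
          _ = N * g'.map (algebraMap K ℂ) := by rw [e1, one_mul]
      trans := by
        rintro N N' N'' ⟨g, g', h1, h2, h3⟩ ⟨k, k', h4, h5, h6⟩
        refine ⟨k * g, g' * k', ?_, ?_, ?_⟩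
        · rw [mul_assoc, ← mul_assoc g, h1, one_mul, h4]
        · rw [mul_assoc, ← mul_assoc k', h5, one_mul, h2]
        · rw [Matrix.map_mul, mul_assoc, h3, ← mul_assoc, h6, mul_assoc] }

end Mat

variable {k : Type u} [Field k] {𝒱 : VarClass k} {ops : CycleOps 𝒱} {T : HodgeTheory ops}
  {E E' F Z : 𝒱.Obj} {c : ℂ ≃ₐ[T.W.K] ℂ}

/-- Elliptic curves. -/
structure IsEll (T : HodgeTheory ops) (c : ℂ ≃ₐ[T.W.K] ℂ) (E : 𝒱.Obj) : Prop where
  rk : finrank T.W.K (T.W.gr E 1) = 2
  range : CurveRange T E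
  conj : ConjOK T E c

theorem IsEll.exists_mat (h : IsEll T c E) : ∃ (b : Bas T E) (N : M2 ℂ), IsMat b N := by
  let b : Bas T E := finBasisOfFinrankEq T.W.K _ h.rk
  obtain ⟨N, hN⟩ := HD.exists_mat b
  exact ⟨b, N, hN⟩

theorem IsEll.isHodgeMat (h : IsEll T c E) {b : Bas T E} {N : M2 ℂ} (hN : IsMat b N) :
    IsHodgeMat T.W.K N := HD.isHodgeMat h.range h.conj hN

/-- Change of the basis. -/
theorem change_basis {b : Bas T E} {N N' : M2 ℂ} (hN : IsMat b N') {g g' : M2 T.W.K}
    (h1 : g * g' = 1) (h2 : g' * g = 1) (h3 : toC g * N = N' * toC g) :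
    ∃ b' : Bas T E, IsMat b' N := by
  let e : T.W.gr E 1 ≃ₗ[T.W.K] T.W.gr E 1 :=
    LinearEquiv.ofLinearMap (Matrix.toLin b b g) (Matrix.toLin b b g')
      (by rw [← Matrix.toLin_mul b b b, h1, Matrix.toLin_one])
      (by rw [← Matrix.toLin_mul b b b, h2, Matrix.toLin_one])
  have hb' : ∀ j, ((b.map e) j : T.W.H E) = ∑ i, g i j • (b i : T.W.H E) := by
    intro j
    have h4 : (b.map e) j = ∑ i, g i j • b i := by
      rw [Basis.map_apply]
      exact Matrix.toLin_self b b g j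
    rw [h4, Submodule.coe_sum]
    rfl
  have hbc : ∀ j, bc (b.map e) j = ∑ i, (toC g) i j • bc b i := by
    intro j
    rw [bc, hb', tmul_sum]
    refine Finset.sum_congr rfl fun i _ => ?_
    rw [tmul_smul, bc, toC, Matrix.map_apply, algebraMap_smul]
  refine ⟨b.map e, fun j => ?_⟩
  rw [hbc, hop_comb hN (fun i => (toC g) i j)]
  have h5 : ∀ i, (N'.mulVec fun a => (toC g) a j) i = ∑ a, (toC g) i a * N a j := by
    intro i
    have h6 := congrFun (congrFun h3 i) j
    rw [Matrix.mul_apply, Matrix.mul_apply] at h6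
    exact h6.symm
  have h6 : ∀ i, N i j • bc (b.map e) i = ∑ a, ((toC g) a i * N i j) • bc b a := by
    intro i
    rw [hbc, Finset.smul_sum]
    exact Finset.sum_congr rfl fun a _ => by rw [smul_smul, mul_comm]
  rw [Finset.sum_congr rfl fun i _ => h6 i, Finset.sum_comm]
  refine Finset.sum_congr rfl fun i _ => ?_
  rw [h5, Finset.sum_smul]

/-- **The matrices of the isogeny classes.** -/
theorem exists_mtx (T : HodgeTheory ops) (c : ℂ ≃ₐ[T.W.K] ℂ) : ∃ mtx : 𝒱.Obj → M2 ℂ,
    (∀ E, IsEll T c E → ∃ b : Bas T E, IsMat b (mtx E)) ∧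
    ∀ E E', IsEll T c E → IsEll T c E' → (mtx E = mtx E' ↔ Isog T E E') := by
  have h0 : ∀ E : 𝒱.Obj, ∃ N : M2 ℂ, IsEll T c E → ∃ b : Bas T E, IsMat b N := by
    intro E
    by_cases h : IsEll T c E
    · obtain ⟨b, N, hN⟩ := h.exists_mat
      exact ⟨N, fun _ => ⟨b, hN⟩⟩
    · exact ⟨0, fun h' => absurd h' h⟩
  choose N0 hN0 using h0
  have key : ∀ E, IsEll T c E → ∃ b : Bas T E,
      IsMat b (Quotient.out (Quotient.mk (eqv T.W.K) (N0 E))) := by
    intro E hE
    obtain ⟨b, hb⟩ := hN0 E hE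
    obtain ⟨g, g', h1, h2, h3⟩ := @Quotient.mk_out _ (eqv T.W.K) (N0 E)
    exact change_basis hb h1 h2 h3
  refine ⟨fun E => Quotient.out (Quotient.mk (eqv T.W.K) (N0 E)), key, fun E E' hE hE' => ?_⟩
  constructor
  · intro h
    obtain ⟨b, hb⟩ := key E hE
    obtain ⟨b', hb'⟩ := key E' hE'
    have hb'' : IsMat b' (Quotient.out (Quotient.mk (eqv T.W.K) (N0 E))) := by
      have h' : Quotient.out (Quotient.mk (eqv T.W.K) (N0 E)) =
        Quotient.out (Quotient.mk (eqv T.W.K) (N0 E')) := h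
      rw [h']
      exact hb'
    refine isog_of_mat (g := 1) hE.range hb hb'' ?_ one_ne_zero
    rw [toC_one, one_mul, mul_one]
  · rintro ⟨f, hf, x, hx, hne⟩
    obtain ⟨b, hb⟩ := hN0 E hE
    obtain ⟨b', hb'⟩ := hN0 E' hE'
    obtain ⟨g, h1, h2⟩ := mat_of_hmor hb hb' hf
    have hg : g ≠ 0 := by
      rintro rfl
      apply hne
      have h4 : x = ∑ i, b.repr ⟨x, hx⟩ i • (b i : T.W.H E) := by
        have := congrArg Subtype.val (b.sum_repr ⟨x, hx⟩)
        rw [Submodule.coe_sum] at this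
        exact this.symm
      rw [h4, map_sum]
      refine Finset.sum_eq_zero fun i _ => ?_
      rw [map_smul, h1]
      simp
    have hdet := det_ne (hE.isHodgeMat hb) h2 hg
    have hu : IsUnit g.det := isUnit_iff_ne_zero.2 hdet
    have hq : Quotient.mk (eqv T.W.K) (N0 E) = Quotient.mk (eqv T.W.K) (N0 E') :=
      Quotient.sound (s := eqv T.W.K) ⟨g, g⁻¹, Matrix.mul_nonsing_inv g hu,
        Matrix.nonsing_inv_mul g hu, h2⟩
    change Quotient.out (Quotient.mk (eqv T.W.K) (N0 E)) =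
      Quotient.out (Quotient.mk (eqv T.W.K) (N0 E'))
    rw [hq]

end Pool.Agent.Q219.HD
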